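import Pool.Agent.RSWP.DefsP

/-!
RSWP P9: six pieces form a closed self-avoiding walk (helper22).
-/

set_option autoImplicit false

namespace HexObs

namespace RP

open Finset ENNReal

namespace Glue

/-! ### frames -/

lemma frame {d : Pt} (hd : d ∈ dirs) : ∃ u : Pt, nrm u = 1 ∧ mulE u up = d ∧ mulE u e1 = rr d ∧
    mulE u (rotL up) = rotL d := by
  have hu : mulE (rotTo up d) up = d := rotTo_apply d upd
  refine ⟨rotTo up d, nrm_rotTo upd hd, hu, ?_, ?_⟩
  · have e : e1 = turn false (turn false up) := by decide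
    rw [e, mulE_turn, mulE_turn, hu]
    rfl
  · have e : rotL up = turn true up := rfl
    rw [e, mulE_turn, hu]
    rfl

lemma vx_frame {u d : Pt} (hu : mulE u up = d) (v : Pt) (t : List Bool) (i : ℕ) :
    vx v d t i = v + mulE u (vx oo up t i) := by
  have h := vx_mulE u oo v up t i
  rw [hu] at h
  rw [h]
  congr 2
  exact sub_zero _

lemma dx_frame {u d : Pt} (hu : mulE u up = d) (t : List Bool) (i : ℕ) :
    dx d t i = mulE u (dx up t i) := by
  have h := dx_mulE u up t i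
  rw [hu] at h
  exact h

lemma ip_frame {u d : Pt} (hn : nrm u = 1) (p q : Pt) (hq : mulE u q = d) : ip (mulE u p) d = ip p q := by
  rw [← hq, ip_mulE, hn, one_mul]

lemma vx_ne {u d : Pt} (hn : nrm u = 1) (hu : mulE u up = d) {v : Pt} {t : List Bool} {i j : ℕ}
    (h : vx oo up t i ≠ vx oo up t j) : vx v d t i ≠ vx v d t j := by
  rw [vx_frame hu, vx_frame hu]
  intro h1
  exact h (mulE_inj hn (add_left_cancel h1))

/-! ### the pieces -/

structure BF (e k : ℤ) (d m n : Pt) (b : List Bool) : Prop where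
  inj : ∀ i j, i < j → j ≤ b.length → vx m d b i ≠ vx m d b j
  lo : ∀ i, 1 ≤ i → i ≤ b.length → ip m d < ip (vx m d b i) d
  hi : ∀ i, i ≤ b.length → ip (vx m d b i) d ≤ ip n d
  lat : ∀ i, i ≤ b.length → 12 * e ≤ cross d (vx m d b i) ∧ cross d (vx m d b i) ≤ 4 * k + e
  en : vx m d b b.length = n
  dn : dx d b b.length = d
  ma : -(9 * e) ≤ ip m d
  mb : ip m d ≤ -(6 * e)
  mc : 13 * e ≤ cross d m
  md : cross d m ≤ 2 * k + 4 * e
  na : 6 * e ≤ ip n d
  nb : ip n d ≤ 9 * e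
  nc : 2 * k + 4 * e ≤ cross d n
  nd : cross d n ≤ 4 * k

lemma toBF {K e : ℕ} {d m n : Pt} {b : List Bool} (hd : d ∈ dirs) (h : BP K e d m n b) :
    BF e (K * e) d m n b := by
  obtain ⟨hm, hn, ⟨t, ht⟩, he, hl⟩ := h
  obtain ⟨u, hu, hu1, _, _⟩ := frame hd
  rw [mem_Brd] at ht
  obtain ⟨t1, t2, t3, t4⟩ := ht
  obtain ⟨_, m1, m2, m3, m4⟩ := hm
  obtain ⟨_, n1, n2, n3, n4⟩ := hn
  have hlev : ∀ i, ip (vx m d b i) d = ip m d + lev b i := by
    intro i
    rw [vx_frame hu1, ip_add_left, ip_frame hu _ _ hu1]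
    rfl
  have hend : ip n d = ip m d + 3 * t := by
    rw [← he, hlev, t4]
  refine ⟨?_, ?_, ?_, ?_, he, ?_, m1, m2, m3, ?_, n1, n2, ?_, ?_⟩
  · intro i j hij hj
    exact vx_ne hu hu1 (t2 i j hij hj)
  · intro i h1 h2
    rw [hlev]
    have := (t1 i h1 h2).1
    linarith
  · intro i h1
    rw [hlev, hend]
    rcases Nat.eq_zero_or_pos i with h0 | h0
    · rw [h0, lev_zero]
      have : (0 : ℤ) ≤ t := by positivity
      linarith
    · have := (t1 i h0 h1).2
      linarith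
  · intro i h1
    obtain ⟨h2, h3⟩ := hl i h1
    refine ⟨h2, ?_⟩
    linarith
  · rw [dx_frame hu1, t3, hu1]
  · linarith
  · linarith
  · linarith

structure CF (e k l : ℤ) (d n m : Pt) (c : List Bool) : Prop where
  inj : ∀ i j, i < j → j ≤ c.length → vx n d c i ≠ vx n d c j
  lo : ∀ i, 1 ≤ i → i ≤ c.length → ip n d < ip (vx n d c i) d
  up' : ∀ i, i ≤ c.length → ip (vx n d c i) d ≤ ip n d + 3 * k + 2
  hi : ∀ i, i ≤ c.length → ip (vx n d c i) (rr d) ≤ ip m (rr d)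
  sd : ∀ i, i ≤ c.length → ip n (rr d) - 3 * l ≤ ip (vx n d c i) (rr d)
  en : vx n d c c.length = m
  dn : dx d c c.length = rr d

lemma side_sum (p d : Pt) : ip p (rotL d) + ip p (rr d) = 0 := by
  unfold ip rr rotL rotR
  ring

lemma mod_ip {v : Pt} (h : IsHex oo up v) {r : ℤ} (h1 : ip v e1 < 3 * r - 1) : ip v e1 ≤ 3 * r - 3 := by
  have e : ip v e1 = v.1 - v.2 := by
    unfold ip e1
    ring
  have h2 : ((v.1 - v.2 : ℤ) : ZMod 3) = 0 ∨ ((v.1 - v.2 : ℤ) : ZMod 3) = 2 := by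
    rcases h with h | h
    · left
      have : cl v = cl oo := h
      unfold cl at this
      rw [this]
      decide
    · right
      have : cl v = cl oo + cl up := h
      unfold cl at this
      rw [this]
      decide
  rw [e] at h1 ⊢
  rcases h2 with h2 | h2
  · have h3 : (3 : ℤ) ∣ v.1 - v.2 := (ZMod.intCast_zmod_eq_zero_iff_dvd _ 3).1 h2
    omega
  · have h4 : ((v.1 - v.2 - 2 : ℤ) : ZMod 3) = 0 := by
      have : ((v.1 - v.2 - 2 : ℤ) : ZMod 3) = ((v.1 - v.2 : ℤ) : ZMod 3) - 2 := by push_cast; ring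
      rw [this, h2, sub_self]
    have h3 : (3 : ℤ) ∣ v.1 - v.2 - 2 := (ZMod.intCast_zmod_eq_zero_iff_dvd _ 3).1 h4
    omega

lemma toCF {K e L : ℕ} (hK : 1 ≤ K) (he1 : 1 ≤ e) {d n m : Pt} {c : List Bool} (hd : d ∈ dirs)
    (h : CP K e L d n m c) : CF e (K * e) L d n m c := by
  obtain ⟨hn, hm, ⟨r, hr, hc⟩, he⟩ := h
  obtain ⟨u, hu, hu1, hu2, hu3⟩ := frame hd
  have hT : 1 ≤ K * e := Nat.mul_pos hK he1
  have hr1 : 1 ≤ r := le_trans hT hr
  obtain ⟨hex, hdx⟩ := Finset.mem_filter.1 hc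
  obtain ⟨ha, htip⟩ := mem_exits.1 hex
  have hgn : Tube.gn true up = e1 := by decide
  rw [hgn] at hdx
  have hlen : 1 ≤ c.length := by
    by_contra hcon
    have hz : c.length = 0 := by omega
    have h0 : c = [] := List.length_eq_zero_iff.1 hz
    rw [h0] at hdx
    have : up = e1 := hdx
    exact absurd this (by decide)
  have hmem : ∀ i, 1 ≤ i → i ≤ c.length → vx oo up c i ∈ Tube.dm oo up true (K * e) L r := by
    intro i h1 h2
    exact (Tube.mem_dF upd).1 (ha.mem i h1 h2)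
  have hso : ∀ p : Pt, p - oo = p := fun p => sub_zero p
  have hL : 1 ≤ L := by
    have h1 := (hmem 1 le_rfl hlen).2.1
    rw [hso] at h1
    have h2 : vx oo up c 1 = up := by
      show oo + up = up
      decide
    rw [h2] at h1
    have h3 : ip up (rotL up) = 1 := by decide
    rw [h3] at h1
    omega
  have hlast : ip (vx oo up c c.length) e1 = 3 * r - 3 := by
    have hne : ∀ q ∈ ({-up, up, rotL up} : Finset Pt), e1 ≠ q := by decide
    rcases Tube.dm_exit upd true hT hL hr1 hex with ⟨h1, _⟩ | ⟨h1, _⟩ | ⟨h1, _⟩ | ⟨_, h1⟩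
    · exact absurd (hdx.symm.trans h1) (hne _ (by decide))
    · exact absurd (hdx.symm.trans h1) (hne _ (by decide))
    · exact absurd (hdx.symm.trans h1) (hne _ (by decide))
    · rw [hgn, hso, tip_eq, hdx, ip_add_left] at h1
      have h2 : ip e1 e1 = 2 := by decide
      rw [h2] at h1
      have h3 : Tube.gc true r = 3 * r - 1 := rfl
      rw [h3] at h1
      linarith
  have hip : ∀ (i : ℕ) (q q' : Pt), mulE u q = q' → ip (vx n d c i) q' = ip n q' + ip (vx oo up c i) q := by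
    intro i q q' hq
    rw [vx_frame hu1, ip_add_left, ip_frame hu _ _ hq]
  have hend : ip m (rr d) = ip n (rr d) + (3 * r - 3) := by
    rw [← he, hip _ _ _ hu2, hlast]
  refine ⟨?_, ?_, ?_, ?_, ?_, he, ?_⟩
  · intro i j hij hj
    exact vx_ne hu hu1 (ha.inj i j hij hj)
  · intro i h1 h2
    rw [hip _ _ _ hu1]
    have h3 := (hmem i h1 h2).1.2.1
    rw [hso] at h3
    linarith
  · intro i h2
    rw [hip _ _ _ hu1]
    rcases Nat.eq_zero_or_pos i with h0 | h0
    · have h4 : ip (vx oo up c i) up = 0 := by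
        rw [h0]
        exact lev_zero c
      rw [h4]
      have : (0 : ℤ) ≤ K * e := by positivity
      linarith
    · have h3 := (hmem i h0 h2).1.2.2
      rw [hso] at h3
      push_cast at h3
      linarith
  · intro i h2
    rw [hip _ _ _ hu2, hend]
    rcases Nat.eq_zero_or_pos i with h0 | h0
    · have h4 : ip (vx oo up c i) e1 = 0 := by
        rw [h0]
        show ip oo e1 = 0
        decide
      rw [h4]
      have : (1 : ℤ) ≤ r := by exact_mod_cast hr1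
      linarith
    · obtain ⟨h3, _, h5⟩ := hmem i h0 h2
      rw [hso, hgn] at h5
      have := mod_ip h3.1 h5
      linarith
  · intro i h2
    rw [hip _ _ _ hu2]
    have hL' : (1 : ℤ) ≤ L := by exact_mod_cast hL
    rcases Nat.eq_zero_or_pos i with h0 | h0
    · have h4 : ip (vx oo up c i) e1 = 0 := by
        rw [h0]
        show ip oo e1 = 0
        decide
      rw [h4]
      linarith
    · obtain ⟨_, h4, _⟩ := hmem i h0 h2
      rw [hso] at h4
      have h6 := side_sum (vx oo up c i) up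
      have h7 : rr up = e1 := by decide
      rw [h7] at h6
      linarith
  · rw [dx_frame hu1, hdx, hu2]

/-! ### concatenation -/

lemma vxc (v d : Pt) (s t : List Bool) (j : ℕ) :
    vx v d (s ++ t) (s.length + j) = vx (vx v d s s.length) (dx d s s.length) t j := by
  have h1 : vx v d (s ++ t) (s.length + j) =
      vx (vx v d (s ++ t) s.length) (dx d (s ++ t) s.length) t j := by
    unfold vx dx
    rw [vs_shift]
    apply vs_congr
    intro k _
    exact tf_append_right k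
  rw [h1, vx_append (by omega), dx_append le_rfl]

lemma dxc (d : Pt) (s t : List Bool) (j : ℕ) :
    dx d (s ++ t) (s.length + j) = dx (dx d s s.length) t j := by
  have h1 : dx d (s ++ t) (s.length + j) = dx (dx d (s ++ t) s.length) t j := by
    unfold dx
    rw [ds_shift]
    apply ds_congr
    intro k _
    exact tf_append_right k
  rw [h1, dx_append le_rfl]

/-- the vertices before the last one. -/
def HO (v d : Pt) (u : List Bool) : Set Pt := {p | ∃ i, i < u.length ∧ vx v d u i = p}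

/-- no vertex is repeated before the last one. -/
def NR (v d : Pt) (u : List Bool) : Prop := ∀ i j, i < j → j < u.length → vx v d u i ≠ vx v d u j

/-- all the vertices satisfy P. -/
def Al (P : Pt → Prop) (v d : Pt) (u : List Bool) : Prop := ∀ i, i ≤ u.length → P (vx v d u i)

section

variable {v d v' d' : Pt} {s t : List Bool} (h1 : vx v d s s.length = v') (h2 : dx d s s.length = d')

include h1 h2

lemma HO_app {p : Pt} (h : p ∈ HO v d (s ++ t)) : p ∈ HO v d s ∨ p ∈ HO v' d' t := by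
  obtain ⟨i, hi, rfl⟩ := h
  rw [List.length_append] at hi
  by_cases h3 : i < s.length
  · left
    exact ⟨i, h3, (vx_append (by omega)).symm⟩
  · right
    obtain ⟨j, rfl⟩ : ∃ j, i = s.length + j := ⟨i - s.length, by omega⟩
    refine ⟨j, by omega, ?_⟩
    rw [vxc, h1, h2]

lemma NR_app (a : NR v d s) (b : NR v' d' t) (c : ∀ p, p ∈ HO v d s → p ∈ HO v' d' t → False) :
    NR v d (s ++ t) := by
  intro i j hij hj
  rw [List.length_append] at hj
  by_cases h4 : j < s.length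
  · rw [vx_append (by omega), vx_append (by omega)]
    exact a i j hij h4
  · obtain ⟨j', rfl⟩ : ∃ j', j = s.length + j' := ⟨j - s.length, by omega⟩
    rw [vxc v d s t j', h1, h2]
    by_cases h3 : i < s.length
    · rw [vx_append (by omega)]
      intro h5
      exact c (vx v d s i) ⟨i, h3, rfl⟩ ⟨j', by omega, h5.symm⟩
    · obtain ⟨i', rfl⟩ : ∃ i', i = s.length + i' := ⟨i - s.length, by omega⟩
      rw [vxc v d s t i', h1, h2]
      exact b i' j' (by omega) (by omega)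

lemma Al_app {P : Pt → Prop} (a : Al P v d s) (b : Al P v' d' t) : Al P v d (s ++ t) := by
  intro i hi
  rw [List.length_append] at hi
  by_cases h3 : i ≤ s.length
  · rw [vx_append (by omega)]
    exact a i h3
  · obtain ⟨j, rfl⟩ : ∃ j, i = s.length + j := ⟨i - s.length, by omega⟩
    rw [vxc, h1, h2]
    exact b j (by omega)

lemma en_app : vx v d (s ++ t) (s ++ t).length = vx v' d' t t.length := by
  rw [List.length_append, vxc, h1, h2]

lemma dn_app : dx d (s ++ t) (s ++ t).length = dx d' t t.length := by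
  rw [List.length_append, dxc, h2]

end

lemma NR_B {e k : ℤ} {d m n : Pt} {b : List Bool} (h : BF e k d m n b) : NR m d b :=
  fun i j hij hj => h.inj i j hij hj.le

lemma NR_C {e k l : ℤ} {d n m : Pt} {c : List Bool} (h : CF e k l d n m c) : NR n d c :=
  fun i j hij hj => h.inj i j hij hj.le

lemma HO_B {e k : ℤ} {d m n : Pt} {b : List Bool} (h : BF e k d m n b) {p : Pt} (hp : p ∈ HO m d b) :
    (p = m ∨ ip m d < ip p d) ∧ ip p d ≤ ip n d ∧ p ≠ n ∧ 12 * e ≤ cross d p ∧ ip m d ≤ ip p d := by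
  obtain ⟨i, hi, rfl⟩ := hp
  have h1 : vx m d b i = m ∨ ip m d < ip (vx m d b i) d := by
    rcases Nat.eq_zero_or_pos i with h0 | h0
    · left
      rw [h0]
      rfl
    · right
      exact h.lo i h0 hi.le
  refine ⟨h1, h.hi i hi.le, ?_, (h.lat i hi.le).1, ?_⟩
  · rw [← h.en]
    exact h.inj i _ hi le_rfl
  · rcases h1 with h1 | h1
    · rw [h1]
    · exact h1.le

lemma HO_C {e k l : ℤ} {d n m : Pt} {c : List Bool} (h : CF e k l d n m c) {p : Pt} (hp : p ∈ HO n d c) :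
    (p = n ∨ ip n d < ip p d) ∧ ip p (rr d) ≤ ip m (rr d) ∧ p ≠ m ∧ ip n d ≤ ip p d := by
  obtain ⟨i, hi, rfl⟩ := hp
  have h1 : vx n d c i = n ∨ ip n d < ip (vx n d c i) d := by
    rcases Nat.eq_zero_or_pos i with h0 | h0
    · left
      rw [h0]
      rfl
    · right
      exact h.lo i h0 hi.le
  refine ⟨h1, h.hi i hi.le, ?_, ?_⟩
  · rw [← h.en]
    exact h.inj i _ hi le_rfl
  · rcases h1 with h1 | h1
    · rw [h1]
    · exact h1.le

lemma ip0 (p : Pt) : ip p e0 = p.1 + 2 * p.2 := by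
  unfold ip e0
  ring

lemma ip1 (p : Pt) : ip p e1 = p.1 - p.2 := by
  unfold ip e1
  ring

lemma ip2 (p : Pt) : ip p e2 = -2 * p.1 - p.2 := by
  unfold ip e2
  ring

lemma cr0 (p : Pt) : cross e0 p = -p.1 := by
  unfold cross e0
  ring

lemma cr1 (p : Pt) : cross e1 p = p.1 + p.2 := by
  unfold cross e1
  ring

lemma cr2 (p : Pt) : cross e2 p = -p.2 := by
  unfold cross e2
  ring

lemma rr0 : rr e0 = e1 := by decide

lemma rr1 : rr e1 = e2 := by decide

lemma rr2 : rr e2 = e0 := by decide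

end Glue

open Glue in
/-- P9: six pieces form a closed self-avoiding walk in a ball. -/
theorem glue (K L : ℕ) (hK : 2 ≤ K) : ∃ R : ℕ, ∀ (e : ℕ) (m : Pt) (w : S6), 1 ≤ e → Dec K e (L * e) m w →
    vx m up (cat6 w) (cat6 w).length = m ∧ dx up (cat6 w) (cat6 w).length = up ∧
    (∀ i j, i < j → j < (cat6 w).length → vx m up (cat6 w) i ≠ vx m up (cat6 w) j) ∧
    (∀ i, i ≤ (cat6 w).length → |(vx m up (cat6 w) i).1| ≤ R * e ∧ |(vx m up (cat6 w) i).2| ≤ R * e) ∧
    ∃ i, i < (cat6 w).length ∧ (18 * e : ℤ) ≤ ip (vx m up (cat6 w) i) up - ip m up := by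
  refine ⟨100 * K + 100 * L + 200, ?_⟩
  rintro e m ⟨b0, c0, b1, c1, b2, c2⟩ he1 ⟨n0, m1, n1, m2, n2, hb0, hc0, hb1, hc1, hb2, hc2⟩
  simp only [] at hb0 hc0 hb1 hc1 hb2 hc2
  have d0 : e0 ∈ dirs := by decide
  have d1 : e1 ∈ dirs := by decide
  have d2 : e2 ∈ dirs := by decide
  obtain B0 := toBF d0 hb0
  obtain B1 := toBF d1 hb1
  obtain B2 := toBF d2 hb2
  obtain C0 := toCF (by omega : 1 ≤ K) he1 d0 hc0
  obtain C1 := toCF (by omega : 1 ≤ K) he1 d1 hc1
  obtain C2 := toCF (by omega : 1 ≤ K) he1 d2 hc2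
  have hk : (2 : ℤ) * e ≤ (K : ℤ) * e := by
    have : (2 : ℤ) ≤ K := by exact_mod_cast hK
    nlinarith
  have hl : (0 : ℤ) ≤ ((L * e : ℕ) : ℤ) := by positivity
  have he : (1 : ℤ) ≤ e := by exact_mod_cast he1
  have hR : (((100 * K + 100 * L + 200 : ℕ) : ℤ)) * e = 100 * ((K : ℤ) * e) + 100 * ((L * e : ℕ) : ℤ) + 200 * e := by
    push_cast
    ring
  rw [hR]
  generalize hkk : (K : ℤ) * e = k at *
  generalize hll : ((L * e : ℕ) : ℤ) = l at *
  generalize hee : (e : ℤ) = E at *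
  have hup : (up : Pt) = e0 := rfl
  rw [hup]
  have x0 := C0.dn
  have x1 := C1.dn
  have x2 := C2.dn
  rw [rr0] at x0
  rw [rr1] at x1
  rw [rr2] at x2
  -- the tails
  have hcat : cat6 (b0, c0, b1, c1, b2, c2) = b0 ++ (c0 ++ (b1 ++ (c1 ++ (b2 ++ c2)))) := rfl
  rw [hcat]
  -- data of the marks
  have qm := B0.ma
  have qm' := B0.mb
  have q0 := B0.na
  have q0' := B0.nb
  have q1 := B1.ma
  have q1' := B1.mb
  have q2 := B1.na
  have q2' := B1.nb
  have q3 := B2.ma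
  have q3' := B2.mb
  have q4 := B2.na
  have q4' := B2.nb
  have r0 := B0.mc
  have r0' := B0.md
  have r1 := B0.nc
  have r1' := B0.nd
  have r2 := B1.mc
  have r2' := B1.md
  have r3 := B1.nc
  have r3' := B1.nd
  have r4 := B2.mc
  have r4' := B2.md
  have r5 := B2.nc
  have r5' := B2.nd
  simp only [ip0, ip1, ip2, cr0, cr1, cr2] at qm qm' q0 q0' q1 q1' q2 q2' q3 q3' q4 q4' r0 r0' r1 r1' r2 r2' r3 r3' r4 r4' r5 r5'
  -- the pieces as sets
  have hB0 : ∀ p, p ∈ HO m e0 b0 → (p = m ∨ m.1 + 2 * m.2 < p.1 + 2 * p.2) ∧ p.1 + 2 * p.2 ≤ n0.1 + 2 * n0.2 ∧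
      p ≠ n0 ∧ 12 * E ≤ -p.1 ∧ m.1 + 2 * m.2 ≤ p.1 + 2 * p.2 := by
    intro p hp
    have := HO_B B0 hp
    simpa only [ip0, cr0] using this
  have hB1 : ∀ p, p ∈ HO m1 e1 b1 → (p = m1 ∨ m1.1 - m1.2 < p.1 - p.2) ∧ p.1 - p.2 ≤ n1.1 - n1.2 ∧
      p ≠ n1 ∧ 12 * E ≤ p.1 + p.2 ∧ m1.1 - m1.2 ≤ p.1 - p.2 := by
    intro p hp
    have := HO_B B1 hp
    simpa only [ip1, cr1] using this
  have hB2 : ∀ p, p ∈ HO m2 e2 b2 → (p = m2 ∨ -2 * m2.1 - m2.2 < -2 * p.1 - p.2) ∧
      -2 * p.1 - p.2 ≤ -2 * n2.1 - n2.2 ∧ p ≠ n2 ∧ 12 * E ≤ -p.2 ∧ -2 * m2.1 - m2.2 ≤ -2 * p.1 - p.2 := by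
    intro p hp
    have := HO_B B2 hp
    simpa only [ip2, cr2] using this
  have hC0 : ∀ p, p ∈ HO n0 e0 c0 → (p = n0 ∨ n0.1 + 2 * n0.2 < p.1 + 2 * p.2) ∧ p.1 - p.2 ≤ m1.1 - m1.2 ∧
      p ≠ m1 ∧ n0.1 + 2 * n0.2 ≤ p.1 + 2 * p.2 := by
    intro p hp
    have := HO_C C0 hp
    simpa only [rr0, ip0, ip1] using this
  have hC1 : ∀ p, p ∈ HO n1 e1 c1 → (p = n1 ∨ n1.1 - n1.2 < p.1 - p.2) ∧ -2 * p.1 - p.2 ≤ -2 * m2.1 - m2.2 ∧
      p ≠ m2 ∧ n1.1 - n1.2 ≤ p.1 - p.2 := by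
    intro p hp
    have := HO_C C1 hp
    simpa only [rr1, ip1, ip2] using this
  have hC2 : ∀ p, p ∈ HO n2 e2 c2 → (p = n2 ∨ -2 * n2.1 - n2.2 < -2 * p.1 - p.2) ∧
      p.1 + 2 * p.2 ≤ m.1 + 2 * m.2 ∧ p ≠ m ∧ -2 * n2.1 - n2.2 ≤ -2 * p.1 - p.2 := by
    intro p hp
    have := HO_C C2 hp
    simpa only [rr2, ip2, ip0] using this
  -- no repetition
  have t4 : NR m2 e2 (b2 ++ c2) := by
    refine NR_app B2.en B2.dn (NR_B B2) (NR_C C2) ?_
    intro p hp hq
    obtain ⟨_, a1, a2, _⟩ := hB2 p hp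
    obtain ⟨a3 | a3, _⟩ := hC2 p hq
    · exact a2 a3
    · omega
  have t3 : NR n1 e1 (c1 ++ (b2 ++ c2)) := by
    refine NR_app C1.en x1 (NR_C C1) t4 ?_
    intro p hp hq
    obtain ⟨_, a1, a2, a3⟩ := hC1 p hp
    rcases HO_app B2.en B2.dn hq with hq | hq
    · obtain ⟨a4 | a4, _⟩ := hB2 p hq
      · exact a2 a4
      · omega
    · obtain ⟨_, a4, _, a5⟩ := hC2 p hq
      omega
  have t2 : NR m1 e1 (b1 ++ (c1 ++ (b2 ++ c2))) := by
    refine NR_app B1.en B1.dn (NR_B B1) t3 ?_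
    intro p hp hq
    obtain ⟨_, a1, a2, a3, a3'⟩ := hB1 p hp
    rcases HO_app C1.en x1 hq with hq | hq
    · obtain ⟨a4 | a4, _⟩ := hC1 p hq
      · exact a2 a4
      · omega
    rcases HO_app B2.en B2.dn hq with hq | hq
    · obtain ⟨_, a4, _, a5, a6⟩ := hB2 p hq
      omega
    · obtain ⟨_, a4, _, a5⟩ := hC2 p hq
      omega
  have t1 : NR n0 e0 (c0 ++ (b1 ++ (c1 ++ (b2 ++ c2)))) := by
    refine NR_app C0.en x0 (NR_C C0) t2 ?_
    intro p hp hq
    obtain ⟨_, a1, a2, a3⟩ := hC0 p hp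
    rcases HO_app B1.en B1.dn hq with hq | hq
    · obtain ⟨a4 | a4, _⟩ := hB1 p hq
      · exact a2 a4
      · omega
    rcases HO_app C1.en x1 hq with hq | hq
    · obtain ⟨_, a4, _, a5⟩ := hC1 p hq
      omega
    rcases HO_app B2.en B2.dn hq with hq | hq
    · obtain ⟨_, a4, _, a5, a6⟩ := hB2 p hq
      omega
    · obtain ⟨_, a4, _, a5⟩ := hC2 p hq
      omega
  have t0 : NR m e0 (b0 ++ (c0 ++ (b1 ++ (c1 ++ (b2 ++ c2))))) := by
    refine NR_app B0.en B0.dn (NR_B B0) t1 ?_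
    intro p hp hq
    obtain ⟨_, a1, a2, a3, a3'⟩ := hB0 p hp
    rcases HO_app C0.en x0 hq with hq | hq
    · obtain ⟨a4 | a4, _⟩ := hC0 p hq
      · exact a2 a4
      · omega
    rcases HO_app B1.en B1.dn hq with hq | hq
    · obtain ⟨_, a4, _, a5, a6⟩ := hB1 p hq
      omega
    rcases HO_app C1.en x1 hq with hq | hq
    · obtain ⟨_, a4, _, a5⟩ := hC1 p hq
      omega
    rcases HO_app B2.en B2.dn hq with hq | hq
    · obtain ⟨_, a4, _, a5, a6⟩ := hB2 p hq
      omega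
    · obtain ⟨a4, a5, a6, _⟩ := hC2 p hq
      obtain ⟨a7 | a7, _⟩ := hB0 p hp
      · exact a6 a7
      · omega
  -- the ends
  have y4 : vx m2 e2 (b2 ++ c2) (b2 ++ c2).length = m := (en_app B2.en B2.dn).trans C2.en
  have y3 : vx n1 e1 (c1 ++ (b2 ++ c2)) (c1 ++ (b2 ++ c2)).length = m := (en_app C1.en x1).trans y4
  have y2 : vx m1 e1 (b1 ++ (c1 ++ (b2 ++ c2))) (b1 ++ (c1 ++ (b2 ++ c2))).length = m := (en_app B1.en B1.dn).trans y3
  have y1 : vx n0 e0 (c0 ++ (b1 ++ (c1 ++ (b2 ++ c2)))) (c0 ++ (b1 ++ (c1 ++ (b2 ++ c2)))).length = m :=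
    (en_app C0.en x0).trans y2
  have y0 := (en_app B0.en B0.dn (t := c0 ++ (b1 ++ (c1 ++ (b2 ++ c2))))).trans y1
  have z4 : dx e2 (b2 ++ c2) (b2 ++ c2).length = e0 := (dn_app B2.en B2.dn).trans x2
  have z3 : dx e1 (c1 ++ (b2 ++ c2)) (c1 ++ (b2 ++ c2)).length = e0 := (dn_app C1.en x1).trans z4
  have z2 : dx e1 (b1 ++ (c1 ++ (b2 ++ c2))) (b1 ++ (c1 ++ (b2 ++ c2))).length = e0 := (dn_app B1.en B1.dn).trans z3
  have z1 : dx e0 (c0 ++ (b1 ++ (c1 ++ (b2 ++ c2)))) (c0 ++ (b1 ++ (c1 ++ (b2 ++ c2)))).length = e0 :=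
    (dn_app C0.en x0).trans z2
  have z0 := (dn_app B0.en B0.dn (t := c0 ++ (b1 ++ (c1 ++ (b2 ++ c2))))).trans z1
  -- the ball
  obtain ⟨P, hP⟩ : ∃ P : Pt → Prop, P = fun v => |v.1| ≤ 100 * k + 100 * l + 200 * E ∧ |v.2| ≤ 100 * k + 100 * l + 200 * E :=
    ⟨_, rfl⟩
  have aB0 : Al P m e0 b0 := by
    intro i hi
    have g1 := B0.lat i hi
    have g2 := B0.hi i hi
    have g3 : ip m e0 ≤ ip (vx m e0 b0 i) e0 := by
      rcases Nat.eq_zero_or_pos i with h0 | h0
      · rw [h0]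
        exact le_refl _
      · exact (B0.lo i h0 hi).le
    simp only [ip0, cr0] at g1 g2 g3
    rw [hP]
    show |(vx m e0 b0 i).1| ≤ _ ∧ |(vx m e0 b0 i).2| ≤ _
    rw [abs_le, abs_le]
    omega
  have aB1 : Al P m1 e1 b1 := by
    intro i hi
    have g1 := B1.lat i hi
    have g2 := B1.hi i hi
    have g3 : ip m1 e1 ≤ ip (vx m1 e1 b1 i) e1 := by
      rcases Nat.eq_zero_or_pos i with h0 | h0
      · rw [h0]
        exact le_refl _
      · exact (B1.lo i h0 hi).le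
    simp only [ip1, cr1] at g1 g2 g3
    rw [hP]
    show |(vx m1 e1 b1 i).1| ≤ _ ∧ |(vx m1 e1 b1 i).2| ≤ _
    rw [abs_le, abs_le]
    omega
  have aB2 : Al P m2 e2 b2 := by
    intro i hi
    have g1 := B2.lat i hi
    have g2 := B2.hi i hi
    have g3 : ip m2 e2 ≤ ip (vx m2 e2 b2 i) e2 := by
      rcases Nat.eq_zero_or_pos i with h0 | h0
      · rw [h0]
        exact le_refl _
      · exact (B2.lo i h0 hi).le
    simp only [ip2, cr2] at g1 g2 g3
    rw [hP]
    show |(vx m2 e2 b2 i).1| ≤ _ ∧ |(vx m2 e2 b2 i).2| ≤ _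
    rw [abs_le, abs_le]
    omega
  have aC0 : Al P n0 e0 c0 := by
    intro i hi
    have g1 := C0.up' i hi
    have g2 := C0.hi i hi
    have g4 := C0.sd i hi
    have g3 : ip n0 e0 ≤ ip (vx n0 e0 c0 i) e0 := by
      rcases Nat.eq_zero_or_pos i with h0 | h0
      · rw [h0]
        exact le_refl _
      · exact (C0.lo i h0 hi).le
    simp only [rr0, ip0, ip1] at g1 g2 g3 g4
    rw [hP]
    show |(vx n0 e0 c0 i).1| ≤ _ ∧ |(vx n0 e0 c0 i).2| ≤ _
    rw [abs_le, abs_le]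
    omega
  have aC1 : Al P n1 e1 c1 := by
    intro i hi
    have g1 := C1.up' i hi
    have g2 := C1.hi i hi
    have g4 := C1.sd i hi
    have g3 : ip n1 e1 ≤ ip (vx n1 e1 c1 i) e1 := by
      rcases Nat.eq_zero_or_pos i with h0 | h0
      · rw [h0]
        exact le_refl _
      · exact (C1.lo i h0 hi).le
    simp only [rr1, ip1, ip2] at g1 g2 g3 g4
    rw [hP]
    show |(vx n1 e1 c1 i).1| ≤ _ ∧ |(vx n1 e1 c1 i).2| ≤ _
    rw [abs_le, abs_le]
    omega
  have aC2 : Al P n2 e2 c2 := by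
    intro i hi
    have g1 := C2.up' i hi
    have g2 := C2.hi i hi
    have g4 := C2.sd i hi
    have g3 : ip n2 e2 ≤ ip (vx n2 e2 c2 i) e2 := by
      rcases Nat.eq_zero_or_pos i with h0 | h0
      · rw [h0]
        exact le_refl _
      · exact (C2.lo i h0 hi).le
    simp only [rr2, ip2, ip0] at g1 g2 g3 g4
    rw [hP]
    show |(vx n2 e2 c2 i).1| ≤ _ ∧ |(vx n2 e2 c2 i).2| ≤ _
    rw [abs_le, abs_le]
    omega
  have aAll : Al P m e0 (b0 ++ (c0 ++ (b1 ++ (c1 ++ (b2 ++ c2))))) :=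
    Al_app B0.en B0.dn aB0 (Al_app C0.en x0 aC0 (Al_app B1.en B1.dn aB1 (Al_app C1.en x1 aC1
      (Al_app B2.en B2.dn aB2 aC2))))
  refine ⟨y0, z0, t0, ?_, ?_⟩
  · intro i hi
    have := aAll i hi
    rw [hP] at this
    exact this
  · -- the mark m1
    have hv : vx m e0 (b0 ++ (c0 ++ (b1 ++ (c1 ++ (b2 ++ c2))))) (b0.length + c0.length) = m1 := by
      rw [vxc, B0.en, B0.dn]
      have := vxc n0 e0 c0 (b1 ++ (c1 ++ (b2 ++ c2))) 0
      rw [C0.en, x0, Nat.add_zero] at this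
      rw [this]
      rfl
    refine ⟨b0.length + c0.length, ?_, ?_⟩
    · by_contra hcon
      have hlen : (b0 ++ (c0 ++ (b1 ++ (c1 ++ (b2 ++ c2))))).length = b0.length + c0.length := by
        have h1 : (b0 ++ (c0 ++ (b1 ++ (c1 ++ (b2 ++ c2))))).length =
            b0.length + (c0.length + (b1 ++ (c1 ++ (b2 ++ c2))).length) := by
          rw [List.length_append, List.length_append]
        omega
      rw [hlen, hv] at y0
      rw [← y0] at qm'
      omega
    · rw [hv, ip0, ip0]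
      omega

end RP

end HexObs
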