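import Pool.Agent.RSWP.DefsP
import Pool.Agent.HexPoly.LoopDefs

/-!
RSWP, module P11: two decompositions with the same root interlace.
-/

set_option autoImplicit false

namespace HexObs

namespace RP

open Finset ENNReal

namespace P11

lemma rr_mulE (u p : Pt) : mulE u (rr p) = rr (mulE u p) := by
  have h1 := mulE_turn u false (rotR p)
  have h2 := mulE_turn u false p
  have e : ∀ q : Pt, turn false q = rotR q := fun q => rfl
  rw [e, e] at h1 h2
  unfold rr
  rw [h1, h2]

lemma rotL_mulE (u p : Pt) : mulE u (rotL p) = rotL (mulE u p) := mulE_turn u true p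

lemma rr_mem {d : Pt} (h : d ∈ dirs) : rr d ∈ dirs := by
  revert d
  decide

lemma two_rr (p d : Pt) : 2 * ip p (rr d) = -(3 * cross d p + ip p d) := by
  simp only [rr, rotR, ip, cross]
  ring

lemma two_rrr (p d : Pt) : 2 * ip p (rr (rr d)) = 3 * cross d p - ip p d := by
  simp only [rr, rotR, ip, cross]
  ring

lemma rrr (d : Pt) : rr (rr (rr d)) = d := by
  simp only [rr, rotR]
  ext
  · show _ = d.1
    simp only []
    ring
  · show _ = d.2
    simp only []
    ring

/-- relative positions of a word, in the direction d -/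
lemma at_rel {d : Pt} (hd : d ∈ dirs) (v : Pt) (t : List Bool) (i : ℕ) :
    ip (vx v d t i - v) d = lev t i ∧ ip (vx v d t i - v) (rr d) = ip (vx oo up t i) (rr up) ∧
      ip (vx v d t i - v) (rotL d) = ip (vx oo up t i) (rotL up) := by
  have hu : nrm (rotTo up d) = 1 := nrm_rotTo upd hd
  have hd' : mulE (rotTo up d) up = d := rotTo_apply d upd
  have h1 := vx_mulE (rotTo up d) oo v up t i
  rw [hd'] at h1
  have h2 : vx v d t i - v = mulE (rotTo up d) (vx oo up t i) := by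
    rw [h1]
    have : vx oo up t i - oo = vx oo up t i := sub_zero _
    rw [this]
    abel
  rw [h2]
  refine ⟨?_, ?_, ?_⟩
  · calc ip (mulE (rotTo up d) (vx oo up t i)) d
        = ip (mulE (rotTo up d) (vx oo up t i)) (mulE (rotTo up d) up) := by rw [hd']
      _ = lev t i := by
        rw [ip_mulE, hu, one_mul]
        rfl
  · have h3 : rr d = mulE (rotTo up d) (rr up) := by rw [rr_mulE, hd']
    rw [h3, ip_mulE, hu, one_mul]
  · have h3 : rotL d = mulE (rotTo up d) (rotL up) := by rw [rotL_mulE, hd']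
    rw [h3, ip_mulE, hu, one_mul]

lemma at_dx {d : Pt} (hd : d ∈ dirs) (t : List Bool) (i : ℕ) (a b : Pt) (hab : mulE (rotTo up d) a = b) :
    dx d t i = b ↔ dx up t i = a := by
  have hu : nrm (rotTo up d) = 1 := nrm_rotTo upd hd
  have hd' : mulE (rotTo up d) up = d := rotTo_apply d upd
  have h1 := dx_mulE (rotTo up d) up t i
  rw [hd'] at h1
  rw [h1, ← hab]
  constructor
  · exact fun h => mulE_inj hu h
  · intro h
    rw [h]

lemma at_vx {d : Pt} (hd : d ∈ dirs) (v : Pt) (t : List Bool) (i k : ℕ) :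
    vx v d t i = vx v d t k ↔ vx oo up t i = vx oo up t k := by
  have hu : nrm (rotTo up d) = 1 := nrm_rotTo upd hd
  have hd' : mulE (rotTo up d) up = d := rotTo_apply d upd
  have h1 := vx_mulE (rotTo up d) oo v up t i
  have h2 := vx_mulE (rotTo up d) oo v up t k
  rw [hd'] at h1 h2
  rw [h1, h2]
  constructor
  · intro h
    have h3 := mulE_inj hu (add_left_cancel h)
    exact sub_left_injective h3
  · intro h
    rw [h]

/-- bridges, in the direction d -/
lemma Brd_at {d : Pt} (hd : d ∈ dirs) (v : Pt) {t : List Bool} {T : ℕ} : t ∈ Brd T ↔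
    (∀ i, 1 ≤ i → i ≤ t.length → 0 < ip (vx v d t i - v) d ∧ ip (vx v d t i - v) d ≤ 3 * T) ∧
    (∀ i k, i < k → k ≤ t.length → vx v d t i ≠ vx v d t k) ∧ dx d t t.length = d ∧
    ip (vx v d t t.length - v) d = 3 * T := by
  rw [mem_Brd]
  have h1 : ∀ i, ip (vx v d t i - v) d = lev t i := fun i => (at_rel hd v t i).1
  have h2 : dx d t t.length = d ↔ dx up t t.length = up := at_dx hd t _ up d (rotTo_apply d upd)
  simp only [h1, h2, ne_eq, at_vx hd v]

lemma gate_mod (t : List Bool) (i : ℕ) : (3 : ℤ) ∣ ip (vx oo up t i) (rr up) ∨ (3 : ℤ) ∣ ip (vx oo up t i) (rr up) + 1 := by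
  have h1 := ip_mod (vx oo up t i) (rr up)
  rcases vx_hex oo up t i with h | h
  · left
    have h0 : cl oo = 0 := by decide
    rw [h, h0, zero_mul, neg_zero] at h1
    exact (ZMod.intCast_zmod_eq_zero_iff_dvd _ 3).1 h1
  · right
    rw [h] at h1
    have h0 : -((cl oo + cl up) * cl (rr up)) = -1 := by decide
    rw [h0] at h1
    refine (ZMod.intCast_zmod_eq_zero_iff_dvd _ 3).1 ?_
    push_cast
    rw [h1]
    ring

/-- wedge walks, in the direction d -/
lemma gE_at {d : Pt} (hd : d ∈ dirs) (v : Pt) {t : List Bool} {T L r : ℕ} (hT : 1 ≤ T) (hL : 1 ≤ L) (hr : 1 ≤ r) :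
    t ∈ Tube.gE upd oo true T L r ↔
    (∀ i, 1 ≤ i → i ≤ t.length → (0 < ip (vx v d t i - v) d ∧ ip (vx v d t i - v) d < 3 * T + 2) ∧
      ip (vx v d t i - v) (rotL d) < 3 * L ∧ ip (vx v d t i - v) (rr d) ≤ 3 * r - 3) ∧
    (∀ i k, i < k → k ≤ t.length → vx v d t i ≠ vx v d t k) ∧ dx d t t.length = rr d ∧
    ip (vx v d t t.length - v) (rr d) = 3 * r - 3 := by
  have h1 : ∀ i, ip (vx v d t i - v) d = lev t i := fun i => (at_rel hd v t i).1
  have h2 : ∀ i, ip (vx v d t i - v) (rr d) = ip (vx oo up t i) (rr up) := fun i => (at_rel hd v t i).2.1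
  have h3 : ∀ i, ip (vx v d t i - v) (rotL d) = ip (vx oo up t i) (rotL up) := fun i => (at_rel hd v t i).2.2
  have h4 : dx d t t.length = rr d ↔ dx up t t.length = rr up := by
    apply at_dx hd
    rw [rr_mulE, rotTo_apply d upd]
  simp only [h1, h2, h3, h4, ne_eq, at_vx hd v]
  have hoo : ∀ p : Pt, p - oo = p := fun p => sub_zero _
  have hdm : ∀ i, vx oo up t i ∈ Tube.dm oo up true T L r ↔
      ((0 < lev t i ∧ lev t i < 3 * T + 2) ∧ ip (vx oo up t i) (rotL up) < 3 * L ∧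
        ip (vx oo up t i) (rr up) ≤ 3 * r - 3) := by
    intro i
    constructor
    · rintro ⟨⟨_, a1, a2⟩, a3, a4⟩
      rw [hoo] at a1 a2 a3 a4
      have a5 : ip (vx oo up t i) (rr up) < 3 * r - 1 := a4
      refine ⟨⟨a1, a2⟩, a3, ?_⟩
      rcases gate_mod t i with h | h <;> omega
    · rintro ⟨⟨a1, a2⟩, a3, a4⟩
      refine ⟨⟨vx_hex oo up t i, ?_, ?_⟩, ?_, ?_⟩
      · rw [hoo]
        exact a1
      · rw [hoo]
        exact a2
      · rw [hoo]
        exact a3
      · rw [hoo]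
        show ip (vx oo up t i) (rr up) < 3 * r - 1
        omega
  have htip : dx up t t.length = rr up → ip (tip oo up t) (rr up) = ip (vx oo up t t.length) (rr up) + 2 := by
    intro h
    rw [tip_eq, h, ip_add_left]
    congr 1
  constructor
  · intro ht
    obtain ⟨a1, a2⟩ := Finset.mem_filter.1 ht
    obtain ⟨a3, a4⟩ := mem_exits.1 a1
    have a2' : dx up t t.length = rr up := a2
    refine ⟨fun i hi hl => ?_, fun i k hik hk => a3.inj i k hik hk, a2', ?_⟩
    · have := a3.mem i hi hl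
      rw [Tube.mem_dF] at this
      exact (hdm i).1 this
    · have h5 : ip (tip oo up t - oo) (Tube.gn true up) = Tube.gc true r := by
        obtain ⟨n1, n2, n3, n4⟩ := Tube.gn_ne (k := false) (k' := true) (by decide) upd
        rcases Tube.dm_exit upd true hT hL hr a1 with ⟨hx, _⟩ | ⟨hx, _⟩ | ⟨hx, _⟩ | ⟨_, hx⟩
        · exact absurd (a2.symm.trans hx) n1
        · exact absurd (a2.symm.trans hx) n2
        · exact absurd (a2.symm.trans hx) n3
        · exact hx
      rw [hoo] at h5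
      have h6 : ip (tip oo up t) (rr up) = 3 * r - 1 := h5
      rw [htip a2'] at h6
      linarith
  · rintro ⟨a1, a2, a3, a4⟩
    refine Finset.mem_filter.2 ⟨mem_exits.2 ⟨⟨fun i hi hl => ?_, fun i k hik hk => a2 i k hik hk⟩, fun h => ?_⟩, a3⟩
    · rw [Tube.mem_dF]
      exact (hdm i).2 (a1 i hi hl)
    · rw [Tube.mem_dF] at h
      obtain ⟨_, _, h5⟩ := h
      rw [hoo] at h5
      have h6 : ip (tip oo up t) (rr up) < 3 * r - 1 := h5
      rw [htip a3] at h6
      omega

/-- a wedge word of a domain with L = 0 does not exist -/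
lemma gE_pos {t : List Bool} {T L r : ℕ} (h : t ∈ Tube.gE upd oo true T L r) : 1 ≤ L := by
  by_contra hL
  have hL0 : L = 0 := by omega
  subst hL0
  obtain ⟨a1, a2⟩ := Finset.mem_filter.1 h
  obtain ⟨a3, _⟩ := mem_exits.1 a1
  rcases Nat.eq_zero_or_pos t.length with h0 | h0
  · have h1 : t = [] := List.length_eq_zero_iff.1 h0
    subst h1
    have h2 : up = Tube.gn true up := a2
    exact absurd h2 (by decide)
  · have h1 := a3.mem 1 le_rfl h0
    rw [Tube.mem_dF] at h1
    obtain ⟨_, h2, _⟩ := h1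
    have h3 : vx oo up t 1 = oo + up := rfl
    rw [h3] at h2
    revert h2
    decide

/-- the part of the word between the positions a and b -/
def Pc (W : List Bool) (a b : ℕ) : List Bool := (W.drop a).take (b - a)

lemma Pc_length {W : List Bool} {a b : ℕ} (hb : b ≤ W.length) : (Pc W a b).length = b - a := by
  unfold Pc
  rw [List.length_take, List.length_drop]
  omega

lemma Pc_take (W : List Bool) {a b c : ℕ} (hbc : b ≤ c) : (Pc W a c).take (b - a) = Pc W a b := by
  unfold Pc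
  rw [List.take_take]
  congr 1
  omega

lemma Pc_drop (W : List Bool) {a b c : ℕ} (hab : a ≤ b) : (Pc W a c).drop (b - a) = Pc W b c := by
  unfold Pc
  have e1 : c - a - (b - a) = c - b := by omega
  have e2 : a + (b - a) = b := by omega
  rw [List.drop_take, List.drop_drop, e1, e2]

lemma Pc_tf {W : List Bool} {a b k : ℕ} (hk : k < b - a) (hb : b ≤ W.length) : tf (Pc W a b) k = tf W (a + k) := by
  unfold tf Pc
  rw [List.getD_eq_getElem?_getD, List.getD_eq_getElem?_getD, List.getElem?_take, if_pos hk, List.getElem?_drop]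

lemma Pc_vx {m : Pt} {W : List Bool} {a b j : ℕ} (hb : b ≤ W.length) {d : Pt} (hd : dx up W a = d)
    (hj : j ≤ b - a) : vx (vx m up W a) d (Pc W a b) j = vx m up W (a + j) := by
  have h1 : vx m up W (a + j) = vs (vx m up W a) d (fun k => tf W (a + k)) j := by
    rw [← hd]
    exact vs_shift m up (tf W) a j
  rw [h1]
  exact vs_congr j fun k hk => Pc_tf (by omega) hb

lemma Pc_dx {W : List Bool} {a b j : ℕ} (hb : b ≤ W.length) {d : Pt} (hd : dx up W a = d)
    (hj : j ≤ b - a) : dx d (Pc W a b) j = dx up W (a + j) := by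
  have h1 : dx up W (a + j) = ds d (fun k => tf W (a + k)) j := by
    rw [← hd]
    exact ds_shift up (tf W) a j
  rw [h1]
  exact ds_congr j fun k hk => Pc_tf (by omega) hb

/-- a triple of marks in the direction d -/
structure Tr (K e : ℕ) (V D : ℕ → Pt) (d : Pt) (a b c : ℕ) : Prop where
  hab : a ≤ b
  hbc : b ≤ c
  db : D b = d
  dc : D c = rr d
  la : V a ∈ Low K e d
  ub : V b ∈ Upw K e d
  lc : V c ∈ Low K e (rr d)
  br : ∀ k, a < k → k ≤ b → ip (V a) d < ip (V k) d ∧ ip (V k) d ≤ ip (V b) d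
  box : ∀ k, a ≤ k → k ≤ b → (12 * e : ℤ) ≤ cross d (V k)
  we : ∀ k, b < k → k ≤ c → ip (V b) d < ip (V k) d ∧ ip (V k) d < ip (V b) d + 3 * (K * e) + 2 ∧
    ip (V k) (rr d) ≤ ip (V c) (rr d)
  injb : ∀ i k, a ≤ i → i < k → k ≤ b → V i ≠ V k
  injc : ∀ i k, b ≤ i → i < k → k ≤ c → V i ≠ V k

lemma Tr_of {K e L : ℕ} (hK : 1 ≤ K) (he : 1 ≤ e) {m : Pt} {W : List Bool} {a b c : ℕ} (hab : a ≤ b) (hbc : b ≤ c)
    (hc : c ≤ W.length) {d p n q : Pt} (hd : d ∈ dirs) (hVa : vx m up W a = p) (hDa : dx up W a = d)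
    (h1 : BP K e d p n (Pc W a b)) (h2 : CP K e L d n q (Pc W b c)) :
    Tr K e (vx m up W) (dx up W) d a b c ∧ vx m up W c = q ∧ dx up W c = rr d := by
  obtain ⟨m1, m2, ⟨t, m3⟩, m4, m5⟩ := h1
  obtain ⟨n1, n2, ⟨r, n3, n4⟩, n5⟩ := h2
  have hb : b ≤ W.length := hbc.trans hc
  have lb : (Pc W a b).length = b - a := Pc_length hb
  have lc : (Pc W b c).length = c - b := Pc_length hc
  have vb : ∀ k, a ≤ k → k ≤ b → vx p d (Pc W a b) (k - a) = vx m up W k := by
    intro k h3 h4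
    rw [← hVa, Pc_vx hb hDa (by omega)]
    congr 1
    omega
  have hVb : vx m up W b = n := by
    rw [← m4, lb, vb b hab le_rfl]
  rw [Brd_at hd p] at m3
  obtain ⟨b1, b2, b3, b4⟩ := m3
  rw [lb] at b1 b2 b3 b4
  rw [vb b hab le_rfl, hVb] at b4
  have hDb : dx up W b = d := by
    have := Pc_dx hb hDa (j := b - a) le_rfl
    rw [b3] at this
    rw [this]
    congr 1
    omega
  have vc : ∀ k, b ≤ k → k ≤ c → vx n d (Pc W b c) (k - b) = vx m up W k := by
    intro k h3 h4
    rw [← hVb, Pc_vx hc hDb (by omega)]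
    congr 1
    omega
  have hL := gE_pos n4
  have hT : 1 ≤ K * e := Nat.mul_pos hK he
  rw [gE_at hd n hT hL (by omega)] at n4
  obtain ⟨c1, c2, c3, c4⟩ := n4
  rw [lc] at c1 c2 c3 c4
  have hVc : vx m up W c = q := by
    rw [← n5, lc, vc c hbc le_rfl]
  rw [vc c hbc le_rfl, hVc] at c4
  have hDc : dx up W c = rr d := by
    have := Pc_dx hc hDb (j := c - b) le_rfl
    rw [c3] at this
    rw [this]
    congr 1
    omega
  refine ⟨⟨hab, hbc, hDb, hDc, ?_, ?_, ?_, ?_, ?_, ?_, ?_, ?_⟩, hVc, hDc⟩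
  · rw [hVa]
    exact m1
  · rw [hVb]
    exact m2
  · rw [hVc]
    exact n2
  · intro k h3 h4
    have h5 := b1 (k - a) (by omega) (by omega)
    rw [vb k h3.le h4, ip_sub_left] at h5
    rw [ip_sub_left] at b4
    rw [hVa, hVb]
    constructor
    · linarith [h5.1]
    · linarith [h5.2]
  · intro k h3 h4
    have h5 := (m5 (k - a) (by omega)).1
    rwa [vb k h3 h4] at h5
  · intro k h3 h4
    obtain ⟨h5, _, h6⟩ := c1 (k - b) (by omega) (by omega)
    rw [vc k h3.le h4, ip_sub_left] at h5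
    rw [vc k h3.le h4, ip_sub_left] at h6
    rw [ip_sub_left] at c4
    rw [hVb, hVc]
    push_cast at h5
    refine ⟨by linarith [h5.1], by linarith [h5.2], by linarith⟩
  · intro i k h3 h4 h5
    have h6 := b2 (i - a) (k - a) (by omega) (by omega)
    rwa [vb i h3 (by omega), vb k (by omega) h5] at h6
  · intro i k h3 h4 h5
    have h6 := c2 (i - b) (k - b) (by omega) (by omega)
    rwa [vc i h3 (by omega), vc k (by omega) h5] at h6

/-- class zero vertices -/
lemma div3 {p q : Pt} (hp : cl p = 0) (hq : cl q = 0) (d : Pt) : (3 : ℤ) ∣ ip q d - ip p d := by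
  have h1 := ip_mod (q - p) d
  rw [cl_sub, hp, hq, sub_self, zero_mul, neg_zero, ip_sub_left] at h1
  exact (ZMod.intCast_zmod_eq_zero_iff_dvd _ 3).1 h1

lemma mkBrd {m : Pt} {W : List Bool} {a b : ℕ} {d : Pt} (hd : d ∈ dirs) (hab : a ≤ b) (hb : b ≤ W.length)
    (hDa : dx up W a = d) (hDb : dx up W b = d) (hca : cl (vx m up W a) = 0) (hcb : cl (vx m up W b) = 0)
    (h : ∀ k, a < k → k ≤ b → ip (vx m up W a) d < ip (vx m up W k) d ∧ ip (vx m up W k) d ≤ ip (vx m up W b) d)
    (hinj : ∀ i k, a ≤ i → i < k → k ≤ b → vx m up W i ≠ vx m up W k) :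
    ∃ j : ℕ, (3 * j : ℤ) = ip (vx m up W b) d - ip (vx m up W a) d ∧ Pc W a b ∈ Brd j := by
  obtain ⟨x, hx⟩ := div3 hca hcb d
  have hx0 : 0 ≤ x := by
    rcases Nat.eq_or_lt_of_le hab with h1 | h1
    · rw [h1] at hx
      omega
    · have := (h b h1 le_rfl).1
      omega
  obtain ⟨j, hj⟩ := Int.eq_ofNat_of_zero_le hx0
  rw [hj] at hx
  refine ⟨j, by omega, ?_⟩
  have lb : (Pc W a b).length = b - a := Pc_length hb
  have vb : ∀ k, k ≤ b - a → vx (vx m up W a) d (Pc W a b) k = vx m up W (a + k) := fun k hk => Pc_vx hb hDa hk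
  rw [Brd_at hd (vx m up W a), lb]
  have e : a + (b - a) = b := by omega
  refine ⟨?_, ?_, ?_, ?_⟩
  · intro i h1 h2
    rw [vb i h2, ip_sub_left]
    have h3 := h (a + i) (by omega) (by omega)
    constructor
    · linarith [h3.1]
    · linarith [h3.2]
  · intro i k h1 h2
    rw [vb i (by omega), vb k h2]
    exact hinj _ _ (by omega) (by omega) (by omega)
  · rw [Pc_dx hb hDa le_rfl, e, hDb]
  · rw [vb (b - a) le_rfl, e, ip_sub_left]
    linarith

lemma mkWG {K e : ℕ} (hK : 1 ≤ K) (he : 1 ≤ e) {m : Pt} {W : List Bool} {b c : ℕ} {d : Pt} (hd : d ∈ dirs)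
    (hbc : b ≤ c) (hc : c ≤ W.length) (hDb : dx up W b = d) (hDc : dx up W c = rr d)
    (ub : vx m up W b ∈ Upw K e d) (lc : vx m up W c ∈ Low K e (rr d))
    (h : ∀ k, b < k → k ≤ c → ip (vx m up W b) d < ip (vx m up W k) d ∧
      ip (vx m up W k) d < ip (vx m up W b) d + 3 * (K * e) + 2 ∧
      ip (vx m up W k) (rr d) ≤ ip (vx m up W c) (rr d))
    (hinj : ∀ i k, b ≤ i → i < k → k ≤ c → vx m up W i ≠ vx m up W k) : Pc W b c ∈ WG (K * e) (K * e) := by
  obtain ⟨u1, u2, u3, u4, u5⟩ := ub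
  obtain ⟨l1, l2, l3, l4, l5⟩ := lc
  obtain ⟨x, hx⟩ := div3 u1 l1 (rr d)
  have h2 := two_rr (vx m up W b) d
  have hKe : (0 : ℤ) < K * e := by positivity
  have e1 : (2 * K * e : ℤ) = 2 * (K * e) := by ring
  rw [e1] at u4
  have hx0 : (K * e : ℤ) ≤ x := by linarith
  obtain ⟨j, hj⟩ := Int.eq_ofNat_of_zero_le (show 0 ≤ x by linarith)
  have hjK : K * e ≤ j := by
    rw [hj] at hx0
    exact_mod_cast hx0
  rw [hj] at hx
  obtain ⟨L, hL⟩ : ∃ L : ℕ, ∀ k, k ≤ c → ip (vx m up W k - vx m up W b) (rotL d) < 3 * ((L + 1 : ℕ) : ℤ) := by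
    refine ⟨∑ k ∈ range (c + 1), (ip (vx m up W k - vx m up W b) (rotL d)).natAbs, fun k hk => ?_⟩
    have h3 := Finset.single_le_sum (f := fun k => (ip (vx m up W k - vx m up W b) (rotL d)).natAbs)
      (fun _ _ => Nat.zero_le _) (Finset.mem_range.2 (show k < c + 1 by omega))
    omega
  refine ⟨j + 1, L + 1, by omega, by omega, ?_⟩
  have ll : (Pc W b c).length = c - b := Pc_length hc
  have vb : ∀ k, k ≤ c - b → vx (vx m up W b) d (Pc W b c) k = vx m up W (b + k) := fun k hk => Pc_vx hc hDb hk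
  have hT : 1 ≤ K * e := Nat.mul_pos hK he
  rw [gE_at hd (vx m up W b) hT (by omega) (by omega), ll]
  have e2 : b + (c - b) = c := by omega
  refine ⟨?_, ?_, ?_, ?_⟩
  · intro i h4 h5
    rw [vb i h5]
    have h6 := h (b + i) (by omega) (by omega)
    have h7 := hL (b + i) (by omega)
    rw [ip_sub_left] at h7
    rw [ip_sub_left, ip_sub_left, ip_sub_left]
    push_cast at h7 ⊢
    refine ⟨⟨by linarith [h6.1], by linarith [h6.2.1]⟩, by linarith, by linarith [h6.2.2]⟩
  · intro i k h4 h5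
    rw [vb i (by omega), vb k h5]
    exact hinj _ _ (by omega) (by omega) (by omega)
  · rw [Pc_dx hc hDb le_rfl, e2, hDc]
  · rw [vb (c - b) le_rfl, e2, ip_sub_left]
    push_cast
    linarith

/-- the two possible positions of an up mark -/
lemma up_case {K e : ℕ} (hK : 1 ≤ K) (he : 1 ≤ e) {m : Pt} {W : List Bool} {d : Pt} (hd : d ∈ dirs)
    {a b c a' b' c' : ℕ} (hc : c ≤ W.length) (hda : dx up W a = d)
    (T : Tr K e (vx m up W) (dx up W) d a b c) (T' : Tr K e (vx m up W) (dx up W) d a' b' c')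
    (h1 : a ≤ b') (h2 : b' ≤ c) (h3 : a' ≤ b) (h4 : b ≤ c')
    (hP : ∀ k, a < k → k ≤ a' → ip (vx m up W k) d ≤ ip (vx m up W b') d)
    (hN : ∀ k, c' < k → k ≤ c → ip (vx m up W b') d < ip (vx m up W k) d) :
    (b' ≤ b ∧ b' - a ∈ BA e (Pc W a b)) ∨ (b ≤ b' ∧ b' - b ∈ CB K e (Pc W b c)) := by
  have hb : b ≤ W.length := T.hbc.trans hc
  have hcb' : cl (vx m up W b') = 0 := T'.ub.1
  have hcb : cl (vx m up W b) = 0 := T.ub.1
  have hca : cl (vx m up W a) = 0 := T.la.1
  rcases le_total b' b with h | h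
  · left
    obtain ⟨j, _, hj⟩ := mkBrd hd h1 (h.trans hb) hda T'.db hca hcb' (by
      intro k k1 k2
      refine ⟨(T.br k k1 (k2.trans h)).1, ?_⟩
      rcases Nat.lt_or_ge a' k with k3 | k3
      · exact (T'.br k k3 k2).2
      · exact hP k k1 k3) (fun i k k1 k2 k3 => T.injb i k k1 k2 (k3.trans h))
    obtain ⟨j', hj', hj2⟩ := mkBrd hd h hb T'.db T.db hcb' hcb (by
      intro k k1 k2
      refine ⟨(T'.we k k1 (k2.trans h4)).1, (T.br k (by omega) k2).2⟩)
      (fun i k k1 k2 k3 => T.injb i k (by omega) k2 k3)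
    refine ⟨h, ?_, ⟨j, ?_⟩, j', ?_, ?_⟩
    · rw [Pc_length hb]
      omega
    · rw [Pc_take W h]
      exact hj
    · have u1 := T.ub.2.2.1
      have u2 := T'.ub.2.1
      omega
    · rw [Pc_drop W h1]
      exact hj2
  · right
    obtain ⟨j, hj', hj⟩ := mkBrd hd h (h2.trans hc) T.db T'.db hcb hcb' (by
      intro k k1 k2
      exact ⟨(T.we k k1 (k2.trans h2)).1, (T'.br k (by omega) k2).2⟩)
      (fun i k k1 k2 k3 => T.injc i k k1 k2 (k3.trans h2))
    have hbb : ip (vx m up W b) d ≤ ip (vx m up W b') d := by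
      rcases Nat.eq_or_lt_of_le h with k1 | k1
      · rw [k1]
      · exact (T.we b' k1 h2).1.le
    have hw := mkWG (m := m) hK he hd h2 hc T'.db T.dc T'.ub T.lc (by
      intro k k1 k2
      obtain ⟨k3, k4, k5⟩ := T.we k (by omega) k2
      refine ⟨?_, by linarith, k5⟩
      rcases Nat.lt_or_ge c' k with k6 | k6
      · exact hN k k6 k2
      · exact (T'.we k k1 k6).1) (fun i k k1 k2 k3 => T.injc i k (by omega) k2 k3)
    refine ⟨h, ?_, ⟨j, ?_, ?_⟩, ?_⟩
    · rw [Pc_length hc]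
      omega
    · have u1 := T'.ub.2.2.1
      have u2 := T.ub.2.1
      omega
    · rw [Pc_take W h2]
      exact hj
    · rw [Pc_drop W h]
      exact hw

/-- the two possible positions of a low mark -/
lemma low_case {K e : ℕ} (hK : 1 ≤ K) (he : 1 ≤ e) {m : Pt} {W : List Bool} {d : Pt} (hd : d ∈ dirs)
    {a b c b2 c2 a' b' c' b2' c2' : ℕ} (hc : b2 ≤ W.length)
    (T : Tr K e (vx m up W) (dx up W) d a b c) (S : Tr K e (vx m up W) (dx up W) (rr d) c b2 c2)
    (T' : Tr K e (vx m up W) (dx up W) d a' b' c') (S' : Tr K e (vx m up W) (dx up W) (rr d) c' b2' c2')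
    (h1 : b ≤ c') (h2 : c' ≤ b2) (h3 : b' ≤ c) (h4 : c ≤ b2') (h5 : a' ≤ b) (h6 : b2 ≤ c2') :
    (c' ≤ c ∧ b ≤ c' ∧ c' - b ∈ CA K e (Pc W b c)) ∨ (c ≤ c' ∧ c' - c ∈ BB e (Pc W c b2)) := by
  have hd2 := rr_mem hd
  have hcc : c ≤ W.length := S.hab.trans hc
  have hcc' : cl (vx m up W c') = 0 := T'.lc.1
  have hccc : cl (vx m up W c) = 0 := T.lc.1
  have hcb2 : cl (vx m up W b2) = 0 := S.ub.1
  rcases le_total c' c with h | h
  · left
    have hw := mkWG (m := m) hK he hd h1 (h.trans hcc) T.db T'.dc T.ub T'.lc (by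
      intro k k1 k2
      obtain ⟨k3, k4, k5⟩ := T.we k k1 (k2.trans h)
      refine ⟨k3, k4, ?_⟩
      rcases Nat.lt_or_ge b' k with k6 | k6
      · exact (T'.we k k6 k2).2.2
      · have x1 := T'.box k (by omega) k6
        have x2 := (T'.br k (by omega) k6).1
        have x3 := T'.la.2.1
        have x4 := two_rr (vx m up W k) d
        have x5 := T'.lc.2.1
        have x6 : (1 : ℤ) ≤ e := by exact_mod_cast he
        linarith) (fun i k k1 k2 k3 => T.injc i k k1 k2 (k3.trans h))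
    obtain ⟨j, hj', hj⟩ := mkBrd hd2 h hcc T'.dc T.dc hcc' hccc (by
      intro k k1 k2
      exact ⟨(S'.br k k1 (k2.trans h4)).1, (T.we k (by omega) k2).2.2⟩)
      (fun i k k1 k2 k3 => T.injc i k (by omega) k2 k3)
    refine ⟨h, h1, ?_, ?_, j, ?_, ?_⟩
    · rw [Pc_length hcc]
      omega
    · rw [Pc_take W h]
      exact hw
    · have u1 := T.lc.2.2.1
      have u2 := T'.lc.2.1
      omega
    · rw [Pc_drop W h1]
      exact hj
  · right
    obtain ⟨j, hj', hj⟩ := mkBrd hd2 h (h2.trans hc) T.dc T'.dc hccc hcc' (by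
      intro k k1 k2
      exact ⟨(S.br k k1 (k2.trans h2)).1, (T'.we k (by omega) k2).2.2⟩)
      (fun i k k1 k2 k3 => S.injb i k k1 k2 (k3.trans h2))
    obtain ⟨j2, _, hj2⟩ := mkBrd hd2 h2 hc T'.dc S.db hcc' hcb2 (by
      intro k k1 k2
      refine ⟨?_, (S.br k (by omega) k2).2⟩
      rcases Nat.lt_or_ge b2' k with k6 | k6
      · have x1 := (S'.we k k6 (k2.trans h6)).1
        have x2 := S'.ub.2.1
        have x3 := S'.la.2.2.1
        have x4 : (1 : ℤ) ≤ e := by exact_mod_cast he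
        linarith
      · exact (S'.br k k1 k6).1) (fun i k k1 k2 k3 => S.injb i k (by omega) k2 k3)
    refine ⟨h, ?_, ⟨j, ?_, ?_⟩, j2, ?_⟩
    · rw [Pc_length hc]
      omega
    · have u1 := T'.lc.2.2.1
      have u2 := T.lc.2.1
      omega
    · rw [Pc_take W h2]
      exact hj
    · rw [Pc_drop W h]
      exact hj2

/-- an up mark of the next direction is not in the triple -/
lemma loc_up1 {K e : ℕ} (he : 1 ≤ e) {V D : ℕ → Pt} {d : Pt} {a b c k : ℕ} (T : Tr K e V D d a b c) (h1 : a < k)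
    (h2 : k ≤ c) (hu : V k ∈ Upw K e (rr d)) : False := by
  have x6 : (1 : ℤ) ≤ e := by exact_mod_cast he
  have x4 := two_rr (V k) d
  have x7 := hu.2.1
  rcases Nat.lt_or_ge b k with h | h
  · have x1 := (T.we k h h2).2.2
    have x2 := T.lc.2.2.1
    linarith
  · have x1 := T.box k h1.le h
    have x2 := (T.br k h1 h).1
    have x3 := T.la.2.1
    linarith

/-- an up mark of the previous direction is not in the triple -/
lemma loc_up2 {K e : ℕ} (he : 1 ≤ e) {V D : ℕ → Pt} {d : Pt} {a b c k : ℕ} (T : Tr K e V D d a b c) (h1 : a < k)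
    (h2 : k ≤ c) (hu : V k ∈ Upw K e (rr (rr d))) : False := by
  have x6 : (1 : ℤ) ≤ e := by exact_mod_cast he
  have hK : (0 : ℤ) ≤ K * e := by positivity
  obtain ⟨_, u1, u2, u3, u4⟩ := hu
  rcases Nat.lt_or_ge b k with h | h
  · have x1 := (T.we k h h2).1
    have x2 := T.ub.2.1
    have x3 := two_rr (V k) (rr (rr d))
    rw [rrr] at x3
    have e1 : (2 * K * e : ℤ) = 2 * (K * e) := by ring
    rw [e1] at u3
    linarith
  · have x1 := T.box k h1.le h
    have x2 := (T.br k h1 h).2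
    have x3 := T.ub.2.2.1
    have x4 := two_rrr (V k) d
    linarith

/-- a low mark of the same direction is on the bridge -/
lemma loc_low0 {K e : ℕ} (he : 1 ≤ e) {V D : ℕ → Pt} {d : Pt} {a b c k : ℕ} (T : Tr K e V D d a b c)
    (h2 : k ≤ c) (hu : V k ∈ Low K e d) : k ≤ b := by
  by_contra h
  have x6 : (1 : ℤ) ≤ e := by exact_mod_cast he
  have x1 := (T.we k (by omega) h2).1
  have x2 := T.ub.2.1
  have x3 := hu.2.2.1
  linarith

/-- a low mark of the next direction is on the wedge walk -/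
lemma loc_low1 {K e : ℕ} (he : 1 ≤ e) {V D : ℕ → Pt} {d : Pt} {a b c k : ℕ} (T : Tr K e V D d a b c) (h1 : a < k)
    (hu : V k ∈ Low K e (rr d)) : b < k := by
  by_contra h
  have x6 : (1 : ℤ) ≤ e := by exact_mod_cast he
  have x1 := T.box k h1.le (by omega)
  have x2 := (T.br k h1 (by omega)).1
  have x3 := T.la.2.1
  have x4 := two_rr (V k) d
  have x5 := hu.2.1
  linarith

/-- a low mark of the previous direction is not in the triple -/
lemma loc_low2 {K e : ℕ} (he : 1 ≤ e) {V D : ℕ → Pt} {d : Pt} {a b c k : ℕ} (T : Tr K e V D d a b c) (h1 : a < k)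
    (h2 : k ≤ c) (hu : V k ∈ Low K e (rr (rr d))) : False := by
  have x6 : (1 : ℤ) ≤ e := by exact_mod_cast he
  obtain ⟨_, u1, u2, u3, u4⟩ := hu
  rcases Nat.lt_or_ge b k with h | h
  · have x1 := (T.we k h h2).1
    have x2 := T.ub.2.1
    have x3 := two_rr (V k) (rr (rr d))
    rw [rrr] at x3
    linarith
  · have x1 := T.box k h1.le h
    have x2 := (T.br k h1 h).2
    have x3 := T.ub.2.2.1
    have x4 := two_rrr (V k) d
    linarith

/-- all the marks -/
structure Fl (K e : ℕ) (V D : ℕ → Pt) (n q1 q2 q3 q4 q5 : ℕ) : Prop where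
  t0 : Tr K e V D e0 0 q1 q2
  t1 : Tr K e V D (rr e0) q2 q3 q4
  t2 : Tr K e V D (rr (rr e0)) q4 q5 n

lemma loc_all {K e : ℕ} (he : 1 ≤ e) {V D : ℕ → Pt} {n q1 q2 q3 q4 q5 q1' q2' q3' q4' q5' : ℕ}
    (F : Fl K e V D n q1 q2 q3 q4 q5) (F' : Fl K e V D n q1' q2' q3' q4' q5') :
    q1' ≤ q2 ∧ (q1 < q2' ∧ q2' ≤ q3) ∧ (q2 < q3' ∧ q3' ≤ q4) ∧ (q3 < q4' ∧ q4' ≤ q5) ∧ q4 < q5' := by
  have x6 : (1 : ℤ) ≤ e := by exact_mod_cast he
  have hr : rr (rr (rr e0)) = e0 := rrr e0
  have a1 := F'.t0.hbc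
  have a2 := F'.t1.hab
  have a3 := F'.t1.hbc
  have a4 := F'.t2.hab
  have a5 := F'.t2.hbc
  have b1 := F.t0.hbc
  have b2 := F.t1.hab
  have b3 := F.t1.hbc
  have b4 := F.t2.hab
  have b5 := F.t2.hbc
  have hpos : 0 < q1' := by
    rcases Nat.eq_zero_or_pos q1' with h | h
    · exfalso
      have c1 := F'.t0.ub.2.1
      have c2 := F.t0.la.2.2.1
      rw [h] at c1
      linarith
    · exact h
  refine ⟨?_, ?_, ?_, ?_, ?_⟩
  · by_contra h
    rcases Nat.lt_or_ge q4 q1' with h1 | h1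
    · exact loc_up1 he F.t2 h1 (by omega) (by rw [hr]; exact F'.t0.ub)
    · exact loc_up2 he F.t1 (by omega) h1 (by rw [hr]; exact F'.t0.ub)
  · rcases Nat.lt_or_ge q4 q2' with h1 | h1
    · exact (loc_low2 he F.t2 h1 (by omega) (by rw [hr]; exact F'.t0.lc)).elim
    · rcases Nat.lt_or_ge q2 q2' with h2 | h2
      · exact ⟨by omega, loc_low0 he F.t1 h1 F'.t0.lc⟩
      · exact ⟨loc_low1 he F.t0 (by omega) F'.t0.lc, by omega⟩
  · constructor
    · by_contra h
      exact loc_up1 he F.t0 (by omega) (by omega) F'.t1.ub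
    · by_contra h
      exact loc_up2 (k := q3') he F.t2 (by omega) (by omega) (by rw [hr]; exact F'.t1.ub)
  · rcases Nat.lt_or_ge q4 q4' with h1 | h1
    · exact ⟨by omega, loc_low0 he F.t2 (by omega) F'.t1.lc⟩
    · rcases Nat.lt_or_ge q2 q4' with h2 | h2
      · exact ⟨loc_low1 he F.t1 h2 F'.t1.lc, by omega⟩
      · exact (loc_low2 he F.t0 (by omega) h2 F'.t1.lc).elim
  · by_contra h
    rcases Nat.lt_or_ge q2 q5' with h1 | h1
    · exact loc_up1 he F.t1 h1 (by omega) F'.t2.ub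
    · exact loc_up2 he F.t0 (by omega) h1 F'.t2.ub

lemma Pc_mid {W x y z : List Bool} (h : W = x ++ (y ++ z)) {a b : ℕ} (ha : a = x.length) (hb : b = a + y.length) :
    Pc W a b = y := by
  subst h ha hb
  unfold Pc
  rw [List.drop_left, Nat.add_sub_cancel_left, List.take_left]

lemma e0_mem : e0 ∈ dirs := by decide

/-- the marks of a decomposition -/
lemma Dec_Fl {K e L : ℕ} (hK : 2 ≤ K) (he : 1 ≤ e) {m : Pt} {b0 c0 b1 c1 b2 c2 W : List Bool}
    (h : Dec K e L m (b0, c0, b1, c1, b2, c2)) (hW : cat6 (b0, c0, b1, c1, b2, c2) = W) :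
    Fl K e (vx m up W) (dx up W) W.length b0.length (b0.length + c0.length) (b0.length + c0.length + b1.length)
      (b0.length + c0.length + b1.length + c1.length) (b0.length + c0.length + b1.length + c1.length + b2.length) ∧
    W.length = b0.length + c0.length + b1.length + c1.length + b2.length + c2.length ∧
    Pc W 0 b0.length = b0 ∧ Pc W b0.length (b0.length + c0.length) = c0 ∧
    Pc W (b0.length + c0.length) (b0.length + c0.length + b1.length) = b1 ∧
    Pc W (b0.length + c0.length + b1.length) (b0.length + c0.length + b1.length + c1.length) = c1 ∧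
    Pc W (b0.length + c0.length + b1.length + c1.length)
      (b0.length + c0.length + b1.length + c1.length + b2.length) = b2 ∧
    Pc W (b0.length + c0.length + b1.length + c1.length + b2.length) W.length = c2 := by
  have hW' : W = b0 ++ (c0 ++ (b1 ++ (c1 ++ (b2 ++ c2)))) := hW.symm
  have hlen : W.length = b0.length + c0.length + b1.length + c1.length + b2.length + c2.length := by
    rw [hW']
    simp only [List.length_append]
    omega
  have p0 : Pc W 0 b0.length = b0 := by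
    have : W = [] ++ (b0 ++ (c0 ++ (b1 ++ (c1 ++ (b2 ++ c2))))) := hW'
    exact Pc_mid this rfl (by omega)
  have p1 : Pc W b0.length (b0.length + c0.length) = c0 := Pc_mid hW' rfl rfl
  have p2 : Pc W (b0.length + c0.length) (b0.length + c0.length + b1.length) = b1 := by
    have : W = (b0 ++ c0) ++ (b1 ++ (c1 ++ (b2 ++ c2))) := by
      rw [hW']
      simp only [List.append_assoc]
    exact Pc_mid this (by simp only [List.length_append]) rfl
  have p3 : Pc W (b0.length + c0.length + b1.length) (b0.length + c0.length + b1.length + c1.length) = c1 := by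
    have : W = (b0 ++ c0 ++ b1) ++ (c1 ++ (b2 ++ c2)) := by
      rw [hW']
      simp only [List.append_assoc]
    exact Pc_mid this (by simp only [List.length_append]) rfl
  have p4 : Pc W (b0.length + c0.length + b1.length + c1.length)
      (b0.length + c0.length + b1.length + c1.length + b2.length) = b2 := by
    have : W = (b0 ++ c0 ++ b1 ++ c1) ++ (b2 ++ c2) := by
      rw [hW']
      simp only [List.append_assoc]
    exact Pc_mid this (by simp only [List.length_append]) rfl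
  have p5 : Pc W (b0.length + c0.length + b1.length + c1.length + b2.length) W.length = c2 := by
    have : W = (b0 ++ c0 ++ b1 ++ c1 ++ b2) ++ (c2 ++ []) := by
      rw [hW']
      simp only [List.append_assoc, List.append_nil]
    exact Pc_mid this (by simp only [List.length_append]) hlen
  obtain ⟨n0, m1, n1, m2, n2, h0, h1, h2, h3, h4, h5⟩ := h
  have f1 : e1 = rr e0 := by decide
  have f2 : e2 = rr (rr e0) := by decide
  rw [f1] at h2 h3
  rw [f2] at h4 h5
  have d1 : rr e0 ∈ dirs := rr_mem e0_mem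
  have d2 : rr (rr e0) ∈ dirs := rr_mem d1
  have g0 : BP K e e0 m n0 (Pc W 0 b0.length) := by
    rw [p0]
    exact h0
  have g1 : CP K e L e0 n0 m1 (Pc W b0.length (b0.length + c0.length)) := by
    rw [p1]
    exact h1
  obtain ⟨T0, v0, w0⟩ := Tr_of (m := m) (W := W) (by omega) he (Nat.zero_le _) (Nat.le_add_right _ _) (by omega) e0_mem
    rfl rfl g0 g1
  have g2 : BP K e (rr e0) m1 n1 (Pc W (b0.length + c0.length) (b0.length + c0.length + b1.length)) := by
    rw [p2]
    exact h2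
  have g3 : CP K e L (rr e0) n1 m2
      (Pc W (b0.length + c0.length + b1.length) (b0.length + c0.length + b1.length + c1.length)) := by
    rw [p3]
    exact h3
  obtain ⟨T1, v1, w1⟩ := Tr_of (m := m) (W := W) (by omega) he (Nat.le_add_right _ _) (Nat.le_add_right _ _)
    (by omega) d1 v0 w0 g2 g3
  have g4 : BP K e (rr (rr e0)) m2 n2 (Pc W (b0.length + c0.length + b1.length + c1.length)
      (b0.length + c0.length + b1.length + c1.length + b2.length)) := by
    rw [p4]
    exact h4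
  have g5 : CP K e L (rr (rr e0)) n2 m
      (Pc W (b0.length + c0.length + b1.length + c1.length + b2.length) W.length) := by
    rw [p5]
    exact h5
  obtain ⟨T2, v2, w2⟩ := Tr_of (m := m) (W := W) (by omega) he (Nat.le_add_right _ _) (by omega)
    le_rfl d2 v1 w1 g4 g5
  exact ⟨⟨T0, T1, T2⟩, hlen, p0, p1, p2, p3, p4, p5⟩

end P11

/-- P11 (Inter.lean): two decompositions with the same root. -/
theorem inter {K e L : ℕ} (hK : 2 ≤ K) (he : 1 ≤ e) {m : Pt} {w w' : S6} (h : Dec K e L m w) (h' : Dec K e L m w')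
    (hc : cat6 w = cat6 w') :
    ((w'.1.length ≤ w.1.length ∧ w'.1.length ∈ BA e w.1) ∨
      (w.1.length ≤ w'.1.length ∧ w'.1.length - w.1.length ∈ CB K e w.2.1)) ∧
    ((w'.1.length + w'.2.1.length ≤ w.1.length + w.2.1.length ∧ w.1.length ≤ w'.1.length + w'.2.1.length ∧
        w'.1.length + w'.2.1.length - w.1.length ∈ CA K e w.2.1) ∨
      (w.1.length + w.2.1.length ≤ w'.1.length + w'.2.1.length ∧
        w'.1.length + w'.2.1.length - (w.1.length + w.2.1.length) ∈ BB e w.2.2.1)) ∧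
    ((w'.1.length + w'.2.1.length + w'.2.2.1.length ≤ w.1.length + w.2.1.length + w.2.2.1.length ∧
        w.1.length + w.2.1.length ≤ w'.1.length + w'.2.1.length + w'.2.2.1.length ∧
        w'.1.length + w'.2.1.length + w'.2.2.1.length - (w.1.length + w.2.1.length) ∈ BA e w.2.2.1) ∨
      (w.1.length + w.2.1.length + w.2.2.1.length ≤ w'.1.length + w'.2.1.length + w'.2.2.1.length ∧
        w'.1.length + w'.2.1.length + w'.2.2.1.length - (w.1.length + w.2.1.length + w.2.2.1.length) ∈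
          CB K e w.2.2.2.1)) ∧
    ((w'.1.length + w'.2.1.length + w'.2.2.1.length + w'.2.2.2.1.length ≤
          w.1.length + w.2.1.length + w.2.2.1.length + w.2.2.2.1.length ∧
        w.1.length + w.2.1.length + w.2.2.1.length ≤
          w'.1.length + w'.2.1.length + w'.2.2.1.length + w'.2.2.2.1.length ∧
        w'.1.length + w'.2.1.length + w'.2.2.1.length + w'.2.2.2.1.length -
          (w.1.length + w.2.1.length + w.2.2.1.length) ∈ CA K e w.2.2.2.1) ∨
      (w.1.length + w.2.1.length + w.2.2.1.length + w.2.2.2.1.length ≤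
          w'.1.length + w'.2.1.length + w'.2.2.1.length + w'.2.2.2.1.length ∧
        w'.1.length + w'.2.1.length + w'.2.2.1.length + w'.2.2.2.1.length -
          (w.1.length + w.2.1.length + w.2.2.1.length + w.2.2.2.1.length) ∈ BB e w.2.2.2.2.1)) ∧
    ((w.2.2.2.2.2.length ≤ w'.2.2.2.2.2.length ∧
        w.2.2.2.2.1.length + w.2.2.2.2.2.length - w'.2.2.2.2.2.length ∈ BA e w.2.2.2.2.1 ∧
        w'.2.2.2.2.2.length ≤ w.2.2.2.2.1.length + w.2.2.2.2.2.length) ∨
      (w'.2.2.2.2.2.length ≤ w.2.2.2.2.2.length ∧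
        w.2.2.2.2.2.length - w'.2.2.2.2.2.length ∈ CB K e w.2.2.2.2.2)) := by
  obtain ⟨b0, c0, b1, c1, b2, c2⟩ := w
  obtain ⟨b0', c0', b1', c1', b2', c2'⟩ := w'
  obtain ⟨W, hW⟩ : ∃ W, cat6 (b0, c0, b1, c1, b2, c2) = W := ⟨_, rfl⟩
  obtain ⟨F, hl, p0, p1, p2, p3, p4, p5⟩ := P11.Dec_Fl hK he h hW
  obtain ⟨F', hl', _⟩ := P11.Dec_Fl hK he h' (hc.symm.trans hW)
  simp only
  obtain ⟨q1, hq1⟩ : ∃ q, q = b0.length := ⟨_, rfl⟩
  obtain ⟨q2, hq2⟩ : ∃ q, q = b0.length + c0.length := ⟨_, rfl⟩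
  obtain ⟨q3, hq3⟩ : ∃ q, q = b0.length + c0.length + b1.length := ⟨_, rfl⟩
  obtain ⟨q4, hq4⟩ : ∃ q, q = b0.length + c0.length + b1.length + c1.length := ⟨_, rfl⟩
  obtain ⟨q5, hq5⟩ : ∃ q, q = b0.length + c0.length + b1.length + c1.length + b2.length := ⟨_, rfl⟩
  obtain ⟨r1, hr1⟩ : ∃ q, q = b0'.length := ⟨_, rfl⟩
  obtain ⟨r2, hr2⟩ : ∃ q, q = b0'.length + c0'.length := ⟨_, rfl⟩
  obtain ⟨r3, hr3⟩ : ∃ q, q = b0'.length + c0'.length + b1'.length := ⟨_, rfl⟩
  obtain ⟨r4, hr4⟩ : ∃ q, q = b0'.length + c0'.length + b1'.length + c1'.length := ⟨_, rfl⟩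
  obtain ⟨r5, hr5⟩ : ∃ q, q = b0'.length + c0'.length + b1'.length + c1'.length + b2'.length := ⟨_, rfl⟩
  rw [← hq5, ← hq4, ← hq3, ← hq2, ← hq1] at F
  rw [← hr5, ← hr4, ← hr3, ← hr2, ← hr1] at F'
  rw [← hq1] at p0
  rw [← hq2, ← hq1] at p1
  rw [← hq3, ← hq2] at p2
  rw [← hq4, ← hq3] at p3
  rw [← hq5, ← hq4] at p4
  rw [← hq5] at p5
  obtain ⟨A1, ⟨A2, A3⟩, ⟨A4, A5⟩, ⟨A6, A7⟩, A8⟩ := P11.loc_all he F F'
  obtain ⟨B1, ⟨B2, B3⟩, ⟨B4, B5⟩, ⟨B6, B7⟩, B8⟩ := P11.loc_all he F' F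
  have s1 := F.t0.hbc
  have s2 := F.t1.hab
  have s3 := F.t1.hbc
  have s4 := F.t2.hab
  have s5 := F.t2.hbc
  have s1' := F'.t0.hbc
  have s2' := F'.t1.hab
  have s3' := F'.t1.hbc
  have s4' := F'.t2.hab
  have s5' := F'.t2.hbc
  have x6 : (1 : ℤ) ≤ e := by exact_mod_cast he
  have hK1 : 1 ≤ K := by omega
  have d0 := P11.e0_mem
  have d1 : rr e0 ∈ dirs := P11.rr_mem d0
  have d2 : rr (rr e0) ∈ dirs := P11.rr_mem d1
  have hr : rr (rr (rr e0)) = e0 := P11.rrr e0
  -- the heights of the bridges in the previous direction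
  have hE3 : ∀ {d : Pt} {a b c k : ℕ}, P11.Tr K e (vx m up W) (dx up W) d a b c → a < k → k ≤ b →
      (9 * e : ℤ) < ip (vx m up W k) (rr (rr d)) := by
    intro d a b c k T k1 k2
    have x1 := T.box k k1.le k2
    have x2 := (T.br k k1 k2).2
    have x3 := T.ub.2.2.1
    have x4 := P11.two_rrr (vx m up W k) d
    linarith
  have C1 := P11.up_case hK1 he d0 (hda := rfl) (by omega) F.t0 F'.t0 (Nat.zero_le _) A1 (Nat.zero_le _) B1
    (fun k k1 k2 => by omega)
    (fun k k1 k2 => by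
      have y1 := hE3 F'.t1 k1 (by omega)
      rw [hr] at y1
      have y2 := F'.t0.ub.2.2.1
      linarith)
  have C2 := P11.low_case hK1 he d0 (by omega) F.t0 F.t1 F'.t0 F'.t1 A2.le A3 B2.le B3 (Nat.zero_le _) B5
  have C3 := P11.up_case hK1 he d1 (hda := F.t0.dc) (by omega) F.t1 F'.t1 A4.le A5 B4.le B5
    (fun k k1 k2 => by
      have y1 := (F'.t0.we k (by omega) k2).2.2
      have y2 := F'.t0.lc.2.2.1
      have y3 := F'.t1.ub.2.1
      linarith)
    (fun k k1 k2 => by
      have y1 := hE3 F'.t2 k1 (by omega)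
      rw [hr] at y1
      have y2 := F'.t1.ub.2.2.1
      linarith)
  have C4 := P11.low_case hK1 he d1 (by omega) F.t1 F.t2 F'.t1 F'.t2 A6.le A7 B6.le B7 (by omega) s5
  have C5 := P11.up_case hK1 he d2 (hda := F.t1.dc) le_rfl F.t2 F'.t2 A8.le s5' B8.le s5
    (fun k k1 k2 => by
      have y1 := (F'.t1.we k (by omega) k2).2.2
      have y2 := F'.t1.lc.2.2.1
      have y3 := F'.t2.ub.2.1
      linarith)
    (fun k k1 k2 => by omega)
  rw [p0, p1, Nat.sub_zero] at C1
  rw [p1, p2] at C2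
  rw [p2, p3] at C3
  rw [p3, p4] at C4
  rw [p4, p5] at C5
  rw [← hq4, ← hr4, ← hq3, ← hr3, ← hq2, ← hr2, ← hq1, ← hr1]
  refine ⟨C1, C2, ?_, C4, ?_⟩
  · rcases C3 with C3 | C3
    · exact Or.inl ⟨C3.1, A4.le, C3.2⟩
    · exact Or.inr C3
  · rcases C5 with ⟨C5, C6⟩ | ⟨C5, C6⟩
    · left
      have z1 : b2.length + c2.length - c2'.length = r5 - q4 := by omega
      rw [z1]
      exact ⟨by omega, C6, by omega⟩
    · right
      have z1 : c2.length - c2'.length = r5 - q5 := by omega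
      rw [z1]
      exact ⟨by omega, C6⟩


end RP

end HexObs
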