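import Pool.Agent.RSWP.DefsP

/-!
RSWP, module P12: another root of direction e0 of a decomposed polygon is a cut of the first bridge or of the last
wedge walk.
-/

set_option autoImplicit false

namespace HexObs

namespace RP

open Finset ENNReal

namespace Root

/-! ### pieces of words -/

lemma vx_cat2 (v d : Pt) (s t : List Bool) (j : ℕ) :
    vx v d (s ++ t) (s.length + j) = vx (vx v d s s.length) (dx d s s.length) t j := by
  have h1 : vx v d (s ++ t) (s.length + j) = vx (vx v d (s ++ t) s.length) (dx d (s ++ t) s.length) t j := by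
    unfold vx dx
    rw [vs_shift]
    exact vs_congr _ fun k _ => tf_append_right k
  rw [h1, vx_append (by omega), dx_append le_rfl]

lemma dx_cat2 (d : Pt) (s t : List Bool) (j : ℕ) :
    dx d (s ++ t) (s.length + j) = dx (dx d s s.length) t j := by
  have h1 : dx d (s ++ t) (s.length + j) = dx (dx d (s ++ t) s.length) t j := by
    unfold dx
    rw [ds_shift]
    exact ds_congr _ fun k _ => tf_append_right k
  rw [h1, dx_append le_rfl]

lemma vx_take (v d : Pt) (W : List Bool) {s i : ℕ} (hs : s ≤ W.length) (hi : i ≤ s + 1) :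
    vx v d (W.take s) i = vx v d W i := by
  have h1 : (W.take s).length = s := by rw [List.length_take]; omega
  have h := vx_append (v0 := v) (d0 := d) (t := W.take s) (s := W.drop s) (i := i) (by omega)
  rw [List.take_append_drop] at h
  exact h.symm

lemma dx_take (d : Pt) (W : List Bool) {s i : ℕ} (hs : s ≤ W.length) (hi : i ≤ s) :
    dx d (W.take s) i = dx d W i := by
  have h1 : (W.take s).length = s := by rw [List.length_take]; omega
  have h := dx_append (d0 := d) (t := W.take s) (s := W.drop s) (i := i) (by omega)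
  rw [List.take_append_drop] at h
  exact h.symm

lemma vx_drop (v d : Pt) (W : List Bool) {s : ℕ} (hs : s ≤ W.length) (j : ℕ) :
    vx (vx v d W s) (dx d W s) (W.drop s) j = vx v d W (s + j) := by
  have h1 : (W.take s).length = s := by rw [List.length_take]; omega
  have h := vx_cat2 v d (W.take s) (W.drop s) j
  rw [List.take_append_drop, h1, vx_take v d W hs (by omega), dx_take d W hs le_rfl] at h
  exact h.symm

lemma dx_drop (d : Pt) (W : List Bool) {s : ℕ} (hs : s ≤ W.length) (j : ℕ) :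
    dx (dx d W s) (W.drop s) j = dx d W (s + j) := by
  have h1 : (W.take s).length = s := by rw [List.length_take]; omega
  have h := dx_cat2 d (W.take s) (W.drop s) j
  rw [List.take_append_drop, h1, dx_take d W hs le_rfl] at h
  exact h.symm

/-! ### frames -/

lemma frame {d : Pt} (hd : d ∈ dirs) : ∃ u : Pt, nrm u = 1 ∧ mulE u up = d :=
  ⟨rotTo up d, nrm_rotTo upd hd, rotTo_apply d upd⟩

lemma vx_frame (u m : Pt) (t : List Bool) (i : ℕ) : vx m (mulE u up) t i = m + mulE u (vx oo up t i) := by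
  rw [vx_mulE u oo m up t i]
  congr 2
  exact sub_zero _

lemma rr_mulE (u p : Pt) : rr (mulE u p) = mulE u (rr p) := by
  simp only [rr, rotR, mulE]
  refine Prod.ext ?_ ?_
  · ring
  · ring

lemma ip_vx {d : Pt} (hd : d ∈ dirs) (m : Pt) (t : List Bool) (i : ℕ) : ip (vx m d t i) d = ip m d + lev t i := by
  obtain ⟨u, hu, rfl⟩ := frame hd
  rw [vx_frame, ip_add_left, ip_mulE, hu, one_mul]
  rfl

lemma ip_rr {d : Pt} (hd : d ∈ dirs) (m : Pt) (t : List Bool) (i : ℕ) :
    ip (vx m d t i) (rr d) = ip m (rr d) + ip (vx oo up t i) (rr up) := by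
  obtain ⟨u, hu, rfl⟩ := frame hd
  rw [vx_frame, ip_add_left, rr_mulE, ip_mulE, hu, one_mul]

lemma dx_frame {d : Pt} (hd : d ∈ dirs) {t : List Bool} {i : ℕ} : dx d t i = d ↔ dx up t i = up := by
  obtain ⟨u, hu, rfl⟩ := frame hd
  rw [dx_mulE]
  exact ⟨fun h => mulE_inj hu h, fun h => by rw [h]⟩

lemma dx_frame_rr {d : Pt} (hd : d ∈ dirs) {t : List Bool} {i : ℕ} : dx d t i = rr d ↔ dx up t i = rr up := by
  obtain ⟨u, hu, rfl⟩ := frame hd
  rw [dx_mulE, rr_mulE]
  exact ⟨fun h => mulE_inj hu h, fun h => by rw [h]⟩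

lemma vx_ne {d : Pt} (hd : d ∈ dirs) (m : Pt) {t : List Bool} {i k : ℕ} (h : vx oo up t i ≠ vx oo up t k) :
    vx m d t i ≠ vx m d t k := by
  obtain ⟨u, hu, rfl⟩ := frame hd
  rw [vx_frame, vx_frame]
  intro h1
  exact h (mulE_inj hu (add_left_cancel h1))

lemma vx_ne' {d : Pt} (hd : d ∈ dirs) (m : Pt) {t : List Bool} {i k : ℕ} (h : vx m d t i ≠ vx m d t k) :
    vx oo up t i ≠ vx oo up t k := by
  obtain ⟨u, hu, rfl⟩ := frame hd
  intro h1
  exact h (by rw [vx_frame, vx_frame, h1])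

/-- a walk between its first and its last level is a bridge -/
lemma brd_of_walk {d : Pt} (hd : d ∈ dirs) (v : Pt) {t : List Bool}
    (h1 : ∀ i, 1 ≤ i → i ≤ t.length → ip v d < ip (vx v d t i) d ∧ ip (vx v d t i) d ≤ ip (vx v d t t.length) d)
    (h2 : ∀ i k, i < k → k ≤ t.length → vx v d t i ≠ vx v d t k) (h3 : dx d t t.length = d) :
    ∃ j : ℕ, t ∈ Brd j ∧ ip (vx v d t t.length) d = ip v d + 3 * j := by
  have h3' : dx up t t.length = up := (dx_frame hd).1 h3
  have he : Even t.length := by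
    by_contra he
    have h4 := cl_dx up t t.length
    rw [h3', if_neg he] at h4
    revert h4
    decide
  have h5 := lev_mod t t.length
  rw [if_pos he, sub_zero] at h5
  have h6 : 0 ≤ lev t t.length := by
    rcases Nat.eq_zero_or_pos t.length with h | h
    · rw [h, lev_zero]
    · have := (h1 t.length h le_rfl).1
      rw [ip_vx hd] at this
      omega
  obtain ⟨j, hj⟩ := h5
  obtain ⟨j', rfl⟩ : ∃ j' : ℕ, j = (j' : ℤ) := ⟨j.toNat, by omega⟩
  refine ⟨j', ?_, by rw [ip_vx hd, hj]⟩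
  rw [mem_Brd]
  refine ⟨?_, fun i k hik hk => vx_ne' hd v (h2 i k hik hk), h3', hj⟩
  intro i hi hl
  have h7 := h1 i hi hl
  rw [ip_vx hd, ip_vx hd] at h7
  omega

/-! ### the bridges -/

lemma bp_facts {K e : ℕ} {d m n : Pt} {b : List Bool} (hd : d ∈ dirs) (h : BP K e d m n b) :
    (∀ i, i ≤ b.length → ip m d ≤ ip (vx m d b i) d ∧ ip (vx m d b i) d ≤ ip n d) ∧ dx d b b.length = d := by
  obtain ⟨_, _, ⟨t, ht⟩, hn, _⟩ := h
  obtain ⟨h1, _, h3, h4⟩ := mem_Brd.1 ht
  refine ⟨?_, (dx_frame hd).2 h3⟩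
  intro i hi
  rw [← hn, ip_vx hd, ip_vx hd]
  rcases Nat.eq_zero_or_pos i with rfl | hi'
  · rw [lev_zero]
    rcases Nat.eq_zero_or_pos b.length with h | h
    · rw [h, lev_zero]
      omega
    · have := h1 b.length h le_rfl
      omega
  · have := h1 i hi' hi
    omega

/-! ### the wedge walks -/

lemma gE_spec {T L r : ℕ} {c : List Bool} : c ∈ Tube.gE upd oo true T L r ↔
    ((∀ i, 1 ≤ i → i ≤ c.length → (0 < lev c i ∧ lev c i < 3 * T + 2) ∧ ip (vx oo up c i) (rotL up) < 3 * L ∧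
      ip (vx oo up c i) (rr up) < 3 * r - 1) ∧
    (∀ i k, i < k → k ≤ c.length → vx oo up c i ≠ vx oo up c k)) ∧
    tip oo up c ∉ Tube.dm oo up true T L r ∧ dx up c c.length = rr up := by
  unfold Tube.gE
  rw [Finset.mem_filter, mem_exits, Tube.mem_dF]
  constructor
  · rintro ⟨⟨⟨h1, h2⟩, h3⟩, h4⟩
    refine ⟨⟨?_, h2⟩, h3, h4⟩
    intro i hi hl
    have h5 := (Tube.mem_dF upd).1 (h1 i hi hl)
    obtain ⟨⟨_, h6, h7⟩, h8, h9⟩ := h5
    rw [lev_sub] at h6 h7
    have e1 : vx oo up c i - oo = vx oo up c i := sub_zero _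
    rw [e1] at h8 h9
    exact ⟨⟨h6, h7⟩, h8, h9⟩
  · rintro ⟨⟨h1, h2⟩, h3, h4⟩
    refine ⟨⟨⟨?_, h2⟩, h3⟩, h4⟩
    intro i hi hl
    obtain ⟨⟨h6, h7⟩, h8, h9⟩ := h1 i hi hl
    have e1 : vx oo up c i - oo = vx oo up c i := sub_zero _
    refine (Tube.mem_dF upd).2 ⟨⟨vx_hex oo up c i, ?_, ?_⟩, ?_, ?_⟩
    · rw [lev_sub]
      exact h6
    · rw [lev_sub]
      exact h7
    · rw [e1]
      exact h8
    · rw [e1]
      exact h9

/-- levels with respect to the normal of the gate -/
lemma gE_facts {T L r : ℕ} {c : List Bool} (hT : 1 ≤ T) (hr : 1 ≤ r) (h : c ∈ Tube.gE upd oo true T L r) :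
    1 ≤ c.length ∧ 1 ≤ L ∧ ip (vx oo up c c.length) (rr up) = 3 * r - 3 ∧
      ∀ i, 1 ≤ i → i ≤ c.length → ip (vx oo up c i) (rr up) ≤ 3 * r - 3 := by
  obtain ⟨⟨h1, _⟩, h3, h4⟩ := gE_spec.1 h
  have hc : 1 ≤ c.length := by
    by_contra hc
    have : c = [] := List.eq_nil_of_length_eq_zero (by omega)
    subst this
    have h5 : up = rr up := h4
    revert h5
    decide
  have hL : 1 ≤ L := by
    have h5 := (h1 1 le_rfl hc).2.1
    have h6 : vx oo up c 1 = up := by
      rw [vx_succ]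
      show oo + up = up
      decide
    rw [h6] at h5
    have h7 : ip up (rotL up) = 1 := by decide
    omega
  have hex := (Finset.mem_filter.1 h).1
  have htip : ip (tip oo up c) (rr up) = 3 * r - 1 := by
    rcases Tube.dm_exit upd true hT hL hr hex with ⟨h5, _⟩ | ⟨h5, _⟩ | ⟨h5, _⟩ | ⟨_, h5⟩
    · rw [h4] at h5
      exact absurd h5 (by decide)
    · rw [h4] at h5
      exact absurd h5 (by decide)
    · rw [h4] at h5
      exact absurd h5 (by decide)
    · have e1 : tip oo up c - oo = tip oo up c := sub_zero _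
      rw [e1] at h5
      exact h5
  have hlast : ip (vx oo up c c.length) (rr up) = 3 * r - 3 := by
    have h5 : tip oo up c = vx oo up c c.length + dx up c c.length := vx_succ _ _ _ _
    rw [h5, h4, ip_add_left] at htip
    have h6 : ip (rr up) (rr up) = 2 := by decide
    omega
  refine ⟨hc, hL, hlast, ?_⟩
  intro i hi hl
  have hm : vx oo up c i ∈ Tube.dm oo up true T L r := by
    obtain ⟨⟨h6, h7⟩, h8, h9⟩ := h1 i hi hl
    have e1 : vx oo up c i - oo = vx oo up c i := sub_zero _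
    refine ⟨⟨vx_hex oo up c i, ?_, ?_⟩, ?_, ?_⟩
    · rw [lev_sub]
      exact h6
    · rw [lev_sub]
      exact h7
    · rw [e1]
      exact h8
    · rw [e1]
      exact h9
  obtain ⟨hx, hs⟩ := (Tube.dmS_iff upd true T L r _).1 hm
  have hmem : (Tube.gb oo up true r, Tube.gn true up) ∈ Tube.dmS oo up true T L r := by simp [Tube.dmS]
  have h5 := side_ge (Tube.dmS_side upd true T L r _ hmem) hx (hs _ hmem)
  have h6 := Tube.gb_ip (v0 := oo) upd true r (vx oo up c i)
  have e1 : vx oo up c i - oo = vx oo up c i := sub_zero _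
  rw [e1] at h6
  have h7 : Tube.gc true r = 3 * r - 1 := rfl
  have h8 : Tube.gn true up = rr up := rfl
  rw [h7, h8] at h6
  rw [h8] at h5
  have h9 : 2 ≤ ip (Tube.gb oo up true r - vx oo up c i) (rr up) := h5
  omega

lemma cp_facts {K e L : ℕ} {d n m : Pt} {c : List Bool} (hd : d ∈ dirs) (hKe : 1 ≤ K * e) (h : CP K e L d n m c) :
    (∀ i, 1 ≤ i → i ≤ c.length → ip n d < ip (vx n d c i) d ∧ ip (vx n d c i) (rr d) ≤ ip m (rr d)) ∧
      dx d c c.length = rr d := by
  obtain ⟨_, _, ⟨r, hr, hc⟩, hm⟩ := h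
  obtain ⟨_, _, h3, h4⟩ := gE_facts hKe (by omega) hc
  obtain ⟨⟨h1, _⟩, _, h5⟩ := gE_spec.1 hc
  refine ⟨?_, (dx_frame_rr hd).2 h5⟩
  intro i hi hl
  constructor
  · rw [ip_vx hd]
    have := (h1 i hi hl).1.1
    omega
  · rw [← hm, ip_rr hd, ip_rr hd, h3]
    have := h4 i hi hl
    omega

/-! ### coordinates -/

lemma ip_e0 (v : Pt) : ip v e0 = v.1 + 2 * v.2 := by
  simp only [ip, e0]
  ring

lemma ip_e1 (v : Pt) : ip v e1 = v.1 - v.2 := by
  simp only [ip, e1]
  ring

lemma ip_e2 (v : Pt) : ip v e2 = -2 * v.1 - v.2 := by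
  simp only [ip, e2]
  ring

lemma cross_e0 (v : Pt) : cross e0 v = -v.1 := by
  simp only [cross, e0]
  ring

lemma cross_e1 (v : Pt) : cross e1 v = v.1 + v.2 := by
  simp only [cross, e1]
  ring

lemma cross_e2 (v : Pt) : cross e2 v = -v.2 := by
  simp only [cross, e2]
  ring

lemma rr_e0 : rr e0 = e1 := rfl
lemma rr_e1 : rr e1 = e2 := rfl
lemma rr_e2 : rr e2 = e0 := rfl
lemma d0m : e0 ∈ dirs := by decide
lemma d1m : e1 ∈ dirs := by decide
lemma d2m : e2 ∈ dirs := by decide

/-- the regions of the six pieces, V = vertices, p1, …, p5, n = ends of the pieces -/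
structure SixF (K e : ℕ) (V : ℕ → Pt) (p1 p2 p3 p4 p5 n : ℕ) : Prop where
  o1 : p1 ≤ p2
  o2 : p2 ≤ p3
  o3 : p3 ≤ p4
  o4 : p4 ≤ p5
  o5 : p5 ≤ n
  low : -(9 * e : ℤ) ≤ (V 0).1 + 2 * (V 0).2 ∧ (V 0).1 + 2 * (V 0).2 ≤ -(6 * e : ℤ) ∧ (13 * e : ℤ) ≤ -(V 0).1
  b0 : ∀ i, i ≤ p1 → (12 * e : ℤ) ≤ -(V i).1 ∧ (V i).1 + 2 * (V i).2 ≤ 9 * e ∧
    (V 0).1 + 2 * (V 0).2 ≤ (V i).1 + 2 * (V i).2
  b0' : ∀ i, 1 ≤ i → i ≤ p1 → (V 0).1 + 2 * (V 0).2 < (V i).1 + 2 * (V i).2
  c0 : ∀ i, p1 < i → i ≤ p2 → (6 * e : ℤ) < (V i).1 + 2 * (V i).2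
  b1 : ∀ i, p2 ≤ i → i ≤ p3 → (12 * e : ℤ) ≤ (V i).1 + (V i).2 ∧ (V i).1 - (V i).2 ≤ 9 * e
  c1 : ∀ i, p3 < i → i ≤ p4 → (6 * e : ℤ) < (V i).1 - (V i).2
  b2 : ∀ i, p4 ≤ i → i ≤ p5 → (12 * e : ℤ) ≤ -(V i).2 ∧ -(9 * e : ℤ) ≤ -2 * (V i).1 - (V i).2
  c2 : ∀ i, p5 < i → i ≤ n → (6 * e : ℤ) < -2 * (V i).1 - (V i).2 ∧ (V i).1 + 2 * (V i).2 ≤ (V 0).1 + 2 * (V 0).2
  m1 : -(9 * e : ℤ) ≤ (V p2).1 - (V p2).2 ∧ (13 * e : ℤ) ≤ (V p2).1 + (V p2).2
  m2 : -2 * (V p4).1 - (V p4).2 ≤ -(6 * e : ℤ)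

/-- the position of the second root -/
lemma loc {K e : ℕ} (he : 1 ≤ e) {V V' : ℕ → Pt} {p1 p2 p3 p4 p5 n q1 q2 q3 q4 q5 k : ℕ}
    (h : SixF K e V p1 p2 p3 p4 p5 n) (h' : SixF K e V' q1 q2 q3 q4 q5 n) (hk : k < n)
    (hV : ∀ j, j ≤ n - k → V' j = V (k + j)) (hV' : ∀ i, i ≤ k → V' (n - k + i) = V i) :
    (k ≤ p1 ∧ (∀ i, i ≤ k → (V i).1 + 2 * (V i).2 ≤ (V k).1 + 2 * (V k).2) ∧
      ∀ i, k < i → i ≤ p1 → (V k).1 + 2 * (V k).2 < (V i).1 + 2 * (V i).2) ∨
    (p5 < k ∧ (∀ i, p5 < i → i ≤ k → (V i).1 + 2 * (V i).2 ≤ (V k).1 + 2 * (V k).2) ∧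
      ∀ i, k < i → i ≤ n → (V k).1 + 2 * (V k).2 < (V i).1 + 2 * (V i).2) := by
  have h0 : V' 0 = V k := by
    have := hV 0 (by omega)
    rwa [add_zero] at this
  have hl := h'.low
  rw [h0] at hl
  obtain ⟨l1, l2, l3⟩ := hl
  have o1 := h.o1
  have o2 := h.o2
  have o3 := h.o3
  have o4 := h.o4
  have o5 := h.o5
  have r1 := h'.o1
  have r2 := h'.o2
  have r3 := h'.o3
  have r4 := h'.o4
  have r5 := h'.o5
  -- vertices behind k
  have fwd : ∀ j, 1 ≤ j → j ≤ q2 → (V k).1 + 2 * (V k).2 < (V' j).1 + 2 * (V' j).2 := by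
    intro j h1 h2
    rcases Nat.lt_or_ge q1 j with h3 | h3
    · have := h'.c0 j h3 h2
      omega
    · have := h'.b0' j h1 h3
      rw [h0] at this
      exact this
  -- vertices before k
  have bwd : ∀ j, q4 ≤ j → j ≤ n → (V' j).1 + 2 * (V' j).2 ≤ (V k).1 + 2 * (V k).2 := by
    intro j h1 h2
    rcases Nat.lt_or_ge q5 j with h3 | h3
    · have := (h'.c2 j h3 h2).2
      rw [h0] at this
      exact this
    · have := h'.b2 j h1 h3
      omega
  have hloc : k ≤ p1 ∨ p5 < k := by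
    by_contra hc
    push Not at hc
    obtain ⟨hc1, hc2⟩ := hc
    rcases Nat.lt_or_ge p2 k with g1 | g1
    · rcases Nat.lt_or_ge p3 k with g2 | g2
      · rcases Nat.lt_or_ge p4 k with g3 | g3
        · have := h.b2 k g3.le hc2
          omega
        · have := h.c1 k g2 g3
          omega
      · have := h.b1 k g1.le g2
        omega
    · have := h.c0 k hc1 g1
      omega
  rcases hloc with hkp | hkp
  · left
    refine ⟨hkp, ?_, ?_⟩
    · intro i hi
      have hq : q4 < n - k := by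
        by_contra hq
        have e1 := hV' (q4 - (n - k)) (by omega)
        have e2 : n - k + (q4 - (n - k)) = q4 := by omega
        rw [e2] at e1
        have g1 := h'.m2
        rw [e1] at g1
        have g2 := h.b0 (q4 - (n - k)) (by omega)
        have g3 := h.low
        omega
      have := bwd (n - k + i) (by omega) (by omega)
      rw [hV' i hi] at this
      exact this
    · intro i hi hi2
      have hq : p1 - k < q2 := by
        by_contra hq
        have e1 := hV q2 (by omega)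
        have g1 := h'.m1
        rw [e1] at g1
        have g2 := h.b0 (k + q2) (by omega)
        have g3 := h.low
        omega
      have := fwd (i - k) (by omega) (by omega)
      rw [hV (i - k) (by omega)] at this
      have e3 : k + (i - k) = i := by omega
      rw [e3] at this
      exact this
  · right
    refine ⟨hkp, ?_, ?_⟩
    · intro i hi1 hi
      have hq : q4 < n - k + i := by
        by_contra hq
        have e1 := hV' (q4 - (n - k)) (by omega)
        have e2 : n - k + (q4 - (n - k)) = q4 := by omega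
        rw [e2] at e1
        have g1 := h'.m2
        rw [e1] at g1
        have g2 := h.c2 (q4 - (n - k)) (by omega) (by omega)
        omega
      have := bwd (n - k + i) (by omega) (by omega)
      rw [hV' i hi] at this
      exact this
    · intro i hi hi2
      have hq : n - k < q2 := by
        by_contra hq
        have e1 := hV q2 (by omega)
        have g1 := h'.m1
        rw [e1] at g1
        have g2 := h.c2 (k + q2) (by omega) (by omega)
        omega
      have := fwd (i - k) (by omega) (by omega)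
      rw [hV (i - k) (by omega)] at this
      have e3 : k + (i - k) = i := by omega
      rw [e3] at this
      exact this

/-- the six pieces in the plane -/
lemma dec_six {K e L : ℕ} (hKe : 1 ≤ K * e) {m : Pt} {b0 c0 b1 c1 b2 c2 : List Bool}
    (h : Dec K e L m (b0, c0, b1, c1, b2, c2)) :
    SixF K e (vx m up (b0 ++ (c0 ++ (b1 ++ (c1 ++ (b2 ++ c2)))))) b0.length (b0.length + c0.length)
      (b0.length + c0.length + b1.length) (b0.length + c0.length + b1.length + c1.length)
      (b0.length + c0.length + b1.length + c1.length + b2.length)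
      (b0.length + c0.length + b1.length + c1.length + b2.length + c2.length) ∧
    BP K e e0 m (vx m up b0 b0.length) b0 ∧
    ∃ n2 : Pt, CP K e L e2 n2 m c2 ∧
      (∀ j, vx m up (b0 ++ (c0 ++ (b1 ++ (c1 ++ (b2 ++ c2)))))
        (b0.length + c0.length + b1.length + c1.length + b2.length + j) = vx n2 e2 c2 j) ∧
      ∀ j, dx up (b0 ++ (c0 ++ (b1 ++ (c1 ++ (b2 ++ c2)))))
        (b0.length + c0.length + b1.length + c1.length + b2.length + j) = dx e2 c2 j := by
  obtain ⟨n0, m1, n1, m2, n2, hb0, hc0, hb1, hc1, hb2, hc2⟩ := h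
  simp only [] at hb0 hc0 hb1 hc1 hb2 hc2
  have B0 := bp_facts d0m hb0
  have B1 := bp_facts d1m hb1
  have B2 := bp_facts d2m hb2
  have C0 := cp_facts d0m hKe hc0
  have C1 := cp_facts d1m hKe hc1
  have C2 := cp_facts d2m hKe hc2
  have v1 : ∀ j, vx m up (b0 ++ (c0 ++ (b1 ++ (c1 ++ (b2 ++ c2))))) (b0.length + j) =
      vx n0 e0 (c0 ++ (b1 ++ (c1 ++ (b2 ++ c2)))) j := by
    intro j
    rw [vx_cat2]
    have a1 : vx m up b0 b0.length = n0 := hb0.2.2.2.1
    have a2 : dx up b0 b0.length = e0 := B0.2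
    rw [a1, a2]
  have w1 : ∀ j, dx up (b0 ++ (c0 ++ (b1 ++ (c1 ++ (b2 ++ c2))))) (b0.length + j) =
      dx e0 (c0 ++ (b1 ++ (c1 ++ (b2 ++ c2)))) j := by
    intro j
    rw [dx_cat2]
    have a2 : dx up b0 b0.length = e0 := B0.2
    rw [a2]
  have v2 : ∀ j, vx m up (b0 ++ (c0 ++ (b1 ++ (c1 ++ (b2 ++ c2))))) (b0.length + c0.length + j) =
      vx m1 e1 (b1 ++ (c1 ++ (b2 ++ c2))) j := by
    intro j
    rw [add_assoc, v1, vx_cat2]
    have a1 : vx n0 e0 c0 c0.length = m1 := hc0.2.2.2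
    have a2 : dx e0 c0 c0.length = e1 := C0.2
    rw [a1, a2]
  have w2 : ∀ j, dx up (b0 ++ (c0 ++ (b1 ++ (c1 ++ (b2 ++ c2))))) (b0.length + c0.length + j) =
      dx e1 (b1 ++ (c1 ++ (b2 ++ c2))) j := by
    intro j
    rw [add_assoc, w1, dx_cat2]
    have a2 : dx e0 c0 c0.length = e1 := C0.2
    rw [a2]
  have v3 : ∀ j, vx m up (b0 ++ (c0 ++ (b1 ++ (c1 ++ (b2 ++ c2))))) (b0.length + c0.length + b1.length + j) =
      vx n1 e1 (c1 ++ (b2 ++ c2)) j := by
    intro j
    rw [add_assoc, v2, vx_cat2]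
    have a1 : vx m1 e1 b1 b1.length = n1 := hb1.2.2.2.1
    have a2 : dx e1 b1 b1.length = e1 := B1.2
    rw [a1, a2]
  have w3 : ∀ j, dx up (b0 ++ (c0 ++ (b1 ++ (c1 ++ (b2 ++ c2))))) (b0.length + c0.length + b1.length + j) =
      dx e1 (c1 ++ (b2 ++ c2)) j := by
    intro j
    rw [add_assoc, w2, dx_cat2]
    have a2 : dx e1 b1 b1.length = e1 := B1.2
    rw [a2]
  have v4 : ∀ j, vx m up (b0 ++ (c0 ++ (b1 ++ (c1 ++ (b2 ++ c2)))))
      (b0.length + c0.length + b1.length + c1.length + j) = vx m2 e2 (b2 ++ c2) j := by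
    intro j
    rw [add_assoc, v3, vx_cat2]
    have a1 : vx n1 e1 c1 c1.length = m2 := hc1.2.2.2
    have a2 : dx e1 c1 c1.length = e2 := C1.2
    rw [a1, a2]
  have w4 : ∀ j, dx up (b0 ++ (c0 ++ (b1 ++ (c1 ++ (b2 ++ c2)))))
      (b0.length + c0.length + b1.length + c1.length + j) = dx e2 (b2 ++ c2) j := by
    intro j
    rw [add_assoc, w3, dx_cat2]
    have a2 : dx e1 c1 c1.length = e2 := C1.2
    rw [a2]
  have v5 : ∀ j, vx m up (b0 ++ (c0 ++ (b1 ++ (c1 ++ (b2 ++ c2)))))
      (b0.length + c0.length + b1.length + c1.length + b2.length + j) = vx n2 e2 c2 j := by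
    intro j
    rw [add_assoc, v4, vx_cat2]
    have a1 : vx m2 e2 b2 b2.length = n2 := hb2.2.2.2.1
    have a2 : dx e2 b2 b2.length = e2 := B2.2
    rw [a1, a2]
  have w5 : ∀ j, dx up (b0 ++ (c0 ++ (b1 ++ (c1 ++ (b2 ++ c2)))))
      (b0.length + c0.length + b1.length + c1.length + b2.length + j) = dx e2 c2 j := by
    intro j
    rw [add_assoc, w4, dx_cat2]
    have a2 : dx e2 b2 b2.length = e2 := B2.2
    rw [a2]
  have v0 : ∀ i, i ≤ b0.length → vx m up (b0 ++ (c0 ++ (b1 ++ (c1 ++ (b2 ++ c2))))) i = vx m e0 b0 i :=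
    fun i hi => vx_append (by omega)
  have lm := hb0.1
  obtain ⟨_, l1, l2, l3, l4⟩ := lm
  obtain ⟨_, u1, u2, u3, u4⟩ := hb0.2.1
  obtain ⟨_, x1, x2, x3, x4⟩ := hb1.1
  obtain ⟨_, y1, y2, y3, y4⟩ := hb1.2.1
  obtain ⟨_, z1, z2, z3, z4⟩ := hb2.1
  obtain ⟨_, t1, t2, t3, t4⟩ := hb2.2.1
  rw [ip_e0] at l1 l2 u1 u2
  rw [ip_e1] at x1 x2 y1 y2
  rw [ip_e2] at z1 z2 t1 t2
  rw [cross_e0] at l3 l4 u3 u4
  rw [cross_e1] at x3 x4 y3 y4
  rw [cross_e2] at z3 z4 t3 t4
  have hz : vx m up (b0 ++ (c0 ++ (b1 ++ (c1 ++ (b2 ++ c2))))) 0 = m := rfl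
  refine ⟨⟨by omega, by omega, by omega, by omega, by omega, ?_, ?_, ?_, ?_, ?_, ?_, ?_, ?_, ?_, ?_⟩, ?_,
    n2, hc2, v5, w5⟩
  · rw [hz]
    exact ⟨l1, l2, l3⟩
  · intro i hi
    rw [hz, v0 i hi]
    have g1 := (hb0.2.2.2.2 i hi).1
    have g2 := B0.1 i hi
    rw [cross_e0] at g1
    rw [ip_e0, ip_e0, ip_e0] at g2
    omega
  · intro i hi1 hi
    rw [hz, v0 i hi]
    obtain ⟨t, ht⟩ := hb0.2.2.1
    have g1 := ((mem_Brd.1 ht).1 i hi1 hi).1
    have g2 := ip_vx d0m m b0 i
    rw [ip_e0, ip_e0] at g2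
    omega
  · intro i hi1 hi2
    obtain ⟨j, rfl⟩ : ∃ j, i = b0.length + j := ⟨i - b0.length, by omega⟩
    rw [v1, vx_append (by omega)]
    have g1 := (C0.1 j (by omega) (by omega)).1
    rw [ip_e0, ip_e0] at g1
    omega
  · intro i hi1 hi2
    obtain ⟨j, rfl⟩ : ∃ j, i = b0.length + c0.length + j := ⟨i - (b0.length + c0.length), by omega⟩
    rw [v2, vx_append (by omega)]
    have g1 := (hb1.2.2.2.2 j (by omega)).1
    have g2 := (B1.1 j (by omega)).2
    rw [cross_e1] at g1
    rw [ip_e1, ip_e1] at g2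
    omega
  · intro i hi1 hi2
    obtain ⟨j, rfl⟩ : ∃ j, i = b0.length + c0.length + b1.length + j :=
      ⟨i - (b0.length + c0.length + b1.length), by omega⟩
    rw [v3, vx_append (by omega)]
    have g1 := (C1.1 j (by omega) (by omega)).1
    rw [ip_e1, ip_e1] at g1
    omega
  · intro i hi1 hi2
    obtain ⟨j, rfl⟩ : ∃ j, i = b0.length + c0.length + b1.length + c1.length + j :=
      ⟨i - (b0.length + c0.length + b1.length + c1.length), by omega⟩
    rw [v4, vx_append (by omega)]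
    have g1 := (hb2.2.2.2.2 j (by omega)).1
    have g2 := (B2.1 j (by omega)).1
    rw [cross_e2] at g1
    rw [ip_e2, ip_e2] at g2
    omega
  · intro i hi1 hi2
    obtain ⟨j, rfl⟩ : ∃ j, i = b0.length + c0.length + b1.length + c1.length + b2.length + j :=
      ⟨i - (b0.length + c0.length + b1.length + c1.length + b2.length), by omega⟩
    rw [v5, hz]
    have g1 := C2.1 j (by omega) (by omega)
    rw [rr_e2, ip_e0, ip_e0, ip_e2, ip_e2] at g1
    omega
  · have g := v2 0
    rw [add_zero] at g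
    rw [g]
    exact ⟨x1, x3⟩
  · have g := v4 0
    rw [add_zero] at g
    rw [g]
    exact z2
  · have a1 : vx m up b0 b0.length = n0 := hb0.2.2.2.1
    rw [a1]
    exact hb0

/-- a cut of a bridge, from the levels -/
lemma cut_b {e t k : ℕ} {m : Pt} {b : List Bool} (hb : b ∈ Brd t) (hk : k ≤ b.length) (hd : dx up b k = up)
    (h1 : ∀ i, i ≤ k → ip (vx m up b i) up ≤ ip (vx m up b k) up)
    (h2 : ∀ i, k < i → i ≤ b.length → ip (vx m up b k) up < ip (vx m up b i) up)
    (h3 : ip (vx m up b k) up ≤ ip m up + 3 * e) : k ∈ BB e b := by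
  obtain ⟨g1, g2, g3, g4⟩ := mem_Brd.1 hb
  have lt : (b.take k).length = k := by rw [List.length_take]; omega
  have ld : (b.drop k).length = b.length - k := List.length_drop
  obtain ⟨j, hj, hj'⟩ := brd_of_walk (v := m) (t := b.take k) upd
    (by
      intro i hi1 hi2
      rw [lt] at hi2
      rw [lt, vx_take m up b hk (by omega), vx_take m up b hk (by omega)]
      refine ⟨?_, h1 i hi2⟩
      rw [ip_vx upd]
      have := (g1 i hi1 (by omega)).1
      omega)
    (by
      intro i l hil hl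
      rw [lt] at hl
      rw [vx_take m up b hk (by omega), vx_take m up b hk (by omega)]
      exact vx_ne upd m (g2 i l hil (by omega)))
    (by
      rw [lt, dx_take up b hk le_rfl]
      exact hd)
  obtain ⟨j2, hj2, _⟩ := brd_of_walk (v := vx m up b k) (t := b.drop k) upd
    (by
      have e1 : ∀ i, vx (vx m up b k) up (b.drop k) i = vx m up b (k + i) := by
        intro i
        have := vx_drop m up b hk i
        rwa [hd] at this
      intro i hi1 hi2
      rw [ld] at hi2
      rw [e1, e1, ld]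
      refine ⟨h2 (k + i) (by omega) (by omega), ?_⟩
      rw [show k + (b.length - k) = b.length by omega, ip_vx upd, ip_vx upd, g4]
      have := (g1 (k + i) (by omega) (by omega)).2
      omega)
    (by
      have e1 : ∀ i, vx (vx m up b k) up (b.drop k) i = vx m up b (k + i) := by
        intro i
        have := vx_drop m up b hk i
        rwa [hd] at this
      intro i l hil hl
      rw [ld] at hl
      rw [e1, e1]
      exact vx_ne upd m (g2 (k + i) (k + l) (by omega) (by omega)))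
    (by
      have e1 := dx_drop up b hk (b.drop k).length
      rw [hd] at e1
      rw [e1, ld, show k + (b.length - k) = b.length by omega]
      exact g3)
  rw [lt, vx_take m up b hk (by omega)] at hj'
  exact ⟨hk, ⟨j, by omega, hj⟩, j2, hj2⟩

/-- a cut of a wedge walk near its end, from the levels of the normal of the gate -/
lemma cut_c {K e L s : ℕ} {n m : Pt} {c : List Bool} (hKe : 1 ≤ K * e) (hc : CP K e L e2 n m c) (hs1 : 1 ≤ s)
    (hs : s ≤ c.length) (hd : dx e2 c s = up) (hcl : cl (vx n e2 c s) = 0)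
    (h0 : -(9 * e : ℤ) ≤ ip (vx n e2 c s) up)
    (h1 : ∀ i, 1 ≤ i → i ≤ s → ip (vx n e2 c i) up ≤ ip (vx n e2 c s) up)
    (h2 : ∀ i, s < i → i ≤ c.length → ip (vx n e2 c s) up < ip (vx n e2 c i) up) : s ∈ CA K e c := by
  obtain ⟨hn, hm, ⟨r, hr, hg⟩, hend⟩ := hc
  obtain ⟨hc1, hL, hlast, hall⟩ := gE_facts hKe (by omega) hg
  obtain ⟨⟨g1, g2⟩, g3, g4⟩ := gE_spec.1 hg
  have lt : (c.take s).length = s := by rw [List.length_take]; omega
  have ld : (c.drop s).length = c.length - s := List.length_drop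
  have hip : ∀ i, ip (vx n e2 c i) up = ip n up + ip (vx oo up c i) (rr up) := fun i => ip_rr d2m n c i
  -- the distance of the new gate
  obtain ⟨hcn, u1, u2, u3, u4⟩ := hn
  obtain ⟨hcm, t1, t2, t3, t4⟩ := hm
  have hdiv : ∀ v : Pt, cl v = 0 → (3 : ℤ) ∣ ip v up := by
    intro v hv
    have h5 := ip_mod v up
    rw [hv, zero_mul, neg_zero] at h5
    exact (ZMod.intCast_zmod_eq_zero_iff_dvd _ 3).1 h5
  have hK3 : (0 : ℤ) < (K * e : ℕ) := by exact_mod_cast hKe
  have hKe' : ((K * e : ℕ) : ℤ) = (K : ℤ) * e := by push_cast; ring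
  obtain ⟨r', hr', hr2⟩ : ∃ r' : ℕ, ip (vx oo up c s) (rr up) = 3 * r' - 3 ∧ K * e ≤ r' := by
    obtain ⟨a, ha⟩ := hdiv _ hcl
    obtain ⟨a', ha'⟩ := hdiv _ hcn
    have h6 := hip s
    have h7 : ip n up = n.1 + 2 * n.2 := ip_e0 n
    rw [ip_e2] at u1 u2
    rw [cross_e2] at u3 u4
    have h8 : (K * e : ℕ) + 1 ≤ 1 + a - a' := by
      rw [hKe']
      have h9 : 2 * (K : ℤ) * e = 2 * (K * e) := by ring
      rw [h9] at u3
      generalize (K : ℤ) * e = x at *
      omega
    refine ⟨(1 + a - a').toNat, ?_, ?_⟩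
    · omega
    · omega
  have hdr : dx up c s = rr up := (dx_frame_rr d2m).1 hd
  refine ⟨hs, ⟨r', L, hr2, hL, gE_spec.2 ⟨⟨?_, ?_⟩, ?_, ?_⟩⟩, ?_⟩
  · intro i hi1 hi2
    rw [lt] at hi2
    have e1 : vx oo up (c.take s) i = vx oo up c i := vx_take oo up c hs (by omega)
    have e2 : lev (c.take s) i = lev c i := by
      unfold lev
      rw [e1]
    rw [e1, e2]
    obtain ⟨a1, a2, a3⟩ := g1 i hi1 (by omega)
    refine ⟨a1, a2, ?_⟩
    have := h1 i hi1 hi2
    rw [hip, hip, hr'] at this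
    omega
  · intro i l hil hl
    rw [lt] at hl
    rw [vx_take oo up c hs (by omega), vx_take oo up c hs (by omega)]
    exact g2 i l hil (by omega)
  · rintro ⟨_, _, h5⟩
    have e1 : tip oo up (c.take s) = vx oo up c s + rr up := by
      unfold tip
      rw [lt, vx_take oo up c hs le_rfl, vx_succ, hdr]
    have e3 : tip oo up (c.take s) - oo = tip oo up (c.take s) := sub_zero _
    have h6 : ip (tip oo up (c.take s) - oo) (rr up) < 3 * r' - 1 := h5
    rw [e3, e1, ip_add_left, hr'] at h6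
    have h7 : ip (rr up) (rr up) = 2 := by decide
    omega
  · rw [lt, dx_take up c hs le_rfl]
    exact hdr
  · have e1 : ∀ i, vx (vx n e2 c s) up (c.drop s) i = vx n e2 c (s + i) := by
      intro i
      have := vx_drop n e2 c hs i
      rwa [hd] at this
    obtain ⟨j, hj, hj'⟩ := brd_of_walk (v := vx n e2 c s) (t := c.drop s) upd
      (by
        intro i hi1 hi2
        rw [ld] at hi2
        rw [e1, e1, ld]
        refine ⟨h2 (s + i) (by omega) (by omega), ?_⟩
        rw [show s + (c.length - s) = c.length by omega, hip, hip, hlast]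
        have := hall (s + i) (by omega) (by omega)
        omega)
      (by
        intro i l hil hl
        rw [ld] at hl
        rw [e1, e1]
        exact vx_ne d2m n (g2 (s + i) (s + l) (by omega) (by omega)))
      (by
        have e3 := dx_drop e2 c hs (c.drop s).length
        rw [hd] at e3
        rw [e3, ld, show s + (c.length - s) = c.length by omega]
        exact (dx_frame_rr d2m).2 g4)
    rw [e1, ld, show s + (c.length - s) = c.length by omega, hend] at hj'
    refine ⟨j, ?_, hj⟩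
    have h6 : ip m up ≤ -(6 * e : ℤ) := t2
    omega

end Root

/-- P12: another root of direction e0 is a cut of the first bridge or of the last wedge walk. -/
theorem root {K e L : ℕ} (hK : 2 ≤ K) (he : 1 ≤ e) {m : Pt} {w : S6} (h : Dec K e L m w) {k : ℕ}
    (hk : k < (cat6 w).length) (hd : dx up (cat6 w) k = up)
    (hy : (vx m up (cat6 w) k, (cat6 w).rotate k) ∈ Y0 K e L (cat6 w).length) :
    (k ≤ w.1.length ∧ k ∈ BB e w.1) ∨
      ((cat6 w).length ≤ k + w.2.2.2.2.2.length ∧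
        k + w.2.2.2.2.2.length - (cat6 w).length ∈ CA K e w.2.2.2.2.2) := by
  obtain ⟨b0, c0, b1, c1, b2, c2⟩ := w
  have hKe : 1 ≤ K * e := Nat.mul_pos (by omega) he
  obtain ⟨S, hbp, n2, hcp, hv5, hw5⟩ := Root.dec_six hKe h
  have hcat : cat6 (b0, c0, b1, c1, b2, c2) = b0 ++ (c0 ++ (b1 ++ (c1 ++ (b2 ++ c2)))) := rfl
  rw [hcat] at hk hd hy
  change (k ≤ b0.length ∧ k ∈ BB e b0) ∨
    ((b0 ++ (c0 ++ (b1 ++ (c1 ++ (b2 ++ c2))))).length ≤ k + c2.length ∧
      k + c2.length - (b0 ++ (c0 ++ (b1 ++ (c1 ++ (b2 ++ c2))))).length ∈ CA K e c2)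
  have hlen : (b0 ++ (c0 ++ (b1 ++ (c1 ++ (b2 ++ c2))))).length =
      b0.length + c0.length + b1.length + c1.length + b2.length + c2.length := by
    simp only [List.length_append]
    omega
  obtain ⟨_, ⟨b0', c0', b1', c1', b2', c2'⟩, hdec', hcat'⟩ := hy
  obtain ⟨S', _⟩ := Root.dec_six hKe hdec'
  have hcat2 : b0' ++ (c0' ++ (b1' ++ (c1' ++ (b2' ++ c2')))) =
      (b0 ++ (c0 ++ (b1 ++ (c1 ++ (b2 ++ c2))))).rotate k := hcat'
  have hlen' : b0'.length + c0'.length + b1'.length + c1'.length + b2'.length + c2'.length =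
      b0.length + c0.length + b1.length + c1.length + b2.length + c2.length := by
    have := congrArg List.length hcat2
    rw [List.length_rotate, hlen] at this
    simp only [List.length_append] at this
    omega
  rw [hcat2, hlen'] at S'
  have ev : vx m up (b0 ++ (c0 ++ (b1 ++ (c1 ++ (b2 ++ c2)))))
      (b0.length + c0.length + b1.length + c1.length + b2.length + c2.length) = m := by
    rw [hv5]
    exact hcp.2.2.2
  have ew : dx up (b0 ++ (c0 ++ (b1 ++ (c1 ++ (b2 ++ c2)))))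
      (b0.length + c0.length + b1.length + c1.length + b2.length + c2.length) = up := by
    rw [hw5]
    exact (Root.cp_facts Root.d2m hKe hcp).2
  have hv0 : ∀ i, i ≤ b0.length → vx m up (b0 ++ (c0 ++ (b1 ++ (c1 ++ (b2 ++ c2))))) i = vx m up b0 i :=
    fun i hi => vx_append (by omega)
  have hw0 : ∀ i, i ≤ b0.length → dx up (b0 ++ (c0 ++ (b1 ++ (c1 ++ (b2 ++ c2))))) i = dx up b0 i :=
    fun i hi => dx_append hi
  generalize b0 ++ (c0 ++ (b1 ++ (c1 ++ (b2 ++ c2)))) = W at *
  rw [hlen] at hk ⊢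
  have hrot : W.rotate k = W.drop k ++ W.take k := List.rotate_eq_drop_append_take (by omega)
  have ld : (W.drop k).length = W.length - k := List.length_drop
  have hvd : ∀ i, vx (vx m up W k) up (W.drop k) i = vx m up W (k + i) := by
    intro i
    have := Root.vx_drop m up W (s := k) (by omega) i
    rwa [hd] at this
  have hwd : ∀ i, dx up (W.drop k) i = dx up W (k + i) := by
    intro i
    have := Root.dx_drop up W (s := k) (by omega) i
    rwa [hd] at this
  rcases Root.loc he S S' hk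
    (by
      intro j hj
      rw [hrot, vx_append (by omega)]
      exact hvd j)
    (by
      intro i hi
      have e1 := Root.vx_cat2 (vx m up W k) up (W.drop k) (W.take k) i
      rw [hrot, show b0.length + c0.length + b1.length + c1.length + b2.length + c2.length - k + i =
        (W.drop k).length + i by omega, e1, hvd, hwd, ld, show k + (W.length - k) = b0.length + c0.length +
        b1.length + c1.length + b2.length + c2.length by omega, ev, ew]
      exact Root.vx_take m up W (by omega) (by omega)) with ⟨h1, h2, h3⟩ | ⟨h1, h2, h3⟩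
  · left
    refine ⟨h1, ?_⟩
    obtain ⟨_, _, ⟨t, ht⟩, _⟩ := hbp
    have hlow := S'.low
    have e0 : vx (vx m up W k) up (W.rotate k) 0 = vx m up W k := rfl
    rw [e0, hv0 k h1] at hlow
    have hlow0 := S.low
    have e0' : vx m up W 0 = m := rfl
    rw [e0'] at hlow0
    refine Root.cut_b (m := m) ht h1 (by rw [← hw0 k h1]; exact hd) ?_ ?_ ?_
    · intro i hi
      have := h2 i hi
      rw [hv0 k h1, hv0 i (by omega), ← Root.ip_e0, ← Root.ip_e0] at this
      exact this
    · intro i hi hi2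
      have := h3 i hi hi2
      rw [hv0 k h1, hv0 i hi2, ← Root.ip_e0, ← Root.ip_e0] at this
      exact this
    · have e1 : ip (vx m up b0 k) up = (vx m up b0 k).1 + 2 * (vx m up b0 k).2 := Root.ip_e0 _
      have e2 : ip m up = m.1 + 2 * m.2 := Root.ip_e0 _
      omega
  · right
    refine ⟨by omega, ?_⟩
    obtain ⟨s, rfl⟩ : ∃ s, k = b0.length + c0.length + b1.length + c1.length + b2.length + s :=
      ⟨k - (b0.length + c0.length + b1.length + c1.length + b2.length), by omega⟩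
    rw [show b0.length + c0.length + b1.length + c1.length + b2.length + s + c2.length -
      (b0.length + c0.length + b1.length + c1.length + b2.length + c2.length) = s by omega]
    have hlow := S'.low
    have hm' : vx m up W (b0.length + c0.length + b1.length + c1.length + b2.length + s) ∈ Low K e e0 := by
      obtain ⟨_, _, _, _, _, hb, _⟩ := hdec'
      exact hb.1
    rw [hv5] at hm'
    obtain ⟨hcl, l1, _⟩ := hm'
    refine Root.cut_c hKe hcp (by omega) (by omega) (by rw [← hw5]; exact hd) hcl l1 ?_ ?_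
    · intro i hi1 hi2
      have := h2 (b0.length + c0.length + b1.length + c1.length + b2.length + i) (by omega) (by omega)
      rw [hv5, hv5, ← Root.ip_e0, ← Root.ip_e0] at this
      exact this
    · intro i hi1 hi2
      have := h3 (b0.length + c0.length + b1.length + c1.length + b2.length + i) (by omega) (by omega)
      rw [hv5, hv5, ← Root.ip_e0, ← Root.ip_e0] at this
      exact this

end RP

end HexObs
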