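import Pool.Agent.RSWP.Pairs6A
import Pool.Agent.RSWP.Inter
import Pool.Agent.RSWP.Root

/-!
RSWP, P16: the product of the number of roots and the number of decompositions.
-/

set_option autoImplicit false

namespace HexObs

namespace RP

open Finset ENNReal

/-- P16 (Pairs6.lean): the product of the number of roots and the number of decompositions. -/
theorem pairs6 {K e L : ℕ} (hK : 2 ≤ K) (he : 1 ≤ e) {m : Pt} {w : S6} (h : Dec K e L m w) :
    ((N0 K e L (m, cat6 w) * DD K e L (m, cat6 w) : ℕ) : ℝ≥0∞) ≤ ENNReal.ofReal (UU e) ^ 6 *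
      (fB e w.1 * (fC K e w.2.1 * (fB e w.2.2.1 * (fC K e w.2.2.2.1 * (fB e w.2.2.2.2.1 * fC K e w.2.2.2.2.2))))) :=
  pairs6_of (fun _ h' hc => inter hK he h h' hc) (fun _ hk hd hy => root hK he h hk hd hy)

end RP

end HexObs
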