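import Pool.Agent.RSWP.Moments

/-!
RSWP P14: the second moment.
-/

set_option autoImplicit false

namespace HexObs

namespace RP

open Finset ENNReal

namespace Second

lemma rr_e0 : rr e0 = e1 := by decide
lemma rr_e1 : rr e1 = e2 := by decide
lemma rr_e2 : rr e2 = e0 := by decide

/-- the pieces that do not end in the window have weight 0. -/
lemma GB_zero {K e : ℕ} {f : List Bool → ℝ≥0∞} {d m n : Pt} (h : n ∉ Upw K e d) : GB K e f d m n = 0 := by
  unfold GB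
  have : IsEmpty {b : List Bool // BP K e d m n b} := ⟨fun b => h b.2.2.1⟩
  exact tsum_empty

/-- a box that contains the window. -/
noncomputable def box (K e : ℕ) : Finset Pt :=
  (Finset.Icc (-(4 * K * e : ℤ)) (-(2 * K * e + 4 * e))).biUnion (fun a =>
    (Finset.Icc ((6 * e - a) / 2) ((9 * e - a) / 2)).image (fun b => (a, b)))

lemma upw_box (K e : ℕ) : Upw K e e0 ⊆ (box K e : Set Pt) := by
  rintro ⟨a, b⟩ ⟨_, h1, h2, h3, h4⟩
  have e1 : ip (a, b) e0 = a + 2 * b := by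
    show 2 * (a * 0 + b * 1) + a * 1 + b * 0 = a + 2 * b
    ring
  have e2 : cross e0 (a, b) = -a := by
    show 0 * b - 1 * a = -a
    ring
  rw [e1] at h1 h2
  rw [e2] at h3 h4
  rw [Finset.mem_coe, box, Finset.mem_biUnion]
  refine ⟨a, Finset.mem_Icc.2 ⟨by linarith, by linarith⟩, ?_⟩
  rw [Finset.mem_image]
  refine ⟨b, Finset.mem_Icc.2 ⟨?_, ?_⟩, rfl⟩
  · omega
  · omega

lemma box_card (K e : ℕ) (he : 1 ≤ e) : (box K e).card ≤ 2 * K * e * (3 * e + 3) + (3 * e + 3) := by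
  have h0 : ∀ a : ℤ, ((Finset.Icc ((6 * e - a) / 2) ((9 * e - a) / 2)).image (fun b : ℤ => (a, b))).card ≤ 3 * e + 3 := by
    intro a
    refine Finset.card_image_le.trans ?_
    rw [Int.card_Icc]
    omega
  have h1 : (Finset.Icc (-(4 * K * e : ℤ)) (-(2 * K * e + 4 * e))).card ≤ 2 * K * e + 1 := by
    rw [Int.card_Icc]
    have : (0 : ℤ) ≤ e := by positivity
    have h2 : (-(2 * K * e + 4 * e) + 1 - -(4 * K * e) : ℤ) ≤ 2 * K * e + 1 := by
      ring_nf
      linarith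
    calc _ ≤ (2 * K * e + 1 : ℤ).toNat := Int.toNat_le_toNat h2
      _ = 2 * K * e + 1 := by
        have : (2 * K * e + 1 : ℤ) = ((2 * K * e + 1 : ℕ) : ℤ) := by push_cast; ring
        rw [this, Int.toNat_natCast]
  calc (box K e).card ≤ ∑ a ∈ Finset.Icc (-(4 * K * e : ℤ)) (-(2 * K * e + 4 * e)),
        ((Finset.Icc ((6 * e - a) / 2) ((9 * e - a) / 2)).image (fun b : ℤ => (a, b))).card := Finset.card_biUnion_le
    _ ≤ ∑ _a ∈ Finset.Icc (-(4 * K * e : ℤ)) (-(2 * K * e + 4 * e)), (3 * e + 3) :=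
        Finset.sum_le_sum (fun a _ => h0 a)
    _ = (Finset.Icc (-(4 * K * e : ℤ)) (-(2 * K * e + 4 * e))).card * (3 * e + 3) := by
        rw [Finset.sum_const, smul_eq_mul]
    _ ≤ (2 * K * e + 1) * (3 * e + 3) := Nat.mul_le_mul_right _ h1
    _ = _ := by ring

end Second

open Second

theorem second (K : ℕ) (hK : 4 ≤ K) : ∃ C : ℝ, 0 < C ∧ ∀ (e L : ℕ), 1 ≤ e → 1 ≤ L →
    EE K e L (fB e) (fC K e) ≤ ENNReal.ofReal (C * (e * uu e) ^ 6) := by
  obtain ⟨C0, hC0, h0⟩ := mom_B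
  obtain ⟨B1, hB1, b1⟩ := mom_Bsum e1 (Or.inr (Or.inl rfl))
  obtain ⟨B2, hB2, b2⟩ := mom_Bsum e2 (Or.inr (Or.inr rfl))
  obtain ⟨D0, hD0, c0⟩ := mom_Csum K hK e0 (Or.inl rfl)
  obtain ⟨D1, hD1, c1⟩ := mom_Csum K hK e1 (Or.inr (Or.inl rfl))
  obtain ⟨D2, hD2, c2⟩ := mom_Csum K hK e2 (Or.inr (Or.inr rfl))
  refine ⟨C0 * B1 * B2 * D0 * D1 * D2 * (18 * K + 6), by positivity, ?_⟩
  intro e L he hL
  obtain ⟨u, hu⟩ : ∃ u : ℝ, u = (e : ℝ) * uu e := ⟨_, rfl⟩
  have hep : (1 : ℝ) ≤ e := by exact_mod_cast he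
  have hu0 : 0 < u := by rw [hu]; exact mul_pos (by linarith) (uu_pos e)
  have x0 : ∀ m n, GB K e (fB e) e0 m n ≤ ENNReal.ofReal (C0 * (uu e / e)) := fun m n => h0 K e m n he
  have x1 : ∀ m, ∑' n : Pt, GB K e (fB e) e1 m n ≤ ENNReal.ofReal (B1 * u) := fun m => by
    rw [hu]; exact b1 K e m he
  have x2 : ∀ m, ∑' n : Pt, GB K e (fB e) e2 m n ≤ ENNReal.ofReal (B2 * u) := fun m => by
    rw [hu]; exact b2 K e m he
  have y0 : ∀ n, ∑' m : Pt, GC K e L (fC K e) e0 n m ≤ ENNReal.ofReal (D0 * u) := fun n => by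
    rw [hu]; exact c0 e L n he hL
  have y1 : ∀ n, ∑' m : Pt, GC K e L (fC K e) e1 n m ≤ ENNReal.ofReal (D1 * u) := fun n => by
    rw [hu]; exact c1 e L n he hL
  have y2 : ∀ n, ∑' m : Pt, GC K e L (fC K e) e2 n m ≤ ENNReal.ofReal (D2 * u) := fun n => by
    rw [hu]; exact c2 e L n he hL
  rw [← hu]
  set β := ENNReal.ofReal (C0 * (uu e / e)) with hβ
  set gB : Pt → Pt → Pt → ℝ≥0∞ := fun d m n => GB K e (fB e) d m n with hgB
  set gC : Pt → Pt → Pt → ℝ≥0∞ := fun d n m => GC K e L (fC K e) d n m with hgC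
  -- the first bridge
  have s0 : ∀ m0 n0, gB e0 m0 n0 ≤ (box K e : Set Pt).indicator (fun _ => β) n0 := by
    intro m0 n0
    by_cases h : n0 ∈ (box K e : Set Pt)
    · rw [Set.indicator_of_mem h]
      exact x0 m0 n0
    · rw [Set.indicator_of_notMem h]
      exact le_of_eq (GB_zero (fun hn => h (upw_box K e hn)))
  have main : EE K e L (fB e) (fC K e) ≤ ∑' n0 : Pt, (box K e : Set Pt).indicator (fun _ => β) n0 *
      (ENNReal.ofReal (D0 * u) * (ENNReal.ofReal (B1 * u) * (ENNReal.ofReal (D1 * u) * (ENNReal.ofReal (B2 * u) *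
        ENNReal.ofReal (D2 * u))))) := by
    have t1 : EE K e L (fB e) (fC K e) ≤ ∑' (m0 : Pt) (n0 : Pt) (m1 : Pt) (n1 : Pt) (m2 : Pt) (n2 : Pt),
        (box K e : Set Pt).indicator (fun _ => β) n0 * (gC e0 n0 m1 * (gB e1 m1 n1 * (gC e1 n1 m2 *
          (gB e2 m2 n2 * gC e2 n2 m0)))) := by
      unfold EE
      refine ENNReal.tsum_le_tsum fun m0 => ENNReal.tsum_le_tsum fun n0 => ENNReal.tsum_le_tsum fun m1 =>
        ENNReal.tsum_le_tsum fun n1 => ENNReal.tsum_le_tsum fun m2 => ENNReal.tsum_le_tsum fun n2 => ?_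
      calc _ = gB e0 m0 n0 * (gC e0 n0 m1 * (gB e1 m1 n1 * (gC e1 n1 m2 * (gB e2 m2 n2 * gC e2 n2 m0)))) := by
            simp only [hgB, hgC]
            ring
        _ ≤ _ := mul_le_mul_left (s0 m0 n0) _
    refine t1.trans ?_
    rw [ENNReal.tsum_comm]
    refine ENNReal.tsum_le_tsum fun n0 => ?_
    -- move the sum over m0 inside
    have t2 : ∀ m0 : Pt, ∑' (m1 : Pt) (n1 : Pt) (m2 : Pt) (n2 : Pt),
        (box K e : Set Pt).indicator (fun _ => β) n0 * (gC e0 n0 m1 * (gB e1 m1 n1 * (gC e1 n1 m2 *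
          (gB e2 m2 n2 * gC e2 n2 m0)))) =
        (box K e : Set Pt).indicator (fun _ => β) n0 * ∑' (m1 : Pt), gC e0 n0 m1 * ∑' (n1 : Pt), gB e1 m1 n1 *
          ∑' (m2 : Pt), gC e1 n1 m2 * ∑' (n2 : Pt), gB e2 m2 n2 * gC e2 n2 m0 := by
      intro m0
      simp only [ENNReal.tsum_mul_left]
    rw [tsum_congr t2, ENNReal.tsum_mul_left]
    refine mul_le_mul_right ?_ _
    rw [ENNReal.tsum_comm]
    have t3 : ∀ m1 : Pt, ∑' m0 : Pt, gC e0 n0 m1 * ∑' (n1 : Pt), gB e1 m1 n1 *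
          ∑' (m2 : Pt), gC e1 n1 m2 * ∑' (n2 : Pt), gB e2 m2 n2 * gC e2 n2 m0 ≤
        gC e0 n0 m1 * (ENNReal.ofReal (B1 * u) * (ENNReal.ofReal (D1 * u) * (ENNReal.ofReal (B2 * u) *
        ENNReal.ofReal (D2 * u)))) := by
      intro m1
      rw [ENNReal.tsum_mul_left]
      refine mul_le_mul_right ?_ _
      rw [ENNReal.tsum_comm]
      have t4 : ∀ n1 : Pt, ∑' m0 : Pt, gB e1 m1 n1 *
          ∑' (m2 : Pt), gC e1 n1 m2 * ∑' (n2 : Pt), gB e2 m2 n2 * gC e2 n2 m0 ≤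
          gB e1 m1 n1 * (ENNReal.ofReal (D1 * u) * (ENNReal.ofReal (B2 * u) * ENNReal.ofReal (D2 * u))) := by
        intro n1
        rw [ENNReal.tsum_mul_left]
        refine mul_le_mul_right ?_ _
        rw [ENNReal.tsum_comm]
        have t5 : ∀ m2 : Pt, ∑' m0 : Pt, gC e1 n1 m2 * ∑' (n2 : Pt), gB e2 m2 n2 * gC e2 n2 m0 ≤
            gC e1 n1 m2 * (ENNReal.ofReal (B2 * u) * ENNReal.ofReal (D2 * u)) := by
          intro m2
          rw [ENNReal.tsum_mul_left]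
          refine mul_le_mul_right ?_ _
          rw [ENNReal.tsum_comm]
          have t6 : ∀ n2 : Pt, ∑' m0 : Pt, gB e2 m2 n2 * gC e2 n2 m0 ≤
              gB e2 m2 n2 * ENNReal.ofReal (D2 * u) := by
            intro n2
            rw [ENNReal.tsum_mul_left]
            exact mul_le_mul_right (y2 n2) _
          refine (ENNReal.tsum_le_tsum t6).trans ?_
          rw [ENNReal.tsum_mul_right]
          exact mul_le_mul_left (x2 m2) _
        refine (ENNReal.tsum_le_tsum t5).trans ?_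
        rw [ENNReal.tsum_mul_right]
        exact mul_le_mul_left (y1 n1) _
      refine (ENNReal.tsum_le_tsum t4).trans ?_
      rw [ENNReal.tsum_mul_right]
      exact mul_le_mul_left (x1 m1) _
    refine (ENNReal.tsum_le_tsum t3).trans ?_
    rw [ENNReal.tsum_mul_right]
    exact mul_le_mul_left (y0 n0) _
  refine main.trans ?_
  rw [ENNReal.tsum_mul_right]
  have hcard : ∑' n0 : Pt, (box K e : Set Pt).indicator (fun _ => β) n0 = ((box K e).card : ℝ≥0∞) * β := by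
    rw [← _root_.tsum_subtype, Finset.tsum_subtype' (box K e) (fun _ => β), Finset.sum_const, nsmul_eq_mul]
  rw [hcard]
  have hc1 : ((box K e).card : ℝ≥0∞) ≤ ENNReal.ofReal ((18 * K + 6) * e ^ 2) := by
    have h1 := box_card K e he
    have h2 : ((box K e).card : ℝ) ≤ (18 * K + 6) * (e : ℝ) ^ 2 := by
      have h3 : ((box K e).card : ℝ) ≤ ((2 * K * e * (3 * e + 3) + (3 * e + 3) : ℕ) : ℝ) := by exact_mod_cast h1
      refine h3.trans ?_
      push_cast
      have hK0 : (0 : ℝ) ≤ K := by positivity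
      nlinarith [mul_nonneg hK0 (by linarith : (0 : ℝ) ≤ e - 1), mul_nonneg (mul_nonneg hK0 (by linarith : (0 : ℝ) ≤ (e : ℝ)))
        (by linarith : (0 : ℝ) ≤ (e : ℝ) - 1)]
    rw [← ENNReal.ofReal_natCast]
    exact ENNReal.ofReal_le_ofReal h2
  refine (mul_le_mul_left (mul_le_mul_left hc1 _) _).trans ?_
  have hue : 0 < uu e := uu_pos e
  rw [hβ, ← ENNReal.ofReal_mul (by positivity), ← ENNReal.ofReal_mul (by positivity), ← ENNReal.ofReal_mul (by positivity),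
    ← ENNReal.ofReal_mul (by positivity), ← ENNReal.ofReal_mul (by positivity), ← ENNReal.ofReal_mul (by positivity)]
  apply ENNReal.ofReal_le_ofReal
  have e3 : (e : ℝ) ^ 2 * (uu e / e) = u := by
    rw [hu]
    field_simp
  apply le_of_eq
  calc _ = ((e : ℝ) ^ 2 * (uu e / e)) * ((18 * K + 6) * C0 * (D0 * u * (B1 * u * (D1 * u * (B2 * u * (D2 * u)))))) := by ring
    _ = _ := by rw [e3]; ring

end RP

end HexObs
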