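import Pool.Agent.RSWP.DefsP

/-!
RSWP, P10: the decomposed polygons and the sum over the marks.
-/

set_option autoImplicit false

namespace HexObs

namespace RP

open Finset ENNReal

namespace Sum6

open Classical in
/-- one step of the chain: the mark n at the end of the word is determined by the word. -/
theorem step {β : Type} (P : Pt → List Bool → Prop) (ed : List Bool → Pt) (hP : ∀ n b, P n b → ed b = n)
    (x : List Bool → ℝ≥0∞) (Q : Pt → β → Prop) (y : β → ℝ≥0∞) (R : List Bool × β → Prop)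
    (hR : ∀ z, R z ↔ P (ed z.1) z.1 ∧ Q (ed z.1) z.2) :
    (∑' z : List Bool × β, if R z then x z.1 * y z.2 else 0) =
      ∑' n : Pt, (∑' b : {b : List Bool // P n b}, x b.1) * ∑' r : β, if Q n r then y r else 0 := by
  have h1 : ∀ n : Pt, (∑' b : {b : List Bool // P n b}, x b.1) = ∑' b : List Bool, if P n b then x b else 0 := by
    intro n
    have h := tsum_subtype {b : List Bool | P n b} x
    refine Eq.trans h (tsum_congr fun b => ?_)
    by_cases hb : P n b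
    · rw [if_pos hb, Set.indicator_of_mem (show b ∈ {b : List Bool | P n b} from hb)]
    · rw [if_neg hb, Set.indicator_of_notMem (show b ∉ {b : List Bool | P n b} from hb)]
  simp only [h1, ← ENNReal.tsum_mul_right]
  rw [ENNReal.tsum_prod']
  refine Eq.trans ?_ (ENNReal.tsum_comm (f := fun (b : List Bool) (n : Pt) => (if P n b then x b else 0) *
    ∑' r : β, if Q n r then y r else 0))
  refine tsum_congr fun b => ?_
  rw [tsum_eq_single (ed b)]
  · by_cases hb : P (ed b) b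
    · rw [if_pos hb, ← ENNReal.tsum_mul_left]
      refine tsum_congr fun r => ?_
      by_cases hq : Q (ed b) r
      · rw [if_pos ((hR (b, r)).2 ⟨hb, hq⟩), if_pos hq]
      · rw [if_neg (fun h => hq ((hR (b, r)).1 h).2), if_neg hq, mul_zero]
    · rw [if_neg hb, zero_mul]
      rw [ENNReal.tsum_eq_zero]
      intro r
      rw [if_neg (fun h => hb ((hR (b, r)).1 h).1)]
  · intro n hn
    rw [if_neg (fun h => hn (hP n b h).symm), zero_mul]

/-- the end of a word. -/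
def ed (m d : Pt) (w : List Bool) : Pt := vx m d w w.length

theorem BP_ed {K e : ℕ} {d m n : Pt} {b : List Bool} (h : BP K e d m n b) : ed m d b = n := h.2.2.2.1

theorem CP_ed {K e L : ℕ} {d n m : Pt} {c : List Bool} (h : CP K e L d n m c) : ed n d c = m := h.2.2.2

/-- the conditions of the last five pieces. -/
def D2 (K e L : ℕ) (m0 m2 : Pt) (z : List Bool × List Bool) : Prop :=
  BP K e e2 m2 (ed m2 e2 z.1) z.1 ∧ CP K e L e2 (ed m2 e2 z.1) m0 z.2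

def D3 (K e L : ℕ) (m0 n1 : Pt) (z : List Bool × List Bool × List Bool) : Prop :=
  CP K e L e1 n1 (ed n1 e1 z.1) z.1 ∧ D2 K e L m0 (ed n1 e1 z.1) z.2

def D4 (K e L : ℕ) (m0 m1 : Pt) (z : List Bool × List Bool × List Bool × List Bool) : Prop :=
  BP K e e1 m1 (ed m1 e1 z.1) z.1 ∧ D3 K e L m0 (ed m1 e1 z.1) z.2

def D5 (K e L : ℕ) (m0 n0 : Pt) (z : List Bool × List Bool × List Bool × List Bool × List Bool) : Prop :=
  CP K e L e0 n0 (ed n0 e0 z.1) z.1 ∧ D4 K e L m0 (ed n0 e0 z.1) z.2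

def D6 (K e L : ℕ) (m0 : Pt) (z : S6) : Prop :=
  BP K e e0 m0 (ed m0 e0 z.1) z.1 ∧ D5 K e L m0 (ed m0 e0 z.1) z.2

theorem Dec_iff (K e L : ℕ) (m : Pt) (w : S6) : Dec K e L m w ↔ D6 K e L m w := by
  unfold Dec D6 D5 D4 D3 D2
  constructor
  · rintro ⟨n0, m1, n1, m2, n2, h1, h2, h3, h4, h5, h6⟩
    have i1 := BP_ed h1
    subst i1
    have i2 := CP_ed h2
    subst i2
    have i3 := BP_ed h3
    subst i3
    have i4 := CP_ed h4
    subst i4
    have i5 := BP_ed h5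
    subst i5
    exact ⟨h1, h2, h3, h4, h5, h6⟩
  · rintro ⟨h1, h2, h3, h4, h5, h6⟩
    exact ⟨_, _, _, _, _, h1, h2, h3, h4, h5, h6⟩

end Sum6

open Classical in
/-- P10: the decomposed polygons and the sum over the marks. -/
theorem sum6 (K e L : ℕ) (f g : List Bool → ℝ≥0∞) :
    ∑' y : {y : Pt × S6 // Dec K e L y.1 y.2}, (wE y.1.2.1 * f y.1.2.1) * ((wE y.1.2.2.1 * g y.1.2.2.1) *
      ((wE y.1.2.2.2.1 * f y.1.2.2.2.1) * ((wE y.1.2.2.2.2.1 * g y.1.2.2.2.2.1) *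
      ((wE y.1.2.2.2.2.2.1 * f y.1.2.2.2.2.2.1) * (wE y.1.2.2.2.2.2.2 * g y.1.2.2.2.2.2.2))))) = EE K e L f g := by
  have hL : (∑' y : {y : Pt × S6 // Dec K e L y.1 y.2}, (wE y.1.2.1 * f y.1.2.1) * ((wE y.1.2.2.1 * g y.1.2.2.1) *
      ((wE y.1.2.2.2.1 * f y.1.2.2.2.1) * ((wE y.1.2.2.2.2.1 * g y.1.2.2.2.2.1) *
      ((wE y.1.2.2.2.2.2.1 * f y.1.2.2.2.2.2.1) * (wE y.1.2.2.2.2.2.2 * g y.1.2.2.2.2.2.2)))))) =
      ∑' (m0 : Pt) (w : S6), if Sum6.D6 K e L m0 w then (wE w.1 * f w.1) * ((wE w.2.1 * g w.2.1) *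
      ((wE w.2.2.1 * f w.2.2.1) * ((wE w.2.2.2.1 * g w.2.2.2.1) *
      ((wE w.2.2.2.2.1 * f w.2.2.2.2.1) * (wE w.2.2.2.2.2 * g w.2.2.2.2.2))))) else 0 := by
    rw [← ENNReal.tsum_prod' (f := fun y : Pt × S6 => if Sum6.D6 K e L y.1 y.2 then (wE y.2.1 * f y.2.1) * ((wE y.2.2.1 * g y.2.2.1) *
      ((wE y.2.2.2.1 * f y.2.2.2.1) * ((wE y.2.2.2.2.1 * g y.2.2.2.2.1) *
      ((wE y.2.2.2.2.2.1 * f y.2.2.2.2.2.1) * (wE y.2.2.2.2.2.2 * g y.2.2.2.2.2.2))))) else 0)]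
    have h := tsum_subtype {y : Pt × S6 | Dec K e L y.1 y.2} (fun y : Pt × S6 => (wE y.2.1 * f y.2.1) * ((wE y.2.2.1 * g y.2.2.1) *
      ((wE y.2.2.2.1 * f y.2.2.2.1) * ((wE y.2.2.2.2.1 * g y.2.2.2.2.1) *
      ((wE y.2.2.2.2.2.1 * f y.2.2.2.2.2.1) * (wE y.2.2.2.2.2.2 * g y.2.2.2.2.2.2))))))
    refine h.trans (tsum_congr fun y => ?_)
    by_cases hy : Dec K e L y.1 y.2
    · rw [if_pos ((Sum6.Dec_iff K e L y.1 y.2).1 hy),
        Set.indicator_of_mem (show y ∈ {y : Pt × S6 | Dec K e L y.1 y.2} from hy)]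
    · rw [if_neg (fun hc => hy ((Sum6.Dec_iff K e L y.1 y.2).2 hc)),
        Set.indicator_of_notMem (show y ∉ {y : Pt × S6 | Dec K e L y.1 y.2} from hy)]
  rw [hL]
  unfold EE
  refine tsum_congr fun m0 => ?_
  simp only [mul_assoc, ENNReal.tsum_mul_left]
  have k1 : ∀ n2 : Pt, GC K e L g e2 n2 m0 = ∑' r : List Bool, if CP K e L e2 n2 m0 r then wE r * g r else 0 := by
    intro n2
    unfold GC
    have h := tsum_subtype {c : List Bool | CP K e L e2 n2 m0 c} (fun c => wE c * g c)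
    refine h.trans (tsum_congr fun b => ?_)
    by_cases hb : CP K e L e2 n2 m0 b
    · rw [if_pos hb, Set.indicator_of_mem (show b ∈ {c : List Bool | CP K e L e2 n2 m0 c} from hb)]
    · rw [if_neg hb, Set.indicator_of_notMem (show b ∉ {c : List Bool | CP K e L e2 n2 m0 c} from hb)]
  have k2 : ∀ m2 : Pt, (∑' n2 : Pt, GB K e f e2 m2 n2 * GC K e L g e2 n2 m0) =
      ∑' z : List Bool × List Bool, if Sum6.D2 K e L m0 m2 z then (wE z.1 * f z.1) * (wE z.2 * g z.2) else 0 := by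
    intro m2
    simp only [k1]
    exact (Sum6.step (BP K e e2 m2) (Sum6.ed m2 e2) (fun n b h => Sum6.BP_ed h) (fun b => wE b * f b)
      (fun n2 r => CP K e L e2 n2 m0 r) (fun r => wE r * g r)
      (Sum6.D2 K e L m0 m2) (fun _ => Iff.rfl)).symm
  have k3 : ∀ n1 : Pt, (∑' m2 : Pt, GC K e L g e1 n1 m2 * ∑' n2 : Pt, GB K e f e2 m2 n2 * GC K e L g e2 n2 m0) =
      ∑' z : List Bool × List Bool × List Bool, if Sum6.D3 K e L m0 n1 z then
        (wE z.1 * g z.1) * ((wE z.2.1 * f z.2.1) * (wE z.2.2 * g z.2.2)) else 0 := by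
    intro n1
    simp only [k2]
    exact (Sum6.step (CP K e L e1 n1) (Sum6.ed n1 e1) (fun n b h => Sum6.CP_ed h) (fun b => wE b * g b)
      (fun m2 r => Sum6.D2 K e L m0 m2 r) (fun r => (wE r.1 * f r.1) * (wE r.2 * g r.2))
      (Sum6.D3 K e L m0 n1) (fun _ => Iff.rfl)).symm
  have k4 : ∀ m1 : Pt, (∑' n1 : Pt, GB K e f e1 m1 n1 * ∑' m2 : Pt, GC K e L g e1 n1 m2 *
      ∑' n2 : Pt, GB K e f e2 m2 n2 * GC K e L g e2 n2 m0) =
      ∑' z : List Bool × List Bool × List Bool × List Bool, if Sum6.D4 K e L m0 m1 z then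
        (wE z.1 * f z.1) * ((wE z.2.1 * g z.2.1) * ((wE z.2.2.1 * f z.2.2.1) * (wE z.2.2.2 * g z.2.2.2))) else 0 := by
    intro m1
    simp only [k3]
    exact (Sum6.step (BP K e e1 m1) (Sum6.ed m1 e1) (fun n b h => Sum6.BP_ed h) (fun b => wE b * f b)
      (fun n1 r => Sum6.D3 K e L m0 n1 r)
      (fun r => (wE r.1 * g r.1) * ((wE r.2.1 * f r.2.1) * (wE r.2.2 * g r.2.2)))
      (Sum6.D4 K e L m0 m1) (fun _ => Iff.rfl)).symm
  have k5 : ∀ n0 : Pt, (∑' m1 : Pt, GC K e L g e0 n0 m1 * ∑' n1 : Pt, GB K e f e1 m1 n1 * ∑' m2 : Pt,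
      GC K e L g e1 n1 m2 * ∑' n2 : Pt, GB K e f e2 m2 n2 * GC K e L g e2 n2 m0) =
      ∑' z : List Bool × List Bool × List Bool × List Bool × List Bool, if Sum6.D5 K e L m0 n0 z then
        (wE z.1 * g z.1) * ((wE z.2.1 * f z.2.1) * ((wE z.2.2.1 * g z.2.2.1) * ((wE z.2.2.2.1 * f z.2.2.2.1) *
          (wE z.2.2.2.2 * g z.2.2.2.2)))) else 0 := by
    intro n0
    simp only [k4]
    exact (Sum6.step (CP K e L e0 n0) (Sum6.ed n0 e0) (fun n b h => Sum6.CP_ed h) (fun b => wE b * g b)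
      (fun m1 r => Sum6.D4 K e L m0 m1 r)
      (fun r => (wE r.1 * f r.1) * ((wE r.2.1 * g r.2.1) * ((wE r.2.2.1 * f r.2.2.1) *
        (wE r.2.2.2 * g r.2.2.2)))) (Sum6.D5 K e L m0 n0) (fun _ => Iff.rfl)).symm
  simp only [k5]
  have k6 := Sum6.step (BP K e e0 m0) (Sum6.ed m0 e0) (fun n b h => Sum6.BP_ed h) (fun b => wE b * f b)
      (fun n0 r => Sum6.D5 K e L m0 n0 r)
      (fun r => (wE r.1 * g r.1) * ((wE r.2.1 * f r.2.1) * ((wE r.2.2.1 * g r.2.2.1) * ((wE r.2.2.2.1 * f r.2.2.2.1) *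
        (wE r.2.2.2.2 * g r.2.2.2.2))))) (Sum6.D6 K e L m0) (fun _ => Iff.rfl)
  simp only [mul_assoc] at k6 ⊢
  exact k6

end RP

end HexObs
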