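import Pool.Agent.RSWP.First
import Pool.Agent.RSWP.Second
import Pool.Agent.RSWP.Sum6
import Pool.Agent.RSWP.Pairs6

/-!
RSWP P17: the second moment method, polygons counted once.
-/

set_option autoImplicit false

namespace HexObs

namespace RP

open Finset ENNReal

namespace Lam

/-- the words of length at most n. -/
lemma fiber_finite (W : List Bool) : {w : S6 | cat6 w = W}.Finite := by
  have h1 : {l : List Bool | l.length ≤ W.length}.Finite := List.finite_length_le Bool W.length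
  have h2 : {w : S6 | cat6 w = W} ⊆ {l : List Bool | l.length ≤ W.length} ×ˢ
      ({l : List Bool | l.length ≤ W.length} ×ˢ ({l : List Bool | l.length ≤ W.length} ×ˢ
      ({l : List Bool | l.length ≤ W.length} ×ˢ ({l : List Bool | l.length ≤ W.length} ×ˢ
      {l : List Bool | l.length ≤ W.length})))) := by
    rintro ⟨a, b, c, d, e, f⟩ h
    have h3 : (cat6 (a, b, c, d, e, f)).length = W.length := by
      rw [show cat6 (a, b, c, d, e, f) = W from h]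
    simp only [cat6, List.length_append] at h3
    simp only [Set.mem_prod, Set.mem_ofPred_eq]
    refine ⟨?_, ?_, ?_, ?_, ?_, ?_⟩ <;> omega
  exact (h1.prod (h1.prod (h1.prod (h1.prod (h1.prod h1))))).subset h2

lemma decs_finite (K e L : ℕ) (y : Pt × List Bool) : {w : S6 | Dec K e L y.1 w ∧ cat6 w = y.2}.Finite :=
  (fiber_finite y.2).subset (fun _ h => h.2)

/-- the rooted closed walks with a decomposition. -/
def Y (K e L : ℕ) : Set (Pt × List Bool) := {y | y ∈ Y0 K e L y.2.length}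

lemma mem_Y {K e L : ℕ} {y : Pt × List Bool} : y ∈ Y K e L ↔ ∃ w, Dec K e L y.1 w ∧ cat6 w = y.2 := by
  unfold Y Y0
  simp only [Set.mem_ofPred_eq, true_and]

/-- regrouping. -/
lemma regroup (K e L : ℕ) (F : Pt × List Bool → ℝ≥0∞) :
    ∑' y : {y : Pt × S6 // Dec K e L y.1 y.2}, F (y.1.1, cat6 y.1.2) =
      ∑' y : {y : Pt × List Bool // y ∈ Y K e L}, F y.1 * (DD K e L y.1 : ℝ≥0∞) := by
  let E : {y : Pt × S6 // Dec K e L y.1 y.2} ≃
      (Σ y : {y : Pt × List Bool // y ∈ Y K e L}, {w : S6 // Dec K e L y.1.1 w ∧ cat6 w = y.1.2}) :=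
    { toFun := fun y => ⟨⟨(y.1.1, cat6 y.1.2), mem_Y.2 ⟨y.1.2, y.2, rfl⟩⟩, ⟨y.1.2, y.2, rfl⟩⟩
      invFun := fun z => ⟨(z.1.1.1, z.2.1), z.2.2.1⟩
      left_inv := fun y => rfl
      right_inv := by
        rintro ⟨⟨⟨m, W⟩, hy⟩, ⟨w, h1, h2⟩⟩
        simp only at h2
        subst h2
        rfl }
  rw [← E.symm.tsum_eq, ENNReal.tsum_sigma']
  apply tsum_congr
  intro y
  have h1 : ∀ w : {w : S6 // Dec K e L y.1.1 w ∧ cat6 w = y.1.2},
      F ((E.symm ⟨y, w⟩).1.1, cat6 (E.symm ⟨y, w⟩).1.2) = F y.1 := by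
    intro w
    show F (y.1.1, cat6 w.1) = F y.1
    rw [w.2.2]
  rw [tsum_congr h1]
  have hf : Fintype {w : S6 | Dec K e L y.1.1 w ∧ cat6 w = y.1.2} := (decs_finite K e L y.1).fintype
  have h2 : DD K e L y.1 = Fintype.card {w : S6 | Dec K e L y.1.1 w ∧ cat6 w = y.1.2} := by
    unfold DD
    rw [Set.ncard_eq_toFinset_card', Set.toFinset_card]
  rw [h2]
  have h3 : ∑' _ : {w : S6 | Dec K e L y.1.1 w ∧ cat6 w = y.1.2}, F y.1 =
      F y.1 * (Fintype.card {w : S6 | Dec K e L y.1.1 w ∧ cat6 w = y.1.2} : ℝ≥0∞) := by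
    rw [tsum_fintype, Finset.sum_const, nsmul_eq_mul, mul_comm]
    rfl
  exact h3

lemma wE_cat6 (w : S6) : wE (cat6 w) = wE w.1 * (wE w.2.1 * (wE w.2.2.1 * (wE w.2.2.2.1 *
    (wE w.2.2.2.2.1 * wE w.2.2.2.2.2)))) := by
  unfold cat6
  rw [wE_append, wE_append, wE_append, wE_append, wE_append]

lemma DD_pos {K e L : ℕ} {y : Pt × List Bool} (hy : y ∈ Y K e L) : 1 ≤ DD K e L y := by
  obtain ⟨w, h1, h2⟩ := mem_Y.1 hy
  unfold DD
  exact (Set.ncard_pos (decs_finite K e L y)).2 ⟨w, h1, h2⟩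

lemma N0_pos {K e L : ℕ} {y : Pt × List Bool} (hy : y ∈ Y K e L) (hlen : 1 ≤ y.2.length) :
    1 ≤ N0 K e L y := by
  unfold N0
  have hfin : {k : ℕ | k < y.2.length ∧ dx up y.2 k = up ∧
      (vx y.1 up y.2 k, y.2.rotate k) ∈ Y0 K e L y.2.length}.Finite :=
    (Set.finite_lt_nat y.2.length).subset (fun _ h => h.1)
  refine (Set.ncard_pos hfin).2 ⟨0, hlen, rfl, ?_⟩
  rw [List.rotate_zero]
  exact hy

/-- the pointwise inequality. -/
lemma point {N D : ℕ} (hN : 1 ≤ N) (l : ℝ≥0∞) (hl : l ≠ 0) (hl' : l ≠ ∞) :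
    (D : ℝ≥0∞) ≤ l * (N : ℝ≥0∞)⁻¹ + l⁻¹ * ((N * D : ℕ) * D) := by
  have hN0 : (N : ℝ≥0∞) ≠ 0 := by
    rw [Nat.cast_ne_zero]
    omega
  have hNt : (N : ℝ≥0∞) ≠ ∞ := ENNReal.natCast_ne_top N
  rcases le_total ((N : ℝ≥0∞) * D) l with h | h
  · refine le_trans ?_ le_self_add
    rw [← div_eq_mul_inv, ENNReal.le_div_iff_mul_le (Or.inl hN0) (Or.inl hNt), mul_comm]
    exact h
  · refine le_trans ?_ le_add_self
    push_cast
    calc (D : ℝ≥0∞) = l⁻¹ * (l * D) := by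
          rw [← mul_assoc, ENNReal.inv_mul_cancel hl hl', one_mul]
      _ ≤ l⁻¹ * (N * D * D) := by gcongr

end Lam

open Lam

/-- polygons counted once, weight at least c at every scale. -/
theorem lam_lower : ∃ (K L e_0 : ℕ) (c : ℝ), 4 ≤ K ∧ 1 ≤ L ∧ 0 < c ∧ ∀ e : ℕ, e_0 ≤ e → ENNReal.ofReal c ≤
    ∑' y : {y : Pt × List Bool // y ∈ Y K e (L * e)}, wE y.1.2 * (N0 K e (L * e) y.1 : ℝ≥0∞)⁻¹ := by
  obtain ⟨K, L, e_0, c, hK, hL, hc, hfirst⟩ := first
  obtain ⟨C, hC, hsecond⟩ := second K hK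
  have hCW := Num2Aux.CW_pos
  obtain ⟨D, hD⟩ : ∃ D : ℝ, D = 6 + CW := ⟨_, rfl⟩
  have hD0 : 0 < D := by rw [hD]; positivity
  refine ⟨K, L, max e_0 1, c ^ 2 / (4 * C * D ^ 6), hK, hL, by positivity, ?_⟩
  intro e he
  have he0 : e_0 ≤ e := le_trans (le_max_left _ _) he
  have he1 : 1 ≤ e := le_trans (le_max_right _ _) he
  have hLe : 1 ≤ L * e := Nat.mul_pos hL he1
  have hf := hfirst e he0
  have hs := hsecond e (L * e) he1 hLe
  obtain ⟨u, hu⟩ : ∃ u : ℝ, u = (e : ℝ) * uu e := ⟨_, rfl⟩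
  obtain ⟨U, hU⟩ : ∃ U : ℝ, U = UU e := ⟨_, rfl⟩
  have hu0 : 0 < u := by
    rw [hu]
    have h1 : (0 : ℝ) < e := by exact_mod_cast he1
    exact mul_pos h1 (uu_pos e)
  have hU0 : 0 < U := by rw [hU]; exact Num2Aux.UU_pos e
  have hUu : U ≤ D * u := by
    rw [hU, hD, hu]
    exact UU_le_mul he1
  rw [← hu] at hf hs
  -- the quantities
  obtain ⟨Lam, hLam⟩ : ∃ Lam : ℝ≥0∞, Lam = ∑' y : {y : Pt × List Bool // y ∈ Y K e (L * e)},
    wE y.1.2 * (N0 K e (L * e) y.1 : ℝ≥0∞)⁻¹ := ⟨_, rfl⟩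
  rw [← hLam]
  have hA : EE K e (L * e) (fun _ => 1) (fun _ => 1) =
      ∑' y : {y : Pt × List Bool // y ∈ Y K e (L * e)}, wE y.1.2 * (DD K e (L * e) y.1 : ℝ≥0∞) := by
    rw [← sum6, ← regroup K e (L * e) (fun y => wE y.2)]
    apply tsum_congr
    intro y
    simp only [mul_one]
    rw [wE_cat6]
  have hQ : ∑' y : {y : Pt × List Bool // y ∈ Y K e (L * e)},
      (wE y.1.2 * ((N0 K e (L * e) y.1 * DD K e (L * e) y.1 : ℕ) : ℝ≥0∞)) * (DD K e (L * e) y.1 : ℝ≥0∞) ≤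
        ENNReal.ofReal U ^ 6 * EE K e (L * e) (fB e) (fC K e) := by
    rw [← regroup K e (L * e) (fun y => wE y.2 * ((N0 K e (L * e) y * DD K e (L * e) y : ℕ) : ℝ≥0∞)), ← sum6,
      ← ENNReal.tsum_mul_left]
    apply ENNReal.tsum_le_tsum
    intro y
    have h1 := pairs6 (by omega : 2 ≤ K) he1 y.2
    rw [← hU] at h1
    simp only [wE_cat6]
    refine le_trans (mul_le_mul_right h1 _) (le_of_eq ?_)
    ring
  -- the inequality
  obtain ⟨l, hl⟩ : ∃ l : ℝ, l = 2 * C * U ^ 6 / c := ⟨_, rfl⟩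
  have hl0 : 0 < l := by rw [hl]; positivity
  have hle0 : ENNReal.ofReal l ≠ 0 := by
    rw [Ne, ENNReal.ofReal_eq_zero, not_le]
    exact hl0
  have hmain : EE K e (L * e) (fun _ => 1) (fun _ => 1) ≤ ENNReal.ofReal l * Lam +
      (ENNReal.ofReal l)⁻¹ * (ENNReal.ofReal U ^ 6 * EE K e (L * e) (fB e) (fC K e)) := by
    refine le_trans ?_ (add_le_add le_rfl (mul_le_mul_right hQ _))
    rw [hA, hLam, ← ENNReal.tsum_mul_left, ← ENNReal.tsum_mul_left, ← ENNReal.tsum_add]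
    apply ENNReal.tsum_le_tsum
    intro y
    have hlen : 1 ≤ y.1.2.length := by
      obtain ⟨w, h1, h2⟩ := mem_Y.1 y.2
      obtain ⟨n0, m1, n1, m2, n2, hb, _⟩ := h1
      have h3 : 1 ≤ w.1.length := by
        by_contra hcon
        have h4 : w.1.length = 0 := by omega
        have h5 := hb.2.2.2.1
        rw [h4] at h5
        have h6 : vx y.1.1 e0 w.1 0 = y.1.1 := rfl
        rw [h6] at h5
        have h7 := hb.1.2.2.1
        have h8 := hb.2.1.2.1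
        rw [← h5] at h8
        have h9 : (1 : ℤ) ≤ e := by exact_mod_cast he1
        linarith
      rw [← h2]
      unfold cat6
      rw [List.length_append]
      omega
    have hN := N0_pos (K := K) (e := e) (L := L * e) y.2 hlen
    have h2 := point (D := DD K e (L * e) y.1) hN (ENNReal.ofReal l) hle0 ENNReal.ofReal_ne_top
    calc wE y.1.2 * (DD K e (L * e) y.1 : ℝ≥0∞) ≤ wE y.1.2 * (ENNReal.ofReal l * (N0 K e (L * e) y.1 : ℝ≥0∞)⁻¹ +
          (ENNReal.ofReal l)⁻¹ * ((N0 K e (L * e) y.1 * DD K e (L * e) y.1 : ℕ) * (DD K e (L * e) y.1 : ℝ≥0∞))) := by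
            gcongr
      _ = _ := by ring
  -- numbers
  have h3 : (ENNReal.ofReal l)⁻¹ * (ENNReal.ofReal U ^ 6 * EE K e (L * e) (fB e) (fC K e)) ≤
      ENNReal.ofReal (c / 2 * u ^ 6) := by
    calc _ ≤ (ENNReal.ofReal l)⁻¹ * (ENNReal.ofReal U ^ 6 * ENNReal.ofReal (C * u ^ 6)) := by gcongr
      _ = ENNReal.ofReal (l⁻¹ * (U ^ 6 * (C * u ^ 6))) := by
          rw [← ENNReal.ofReal_inv_of_pos hl0, ← ENNReal.ofReal_pow hU0.le, ← ENNReal.ofReal_mul (by positivity),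
            ← ENNReal.ofReal_mul (by positivity)]
      _ = ENNReal.ofReal (c / 2 * u ^ 6) := by
          congr 1
          rw [hl]
          field_simp
  have h4 : ENNReal.ofReal (c * u ^ 6) ≤ ENNReal.ofReal l * Lam + ENNReal.ofReal (c / 2 * u ^ 6) :=
    hf.trans (hmain.trans (add_le_add le_rfl h3))
  have h5 : ENNReal.ofReal (c / 2 * u ^ 6) ≤ ENNReal.ofReal l * Lam := by
    have e1 : ENNReal.ofReal (c * u ^ 6) = ENNReal.ofReal (c / 2 * u ^ 6) + ENNReal.ofReal (c / 2 * u ^ 6) := by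
      rw [← ENNReal.ofReal_add (by positivity) (by positivity)]
      congr 1
      ring
    rw [e1] at h4
    exact (ENNReal.add_le_add_iff_right ENNReal.ofReal_ne_top).1 h4
  have h6 : ENNReal.ofReal (c / 2 * u ^ 6) / ENNReal.ofReal l ≤ Lam := by
    rw [ENNReal.div_le_iff_le_mul (Or.inl hle0) (Or.inl ENNReal.ofReal_ne_top), mul_comm Lam]
    exact h5
  refine le_trans ?_ h6
  rw [← ENNReal.ofReal_div_of_pos hl0]
  apply ENNReal.ofReal_le_ofReal
  rw [hl, div_div_eq_mul_div, div_le_div_iff₀ (by positivity) (by positivity)]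
  have h7 : U ^ 6 ≤ D ^ 6 * u ^ 6 := by
    rw [← mul_pow]
    exact pow_le_pow_left₀ hU0.le hUu 6
  nlinarith [mul_le_mul_of_nonneg_left h7 (by positivity : (0 : ℝ) ≤ 2 * C * c ^ 2)]

end RP

end HexObs
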