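import Pool.Agent.RSWP.DefsL

/-!
RSWP, P2: Hoelder continuity of the end of a bridge (from the bound for pairs with a fixed window).
-/

set_option autoImplicit false

namespace HexObs

namespace RP

open Finset ENNReal

namespace Hold

lemma latE_odd_shift (x : ℤ) : (fun p : Pt => p + (1 : ℤ) • hz up) ⁻¹' {w | w.1 = x} = {w | w.1 = x - 2} := by
  ext p
  have h : hz up = (2, -1) := by decide
  simp only [Set.mem_preimage, Set.mem_ofPred_eq, h, Prod.fst_add, Prod.smul_fst, smul_eq_mul]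
  constructor <;> intro h <;> linarith

lemma brE_col (T : ℕ) (x : ℤ) : gf (Ex.BrE (St T) ∅ (foot oo up 0) up {w | w.1 = x}) = gf (EndB T x) := by
  have h := Ex.brE_Brd T {y | y = x}
  have e : ({w : Pt | w.1 = x} : Set Pt) = {w | w.1 ∈ {y : ℤ | y = x}} := rfl
  rw [e, h]
  rfl

lemma brE_col1 (T : ℕ) (x : ℤ) : gf (Ex.BrE (St T) ∅ (foot oo up 1) up {w | w.1 = x}) = gf (EndB T (x - 2)) := by
  have h := Ex.gf_BrE_trans T 0 1 {w | w.1 = x}
  rw [zero_add, latE_odd_shift, brE_col] at h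
  exact h

/-- one step. -/
lemma step {T : ℕ} (hT : 1 ≤ T) (x : ℤ) : H T (x - 2) - H T x ≤ FF T 1 {w | w.1 = x} := by
  have h := Ex.SEP hT {w | w.1 = x}
  rw [brE_col, brE_col1] at h
  have h2 : 0 ≤ (Ex.P2E (St T) oo up 0 {w | w.1 = x} 1 Set.univ ∅).toReal := ENNReal.toReal_nonneg
  unfold H FF
  linarith

/-- additivity of the pairs in the window. -/
lemma FF_add {T : ℕ} (hT : 1 ≤ T) {W W' V : Set Pt} (hW : W ⊆ V) (hW' : W' ⊆ V) (hd : Disjoint W W') :
    FF T 1 W + FF T 1 W' ≤ FF T 1 V := by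
  have h1 := Ex.P2E_ne_top hT 0 1 Set.univ W ∅
  have h2 := Ex.P2E_ne_top hT 0 1 Set.univ W' ∅
  have h3 := Ex.P2E_ne_top hT 0 1 Set.univ V ∅
  unfold FF
  rw [← ENNReal.toReal_add h1 h2]
  apply ENNReal.toReal_mono h3
  unfold Ex.P2E Ex.overE
  rw [← ENNReal.tsum_add]
  apply ENNReal.tsum_le_tsum
  intro s
  by_cases hs : s ∈ Ex.BrE (St T) ∅ (foot oo up 0) up Set.univ
  · rw [Set.indicator_of_mem hs, Set.indicator_of_mem hs, Set.indicator_of_mem hs, ← mul_add]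
    apply mul_le_mul_right
    beta_reduce
    rw [gf_ind, gf_ind, gf_ind, ← ENNReal.tsum_add]
    apply ENNReal.tsum_le_tsum
    intro t
    by_cases ht1 : t ∈ Ex.BrE (St T) (∅ ∪ vis (foot oo up 0) up s) (foot oo up 1) up W
    · have ht2 : t ∉ Ex.BrE (St T) (∅ ∪ vis (foot oo up 0) up s) (foot oo up 1) up W' := by
        intro ht2
        exact Set.disjoint_left.1 hd ht1.2 ht2.2
      have ht3 : t ∈ Ex.BrE (St T) (∅ ∪ vis (foot oo up 0) up s) (foot oo up 1) up V := ⟨ht1.1, hW ht1.2⟩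
      rw [if_pos ht1, if_neg ht2, if_pos ht3, add_zero]
    · rw [if_neg ht1, zero_add]
      by_cases ht2 : t ∈ Ex.BrE (St T) (∅ ∪ vis (foot oo up 0) up s) (foot oo up 1) up W'
      · have ht3 : t ∈ Ex.BrE (St T) (∅ ∪ vis (foot oo up 0) up s) (foot oo up 1) up V := ⟨ht2.1, hW' ht2.2⟩
        rw [if_pos ht2, if_pos ht3]
      · rw [if_neg ht2]
        exact zero_le
  · rw [Set.indicator_of_notMem hs, Set.indicator_of_notMem hs, Set.indicator_of_notMem hs, add_zero]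

/-- the sum over a window. -/
lemma window {T : ℕ} (hT : 1 ≤ T) (y : ℤ) (n : ℕ) : H T y - H T (y + 2 * n) ≤ FF T 1 (col y (y + 2 * n)) := by
  induction n with
  | zero =>
    have h : 0 ≤ FF T 1 (col y (y + 2 * (0 : ℕ))) := ENNReal.toReal_nonneg
    simpa using h
  | succ n ih =>
    have h1 := step hT (y + 2 * (n + 1 : ℕ))
    have e : y + 2 * ((n + 1 : ℕ) : ℤ) - 2 = y + 2 * n := by
      push_cast
      ring
    rw [e] at h1
    have h2 := FF_add hT (W := col y (y + 2 * n)) (W' := {w | w.1 = y + 2 * (n + 1 : ℕ)})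
      (V := col y (y + 2 * (n + 1 : ℕ))) (by
        intro w hw
        refine ⟨hw.1, hw.2.trans ?_⟩
        push_cast
        linarith) (by
        intro w hw
        have hw' : w.1 = y + 2 * ((n + 1 : ℕ) : ℤ) := hw
        refine ⟨?_, hw'.le⟩
        rw [hw']
        push_cast
        have : (0 : ℤ) ≤ n := Int.natCast_nonneg n
        linarith) (by
        rw [Set.disjoint_left]
        intro w hw hw2
        have hw' : w.1 = y + 2 * ((n + 1 : ℕ) : ℤ) := hw2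
        have hw1 : w.1 ≤ y + 2 * n := hw.2
        rw [hw'] at hw1
        push_cast at hw1
        linarith)
    linarith

/-- the mirror image. -/
lemma H_neg (T : ℕ) (x : ℤ) : H T (-x) = H T x := by
  have key : ∀ z : ℤ, gf (EndB T z) ≤ gf (EndB T (-z)) := by
    intro z
    have h := gf_le_of_inj (P := EndB T z) (Q := EndB T (-z)) (fun t => t.map not)
      (fun t ht => ⟨Brd_not ht.1, by rw [latE_not, ht.2]⟩) (by
        intro s _ t _ hst
        have := congrArg (List.map not) hst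
        rwa [map_not_not, map_not_not] at this) 1 (by
        intro t _
        rw [one_mul, wE_map_not])
    rwa [one_mul] at h
  have h1 := key x
  have h2 := key (-x)
  rw [neg_neg] at h2
  unfold H
  rw [le_antisymm h2 h1]

lemma H_nonneg (T : ℕ) (x : ℤ) : 0 ≤ H T x := ENNReal.toReal_nonneg

/-- relative decay, with exponent at most 1. -/
lemma decay : ∃ c : ℝ, 0 < c ∧ c ≤ 1 ∧ ∀ s T : ℕ, 1 ≤ s → s ≤ T → uu T * (T : ℝ) ^ c ≤ uu s * (s : ℝ) ^ c := by
  obtain ⟨c, hc, h⟩ := Ex.relDecay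
  refine ⟨min c 1, lt_min hc one_pos, min_le_right _ _, ?_⟩
  intro s T hs hT
  exact Ex.rd_pow (b := uu) (fun T _ => uu_pos T) (lt_min hc one_pos) (min_le_right _ _) (by
    intro T hT
    have h1 := h T hT
    have h2 : 0 ≤ bT T := bT_nonneg T
    have h3 : min c 1 * bT T ≤ c * bT T := mul_le_mul_of_nonneg_right (min_le_left _ _) h2
    exact h3.trans h1) hs T hT

/-- the bound for a window of width Z with 2 Z ≤ T. -/
lemma small {C c : ℝ} (hC : 0 < C) (hc1 : c ≤ 1)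
    (hdec : ∀ s T : ℕ, 1 ≤ s → s ≤ T → uu T * (T : ℝ) ^ c ≤ uu s * (s : ℝ) ^ c) {T Z : ℕ} (hZ : 1 ≤ Z)
    (hT : 2 * Z ≤ T) :
    C * (Z / (Z * uu (2 * Z))) * (uu T ^ 2 / T) ≤ 2 * C * ((Z : ℝ) / T) ^ c * (uu T / T) := by
  have hZp : (0 : ℝ) < Z := by exact_mod_cast hZ
  have hTp : (0 : ℝ) < T := by
    have : 0 < T := by omega
    exact_mod_cast this
  have hu := uu_pos (2 * Z)
  have huT := uu_pos T
  have h1 := hdec (2 * Z) T (by omega) hT
  have e : (((2 * Z : ℕ) : ℝ)) ^ c = 2 ^ c * (Z : ℝ) ^ c := by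
    push_cast
    rw [Real.mul_rpow (by norm_num) hZp.le]
  rw [e] at h1
  have h2 : (2 : ℝ) ^ c ≤ 2 := by
    have := Real.rpow_le_rpow_of_exponent_le (x := 2) (by norm_num) hc1
    rwa [Real.rpow_one] at this
  have hTc : 0 < (T : ℝ) ^ c := Real.rpow_pos_of_pos hTp c
  have hZc : 0 < (Z : ℝ) ^ c := Real.rpow_pos_of_pos hZp c
  have h3 : uu T / uu (2 * Z) ≤ 2 * ((Z : ℝ) / T) ^ c := by
    rw [Real.div_rpow hZp.le hTp.le, div_le_iff₀ hu]
    have h4 : uu T * (T : ℝ) ^ c ≤ 2 * (Z : ℝ) ^ c * uu (2 * Z) := by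
      calc uu T * (T : ℝ) ^ c ≤ uu (2 * Z) * (2 ^ c * (Z : ℝ) ^ c) := h1
        _ ≤ uu (2 * Z) * (2 * (Z : ℝ) ^ c) := by gcongr
        _ = 2 * (Z : ℝ) ^ c * uu (2 * Z) := by ring
    calc uu T = uu T * (T : ℝ) ^ c / (T : ℝ) ^ c := by field_simp
      _ ≤ 2 * (Z : ℝ) ^ c * uu (2 * Z) / (T : ℝ) ^ c := by gcongr
      _ = 2 * ((Z : ℝ) ^ c / (T : ℝ) ^ c) * uu (2 * Z) := by ring
  calc C * (Z / (Z * uu (2 * Z))) * (uu T ^ 2 / T) = C * (uu T / uu (2 * Z)) * (uu T / T) := by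
        field_simp
    _ ≤ C * (2 * ((Z : ℝ) / T) ^ c) * (uu T / T) := by
        have : 0 ≤ uu T / T := by positivity
        gcongr
    _ = 2 * C * ((Z : ℝ) / T) ^ c * (uu T / T) := by ring

/-- the one-sided bound. -/
lemma one_side {C C' c : ℝ} (hC : 0 < C) (hC' : 0 < C') (hc : 0 < c) (hc1 : c ≤ 1)
    (hdec : ∀ s T : ℕ, 1 ≤ s → s ≤ T → uu T * (T : ℝ) ^ c ≤ uu s * (s : ℝ) ^ c)
    (hP : ∀ (T Z : ℕ) (a : ℤ), 1 ≤ Z → 2 * Z ≤ T →
      FF T 1 (col a (a + Z)) ≤ C * (Z / (Z * uu (2 * Z))) * (uu T ^ 2 / T))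
    (hE : ∀ h : ℕ, 1 ≤ h → ∀ x : ℤ, gf {t | t ∈ Brd h ∧ latE t = x} ≤ ENNReal.ofReal (C' * (uu h / h)))
    {T : ℕ} (hT : 1 ≤ T) (y : ℤ) (n : ℕ) :
    H T y - H T (y + 2 * n) ≤ 2 * (C + C') * (((2 * n : ℕ) : ℝ) / T) ^ c * (uu T / T) := by
  have hTp : (0 : ℝ) < T := by exact_mod_cast hT
  have huT := uu_pos T
  rcases Nat.eq_zero_or_pos n with rfl | hn
  · have : H T y - H T (y + 2 * ((0 : ℕ) : ℤ)) = 0 := by simp
    rw [this]
    positivity
  rcases le_or_gt (2 * (2 * n)) T with h | h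
  · have h1 := hP T (2 * n) y (by omega) h
    have h2 := small hC hc1 hdec (Z := 2 * n) (by omega) h
    have h3 := window hT y n
    have e : y + ((2 * n : ℕ) : ℤ) = y + 2 * n := by push_cast; ring
    rw [e] at h1
    have h4 : 2 * C * (((2 * n : ℕ) : ℝ) / T) ^ c * (uu T / T) ≤
        2 * (C + C') * (((2 * n : ℕ) : ℝ) / T) ^ c * (uu T / T) := by
      gcongr
      linarith
    exact h3.trans (h1.trans (h2.trans h4))
  · have h1 : H T y ≤ C' * (uu T / T) := by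
      unfold H
      apply ENNReal.toReal_le_of_le_ofReal (by positivity)
      exact hE T hT y
    have h2 := H_nonneg T (y + 2 * n)
    have h3 : (1 / 2 : ℝ) ≤ (((2 * n : ℕ) : ℝ) / T) ^ c := by
      have h4 : (1 / 2 : ℝ) ≤ ((2 * n : ℕ) : ℝ) / T := by
        rw [le_div_iff₀ hTp]
        have : (T : ℝ) < ((2 * (2 * n) : ℕ) : ℝ) := by exact_mod_cast h
        push_cast at this ⊢
        linarith
      have h5 : (1 / 2 : ℝ) ^ c ≤ (((2 * n : ℕ) : ℝ) / T) ^ c := Real.rpow_le_rpow (by norm_num) h4 hc.le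
      have h6 : (1 / 2 : ℝ) ^ (1 : ℝ) ≤ (1 / 2 : ℝ) ^ c :=
        Real.rpow_le_rpow_of_exponent_ge (by norm_num) (by norm_num) hc1
      rw [Real.rpow_one] at h6
      exact h6.trans h5
    have h7 : 0 ≤ uu T / T := by positivity
    calc H T y - H T (y + 2 * n) ≤ C' * (uu T / T) := by linarith
      _ = 2 * C' * (1 / 2) * (uu T / T) := by ring
      _ ≤ 2 * (C + C') * (((2 * n : ℕ) : ℝ) / T) ^ c * (uu T / T) := by
        gcongr
        linarith

end Hold

/-- P2: Hoelder continuity of the end of a bridge, from P1. -/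
theorem hoelder_of (hP : ∃ C : ℝ, 0 < C ∧ ∀ (T Z : ℕ) (a : ℤ), 1 ≤ Z → 2 * Z ≤ T →
    FF T 1 (col a (a + Z)) ≤ C * (Z / (Z * uu (2 * Z))) * (uu T ^ 2 / T)) :
    ∃ C κ : ℝ, 0 < C ∧ 0 < κ ∧ ∀ (T : ℕ) (x y : ℤ), 1 ≤ T → Even (x - y) →
    |H T x - H T y| ≤ C * ((|x - y| : ℤ) / T : ℝ) ^ κ * (uu T / T) := by
  obtain ⟨C, hC, hP⟩ := hP
  obtain ⟨C', hC', hE⟩ := anti_end
  obtain ⟨c, hc, hc1, hdec⟩ := Hold.decay
  refine ⟨2 * (C + C'), c, by positivity, hc, ?_⟩
  -- the case y ≤ x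
  have key : ∀ (T : ℕ) (x y : ℤ), 1 ≤ T → y ≤ x → Even (x - y) →
      |H T x - H T y| ≤ 2 * (C + C') * ((|x - y| : ℤ) / T : ℝ) ^ c * (uu T / T) := by
    intro T x y hT hxy hev
    obtain ⟨m, hm⟩ := hev
    have hm0 : 0 ≤ m := by linarith
    obtain ⟨n, rfl⟩ := Int.eq_ofNat_of_zero_le hm0
    have hx : x = y + 2 * n := by linarith
    have e : ((|x - y| : ℤ) : ℝ) = ((2 * n : ℕ) : ℝ) := by
      rw [hx]
      have : |y + 2 * (n : ℤ) - y| = ((2 * n : ℕ) : ℤ) := by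
        rw [add_sub_cancel_left]
        push_cast
        exact abs_of_nonneg (by positivity)
      rw [this]
      push_cast
      ring
    rw [e]
    have h1 := Hold.one_side hC hC' hc hc1 hdec hP hE hT y n
    have h2 := Hold.one_side hC hC' hc hc1 hdec hP hE hT (-x) n
    have e2 : -x + 2 * (n : ℤ) = -y := by rw [hx]; ring
    rw [e2, Hold.H_neg, Hold.H_neg] at h2
    rw [← hx] at h1
    rw [abs_le]
    constructor
    · linarith
    · exact h2
  intro T x y hT hev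
  rcases le_total y x with h | h
  · exact key T x y hT h hev
  · have h1 := key T y x hT h (by
      rw [← neg_sub]
      exact hev.neg)
    rw [abs_sub_comm, abs_sub_comm x y]
    exact h1

end RP

end HexObs
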