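import Pool.Agent.RSWP.DefsL
import Pool.Agent.PHW.Cuts
import Pool.Agent.PHW.DefsQ
import Pool.Agent.PHW.Mirror

/-!
RSWP, P4: the one-mark lemma and the convolution of three sets of bridges.
-/

set_option autoImplicit false

namespace HexObs

namespace RP

open Finset ENNReal

namespace OneMark

/-- the word w splits into a word of A and a word of B, the end is at x. -/
def Mk (A B : Set (List Bool)) (x : ℤ) (w : List Bool) : Prop :=
  ∃ a ∈ A, ∃ b ∈ B, latE a + latE b = x ∧ w = a ++ b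

open Classical in
/-- indicator -/
noncomputable def chi (A B : Set (List Bool)) (x : ℤ) (w : List Bool) : ℝ≥0∞ := if Mk A B x w then 1 else 0

theorem chi_pos {A B : Set (List Bool)} {x : ℤ} {w : List Bool} (h : Mk A B x w) : chi A B x w = 1 := if_pos h

theorem chi_neg {A B : Set (List Bool)} {x : ℤ} {w : List Bool} (h : ¬ Mk A B x w) : chi A B x w = 0 := if_neg h

theorem conv2_le {c c' : ℕ} {A B : Set (List Bool)} (hA : A ⊆ Brd c) (hB : B ⊆ Brd c') (x : ℤ) :
    conv2 A B x ≤ ∑' w : List Bool, chi A B x w * wE w := by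
  unfold conv2
  let f : {p : List Bool × List Bool | p.1 ∈ A ∧ p.2 ∈ B ∧ latE p.1 + latE p.2 = x} → List Bool :=
    fun p => p.1.1 ++ p.1.2
  have hf : Function.Injective f := by
    rintro ⟨⟨a, b⟩, ha, hb, h⟩ ⟨⟨a', b'⟩, ha', hb', h'⟩ e
    obtain ⟨e1, e2⟩ := cut_unique (hA ha) (hA ha') (hB hb) (hB hb') e
    exact Subtype.ext (Prod.ext e1 e2)
  refine le_trans (le_of_eq ?_) (ENNReal.tsum_comp_le_tsum_of_injective hf (fun w => chi A B x w * wE w))
  refine tsum_congr fun p => ?_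
  have h1 : Mk A B x (f p) := ⟨p.1.1, p.2.1, p.1.2, p.2.2.1, p.2.2.2, rfl⟩
  rw [chi_pos h1, one_mul]
  exact (wE_append _ _).symm

theorem pair_le {t c c' : ℕ} (hc : c ≤ c') {A B A' B' : Set (List Bool)} (hA : A ⊆ Brd c)
    (hB : B ⊆ Brd (t - c)) (hA' : A' ⊆ Brd c') (hB' : B' ⊆ Brd (t - c')) (x : ℤ) :
    ∑' w : List Bool, chi A B x w * chi A' B' x w * wE w ≤ conv3 (Brd c) (Brd (c' - c)) (Brd (t - c')) x := by
  classical
  have key : ∀ w : List Bool, Mk A B x w ∧ Mk A' B' x w → ∃ p : List Bool × List Bool × List Bool,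
      (p.1 ∈ Brd c ∧ p.2.1 ∈ Brd (c' - c) ∧ p.2.2 ∈ Brd (t - c') ∧ latE p.1 + latE p.2.1 + latE p.2.2 = x) ∧
        w = p.1 ++ (p.2.1 ++ p.2.2) := by
    rintro w ⟨⟨a, ha, b, hb, h, e⟩, ⟨a', ha', b', hb', h', e'⟩⟩
    obtain ⟨v, hv, h1, h2⟩ := cut_nested (hA ha) (hA' ha') (hB hb) (hB' hb') hc (e.symm.trans e')
    refine ⟨⟨a, v, b'⟩, ⟨hA ha, hv, hB' hb', ?_⟩, ?_⟩
    · show latE a + latE v + latE b' = x
      have h3 : latE a' = latE a + latE v := by
        rw [h1]
        exact latE_cat (mem_Brd.1 (hA ha)).2.2.1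
      rw [← h3]
      exact h'
    · show w = a ++ (v ++ b')
      rw [← h2]
      exact e
  choose! p hp hw using key
  let W : Type := {w : List Bool // Mk A B x w ∧ Mk A' B' x w}
  have h0 : ∑' w : List Bool, chi A B x w * chi A' B' x w * wE w = ∑' w : W, wE w.1 := by
    have h2 := tsum_subtype {w : List Bool | Mk A B x w ∧ Mk A' B' x w} wE
    refine Eq.trans ?_ h2.symm
    refine tsum_congr fun w => ?_
    by_cases h : Mk A B x w ∧ Mk A' B' x w
    · rw [Set.indicator_of_mem (show w ∈ {w : List Bool | Mk A B x w ∧ Mk A' B' x w} from h), chi_pos h.1,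
        chi_pos h.2, one_mul, one_mul]
    · rw [Set.indicator_of_notMem (show w ∉ {w : List Bool | Mk A B x w ∧ Mk A' B' x w} from h)]
      by_cases h1 : Mk A B x w
      · rw [chi_neg (fun h2 => h ⟨h1, h2⟩), mul_zero, zero_mul]
      · rw [chi_neg h1, zero_mul, zero_mul]
  rw [h0]
  unfold conv3
  let f : W → {p : List Bool × List Bool × List Bool | p.1 ∈ Brd c ∧ p.2.1 ∈ Brd (c' - c) ∧ p.2.2 ∈ Brd (t - c') ∧
    latE p.1 + latE p.2.1 + latE p.2.2 = x} := fun w => ⟨p w.1, hp w.1 w.2⟩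
  have hf : Function.Injective f := by
    intro w w' e
    have e1 : p w.1 = p w'.1 := congrArg Subtype.val e
    apply Subtype.ext
    rw [hw w.1 w.2, hw w'.1 w'.2, e1]
  refine le_trans (le_of_eq ?_) (ENNReal.tsum_comp_le_tsum_of_injective hf (fun q => wE q.1.1 * (wE q.1.2.1 * wE q.1.2.2)))
  refine tsum_congr fun w => ?_
  show wE w.1 = wE (p w.1).1 * (wE (p w.1).2.1 * wE (p w.1).2.2)
  rw [← wE_append, ← wE_append, ← hw w.1 w.2]

/-- pointwise: N is at most l (if N is not zero) + N^2 / l -/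
theorem point (I : Finset ℕ) (χ : ℕ → ℝ≥0∞) (hχ : ∀ c, χ c = 0 ∨ χ c = 1) (l s : ℝ≥0∞) (hl : l ≠ 0) (hl' : l ≠ ∞)
    (hs : ∀ c ∈ I, χ c = 1 → s = 1) :
    ∑ c ∈ I, χ c ≤ l * s + l⁻¹ * (2 * ∑ c ∈ I, ∑ c' ∈ I.filter (fun c' => c ≤ c'), χ c * χ c') := by
  obtain ⟨N, hN⟩ : ∃ N, N = ∑ c ∈ I, χ c := ⟨_, rfl⟩
  rw [← hN]
  have hsq : N * N ≤ 2 * ∑ c ∈ I, ∑ c' ∈ I.filter (fun c' => c ≤ c'), χ c * χ c' := by
    have e1 : ∀ c ∈ I, ∑ c' ∈ I.filter (fun c' => c ≤ c'), χ c * χ c' = ∑ c' ∈ I, if c ≤ c' then χ c * χ c' else 0 :=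
      fun c _ => Finset.sum_filter _ _
    rw [Finset.sum_congr rfl e1, two_mul]
    have e2 : ∑ c ∈ I, ∑ c' ∈ I, (if c ≤ c' then χ c * χ c' else 0) =
        ∑ c ∈ I, ∑ c' ∈ I, (if c' ≤ c then χ c * χ c' else 0) := by
      rw [Finset.sum_comm]
      refine Finset.sum_congr rfl fun c _ => Finset.sum_congr rfl fun c' _ => ?_
      rw [mul_comm]
    have e3 : ∑ c ∈ I, ∑ c' ∈ I, (if c ≤ c' then χ c * χ c' else 0) +
        ∑ c ∈ I, ∑ c' ∈ I, (if c ≤ c' then χ c * χ c' else 0) =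
        ∑ c ∈ I, ∑ c' ∈ I, ((if c ≤ c' then χ c * χ c' else 0) + (if c' ≤ c then χ c * χ c' else 0)) := by
      conv_lhs => rhs; rw [e2]
      rw [← Finset.sum_add_distrib]
      exact Finset.sum_congr rfl fun c _ => Finset.sum_add_distrib.symm
    rw [e3, hN, Finset.sum_mul_sum]
    refine Finset.sum_le_sum fun c _ => Finset.sum_le_sum fun c' _ => ?_
    rcases le_total c c' with h | h
    · rw [if_pos h]
      exact le_self_add
    · rw [if_pos h]
      exact le_add_self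
  rcases eq_or_ne N 0 with h0 | h0
  · rw [h0]
    exact zero_le
  · have h1 : s = 1 := by
      by_contra hne
      apply h0
      rw [hN]
      exact Finset.sum_eq_zero fun c hc => (hχ c).resolve_right fun h => hne (hs c hc h)
    rw [h1, mul_one]
    refine le_trans ?_ (add_le_add_right (mul_le_mul_right hsq l⁻¹) l)
    rcases le_total N l with h | h
    · exact h.trans le_self_add
    · refine le_trans ?_ le_add_self
      calc N = l⁻¹ * l * N := by rw [ENNReal.inv_mul_cancel hl hl', one_mul]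
        _ = l⁻¹ * (l * N) := by rw [mul_assoc]
        _ ≤ l⁻¹ * (N * N) := by gcongr

end OneMark

open OneMark in
/-- P4: the one-mark lemma. -/
theorem one_mark {t : ℕ} {I : Finset ℕ} (hI : ∀ c ∈ I, c ≤ t) (A B : ℕ → Set (List Bool))
    (hA : ∀ c ∈ I, A c ⊆ Brd c) (hB : ∀ c ∈ I, B c ⊆ Brd (t - c)) (x : ℤ) (S : Set (List Bool))
    (hS : ∀ c ∈ I, ∀ a ∈ A c, ∀ b ∈ B c, latE a + latE b = x → a ++ b ∈ S) (l : ℝ≥0∞) (hl : l ≠ 0) (hl' : l ≠ ∞) :
    ∑ c ∈ I, conv2 (A c) (B c) x ≤ l * gf S +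
      l⁻¹ * (2 * ∑ c ∈ I, ∑ c' ∈ I.filter (fun c' => c ≤ c'), conv3 (Brd c) (Brd (c' - c)) (Brd (t - c')) x) := by
  classical
  have h1 : ∑ c ∈ I, conv2 (A c) (B c) x ≤ ∑' w : List Bool, ∑ c ∈ I, chi (A c) (B c) x w * wE w := by
    rw [Summable.tsum_finsetSum (fun _ _ => ENNReal.summable)]
    exact Finset.sum_le_sum fun c hc => conv2_le (hA c hc) (hB c hc) x
  refine h1.trans ?_
  have h2 : ∀ w : List Bool, ∑ c ∈ I, chi (A c) (B c) x w * wE w ≤ l * (if w ∈ S then wE w else 0) +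
      l⁻¹ * (2 * ∑ c ∈ I, ∑ c' ∈ I.filter (fun c' => c ≤ c'), chi (A c) (B c) x w * chi (A c') (B c') x w * wE w) := by
    intro w
    have h3 := point I (fun c => chi (A c) (B c) x w) (fun c => by
      by_cases h : Mk (A c) (B c) x w
      · exact Or.inr (chi_pos h)
      · exact Or.inl (chi_neg h)) l (if w ∈ S then 1 else 0) hl hl' (fun c hc h => by
        have hm : Mk (A c) (B c) x w := by
          by_contra hm
          rw [chi_neg hm] at h
          exact zero_ne_one h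
        obtain ⟨a, ha, b, hb, hx, e⟩ := hm
        rw [e]
        exact if_pos (hS c hc a ha b hb hx))
    have h4 := mul_le_mul_left h3 (wE w)
    rw [Finset.sum_mul, add_mul] at h4
    refine h4.trans (le_of_eq ?_)
    congr 1
    · rw [mul_assoc, ite_mul, one_mul, zero_mul]
    · rw [mul_assoc, mul_assoc, Finset.sum_mul]
      congr 2
      exact Finset.sum_congr rfl fun c _ => Finset.sum_mul _ _ _
  refine (ENNReal.tsum_le_tsum h2).trans ?_
  rw [ENNReal.tsum_add, ENNReal.tsum_mul_left, ENNReal.tsum_mul_left, ENNReal.tsum_mul_left, ← gf_ind]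
  gcongr
  rw [Summable.tsum_finsetSum (fun _ _ => ENNReal.summable)]
  refine Finset.sum_le_sum fun c hc => ?_
  rw [Summable.tsum_finsetSum (fun _ _ => ENNReal.summable)]
  refine Finset.sum_le_sum fun c' hc' => ?_
  obtain ⟨hc1, hc2⟩ := Finset.mem_filter.1 hc'
  exact pair_le hc2 (hA c hc) (hB c hc) (hA c' hc1) (hB c' hc1) x

/-- P4: the denominator. -/
theorem conv3_le : ∃ C : ℝ, 0 < C ∧ ∀ (a b c : ℕ) (x : ℤ), 1 ≤ c →
    conv3 (Brd a) (Brd b) (Brd c) x ≤ ENNReal.ofReal (C * (uu a * uu b * (uu c / c))) := by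
  classical
  obtain ⟨C, hC, hend⟩ := anti_end
  refine ⟨C, hC, fun a b c x hc => ?_⟩
  have hgf : ∀ n : ℕ, gf (Brd n) = ENNReal.ofReal (uu n) := by
    intro n
    rw [gf_Brd]
    unfold uu
    rw [ENNReal.ofReal_toReal]
    rcases Nat.eq_zero_or_pos n with rfl | h
    · rw [← gf_Brd, Brd_zero]
      unfold gf
      rw [tsum_singleton (f := wE)]
      exact wE_ne_top _
    · exact BT_ne_top h
  unfold conv3
  have h1 : ∑' p : {p : List Bool × List Bool × List Bool | p.1 ∈ Brd a ∧ p.2.1 ∈ Brd b ∧ p.2.2 ∈ Brd c ∧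
      latE p.1 + latE p.2.1 + latE p.2.2 = x}, wE p.1.1 * (wE p.1.2.1 * wE p.1.2.2) =
      ∑' s : List Bool, ∑' u : List Bool, ∑' v : List Bool,
        if s ∈ Brd a ∧ u ∈ Brd b ∧ v ∈ Brd c ∧ latE s + latE u + latE v = x then wE s * (wE u * wE v) else 0 := by
    rw [tsum_subtype {p : List Bool × List Bool × List Bool | p.1 ∈ Brd a ∧ p.2.1 ∈ Brd b ∧ p.2.2 ∈ Brd c ∧
      latE p.1 + latE p.2.1 + latE p.2.2 = x} (fun p : List Bool × List Bool × List Bool =>
        wE p.1 * (wE p.2.1 * wE p.2.2)), ENNReal.tsum_prod']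
    refine tsum_congr fun s => ?_
    rw [ENNReal.tsum_prod']
    exact tsum_congr fun u => tsum_congr fun v => by simp only [Set.indicator_apply, Set.mem_ofPred_eq]
  rw [h1]
  have h2 : ∀ s u : List Bool, (∑' v : List Bool,
      if s ∈ Brd a ∧ u ∈ Brd b ∧ v ∈ Brd c ∧ latE s + latE u + latE v = x then wE s * (wE u * wE v) else 0) ≤
      (if s ∈ Brd a then wE s else 0) * ((if u ∈ Brd b then wE u else 0) * ENNReal.ofReal (C * (uu c / c))) := by
    intro s u
    by_cases hs : s ∈ Brd a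
    · by_cases hu : u ∈ Brd b
      · rw [if_pos hs, if_pos hu]
        refine le_trans (le_of_eq ?_) (mul_le_mul_right (mul_le_mul_right (hend c hc (x - (latE s + latE u))) (wE u)) (wE s))
        rw [gf_ind, ← ENNReal.tsum_mul_left, ← ENNReal.tsum_mul_left]
        refine tsum_congr fun v => ?_
        by_cases h : v ∈ Brd c ∧ latE v = x - (latE s + latE u)
        · rw [if_pos (show s ∈ Brd a ∧ u ∈ Brd b ∧ v ∈ Brd c ∧ latE s + latE u + latE v = x from
            ⟨hs, hu, h.1, by rw [h.2]; ring⟩), if_pos (show v ∈ {t | t ∈ Brd c ∧ latE t = x - (latE s + latE u)} from h)]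
        · rw [if_neg (fun h' => h ⟨h'.2.2.1, by linarith [h'.2.2.2]⟩),
            if_neg (show v ∉ {t | t ∈ Brd c ∧ latE t = x - (latE s + latE u)} from h), mul_zero, mul_zero]
      · refine le_of_eq_of_le ?_ zero_le
        rw [ENNReal.tsum_eq_zero]
        intro v
        exact if_neg (fun h => hu h.2.1)
    · refine le_of_eq_of_le ?_ zero_le
      rw [ENNReal.tsum_eq_zero]
      intro v
      exact if_neg (fun h => hs h.1)
  refine (ENNReal.tsum_le_tsum fun s => ENNReal.tsum_le_tsum fun u => h2 s u).trans (le_of_eq ?_)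
  simp_rw [ENNReal.tsum_mul_left, ENNReal.tsum_mul_right]
  rw [← gf_ind, ← gf_ind, hgf, hgf, ← ENNReal.ofReal_mul (uu_pos b).le, ← ENNReal.ofReal_mul (uu_pos a).le]
  congr 1
  ring

end RP

end HexObs
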