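import Pool.Agent.RSWP.Peak
import Pool.Agent.RSWP.OneMark
import Pool.Agent.PHW.Num2
import Pool.Agent.PHW.Mirror

/-!
RSWP, P5: the local lower bound near 0, in a box.
-/

set_option autoImplicit false

namespace HexObs

namespace RP

open Finset ENNReal

namespace Local0

open Classical in
lemma conv2_ind (A B : Set (List Bool)) (x : ℤ) : conv2 A B x =
    ∑' a : List Bool, ∑' b : List Bool, if a ∈ A ∧ b ∈ B ∧ latE a + latE b = x then wE a * wE b else 0 := by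
  unfold conv2
  rw [tsum_subtype {p : List Bool × List Bool | p.1 ∈ A ∧ p.2 ∈ B ∧ latE p.1 + latE p.2 = x}
    (fun p => wE p.1 * wE p.2), ← ENNReal.tsum_prod]
  refine tsum_congr fun p => ?_
  simp only [Set.indicator_apply, Set.mem_ofPred_eq]

lemma low {A B : Set (List Bool)} {x : ℤ} {m : ℝ≥0∞} (h : ∀ b ∈ B, m ≤ gf {a | a ∈ A ∧ latE a = x - latE b}) :
    gf B * m ≤ conv2 A B x := by
  classical
  rw [conv2_ind, ENNReal.tsum_comm, gf_ind, ← ENNReal.tsum_mul_right]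
  refine ENNReal.tsum_le_tsum fun b => ?_
  by_cases hb : b ∈ B
  · rw [if_pos hb]
    have h1 : (∑' a : List Bool, if a ∈ A ∧ b ∈ B ∧ latE a + latE b = x then wE a * wE b else 0) =
        wE b * gf {a | a ∈ A ∧ latE a = x - latE b} := by
      rw [gf_ind, ← ENNReal.tsum_mul_left]
      refine tsum_congr fun a => ?_
      by_cases ha : a ∈ A ∧ latE a = x - latE b
      · rw [if_pos (show a ∈ {a | a ∈ A ∧ latE a = x - latE b} from ha),
          if_pos ⟨ha.1, hb, by linarith [ha.2]⟩, mul_comm]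
      · rw [if_neg (show a ∉ {a | a ∈ A ∧ latE a = x - latE b} from ha), mul_zero, if_neg]
        rintro ⟨h2, _, h3⟩
        exact ha ⟨h2, by linarith⟩
    rw [h1]
    exact mul_le_mul_right (h b hb) _
  · rw [if_neg hb, zero_mul]
    exact zero_le

lemma upp {A B : Set (List Bool)} {x : ℤ} {m : ℝ≥0∞} (h : ∀ a ∈ A, gf {b | b ∈ B ∧ latE b = x - latE a} ≤ m) :
    conv2 A B x ≤ gf A * m := by
  classical
  rw [conv2_ind, gf_ind, ← ENNReal.tsum_mul_right]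
  refine ENNReal.tsum_le_tsum fun a => ?_
  by_cases ha : a ∈ A
  · rw [if_pos ha]
    have h1 : (∑' b : List Bool, if a ∈ A ∧ b ∈ B ∧ latE a + latE b = x then wE a * wE b else 0) =
        wE a * gf {b | b ∈ B ∧ latE b = x - latE a} := by
      rw [gf_ind, ← ENNReal.tsum_mul_left]
      refine tsum_congr fun b => ?_
      by_cases hb : b ∈ B ∧ latE b = x - latE a
      · rw [if_pos (show b ∈ {b | b ∈ B ∧ latE b = x - latE a} from hb),
          if_pos ⟨ha, hb.1, by linarith [hb.2]⟩]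
      · rw [if_neg (show b ∉ {b | b ∈ B ∧ latE b = x - latE a} from hb), mul_zero, if_neg]
        rintro ⟨_, h2, h3⟩
        exact hb ⟨h2, by linarith⟩
    rw [h1]
    exact mul_le_mul_right (h a ha) _
  · rw [if_neg ha, zero_mul]
    refine le_of_eq ?_
    rw [ENNReal.tsum_eq_zero]
    intro b
    exact if_neg fun h2 => ha h2.1

lemma split {A A1 A2 B : Set (List Bool)} {x : ℤ} (h : A ⊆ A1 ∪ A2) :
    conv2 A B x ≤ conv2 A1 B x + conv2 A2 B x := by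
  classical
  rw [conv2_ind, conv2_ind, conv2_ind, ← ENNReal.tsum_add]
  refine ENNReal.tsum_le_tsum fun a => ?_
  rw [← ENNReal.tsum_add]
  refine ENNReal.tsum_le_tsum fun b => ?_
  by_cases h1 : a ∈ A ∧ b ∈ B ∧ latE a + latE b = x
  · rw [if_pos h1]
    rcases h h1.1 with h2 | h2
    · rw [if_pos ⟨h2, h1.2⟩]
      exact le_self_add
    · rw [if_pos (show a ∈ A2 ∧ b ∈ B ∧ latE a + latE b = x from ⟨h2, h1.2⟩)]
      exact le_add_self
  · rw [if_neg h1]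
    exact zero_le

/-- uu at a quarter of the height -/
lemma uu_quarter : ∃ D : ℝ, 1 ≤ D ∧ ∀ t : ℕ, 4 ≤ t → uu (t / 4) ≤ D * uu t := by
  have hCW := Num2Aux.CW_pos
  refine ⟨(2 * (6 + CW)) ^ 3, one_le_pow₀ (by linarith), fun t ht => ?_⟩
  have hn : 1 ≤ t / 4 := by omega
  have h1 := uu_double hn
  have h2 := uu_double (T := 2 * (t / 4)) (by omega)
  have h3 := uu_double (T := 2 * (2 * (t / 4))) (by omega)
  have h4 : uu (2 * (2 * (2 * (t / 4)))) ≤ uu t := uu_anti (by omega)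
  have hD : 0 < 2 * (6 + CW) := by linarith
  calc uu (t / 4) ≤ 2 * (6 + CW) * uu (2 * (t / 4)) := h1
    _ ≤ 2 * (6 + CW) * (2 * (6 + CW) * uu (2 * (2 * (t / 4)))) := mul_le_mul_of_nonneg_left h2 hD.le
    _ ≤ 2 * (6 + CW) * (2 * (6 + CW) * (2 * (6 + CW) * uu (2 * (2 * (2 * (t / 4)))))) :=
        mul_le_mul_of_nonneg_left (mul_le_mul_of_nonneg_left h3 hD.le) hD.le
    _ ≤ 2 * (6 + CW) * (2 * (6 + CW) * (2 * (6 + CW) * uu t)) :=
        mul_le_mul_of_nonneg_left (mul_le_mul_of_nonneg_left (mul_le_mul_of_nonneg_left h4 hD.le) hD.le) hD.le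
    _ = (2 * (6 + CW)) ^ 3 * uu t := by ring

/-- the confined bridges -/
def AS (M1 c : ℕ) : Set (List Bool) := {a | a ∈ Brd c ∧ ∀ i, i ≤ a.length → |lat a i| ≤ M1 * c}

/-- the line -/
noncomputable def line (x : ℤ) (τ : ℕ) : ℝ → ℝ := fun y => -((x : ℝ) / τ) * y

lemma line_lip {x : ℤ} {τ M0 c : ℕ} (hx : |x| ≤ M0 * c) (hc : c ≤ τ) (hτ : 1 ≤ τ) (a b : ℝ) :
    |line x τ a - line x τ b| ≤ M0 * |a - b| := by
  unfold line
  rw [← mul_sub, abs_mul, abs_neg, abs_div, Nat.abs_cast]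
  refine mul_le_mul_of_nonneg_right ?_ (abs_nonneg _)
  have h1 : (0 : ℝ) < τ := by exact_mod_cast hτ
  rw [div_le_iff₀ h1]
  have h2 : (|(x : ℝ)|) ≤ M0 * c := by exact_mod_cast hx
  have h3 : (c : ℝ) ≤ τ := by exact_mod_cast hc
  have h4 : (0 : ℝ) ≤ M0 := Nat.cast_nonneg _
  exact h2.trans (mul_le_mul_of_nonneg_left h3 h4)

/-- the bridges in the tube -/
def BS (x : ℤ) (τ : ℕ) (ε : ℝ) : Set (List Bool) := {b | b ∈ Brd τ ∧ Ex.TubeW (line x τ) (ε * τ) 0 0 b}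

lemma BS_end {x : ℤ} {τ : ℕ} {ε : ℝ} {b : List Bool} (hτ : 1 ≤ τ) (hb : b ∈ BS x τ ε) :
    |(latE b : ℝ) + x| ≤ ε * τ := by
  obtain ⟨h1, h2⟩ := hb
  have h3 := h2 b.length le_rfl
  have h4 := (mem_Brd.1 h1).2.2.2
  have h5 : (lev b b.length : ℝ) = 3 * τ := by
    rw [h4]
    push_cast
    ring
  have h6 : (0 : ℝ) < τ := by exact_mod_cast hτ
  rw [h5] at h3
  have h7 : line x τ ((0 : ℕ) + 3 * (τ : ℝ) / 3) = -x := by
    unfold line
    push_cast
    field_simp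
    ring
  rw [h7] at h3
  have h8 : (((0 : ℤ) : ℝ) + (lat b b.length : ℝ)) - -(x : ℝ) = (latE b : ℝ) + x := by
    unfold latE
    push_cast
    ring
  rwa [h8] at h3

lemma BS_lat {x : ℤ} {τ M0 c : ℕ} {ε : ℝ} {b : List Bool} (hx : |x| ≤ M0 * c) (hc : c ≤ τ) (hτ : 1 ≤ τ)
    (hε : ε ≤ 1) (hb : b ∈ BS x τ ε) {i : ℕ} (hi : i ≤ b.length) : |(lat b i : ℝ)| ≤ (M0 + 1) * τ := by
  obtain ⟨h1, h2⟩ := hb
  have h3 := h2 i hi
  have h4 := Ex.lev_range h1 hi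
  have h5 := line_lip hx hc hτ (((0 : ℕ) : ℝ) + (lev b i : ℝ) / 3) 0
  have h6 : line x τ 0 = 0 := by
    unfold line
    ring
  have h7 : (0 : ℝ) < τ := by exact_mod_cast hτ
  rw [h6, sub_zero, sub_zero] at h5
  have h8 : |(((0 : ℕ) : ℝ) + (lev b i : ℝ) / 3)| ≤ τ := by
    rw [abs_of_nonneg (by push_cast; linarith [h4.1])]
    push_cast
    linarith [h4.2]
  have h9 : (0 : ℝ) ≤ M0 := Nat.cast_nonneg _
  have h10 : |line x τ (((0 : ℕ) : ℝ) + (lev b i : ℝ) / 3)| ≤ M0 * τ :=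
    h5.trans (mul_le_mul_of_nonneg_left h8 h9)
  have h11 : (lat b i : ℝ) = ((((0 : ℤ) : ℝ) + (lat b i : ℝ)) - line x τ (((0 : ℕ) : ℝ) + (lev b i : ℝ) / 3)) +
      line x τ (((0 : ℕ) : ℝ) + (lev b i : ℝ) / 3) := by
    push_cast
    ring
  rw [h11]
  refine (abs_add_le _ _).trans ?_
  have h12 : ε * τ ≤ τ := by nlinarith
  linarith

lemma sub_aux {P Q : ℝ} {X : ℝ≥0∞} (hQ : 0 ≤ Q) (h : ENNReal.ofReal P ≤ X + ENNReal.ofReal Q) :
    ENNReal.ofReal (P - Q) ≤ X := by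
  rw [ENNReal.ofReal_sub _ hQ]
  exact tsub_le_iff_right.2 h

/-- the numerator -/
lemma numer (hp : ∃ (c ρ : ℝ) (M : ℕ), 0 < c ∧ 0 < ρ ∧ ρ ≤ 1 ∧ ∀ T : ℕ, 1 ≤ T → ∃ x0 : ℤ, |x0| ≤ M * T ∧
    ∀ x : ℤ, Even (x - T) → ((|x - x0| : ℤ) : ℝ) ≤ ρ * T → c * (uu T / T) ≤ H T x) :
    ∃ (c4 ρ ε : ℝ) (M1 M0 t0 : ℕ) (x0 : ℕ → ℤ), 0 < c4 ∧ 0 < ρ ∧ ρ ≤ 1 ∧ ε ≤ 1 ∧
      (∀ c, 1 ≤ c → |x0 c| ≤ M0 * c) ∧ ∀ (t : ℕ) (z : ℤ), t0 ≤ t → Even (z - t) → ((|z| : ℤ) : ℝ) ≤ ρ * t →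
      ∀ c ∈ Icc (t / 4) (t / 2), ENNReal.ofReal (c4 * (uu t ^ 2 / t)) ≤
        conv2 (AS M1 c) (BS (x0 c) (t - c) ε) z := by
  classical
  obtain ⟨c1, ρ0, M0, hc1, hρ0, hρ1, hpk⟩ := hp
  choose! x0 hx0 hpk using hpk
  obtain ⟨C3, hC3, htube⟩ := Ex.tube_words M0
  obtain ⟨C2, hC2, hanti⟩ := anti_end
  obtain ⟨C0, q, hC0, hq0, hq1, hL⟩ := Ex.latR
  obtain ⟨ε, hε⟩ : ∃ ε : ℝ, ε = ρ0 / 16 := ⟨_, rfl⟩
  have hε0 : 0 < ε := by rw [hε]; positivity
  have hε1 : ε ≤ 1 := by rw [hε]; linarith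
  obtain ⟨κ, hκ⟩ : ∃ κ : ℝ, κ = Real.exp (-(C3 / ε)) := ⟨_, rfl⟩
  have hκ0 : 0 < κ := by rw [hκ]; exact Real.exp_pos _
  obtain ⟨M1, hM1⟩ := exists_pow_lt_of_lt_one (show 0 < κ * c1 / 2 / (C0 * C2) by positivity) hq1
  rw [lt_div_iff₀ (by positivity)] at hM1
  refine ⟨κ * c1 / 2, ρ0 / 16, ε, M1, M0, max 8 ⌈2 * (C3 / ε)⌉₊, x0, by positivity, by positivity, by linarith,
    hε1, hx0, ?_⟩
  intro t z ht hz hzt c hc
  rw [Finset.mem_Icc] at hc
  have ht8 : 8 ≤ t := (le_max_left _ _).trans ht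
  have htC : 2 * (C3 / ε) ≤ t := (Nat.le_ceil _).trans (by exact_mod_cast (le_max_right _ _).trans ht)
  have hc1' : 1 ≤ c := by omega
  obtain ⟨τ, hτ⟩ : ∃ τ : ℕ, τ = t - c := ⟨_, rfl⟩
  have hτc : c ≤ τ := by omega
  have hτ1 : 1 ≤ τ := by omega
  have hτt : τ ≤ t := by omega
  rw [← hτ]
  have cr : (1 : ℝ) ≤ c := by exact_mod_cast hc1'
  have τr : (1 : ℝ) ≤ τ := by exact_mod_cast hτ1
  have tr : (8 : ℝ) ≤ t := by exact_mod_cast ht8
  have cτ : (c : ℝ) ≤ τ := by exact_mod_cast hτc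
  have τt : (τ : ℝ) ≤ t := by exact_mod_cast hτt
  have t2τ : (t : ℝ) ≤ 2 * τ := by
    have : t ≤ 2 * τ := by omega
    exact_mod_cast this
  have t8c : (t : ℝ) ≤ 8 * c := by
    have : t ≤ 8 * c := by omega
    exact_mod_cast this
  have huc := uu_pos c
  have huτ := uu_pos τ
  have hut := uu_pos t
  -- the mass of the tube
  have hB : ENNReal.ofReal (κ * uu τ) ≤ gf (BS (x0 c) τ ε) := by
    have h1 := htube (line (x0 c) τ) (line_lip (hx0 c hc1') hτc hτ1) (by unfold line; ring) ε τ hε0 hε1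
      (by linarith)
    rw [hκ]
    exact h1
  -- the bridges of height c with given end
  have hm : ∀ b ∈ BS (x0 c) τ ε, ENNReal.ofReal (c1 * (uu c / c)) ≤
      gf {a | a ∈ Brd c ∧ latE a = z - latE b} := by
    intro b hb
    have h1 : Even (z - latE b - c) := by
      have h2 := latE_even hb.1
      have h3 : z - latE b - c = (z - t) - (latE b - τ) + (t - c - τ) := by ring
      rw [h3]
      refine (hz.sub h2).add ?_
      have : (t : ℤ) - c - τ = 0 := by omega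
      rw [this]
      exact Even.zero
    have h2 : ((|z - latE b - x0 c| : ℤ) : ℝ) ≤ ρ0 * c := by
      have h3 := BS_end hτ1 hb
      have h4 : ((|z - latE b - x0 c| : ℤ) : ℝ) = |(z : ℝ) - ((latE b : ℝ) + x0 c)| := by
        push_cast
        congr 1
        ring
      have hzt' : |(z : ℝ)| ≤ ρ0 / 16 * t := by
        have := hzt
        push_cast at this
        exact this
      rw [h4]
      refine (abs_sub _ _).trans ?_
      refine (add_le_add hzt' h3).trans ?_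
      rw [hε]
      have h5 : ρ0 / 16 * τ ≤ ρ0 / 16 * t := by gcongr
      have h6 : ρ0 / 16 * t + ρ0 / 16 * t ≤ ρ0 * c := by
        have : ρ0 * t ≤ ρ0 * (8 * c) := by gcongr
        linarith
      linarith
    have h3 := hpk c hc1' _ h1 h2
    exact (ENNReal.ofReal_le_iff_le_toReal (EndB_ne_top c _)).2 h3
  -- the unconfined bridges
  have hY : conv2 {a | a ∈ Brd c ∧ ∃ i, i ≤ a.length ∧ (M1 * c : ℤ) < |lat a i|} (BS (x0 c) τ ε) z ≤
      ENNReal.ofReal (C0 * q ^ M1 * uu c * (C2 * (uu τ / τ))) := by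
    refine (upp (m := ENNReal.ofReal (C2 * (uu τ / τ))) ?_).trans ?_
    · intro a _
      refine le_trans (gf_mono ?_) (hanti τ hτ1 (z - latE a))
      rintro b ⟨h1, h2⟩
      exact ⟨h1.1, h2⟩
    · rw [ENNReal.ofReal_mul (show 0 ≤ C0 * q ^ M1 * uu c by positivity)]
      exact mul_le_mul_left (hL M1 c hc1') _
  have hcov : Brd c ⊆ AS M1 c ∪ {a | a ∈ Brd c ∧ ∃ i, i ≤ a.length ∧ (M1 * c : ℤ) < |lat a i|} := by
    intro a ha
    by_cases h : ∀ i, i ≤ a.length → |lat a i| ≤ M1 * c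
    · exact Or.inl ⟨ha, h⟩
    · push Not at h
      exact Or.inr ⟨ha, h⟩
  have h1 : ENNReal.ofReal (κ * uu τ * (c1 * (uu c / c))) ≤ conv2 (AS M1 c) (BS (x0 c) τ ε) z +
      ENNReal.ofReal (C0 * q ^ M1 * uu c * (C2 * (uu τ / τ))) := by
    rw [ENNReal.ofReal_mul (by positivity)]
    refine le_trans ?_ ((split hcov).trans (add_le_add le_rfl hY))
    exact le_trans (mul_le_mul_left hB _) (low hm)
  refine le_trans (ENNReal.ofReal_le_ofReal ?_) (sub_aux (by positivity) h1)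
  have h2 : C0 * q ^ M1 * uu c * (C2 * (uu τ / τ)) ≤ κ * c1 / 2 * (uu c * uu τ / c) := by
    have h3 : uu τ / τ ≤ uu τ / c := by gcongr
    calc C0 * q ^ M1 * uu c * (C2 * (uu τ / τ)) ≤ C0 * q ^ M1 * uu c * (C2 * (uu τ / c)) := by gcongr
      _ = (q ^ M1 * (C0 * C2)) * (uu c * uu τ / c) := by ring
      _ ≤ κ * c1 / 2 * (uu c * uu τ / c) := by gcongr
  have h3 : κ * uu τ * (c1 * (uu c / c)) = κ * c1 * (uu c * uu τ / c) := by ring
  have h4 : uu t ^ 2 / t ≤ uu c * uu τ / c := by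
    have h5 : uu t ≤ uu c := uu_anti (by omega)
    have h6 : uu t ≤ uu τ := uu_anti hτt
    have h7 : (c : ℝ) ≤ t := cτ.trans τt
    rw [sq]
    gcongr
  have h5 : κ * c1 / 2 * (uu t ^ 2 / t) ≤ κ * c1 / 2 * (uu c * uu τ / c) := by gcongr
  rw [h3]
  linarith

/-- the denominator -/
lemma denom (hconv : ∃ C : ℝ, 0 < C ∧ ∀ (a b c : ℕ) (x : ℤ), 1 ≤ c →
    conv3 (Brd a) (Brd b) (Brd c) x ≤ ENNReal.ofReal (C * (uu a * uu b * (uu c / c)))) :
    ∃ C9 : ℝ, 0 < C9 ∧ ∀ (t : ℕ) (z : ℤ), 8 ≤ t → ∑ c ∈ Icc (t / 4) (t / 2),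
      ∑ c' ∈ (Icc (t / 4) (t / 2)).filter (fun c' => c ≤ c'), conv3 (Brd c) (Brd (c' - c)) (Brd (t - c')) z ≤
        ENNReal.ofReal (C9 * (uu t ^ 3 * t)) := by
  obtain ⟨C6, hC6, hconv⟩ := hconv
  obtain ⟨D, hD, hquart⟩ := uu_quarter
  have hCW := Num2Aux.CW_pos
  refine ⟨C6 * D ^ 2 * 2 * (6 + CW), by positivity, fun t z ht => ?_⟩
  have tr : (8 : ℝ) ≤ t := by exact_mod_cast ht
  have hut := uu_pos t
  have hq := hquart t (by omega)
  have hterm : ∀ c ∈ Icc (t / 4) (t / 2), ∀ c' ∈ (Icc (t / 4) (t / 2)).filter (fun c' => c ≤ c'),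
      conv3 (Brd c) (Brd (c' - c)) (Brd (t - c')) z ≤
        ENNReal.ofReal (C6 * D ^ 2 * 2 * (uu t ^ 2 / t) * uu (c' - c)) := by
    intro c hc c' hc'
    rw [Finset.mem_filter, Finset.mem_Icc] at hc'
    rw [Finset.mem_Icc] at hc
    refine (hconv c (c' - c) (t - c') z (by omega)).trans (ENNReal.ofReal_le_ofReal ?_)
    have h1 : uu c ≤ D * uu t := (uu_anti hc.1).trans hq
    have h2 : uu (t - c') ≤ D * uu t := (uu_anti (by omega)).trans hq
    have h3 : (t : ℝ) ≤ 2 * ((t - c' : ℕ) : ℝ) := by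
      have : t ≤ 2 * (t - c') := by omega
      exact_mod_cast this
    have h4 : (0 : ℝ) < ((t - c' : ℕ) : ℝ) := by linarith
    have h5 : uu (t - c') / ((t - c' : ℕ) : ℝ) ≤ D * uu t * (2 / t) := by
      rw [div_le_iff₀ h4]
      have h6 : 1 ≤ 2 / (t : ℝ) * ((t - c' : ℕ) : ℝ) := by
        rw [div_mul_eq_mul_div, le_div_iff₀ (by linarith)]
        linarith
      have h7 : 0 ≤ D * uu t := by positivity
      calc uu (t - c') ≤ D * uu t * 1 := by linarith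
        _ ≤ D * uu t * (2 / (t : ℝ) * ((t - c' : ℕ) : ℝ)) := mul_le_mul_of_nonneg_left h6 h7
        _ = D * uu t * (2 / t) * ((t - c' : ℕ) : ℝ) := by ring
    have h8 := uu_pos (c' - c)
    have h9 := uu_pos c
    calc C6 * (uu c * uu (c' - c) * (uu (t - c') / ((t - c' : ℕ) : ℝ)))
        ≤ C6 * (D * uu t * uu (c' - c) * (D * uu t * (2 / t))) := by
          have := uu_pos (t - c')
          gcongr
      _ = C6 * D ^ 2 * 2 * (uu t ^ 2 / t) * uu (c' - c) := by ring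
  have hin : ∀ c ∈ Icc (t / 4) (t / 2), ∑ c' ∈ (Icc (t / 4) (t / 2)).filter (fun c' => c ≤ c'),
      conv3 (Brd c) (Brd (c' - c)) (Brd (t - c')) z ≤ ENNReal.ofReal (C6 * D ^ 2 * 2 * (uu t ^ 2 / t) * UU t) := by
    intro c hc
    refine (Finset.sum_le_sum (hterm c hc)).trans ?_
    rw [← ENNReal.ofReal_sum_of_nonneg (fun c' _ => mul_nonneg (by positivity) (uu_pos _).le), ← Finset.mul_sum]
    refine ENNReal.ofReal_le_ofReal (mul_le_mul_of_nonneg_left ?_ (by positivity))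
    unfold UU
    have h1 : ∑ c' ∈ (Icc (t / 4) (t / 2)).filter (fun c' => c ≤ c'), uu (c' - c) =
        ∑ j ∈ ((Icc (t / 4) (t / 2)).filter (fun c' => c ≤ c')).image (fun c' => c' - c), uu j := by
      rw [Finset.sum_image]
      intro a ha b hb hab
      have ha' := (Finset.mem_filter.1 ha).2
      have hb' := (Finset.mem_filter.1 hb).2
      simp only at hab
      omega
    rw [h1]
    refine Finset.sum_le_sum_of_subset_of_nonneg ?_ (fun j _ _ => (uu_pos j).le)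
    intro j hj
    rw [Finset.mem_image] at hj
    obtain ⟨c', hc', rfl⟩ := hj
    rw [Finset.mem_filter, Finset.mem_Icc] at hc'
    rw [Finset.mem_range]
    omega
  refine (Finset.sum_le_sum hin).trans ?_
  rw [Finset.sum_const, nsmul_eq_mul, ← ENNReal.ofReal_natCast, ← ENNReal.ofReal_mul (Nat.cast_nonneg _)]
  refine ENNReal.ofReal_le_ofReal ?_
  have h1 : ((Icc (t / 4) (t / 2)).card : ℝ) ≤ t := by
    rw [Nat.card_Icc]
    have : t / 2 + 1 - t / 4 ≤ t := by omega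
    exact_mod_cast this
  have h2 := UU_le_mul (T := t) (by omega)
  have h3 : 0 ≤ C6 * D ^ 2 * 2 * (uu t ^ 2 / t) := by positivity
  have h4 := Num2Aux.UU_pos t
  calc ((Icc (t / 4) (t / 2)).card : ℝ) * (C6 * D ^ 2 * 2 * (uu t ^ 2 / t) * UU t)
      ≤ t * (C6 * D ^ 2 * 2 * (uu t ^ 2 / t) * ((6 + CW) * (t * uu t))) := by gcongr
    _ = C6 * D ^ 2 * 2 * (6 + CW) * (uu t ^ 3 * t) := by
        field_simp

end Local0

/-- P5 from the window P3 and the one-mark lemma P4 -/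
theorem local0_of (hp : ∃ (c ρ : ℝ) (M : ℕ), 0 < c ∧ 0 < ρ ∧ ρ ≤ 1 ∧ ∀ T : ℕ, 1 ≤ T → ∃ x0 : ℤ, |x0| ≤ M * T ∧
    ∀ x : ℤ, Even (x - T) → ((|x - x0| : ℤ) : ℝ) ≤ ρ * T → c * (uu T / T) ≤ H T x) :
    ∃ (c ρ : ℝ) (M t0 : ℕ), 0 < c ∧ 0 < ρ ∧ ρ ≤ 1 ∧ ∀ (t : ℕ) (z : ℤ), t0 ≤ t → Even (z - t) →
    ((|z| : ℤ) : ℝ) ≤ ρ * t → ENNReal.ofReal (c * (uu t / t)) ≤
      gf {b | b ∈ EndB t z ∧ ∀ i, i ≤ b.length → |lat b i| ≤ M * t} := by
  obtain ⟨c4, ρ, ε, M1, M0, t0, x0, hc4, hρ, hρ1, hε1, hx0, hnum⟩ := Local0.numer hp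
  obtain ⟨C9, hC9, hden⟩ := Local0.denom conv3_le
  refine ⟨c4 ^ 2 / (128 * C9), ρ, M1 + M0 + 1, max t0 8, by positivity, hρ, hρ1, ?_⟩
  intro t z ht hz hzt
  have ht0 : t0 ≤ t := (le_max_left _ _).trans ht
  have ht8 : 8 ≤ t := (le_max_right _ _).trans ht
  have tr : (8 : ℝ) ≤ t := by exact_mod_cast ht8
  have hut := uu_pos t
  obtain ⟨l, hl⟩ : ∃ l : ℝ, l = 16 * C9 * (uu t * t) / c4 := ⟨_, rfl⟩
  have hl0 : 0 < l := by rw [hl]; positivity
  set S : Set (List Bool) := {b | b ∈ EndB t z ∧ ∀ i, i ≤ b.length → |lat b i| ≤ (M1 + M0 + 1 : ℕ) * t} with hS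
  have h1 := one_mark (t := t) (I := Icc (t / 4) (t / 2)) (by
      intro c hc
      rw [Finset.mem_Icc] at hc
      omega) (fun c => Local0.AS M1 c) (fun c => Local0.BS (x0 c) (t - c) ε) (fun c _ a ha => ha.1)
      (fun c _ b hb => hb.1) z S (by
      intro c hc a ha b hb hab
      rw [Finset.mem_Icc] at hc
      have hc1 : 1 ≤ c := by omega
      have hτ1 : 1 ≤ t - c := by omega
      have hct : c + (t - c) = t := by omega
      have hd := (mem_Brd.1 ha.1).2.2.1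
      refine ⟨⟨?_, ?_⟩, ?_⟩
      · have := Brd_append ha.1 hb.1
        rwa [hct] at this
      · rw [latE_cat hd]
        exact hab
      · intro i hi
        have hM1 : |latE a| ≤ M1 * c := ha.2 a.length le_rfl
        have hcr : (c : ℤ) ≤ t := by omega
        have hτr : ((t - c : ℕ) : ℤ) ≤ t := by omega
        rcases Nat.lt_or_ge a.length i with h2 | h2
        · obtain ⟨j, rfl⟩ : ∃ j, i = a.length + j := ⟨i - a.length, by omega⟩
          rw [List.length_append] at hi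
          rw [lat_cat hd]
          have h3 := Local0.BS_lat (hx0 c hc1) (by omega) hτ1 hε1 hb (i := j) (by omega)
          have h4 : |lat b j| ≤ (M0 + 1) * ((t - c : ℕ) : ℤ) := by exact_mod_cast h3
          have h5 : (M1 : ℤ) * c ≤ M1 * t := by gcongr
          have h6 : ((M0 : ℤ) + 1) * ((t - c : ℕ) : ℤ) ≤ (M0 + 1) * t := by gcongr
          have h7 := abs_add_le (latE a) (lat b j)
          push_cast
          linarith
        · have h3 : lat (a ++ b) i = lat a i := by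
            unfold lat
            rw [vx_append (by omega)]
          rw [h3]
          have h4 := ha.2 i h2
          have h5 : (M1 : ℤ) * c ≤ M1 * t := by gcongr
          push_cast
          have h6 : (0 : ℤ) ≤ (M0 + 1) * t := by positivity
          linarith)
      (ENNReal.ofReal l) (ENNReal.ofReal_pos.2 hl0).ne' ENNReal.ofReal_ne_top
  have h2 : ENNReal.ofReal (c4 / 4 * uu t ^ 2) ≤
      ∑ c ∈ Icc (t / 4) (t / 2), conv2 (Local0.AS M1 c) (Local0.BS (x0 c) (t - c) ε) z := by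
    refine le_trans ?_ (Finset.sum_le_sum fun c hc => hnum t z ht0 hz hzt c hc)
    rw [Finset.sum_const, nsmul_eq_mul, ← ENNReal.ofReal_natCast, ← ENNReal.ofReal_mul (Nat.cast_nonneg _)]
    refine ENNReal.ofReal_le_ofReal ?_
    have h3 : (t : ℝ) / 4 ≤ ((Icc (t / 4) (t / 2)).card : ℝ) := by
      rw [Nat.card_Icc, div_le_iff₀ (by norm_num)]
      have : t ≤ (t / 2 + 1 - t / 4) * 4 := by omega
      exact_mod_cast this
    calc c4 / 4 * uu t ^ 2 = t / 4 * (c4 * (uu t ^ 2 / t)) := by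
          field_simp
      _ ≤ _ := by gcongr
  have h3 : (ENNReal.ofReal l)⁻¹ * (2 * ∑ c ∈ Icc (t / 4) (t / 2), ∑ c' ∈ (Icc (t / 4) (t / 2)).filter
      (fun c' => c ≤ c'), conv3 (Brd c) (Brd (c' - c)) (Brd (t - c')) z) ≤ ENNReal.ofReal (c4 / 8 * uu t ^ 2) := by
    rw [← ENNReal.ofReal_inv_of_pos hl0]
    have h4 : (2 : ℝ≥0∞) = ENNReal.ofReal 2 := by norm_num
    calc _ ≤ ENNReal.ofReal l⁻¹ * (ENNReal.ofReal 2 * ENNReal.ofReal (C9 * (uu t ^ 3 * t))) := by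
          rw [h4]
          exact mul_le_mul_right (mul_le_mul_right (hden t z ht8) _) _
      _ = ENNReal.ofReal (l⁻¹ * (2 * (C9 * (uu t ^ 3 * t)))) := by
          rw [← ENNReal.ofReal_mul (by norm_num), ← ENNReal.ofReal_mul (by positivity)]
      _ = ENNReal.ofReal (c4 / 8 * uu t ^ 2) := by
          congr 1
          rw [hl]
          field_simp
          ring
  have h4 : ENNReal.ofReal (c4 / 4 * uu t ^ 2) ≤ ENNReal.ofReal l * gf S + ENNReal.ofReal (c4 / 8 * uu t ^ 2) :=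
    h2.trans (h1.trans (add_le_add le_rfl h3))
  have h5 := Local0.sub_aux (by positivity) h4
  have h6 : c4 / 4 * uu t ^ 2 - c4 / 8 * uu t ^ 2 = l * (c4 ^ 2 / (128 * C9) * (uu t / t)) := by
    rw [hl]
    field_simp
    ring
  rw [h6, ENNReal.ofReal_mul hl0.le] at h5
  exact (ENNReal.mul_le_mul_iff_right (ENNReal.ofReal_pos.2 hl0).ne' ENNReal.ofReal_ne_top).1 h5

end RP

end HexObs
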