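import Pool.Agent.RSWP.DefsL

/-!
RSWP, P3: a window where the density of the end of a bridge is of order 1 / T (from the Hoelder continuity).
-/

set_option autoImplicit false

namespace HexObs

namespace RP

open Finset ENNReal

lemma latE_even {T : ℕ} {t : List Bool} (ht : t ∈ Brd T) : Even (latE t - T) := by
  have h1 : (lat t t.length + lev t t.length) % 2 = 0 := by
    unfold lat lev
    simp only [cross, ip, up]
    omega
  have h2 := (mem_Brd.1 ht).2.2.2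
  rw [h2] at h1
  have h3 : (latE t + 3 * (T : ℤ)) % 2 = 0 := h1
  rw [Int.even_iff]
  omega

lemma EndB_ne_top (T : ℕ) (x : ℤ) : gf (EndB T x) ≠ ∞ := by
  have h1 : EndB T x ⊆ Brd T := fun t ht => ht.1
  refine ne_top_of_le_ne_top ?_ (gf_mono h1)
  rw [gf_Brd]
  rcases Nat.eq_zero_or_pos T with rfl | hT
  · rw [← gf_Brd, Brd_zero]
    unfold gf
    have : ∑' t : ({[]} : Set (List Bool)), wE t = wE [] := by
      rw [tsum_singleton ([] : List Bool) (fun t => wE t)]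
    rw [this]
    exact ENNReal.ofReal_ne_top
  · exact BT_ne_top hT

/-- a point of the window [- M T, M T] where the weight is at least average -/
lemma exists_big {M0 T : ℕ} (hT : 1 ≤ T) (h : ENNReal.ofReal (1 / 2 * uu T) ≤
    gf {t | t ∈ Brd T ∧ ∀ i, i ≤ t.length → |lat t i| ≤ M0 * T}) :
    ∃ x0 : ℤ, |x0| ≤ M0 * T ∧ 1 / (2 * (2 * M0 + 1)) * (uu T / T) ≤ H T x0 := by
  classical
  set I : Finset ℤ := Finset.Icc (-(M0 * T : ℤ)) (M0 * T) with hI
  have hTr : (1 : ℝ) ≤ T := by exact_mod_cast hT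
  have huT : 0 < uu T := uu_pos T
  have h1 : gf {t | t ∈ Brd T ∧ ∀ i, i ≤ t.length → |lat t i| ≤ M0 * T} ≤ ∑ x ∈ I, gf (EndB T x) := by
    rw [gf_ind]
    have e : ∑ x ∈ I, gf (EndB T x) = ∑' t : List Bool, ∑ x ∈ I, (if t ∈ EndB T x then wE t else 0) := by
      rw [Summable.tsum_finsetSum (fun i _ => ENNReal.summable)]
      exact Finset.sum_congr rfl fun i _ => gf_ind _
    rw [e]
    refine ENNReal.tsum_le_tsum fun t => ?_
    by_cases ht : t ∈ {t | t ∈ Brd T ∧ ∀ i, i ≤ t.length → |lat t i| ≤ M0 * T}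
    · rw [if_pos ht]
      have hx : latE t ∈ I := by
        have := abs_le.1 (ht.2 t.length le_rfl)
        rw [hI, Finset.mem_Icc]
        exact this
      refine le_trans (le_of_eq ?_) (Finset.single_le_sum (fun x _ => zero_le) hx)
      rw [if_pos (show t ∈ EndB T (latE t) from ⟨ht.1, rfl⟩)]
    · rw [if_neg ht]
      exact zero_le
  have h2 : 1 / 2 * uu T ≤ ∑ x ∈ I, H T x := by
    have h3 := h.trans h1
    have h4 : ∑ x ∈ I, gf (EndB T x) = ENNReal.ofReal (∑ x ∈ I, H T x) := by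
      have h5 : ∀ x ∈ I, 0 ≤ H T x := fun x _ => ENNReal.toReal_nonneg
      rw [ENNReal.ofReal_sum_of_nonneg h5]
      exact Finset.sum_congr rfl fun x _ => (ENNReal.ofReal_toReal (EndB_ne_top T x)).symm
    rw [h4] at h3
    exact (ENNReal.ofReal_le_ofReal_iff (Finset.sum_nonneg fun x _ => ENNReal.toReal_nonneg)).1 h3
  have hcard : (I.card : ℝ) = 2 * M0 * T + 1 := by
    rw [hI, Int.card_Icc]
    have h5 : (M0 * T + 1 - -(M0 * T : ℤ)).toNat = 2 * M0 * T + 1 := by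
      have : (M0 * T + 1 - -(M0 * T : ℤ)) = ((2 * M0 * T + 1 : ℕ) : ℤ) := by
        push_cast
        ring
      rw [this, Int.toNat_natCast]
    rw [h5]
    push_cast
    ring
  have hne : I.Nonempty := by
    refine ⟨0, ?_⟩
    rw [hI, Finset.mem_Icc]
    have : (0 : ℤ) ≤ M0 * T := by positivity
    omega
  obtain ⟨x0, hx0, h6⟩ := Finset.exists_le_of_sum_le (s := I)
    (f := fun _ => 1 / (2 * (2 * M0 + 1)) * (uu T / T)) (g := fun x => H T x) hne (by
      rw [Finset.sum_const, nsmul_eq_mul, hcard]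
      refine le_trans ?_ h2
      have h7 : (2 * (M0 : ℝ) * T + 1) ≤ (2 * M0 + 1) * T := by nlinarith
      have h8 : 0 ≤ 1 / (2 * (2 * (M0 : ℝ) + 1)) * (uu T / T) := by positivity
      calc (2 * (M0 : ℝ) * T + 1) * (1 / (2 * (2 * M0 + 1)) * (uu T / T))
          ≤ ((2 * M0 + 1) * T) * (1 / (2 * (2 * M0 + 1)) * (uu T / T)) := by gcongr
        _ = 1 / 2 * uu T := by
            field_simp)
  refine ⟨x0, ?_, h6⟩
  rw [hI, Finset.mem_Icc] at hx0
  exact abs_le.2 hx0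

/-- P3 from the Hoelder continuity. -/
theorem peak_of (hh : ∃ C κ : ℝ, 0 < C ∧ 0 < κ ∧ ∀ (T : ℕ) (x y : ℤ), 1 ≤ T → Even (x - y) →
    |H T x - H T y| ≤ C * ((|x - y| : ℤ) / T : ℝ) ^ κ * (uu T / T)) :
    ∃ (c ρ : ℝ) (M : ℕ), 0 < c ∧ 0 < ρ ∧ ρ ≤ 1 ∧ ∀ T : ℕ, 1 ≤ T → ∃ x0 : ℤ, |x0| ≤ M * T ∧
    ∀ x : ℤ, Even (x - T) → ((|x - x0| : ℤ) : ℝ) ≤ ρ * T → c * (uu T / T) ≤ H T x := by
  obtain ⟨C, κ, hC, hκ, hH⟩ := hh
  obtain ⟨M0, hM0⟩ := Ex.box_half
  obtain ⟨c0, hc0⟩ : ∃ c0 : ℝ, c0 = 1 / (2 * (2 * M0 + 1)) := ⟨_, rfl⟩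
  have hc0p : 0 < c0 := by
    rw [hc0]
    positivity
  have hr : 0 < (c0 / (2 * C)) ^ (1 / κ) := Real.rpow_pos_of_pos (by positivity) _
  refine ⟨c0 / 2, min 1 ((c0 / (2 * C)) ^ (1 / κ)), M0, by positivity, lt_min one_pos hr, min_le_left _ _, ?_⟩
  intro T hT
  have hTr : (1 : ℝ) ≤ T := by exact_mod_cast hT
  have hT0 : (0 : ℝ) < T := by linarith
  have huT : 0 < uu T := uu_pos T
  obtain ⟨x0, hx0, hbig⟩ := exists_big hT (hM0 T hT)
  rw [← hc0] at hbig
  have hpar : Even (x0 - T) := by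
    have hpos : 0 < H T x0 := lt_of_lt_of_le (by positivity) hbig
    by_contra hne
    have hempty : EndB T x0 = ∅ := by
      ext t
      rw [Set.mem_empty_iff_false, iff_false]
      rintro ⟨h1, h2⟩
      apply hne
      rw [← h2]
      exact latE_even h1
    unfold H at hpos
    rw [hempty] at hpos
    have h0 : gf (∅ : Set (List Bool)) = 0 := by
      unfold gf
      simp
    rw [h0] at hpos
    simp at hpos
  refine ⟨x0, hx0, ?_⟩
  intro x hx hxx
  have hev : Even (x - x0) := by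
    have h1 : x - x0 = (x - T) - (x0 - T) := by ring
    rw [h1]
    exact hx.sub hpar
  have h1 := hH T x x0 hT hev
  have h2 : ((|x - x0| : ℤ) / T : ℝ) ^ κ ≤ c0 / (2 * C) := by
    have h3 : ((|x - x0| : ℤ) / T : ℝ) ≤ (c0 / (2 * C)) ^ (1 / κ) := by
      rw [div_le_iff₀ hT0]
      refine hxx.trans ?_
      exact mul_le_mul_of_nonneg_right (min_le_right _ _) hT0.le
    have h4 : (0 : ℝ) ≤ ((|x - x0| : ℤ) / T : ℝ) := by positivity
    calc ((|x - x0| : ℤ) / T : ℝ) ^ κ ≤ ((c0 / (2 * C)) ^ (1 / κ)) ^ κ := Real.rpow_le_rpow h4 h3 hκ.le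
      _ = c0 / (2 * C) := by
          rw [← Real.rpow_mul (by positivity), one_div, inv_mul_cancel₀ hκ.ne', Real.rpow_one]
  have h5 : C * ((|x - x0| : ℤ) / T : ℝ) ^ κ * (uu T / T) ≤ c0 / 2 * (uu T / T) := by
    have h6 : C * ((|x - x0| : ℤ) / T : ℝ) ^ κ ≤ c0 / 2 := by
      calc C * ((|x - x0| : ℤ) / T : ℝ) ^ κ ≤ C * (c0 / (2 * C)) := by gcongr
        _ = c0 / 2 := by field_simp
    gcongr
  have h7 := (abs_le.1 (h1.trans h5)).1
  linarith

end RP

end HexObs
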