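import Pool.Agent.RSWP.Window
import Pool.Agent.RSWP.Hold
import Pool.Agent.RSWP.Peak
import Pool.Agent.RSWP.Local0

/-!
RSWP: the chain from the window estimate to the local lower bound near 0.
-/

set_option autoImplicit false

namespace HexObs

namespace RP

open Finset ENNReal

/-- Hoelder continuity of the end of a bridge. -/
theorem hoelder : ∃ C κ : ℝ, 0 < C ∧ 0 < κ ∧ ∀ (T : ℕ) (x y : ℤ), 1 ≤ T → Even (x - y) →
    |H T x - H T y| ≤ C * ((|x - y| : ℤ) / T : ℝ) ^ κ * (uu T / T) := hoelder_of point_window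

/-- a window where the density of the end is of order 1 / T. -/
theorem peak : ∃ (c ρ : ℝ) (M : ℕ), 0 < c ∧ 0 < ρ ∧ ρ ≤ 1 ∧ ∀ T : ℕ, 1 ≤ T → ∃ x0 : ℤ, |x0| ≤ M * T ∧
    ∀ x : ℤ, Even (x - T) → ((|x - x0| : ℤ) : ℝ) ≤ ρ * T → c * (uu T / T) ≤ H T x := peak_of hoelder

/-- the local lower bound near 0, in a box. -/
theorem local0 : ∃ (c ρ : ℝ) (M t0 : ℕ), 0 < c ∧ 0 < ρ ∧ ρ ≤ 1 ∧ ∀ (t : ℕ) (z : ℤ), t0 ≤ t → Even (z - t) →
    ((|z| : ℤ) : ℝ) ≤ ρ * t → ENNReal.ofReal (c * (uu t / t)) ≤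
      gf {b | b ∈ EndB t z ∧ ∀ i, i ≤ b.length → |lat b i| ≤ M * t} := local0_of peak

end RP

end HexObs
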