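import Pool.Agent.RSWP.OneMark
import Pool.Agent.RSWP.Local

/-!
RSWP, module P6: the local lower bound for bridges in a tube. A mark at height c in [t - s, t - s/2], a tube around
the straight segment from 0 to x below the mark, a piece of local0 above it.
-/

set_option autoImplicit false

namespace HexObs

namespace RP

open Finset ENNReal

namespace LocalT

lemma dbl {T m : ℕ} (hT : 1 ≤ T) (h : m ≤ 2 * T) : uu T ≤ 2 * (6 + CW) * uu m := by
  have h1 := uu_double hT
  have h2 := uu_anti h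
  have h3 : 0 < uu T := uu_pos T
  have h4 : 0 < uu (2 * T) := uu_pos _
  have h5 : 0 ≤ 2 * (6 + CW) := by
    by_contra hc
    push Not at hc
    nlinarith
  exact h1.trans (mul_le_mul_of_nonneg_left h2 h5)

lemma C0_pos : 0 < 6 + CW := by
  have h1 := uu_double (le_refl 1)
  have h3 : 0 < uu 1 := uu_pos 1
  have h4 : 0 < uu (2 * 1) := uu_pos _
  by_contra hc
  push Not at hc
  nlinarith

/-- lower bound of a convolution -/
lemma conv2_ge {A B : Set (List Bool)} {x : ℤ} {δ : ℝ≥0∞}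
    (h : ∀ a ∈ A, δ ≤ gf {b | b ∈ B ∧ latE b = x - latE a}) : gf A * δ ≤ conv2 A B x := by
  calc gf A * δ = ∑' a : A, wE a * δ := by
        unfold gf
        rw [ENNReal.tsum_mul_right]
    _ ≤ ∑' a : A, wE a * gf {b | b ∈ B ∧ latE b = x - latE a} :=
        ENNReal.tsum_le_tsum fun a => mul_le_mul' le_rfl (h a a.2)
    _ = ∑' a : A, ∑' b : {b | b ∈ B ∧ latE b = x - latE a}, wE a * wE b := by
        refine tsum_congr fun a => ?_
        unfold gf
        rw [ENNReal.tsum_mul_left]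
    _ = ∑' p : (Σ a : A, {b | b ∈ B ∧ latE b = x - latE a}), wE p.1 * wE p.2 :=
        (ENNReal.tsum_sigma (fun (a : A) (b : {b | b ∈ B ∧ latE b = x - latE (a : List Bool)}) =>
          wE (a : List Bool) * wE (b : List Bool))).symm
    _ ≤ conv2 A B x := by
        unfold conv2
        let φ : (Σ a : A, {b | b ∈ B ∧ latE b = x - latE (a : List Bool)}) →
            {p : List Bool × List Bool | p.1 ∈ A ∧ p.2 ∈ B ∧ latE p.1 + latE p.2 = x} :=
          fun p => ⟨((p.1 : List Bool), (p.2 : List Bool)), p.1.2, p.2.2.1, by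
            have := p.2.2.2
            show latE (p.1 : List Bool) + latE (p.2 : List Bool) = x
            omega⟩
        have hφ : Function.Injective φ := by
          rintro ⟨⟨a, ha⟩, ⟨b, hb⟩⟩ ⟨⟨a', ha'⟩, ⟨b', hb'⟩⟩ hp
          have h1 := congrArg (fun q => (q.1.1, q.1.2)) hp
          simp only [φ, Prod.mk.injEq] at h1
          obtain ⟨rfl, rfl⟩ := h1
          rfl
        exact ENNReal.tsum_comp_le_tsum_of_injective hφ (fun p => wE p.1.1 * wE p.1.2)

lemma par (w : List Bool) (j : ℕ) : (lat w j + lev w j) % 2 = 0 := by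
  unfold lat lev
  simp only [cross, ip, up]
  omega

lemma par_end {c : ℕ} {a : List Bool} (h : a ∈ Brd c) : (latE a + 3 * (c : ℤ)) % 2 = 0 := by
  have h1 := par a a.length
  have h2 := (mem_Brd.1 h).2.2.2
  rw [h2] at h1
  exact h1

lemma lin_between {x : ℝ} {c y : ℝ} (hc : 0 < c) (h0 : 0 ≤ y) (h1 : y ≤ c) :
    min 0 x ≤ x * y / c ∧ x * y / c ≤ max 0 x := by
  have h2 : 0 ≤ y / c := by positivity
  have h3 : y / c ≤ 1 := by
    rw [div_le_one hc]
    exact h1
  have h4 : x * y / c = x * (y / c) := by ring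
  rw [h4]
  constructor
  · rcases le_total 0 x with h | h
    · rw [min_eq_left h]
      positivity
    · rw [min_eq_right h]
      nlinarith
  · rcases le_total 0 x with h | h
    · rw [max_eq_right h]
      nlinarith
    · rw [max_eq_left h]
      nlinarith

end LocalT

open LocalT

/-- P6 (LocalT.lean): THE LOCAL LOWER BOUND in a tube. -/
theorem localTube (R : ℕ) {η : ℝ} (hη : 0 < η) : ∃ (c : ℝ) (t0 : ℕ), 0 < c ∧ ∀ (t : ℕ) (x : ℤ), t0 ≤ t →
    Even (x - t) → |x| ≤ R * t → ENNReal.ofReal (c * (uu t / t)) ≤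
      gf {b | b ∈ EndB t x ∧ ∀ i, i ≤ b.length → ((min 0 x : ℤ) : ℝ) - η * t ≤ lat b i ∧
        (lat b i : ℝ) ≤ ((max 0 x : ℤ) : ℝ) + η * t} := by
  obtain ⟨c0, ρ, M, t1, hc0, hρ, hρ1, hloc⟩ := local0
  obtain ⟨C3, hC3, hconv⟩ := conv3_le
  obtain ⟨CT, hCT, htube⟩ := Ex.tube_words (2 * R + 1)
  have hC0 := C0_pos
  set C0 : ℝ := 6 + CW with hC0d
  obtain ⟨e2, he2⟩ : ∃ e2 : ℝ, e2 = min (1 / 4) (η / (2 * (M + 1))) := ⟨_, rfl⟩
  have hMr : (0 : ℝ) ≤ M := Nat.cast_nonneg M
  have he20 : 0 < e2 := by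
    rw [he2]
    apply lt_min (by norm_num)
    positivity
  have he24 : e2 ≤ 1 / 4 := by
    rw [he2]
    exact min_le_left _ _
  have he2M : M * e2 ≤ η / 2 := by
    have h1 : e2 ≤ η / (2 * (M + 1)) := by
      rw [he2]
      exact min_le_right _ _
    have h2 : M * e2 ≤ M * (η / (2 * (M + 1))) := mul_le_mul_of_nonneg_left h1 hMr
    have h3 : (M : ℝ) * (η / (2 * (M + 1))) ≤ η / 2 := by
      have h4 : (M : ℝ) * (η / (2 * (M + 1))) = η / 2 * (M / (M + 1)) := by
        field_simp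
      rw [h4]
      have h5 : (M : ℝ) / (M + 1) ≤ 1 := by
        rw [div_le_one (by positivity)]
        linarith
      nlinarith
    linarith
  obtain ⟨ε, hεd⟩ : ∃ ε : ℝ, ε = min (min 1 (η / 2)) (ρ * e2 / 8) := ⟨_, rfl⟩
  have hε0 : 0 < ε := by
    rw [hεd]
    apply lt_min (lt_min one_pos (by positivity))
    positivity
  have hε1 : ε ≤ 1 := by
    rw [hεd]
    exact (min_le_left _ _).trans (min_le_left _ _)
  have hεη : ε ≤ η / 2 := by
    rw [hεd]
    exact (min_le_left _ _).trans (min_le_right _ _)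
  have hερ : ε ≤ ρ * e2 / 8 := by
    rw [hεd]
    exact min_le_right _ _
  obtain ⟨p, hpd⟩ : ∃ p : ℝ, p = Real.exp (-(CT / ε)) := ⟨_, rfl⟩
  have hp : 0 < p := by
    rw [hpd]
    exact Real.exp_pos _
  obtain ⟨κ, hκd⟩ : ∃ κ : ℝ, κ = p * c0 / 2 := ⟨_, rfl⟩
  have hκ : 0 < κ := by
    rw [hκd]
    positivity
  obtain ⟨K1, hK1d⟩ : ∃ K1 : ℝ, K1 = 32 * C3 * C0 ^ 3 := ⟨_, rfl⟩
  have hK1 : 0 < K1 := by
    rw [hK1d]
    positivity
  obtain ⟨K2, hK2d⟩ : ∃ K2 : ℝ, K2 = 2 * K1 * C0 := ⟨_, rfl⟩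
  have hK2 : 0 < K2 := by
    rw [hK2d]
    positivity
  refine ⟨κ ^ 2 / (8 * K2), ⌈2 / e2⌉₊ + ⌈8 * (t1 : ℝ) / e2⌉₊ + ⌈2 * CT / ε⌉₊ + ⌈8 / e2⌉₊ + 8, by positivity, ?_⟩
  intro t x ht hpar hx
  -- the numbers
  have ht' : (⌈2 / e2⌉₊ : ℝ) + ⌈8 * (t1 : ℝ) / e2⌉₊ + ⌈2 * CT / ε⌉₊ + ⌈8 / e2⌉₊ + 8 ≤ t := by exact_mod_cast ht
  have hce : ∀ y : ℝ, 0 ≤ (⌈y⌉₊ : ℝ) := fun y => Nat.cast_nonneg _
  have f1 : 2 / e2 ≤ t := by
    have := Nat.le_ceil (2 / e2)
    linarith [hce (8 * (t1 : ℝ) / e2), hce (2 * CT / ε), hce (8 / e2)]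
  have f2 : 8 * (t1 : ℝ) / e2 ≤ t := by
    have := Nat.le_ceil (8 * (t1 : ℝ) / e2)
    linarith [hce (2 / e2), hce (2 * CT / ε), hce (8 / e2)]
  have f3 : 2 * CT / ε ≤ t := by
    have := Nat.le_ceil (2 * CT / ε)
    linarith [hce (2 / e2), hce (8 * (t1 : ℝ) / e2), hce (8 / e2)]
  have f4 : 8 / e2 ≤ t := by
    have := Nat.le_ceil (8 / e2)
    linarith [hce (2 / e2), hce (2 * CT / ε), hce (8 * (t1 : ℝ) / e2)]
  have htr : (8 : ℝ) ≤ t := by
    linarith [hce (2 / e2), hce (2 * CT / ε), hce (8 * (t1 : ℝ) / e2), hce (8 / e2)]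
  have f1' : 2 ≤ e2 * t := by
    rw [div_le_iff₀ he20] at f1
    linarith
  have f2' : 8 * (t1 : ℝ) ≤ e2 * t := by
    rw [div_le_iff₀ he20] at f2
    linarith
  have f3' : 2 * CT ≤ ε * t := by
    rw [div_le_iff₀ hε0] at f3
    linarith
  have f4' : 8 ≤ e2 * t := by
    rw [div_le_iff₀ he20] at f4
    linarith
  obtain ⟨σ, hσ⟩ : ∃ σ : ℕ, σ = ⌊e2 * t⌋₊ := ⟨_, rfl⟩
  have g1 : (σ : ℝ) ≤ e2 * t := by
    rw [hσ]
    exact Nat.floor_le (by positivity)
  have g2 : e2 * t < σ + 1 := by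
    rw [hσ]
    exact Nat.lt_floor_add_one _
  have g3 : (7 : ℝ) ≤ σ := by
    have : (8 : ℝ) < σ + 1 := by linarith
    have h1 : 8 < σ + 1 := by exact_mod_cast this
    have h2 : 8 ≤ σ := by omega
    have h3 : (8 : ℝ) ≤ σ := by exact_mod_cast h2
    linarith
  have g3n : 7 ≤ σ := by exact_mod_cast g3
  have g4 : (σ : ℝ) ≤ t / 4 := by
    have : e2 * t ≤ 1 / 4 * t := mul_le_mul_of_nonneg_right he24 (by linarith)
    linarith
  have g4n : 4 * σ ≤ t := by
    have : (4 : ℝ) * σ ≤ t := by linarith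
    exact_mod_cast this
  have g5 : e2 * t ≤ 2 * σ := by linarith
  have ht0 : (0 : ℝ) < t := by linarith
  have hσ0 : (0 : ℝ) < σ := by linarith
  -- facts for the marks
  set I : Finset ℕ := Icc (t - σ) (t - σ / 2) with hI
  have hIc : ∀ c ∈ I, c ≤ t ∧ t ≤ 2 * c ∧ 1 ≤ c ∧ t - c ≤ σ ∧ σ ≤ 2 * (t - c) + 1 ∧ 1 ≤ t - c := by
    intro c hc
    rw [hI, Finset.mem_Icc] at hc
    omega
  have hIr : ∀ c ∈ I, (c : ℝ) ≤ t ∧ (t : ℝ) ≤ 2 * c ∧ (0 : ℝ) < c ∧ ((t - c : ℕ) : ℝ) ≤ σ ∧
      (σ : ℝ) ≤ 4 * ((t - c : ℕ) : ℝ) ∧ e2 * t ≤ 8 * ((t - c : ℕ) : ℝ) := by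
    intro c hc
    obtain ⟨a1, a2, a3, a4, a5, a6⟩ := hIc c hc
    have b1 : (c : ℝ) ≤ t := by exact_mod_cast a1
    have b2 : (t : ℝ) ≤ 2 * c := by exact_mod_cast a2
    have b3 : (0 : ℝ) < c := by exact_mod_cast a3
    have b4 : ((t - c : ℕ) : ℝ) ≤ σ := by exact_mod_cast a4
    have b5 : (σ : ℝ) ≤ 4 * ((t - c : ℕ) : ℝ) := by
      have : σ ≤ 4 * (t - c) := by omega
      exact_mod_cast this
    exact ⟨b1, b2, b3, b4, b5, by linarith⟩
  -- the sets
  set A : ℕ → Set (List Bool) := fun c => {a | a ∈ Brd c ∧ Ex.TubeW (fun y => (x : ℝ) * y / c) (ε * c) 0 0 a} with hA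
  set B : ℕ → Set (List Bool) := fun c => {b | b ∈ Brd (t - c) ∧ ∀ i, i ≤ b.length → |lat b i| ≤ M * ((t - c : ℕ) : ℤ)} with hB
  set S : Set (List Bool) := {b | b ∈ EndB t x ∧ ∀ i, i ≤ b.length → ((min 0 x : ℤ) : ℝ) - η * t ≤ lat b i ∧
        (lat b i : ℝ) ≤ ((max 0 x : ℤ) : ℝ) + η * t} with hS
  -- the end of a piece of A
  have hAend : ∀ c ∈ I, ∀ a ∈ A c, |(latE a : ℝ) - x| ≤ ε * t := by
    intro c hc a ha
    obtain ⟨b1, b2, b3, b4, b5, b6⟩ := hIr c hc
    have h1 := ha.2 a.length le_rfl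
    rw [(mem_Brd.1 ha.1).2.2.2] at h1
    have h2 : (x : ℝ) * (((0 : ℕ) : ℝ) + ((3 * (c : ℤ) : ℤ) : ℝ) / 3) / c = x := by
      push_cast
      field_simp
      ring
    simp only [Int.cast_zero, zero_add] at h1 h2
    rw [h2] at h1
    have h3 : ε * c ≤ ε * t := mul_le_mul_of_nonneg_left b1 hε0.le
    exact h1.trans h3
  have hmemS : ∀ c ∈ I, ∀ a ∈ A c, ∀ b ∈ B c, latE a + latE b = x → a ++ b ∈ S := by
    intro c hc a ha b hb hab
    obtain ⟨a1, a2, a3, a4, a5, a6⟩ := hIc c hc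
    obtain ⟨b1, b2, b3, b4, b5, b6⟩ := hIr c hc
    have had := (mem_Brd.1 ha.1).2.2.1
    have hcat : a ++ b ∈ Brd t := by
      have := Brd_append ha.1 hb.1
      rwa [Nat.add_sub_cancel' a1] at this
    refine ⟨⟨hcat, ?_⟩, ?_⟩
    · rw [latE_cat had]
      exact hab
    · intro i hi
      rw [List.length_append] at hi
      have hmn : ((min 0 x : ℤ) : ℝ) = min 0 (x : ℝ) := by
        push_cast
        rfl
      have hmx : ((max 0 x : ℤ) : ℝ) = max 0 (x : ℝ) := by
        push_cast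
        rfl
      rw [hmn, hmx]
      have hετ : ε * c ≤ η * t := by
        have h1 : ε * c ≤ ε * t := mul_le_mul_of_nonneg_left b1 hε0.le
        have h2 : ε * t ≤ η / 2 * t := mul_le_mul_of_nonneg_right hεη ht0.le
        have h3 : 0 ≤ η * t := by positivity
        linarith
      rcases le_or_gt i a.length with h | h
      · rw [lat_append (by omega)]
        have h1 := ha.2 i h
        obtain ⟨l1, l2⟩ := Ex.lev_range ha.1 h
        obtain ⟨m1, m2⟩ := lin_between (x := (x : ℝ)) b3 l1 l2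
        simp only [Int.cast_zero, zero_add, Nat.cast_zero] at h1
        rw [abs_le] at h1
        constructor
        · linarith [h1.1]
        · linarith [h1.2]
      · obtain ⟨j, rfl⟩ : ∃ j, i = a.length + j := ⟨i - a.length, by omega⟩
        rw [lat_cat had]
        have h1 := hb.2 j (by omega)
        have h2 : |(lat b j : ℝ)| ≤ M * ((t - c : ℕ) : ℝ) := by exact_mod_cast h1
        have h3 : (M : ℝ) * ((t - c : ℕ) : ℝ) ≤ η / 2 * t := by
          have h4 : (M : ℝ) * ((t - c : ℕ) : ℝ) ≤ M * (e2 * t) :=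
            mul_le_mul_of_nonneg_left (b4.trans g1) hMr
          have h5 : (M : ℝ) * (e2 * t) ≤ η / 2 * t := by
            have := mul_le_mul_of_nonneg_right he2M ht0.le
            linarith
          linarith
        have h6 := hAend c hc a ha
        have h7 : ε * t ≤ η / 2 * t := mul_le_mul_of_nonneg_right hεη ht0.le
        rw [abs_le] at h2 h6
        push_cast
        have h8 : min 0 (x : ℝ) ≤ x := min_le_right _ _
        have h9 : (x : ℝ) ≤ max 0 (x : ℝ) := le_max_right _ _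
        constructor
        · linarith [h2.1, h6.1]
        · linarith [h2.2, h6.2]
  -- lower bound of one convolution
  have hlow : ∀ c ∈ I, ENNReal.ofReal (p * c0 * (uu t * uu σ / σ)) ≤ conv2 (A c) (B c) x := by
    intro c hc
    obtain ⟨a1, a2, a3, a4, a5, a6⟩ := hIc c hc
    obtain ⟨b1, b2, b3, b4, b5, b6⟩ := hIr c hc
    have hs0 : (0 : ℝ) < ((t - c : ℕ) : ℝ) := by linarith
    have h1 : gf (A c) * ENNReal.ofReal (c0 * (uu (t - c) / ((t - c : ℕ) : ℝ))) ≤ conv2 (A c) (B c) x := by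
      apply conv2_ge
      intro a ha
      have hpa := par_end ha.1
      have h2 := hloc (t - c) (x - latE a) (by
        have : (t1 : ℝ) ≤ ((t - c : ℕ) : ℝ) := by linarith
        exact_mod_cast this) (by
        rw [Int.even_iff] at hpar ⊢
        push_cast [Nat.cast_sub a1]
        omega) (by
        have h3 := hAend c hc a ha
        have h4 : (((|x - latE a| : ℤ)) : ℝ) = |(latE a : ℝ) - x| := by
          push_cast
          rw [abs_sub_comm]
        rw [h4]
        refine h3.trans ?_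
        have h5 : ε * t ≤ ρ * e2 / 8 * t := mul_le_mul_of_nonneg_right hερ ht0.le
        have h6 : ρ * (e2 * t) ≤ ρ * (8 * ((t - c : ℕ) : ℝ)) := mul_le_mul_of_nonneg_left b6 hρ.le
        nlinarith)
      refine h2.trans (gf_mono ?_)
      rintro b ⟨⟨hb1, hb2⟩, hb3⟩
      exact ⟨⟨hb1, hb3⟩, hb2⟩
    have h2 : ENNReal.ofReal (p * uu c) ≤ gf (A c) := by
      rw [hpd]
      apply htube (fun y => (x : ℝ) * y / c) _ _ ε c hε0 hε1 _
      · intro y z
        have h3 : (x : ℝ) * y / c - x * z / c = (x / c) * (y - z) := by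
          field_simp
        rw [h3, abs_mul]
        apply mul_le_mul_of_nonneg_right _ (abs_nonneg _)
        rw [abs_div, abs_of_pos b3, div_le_iff₀ b3]
        have h4 : |(x : ℝ)| ≤ R * t := by exact_mod_cast hx
        push_cast
        have h5 : (R : ℝ) * t ≤ R * (2 * c) := mul_le_mul_of_nonneg_left b2 (Nat.cast_nonneg R)
        nlinarith
      · simp
      · rw [div_le_iff₀ hε0]
        nlinarith
    have h3 : ENNReal.ofReal (p * uu t) ≤ gf (A c) := by
      refine (ENNReal.ofReal_le_ofReal ?_).trans h2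
      exact mul_le_mul_of_nonneg_left (uu_anti a1) hp.le
    have h4 : c0 * (uu σ / σ) ≤ c0 * (uu (t - c) / ((t - c : ℕ) : ℝ)) := by
      apply mul_le_mul_of_nonneg_left _ hc0.le
      have h5 : uu σ ≤ uu (t - c) := uu_anti a4
      have h6 := uu_pos σ
      have h7 := uu_pos (t - c)
      gcongr
    calc ENNReal.ofReal (p * c0 * (uu t * uu σ / σ))
        = ENNReal.ofReal (p * uu t) * ENNReal.ofReal (c0 * (uu σ / σ)) := by
          have := uu_pos t
          rw [← ENNReal.ofReal_mul (by positivity)]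
          congr 1
          ring
      _ ≤ gf (A c) * ENNReal.ofReal (c0 * (uu (t - c) / ((t - c : ℕ) : ℝ))) :=
          mul_le_mul' h3 (ENNReal.ofReal_le_ofReal h4)
      _ ≤ _ := h1
  have hut := uu_pos t
  have huσ := uu_pos σ
  have hcard : I.card = σ - σ / 2 + 1 := by
    rw [hI, Nat.card_Icc]
    omega
  have hlowS : ENNReal.ofReal (κ * (uu t * uu σ)) ≤ ∑ c ∈ I, conv2 (A c) (B c) x := by
    calc ENNReal.ofReal (κ * (uu t * uu σ))
        ≤ ENNReal.ofReal ((I.card : ℝ) * (p * c0 * (uu t * uu σ / σ))) := by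
          apply ENNReal.ofReal_le_ofReal
          have h1 : (σ : ℝ) / 2 ≤ I.card := by
            rw [hcard]
            have : σ ≤ 2 * (σ - σ / 2 + 1) := by omega
            have h2 : (σ : ℝ) ≤ 2 * ((σ - σ / 2 + 1 : ℕ) : ℝ) := by exact_mod_cast this
            linarith
          have h2 : κ * (uu t * uu σ) = (σ : ℝ) / 2 * (p * c0 * (uu t * uu σ / σ)) := by
            rw [hκd]
            field_simp
          rw [h2]
          gcongr
      _ = ∑ c ∈ I, ENNReal.ofReal (p * c0 * (uu t * uu σ / σ)) := by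
          rw [Finset.sum_const, nsmul_eq_mul, ENNReal.ofReal_mul (Nat.cast_nonneg _),
            ENNReal.ofReal_natCast]
      _ ≤ _ := Finset.sum_le_sum hlow
  -- upper bound of the denominator
  have hup : ∑ c ∈ I, ∑ c' ∈ I.filter (fun c' => c ≤ c'), conv3 (Brd c) (Brd (c' - c)) (Brd (t - c')) x ≤
      ENNReal.ofReal (K2 * (σ * (uu t * uu σ ^ 2))) := by
    have hin : ∀ c ∈ I, ∑ c' ∈ I.filter (fun c' => c ≤ c'), conv3 (Brd c) (Brd (c' - c)) (Brd (t - c')) x ≤
        ENNReal.ofReal (K1 * C0 * (uu t * uu σ ^ 2)) := by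
      intro c hc
      obtain ⟨a1, a2, a3, a4, a5, a6⟩ := hIc c hc
      have h1 : ∀ c' ∈ I.filter (fun c' => c ≤ c'), conv3 (Brd c) (Brd (c' - c)) (Brd (t - c')) x ≤
          ENNReal.ofReal (K1 * (uu t * uu σ / σ) * uu (c' - c)) := by
        intro c' hc'
        obtain ⟨hc1, hc2⟩ := Finset.mem_filter.1 hc'
        obtain ⟨d1, d2, d3, d4, d5, d6⟩ := hIc c' hc1
        obtain ⟨e1, e2', e3, e4, e5, e6⟩ := hIr c' hc1
        refine (hconv c (c' - c) (t - c') x d6).trans (ENNReal.ofReal_le_ofReal ?_)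
        have i1 : uu c ≤ 2 * C0 * uu t := dbl a3 a2
        have i2 : uu (t - c') ≤ 2 * C0 * (2 * C0 * uu σ) := by
          have j1 : uu (t - c') ≤ 2 * C0 * uu (2 * (t - c')) := dbl d6 le_rfl
          have j2 : uu (2 * (t - c')) ≤ 2 * C0 * uu σ := dbl (by omega) (by omega)
          exact j1.trans (mul_le_mul_of_nonneg_left j2 (by positivity))
        have hs0 : (0 : ℝ) < ((t - c' : ℕ) : ℝ) := by linarith
        have i3 : 1 / ((t - c' : ℕ) : ℝ) ≤ 4 / σ := by
          rw [div_le_div_iff₀ hs0 hσ0]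
          linarith
        have i4 : uu (t - c') / ((t - c' : ℕ) : ℝ) ≤ 2 * C0 * (2 * C0 * uu σ) * (4 / σ) := by
          have j1 : uu (t - c') / ((t - c' : ℕ) : ℝ) = uu (t - c') * (1 / ((t - c' : ℕ) : ℝ)) := by ring
          rw [j1]
          exact mul_le_mul i2 i3 (by positivity) (by positivity)
        have h7 := uu_pos (c' - c)
        have h8 := uu_pos (t - c')
        have h9 := uu_pos c
        calc C3 * (uu c * uu (c' - c) * (uu (t - c') / ((t - c' : ℕ) : ℝ)))
            ≤ C3 * (2 * C0 * uu t * uu (c' - c) * (2 * C0 * (2 * C0 * uu σ) * (4 / σ))) := by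
              gcongr
          _ = K1 * (uu t * uu σ / σ) * uu (c' - c) := by
              rw [hK1d]
              ring
      refine (Finset.sum_le_sum h1).trans ?_
      rw [← ENNReal.ofReal_sum_of_nonneg (fun c' _ => by
        have := uu_pos (c' - c)
        positivity)]
      apply ENNReal.ofReal_le_ofReal
      rw [← Finset.mul_sum]
      have h2 : ∑ c' ∈ I.filter (fun c' => c ≤ c'), uu (c' - c) ≤ UU σ := by
        unfold UU
        have h3 : ∑ c' ∈ I.filter (fun c' => c ≤ c'), uu (c' - c) =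
            ∑ r ∈ (I.filter (fun c' => c ≤ c')).image (fun c' => c' - c), uu r := by
          rw [Finset.sum_image]
          intro y hy z hz hyz
          have hy1 := (Finset.mem_filter.1 (Finset.mem_coe.1 hy)).2
          have hz1 := (Finset.mem_filter.1 (Finset.mem_coe.1 hz)).2
          simp only at hyz
          omega
        rw [h3]
        apply Finset.sum_le_sum_of_subset_of_nonneg
        · intro r hr
          obtain ⟨c', hc', rfl⟩ := Finset.mem_image.1 hr
          obtain ⟨hc1, hc2⟩ := Finset.mem_filter.1 hc'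
          obtain ⟨d1, d2, d3, d4, d5, d6⟩ := hIc c' hc1
          rw [Finset.mem_range]
          omega
        · intro r _ _
          exact (uu_pos r).le
      have h4 : UU σ ≤ C0 * (σ * uu σ) := UU_le_mul (by omega)
      calc K1 * (uu t * uu σ / σ) * ∑ c' ∈ I.filter (fun c' => c ≤ c'), uu (c' - c)
          ≤ K1 * (uu t * uu σ / σ) * (C0 * (σ * uu σ)) := by
            apply mul_le_mul_of_nonneg_left (h2.trans h4)
            positivity
        _ = K1 * C0 * (uu t * uu σ ^ 2) := by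
            field_simp
    calc ∑ c ∈ I, ∑ c' ∈ I.filter (fun c' => c ≤ c'), conv3 (Brd c) (Brd (c' - c)) (Brd (t - c')) x
        ≤ ∑ c ∈ I, ENNReal.ofReal (K1 * C0 * (uu t * uu σ ^ 2)) := Finset.sum_le_sum hin
      _ = ENNReal.ofReal ((I.card : ℝ) * (K1 * C0 * (uu t * uu σ ^ 2))) := by
          rw [Finset.sum_const, nsmul_eq_mul, ENNReal.ofReal_mul (Nat.cast_nonneg _),
            ENNReal.ofReal_natCast]
      _ ≤ _ := by
          apply ENNReal.ofReal_le_ofReal
          have h1 : (I.card : ℝ) ≤ 2 * σ := by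
            rw [hcard]
            have : σ - σ / 2 + 1 ≤ 2 * σ := by omega
            exact_mod_cast this
          calc (I.card : ℝ) * (K1 * C0 * (uu t * uu σ ^ 2)) ≤ 2 * σ * (K1 * C0 * (uu t * uu σ ^ 2)) := by gcongr
            _ = K2 * (σ * (uu t * uu σ ^ 2)) := by
              rw [hK2d]
              ring
  -- the one-mark lemma
  obtain ⟨lam, hlam⟩ : ∃ lam : ℝ, lam = 4 * K2 * σ * uu σ / κ := ⟨_, rfl⟩
  have hlam0 : 0 < lam := by
    rw [hlam]
    positivity
  have hone := one_mark (t := t) (I := I) (fun c hc => (hIc c hc).1) A B (fun c _ a ha => ha.1)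
    (fun c _ b hb => hb.1) x S hmemS (ENNReal.ofReal lam) (by
      rw [Ne, ENNReal.ofReal_eq_zero, not_le]
      exact hlam0) ENNReal.ofReal_ne_top
  have h1 : ENNReal.ofReal (κ * (uu t * uu σ)) ≤ ENNReal.ofReal lam * gf S +
      ENNReal.ofReal (κ * (uu t * uu σ) / 2) := by
    refine (hlowS.trans hone).trans ?_
    gcongr
    calc (ENNReal.ofReal lam)⁻¹ * (2 * ∑ c ∈ I, ∑ c' ∈ I.filter (fun c' => c ≤ c'),
          conv3 (Brd c) (Brd (c' - c)) (Brd (t - c')) x)
        ≤ (ENNReal.ofReal lam)⁻¹ * (2 * ENNReal.ofReal (K2 * (σ * (uu t * uu σ ^ 2)))) := by gcongr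
      _ = ENNReal.ofReal (lam⁻¹ * (2 * (K2 * (σ * (uu t * uu σ ^ 2))))) := by
          have hy : (0 : ℝ) ≤ K2 * (σ * (uu t * uu σ ^ 2)) := by positivity
          have h2' : (2 : ℝ≥0∞) = ENNReal.ofReal 2 := by norm_num
          rw [← ENNReal.ofReal_inv_of_pos hlam0, h2', ← ENNReal.ofReal_mul (by norm_num),
            ← ENNReal.ofReal_mul (by positivity)]
      _ = ENNReal.ofReal (κ * (uu t * uu σ) / 2) := by
          congr 1
          rw [hlam]
          field_simp
          ring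
      _ ≤ _ := le_rfl
  have h2 : ENNReal.ofReal (κ * (uu t * uu σ) / 2) ≤ ENNReal.ofReal lam * gf S := by
    have h3 : ENNReal.ofReal (κ * (uu t * uu σ)) = ENNReal.ofReal (κ * (uu t * uu σ) / 2) +
        ENNReal.ofReal (κ * (uu t * uu σ) / 2) := by
      rw [← ENNReal.ofReal_add (by positivity) (by positivity)]
      congr 1
      ring
    rw [h3] at h1
    exact (ENNReal.add_le_add_iff_right ENNReal.ofReal_ne_top).1 h1
  have h3 : (ENNReal.ofReal lam)⁻¹ * ENNReal.ofReal (κ * (uu t * uu σ) / 2) ≤ gf S := by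
    rw [ENNReal.inv_mul_le_iff (by
      rw [Ne, ENNReal.ofReal_eq_zero, not_le]
      exact hlam0) ENNReal.ofReal_ne_top]
    exact h2
  refine le_trans ?_ h3
  rw [← ENNReal.ofReal_inv_of_pos hlam0, ← ENNReal.ofReal_mul (by positivity)]
  apply ENNReal.ofReal_le_ofReal
  have h4 : lam⁻¹ * (κ * (uu t * uu σ) / 2) = κ ^ 2 / (8 * K2) * (uu t / σ) := by
    rw [hlam]
    field_simp
    ring
  rw [h4]
  have h5 : (σ : ℝ) ≤ t := by linarith
  gcongr

end RP

end HexObs
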