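import Pool.Agent.RSWP.TailRowsA
import Pool.Agent.TStar.Final
import Pool.Agent.PHW8.CBz8
import Pool.Agent.PHW8.In8H
import Pool.Agent.PHW5.Out

/-!
RSWP Q2: the polygons through the origin of n + 1 sites that occupy at least T rows, T >= 2 n ^ (1 - c), have total
weight at most exp (- n ^ θ).
-/

set_option autoImplicit false

namespace HexObs

namespace RP

open CC

theorem tail_rows : ∃ c θ K : ℝ, 0 < c ∧ c < 1 ∧ 0 < θ ∧ 0 < K ∧ ∀ n T : ℕ, 1 ≤ n → 4 ≤ T →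
    2 * (n : ℝ) ^ (1 - c) ≤ T →
    (Set.ncard {f | CC.Loop n f ∧ ∃ t, T ≤ t ∧ CC.Rows t f} : ℝ) ≤
      K * Real.exp (-((n : ℝ) ^ θ)) * Real.sqrt (2 + Real.sqrt 2) ^ n := by
  obtain ⟨C, D, δ, fi, fo, h⟩ := HexObs.Rec8.In8_of_S5 HexObs.S5_out
  obtain ⟨c, θ, K, hc0, hc1, hθ, hK, hT⟩ := HexObs.tstar_of_CBz (HexObs.Rec8.S8_CBz h)
  refine tl_main hc0 hc1 hθ hK ?_
  intro f hf n hn
  exact (hT f hf n hn).1

end RP

end HexObs
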