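import Pool.Agent.RSWP.FinalR
import Pool.Agent.RSWP.TailRows

/-!
RSWP: the lower bound for the tail of the number of polygons.
-/

set_option autoImplicit false

namespace HexObs

namespace RP

open Finset ENNReal

/-- exponential against power. -/
lemma exp_small (A : ℝ) {η : ℝ} (hη : 0 < η) : ∃ N0 : ℕ, 1 ≤ N0 ∧ ∀ N : ℕ, N0 ≤ N →
    A * (N : ℝ) ^ 3 * Real.exp (-((N : ℝ) ^ η)) ≤ 1 := by
  have h1 : Filter.Tendsto (fun x : ℝ => x ^ (3 / η) * Real.exp (-x)) Filter.atTop (nhds 0) := by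
    have := tendsto_rpow_mul_exp_neg_mul_atTop_nhds_zero (3 / η) 1 one_pos
    simpa using this
  have h2 : Filter.Tendsto (fun N : ℕ => (N : ℝ) ^ η) Filter.atTop Filter.atTop :=
    (tendsto_rpow_atTop hη).comp tendsto_natCast_atTop_atTop
  have h3 := (h1.comp h2).const_mul (|A|)
  rw [mul_zero] at h3
  have h4 := h3.eventually (gt_mem_nhds (one_pos))
  obtain ⟨N0, hN0⟩ := Filter.eventually_atTop.1 h4
  refine ⟨max N0 1, le_max_right _ _, ?_⟩
  intro N hN
  have h5 := hN0 N ((le_max_left _ _).trans hN)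
  simp only [Function.comp] at h5
  have h6 : ((N : ℝ) ^ η) ^ (3 / η) = (N : ℝ) ^ 3 := by
    rw [← Real.rpow_mul (Nat.cast_nonneg N), mul_div_cancel₀ _ hη.ne']
    exact Real.rpow_natCast _ 3
  rw [h6] at h5
  have h7 : A * (N : ℝ) ^ 3 * Real.exp (-((N : ℝ) ^ η)) ≤ |A| * ((N : ℝ) ^ 3 * Real.exp (-((N : ℝ) ^ η))) := by
    rw [mul_assoc]
    exact mul_le_mul_of_nonneg_right (le_abs_self A) (by positivity)
  linarith

lemma union_le (A B : Finset ℕ) {g : ℕ → ℝ} (hg : ∀ n, 0 ≤ g n) :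
    ∑ n ∈ A ∪ B, g n ≤ ∑ n ∈ A, g n + ∑ n ∈ B, g n := by
  rw [← Finset.sum_union_inter]
  exact le_add_of_nonneg_right (Finset.sum_nonneg fun n _ => hg n)

/-- the tail, without the upper cut. -/
theorem tail_lower0 : ∃ c δ : ℝ, 0 < c ∧ 0 < δ ∧ δ < 2 ∧ ∀ N : ℕ, 1 ≤ N → ∃ M : ℕ,
    c / (N : ℝ) ^ (2 - δ) ≤ ∑ n ∈ Ico N M, wL n := by
  obtain ⟨a, θ, K, ha, ha1, hθ, hK, ht⟩ := tail_rows
  obtain ⟨c, R, hc, hR, hl⟩ := pol_lower
  have hη : 0 < (1 - a) * θ := mul_pos (by linarith) hθ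
  obtain ⟨N0, hN01, hN0⟩ := exp_small (2 * 49 * K / c) hη
  set x : ℝ := (Real.sqrt (2 + Real.sqrt 2))⁻¹ with hx
  have hx0 : 0 < x := by positivity
  have hx1 : x ≤ 1 := by
    rw [hx]
    apply inv_le_one_of_one_le₀
    rw [Real.one_le_sqrt]
    have := Real.sqrt_nonneg 2
    linarith
  -- large N
  have key : ∀ N : ℕ, N0 ≤ N → ∃ M : ℕ, c / 98 / (N : ℝ) ^ (2 - 2 * a) ≤ ∑ n ∈ Ico N M, wL n := by
    intro N hN
    have hN1 : 1 ≤ N := hN01.trans hN
    have hN1' : (1 : ℝ) ≤ N := by exact_mod_cast hN1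
    have hN0' : (0 : ℝ) < N := by linarith
    obtain ⟨P, hP⟩ : ∃ P, P = (N : ℝ) ^ (1 - a) := ⟨_, rfl⟩
    have hP1 : 1 ≤ P := by rw [hP]; exact Real.one_le_rpow hN1' (by linarith)
    obtain ⟨T, hT⟩ : ∃ T, T = ⌈2 * P⌉₊ + 4 := ⟨_, rfl⟩
    have hT1 : 2 * P + 4 ≤ T := by
      have := Nat.le_ceil (2 * P)
      rw [hT]
      push_cast
      linarith
    have hT2 : (T : ℝ) ≤ 7 * P := by
      have := Nat.ceil_lt_add_one (by positivity : 0 ≤ 2 * P)
      rw [hT]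
      push_cast
      linarith
    have hT4 : 4 ≤ T := by omega
    obtain ⟨M, hM⟩ := hl T (by omega)
    refine ⟨M, ?_⟩
    -- the short polygons
    have hshort : ∀ n ∈ Ico 2 N, ∑ t ∈ Icc T (R * T), wR n t ≤ K * Real.exp (-((N : ℝ) ^ ((1 - a) * θ))) := by
      intro n hn
      rw [Finset.mem_Ico] at hn
      rw [sum_wR]
      by_cases hnT : T ≤ 2 * n + 1
      · have h1 := ht n T (by omega) hT4 (by
          have h2 : (n : ℝ) ^ (1 - a) ≤ P := by
            rw [hP]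
            exact Real.rpow_le_rpow (Nat.cast_nonneg n) (by exact_mod_cast hn.2.le) (by linarith)
          linarith)
        have h3 : (Set.ncard {f : Fin (n + 1) → ℤ × ℤ | CC.Loop n f ∧ ∃ t, t ∈ Icc T (R * T) ∧ CC.Rows t f} : ℝ) ≤
            (Set.ncard {f : Fin (n + 1) → ℤ × ℤ | CC.Loop n f ∧ ∃ t, T ≤ t ∧ CC.Rows t f} : ℝ) := by
          have : Set.ncard {f : Fin (n + 1) → ℤ × ℤ | CC.Loop n f ∧ ∃ t, t ∈ Icc T (R * T) ∧ CC.Rows t f} ≤
              Set.ncard {f : Fin (n + 1) → ℤ × ℤ | CC.Loop n f ∧ ∃ t, T ≤ t ∧ CC.Rows t f} := by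
            apply Set.ncard_le_ncard
            · rintro f ⟨h4, t, h5, h6⟩
              rw [Finset.mem_Icc] at h5
              exact ⟨h4, t, h5.1, h6⟩
            · exact (CC.P11.loop_finite n).subset fun f h => h.1
          exact_mod_cast this
        have h4 : (N : ℝ) ^ ((1 - a) * θ) ≤ (n : ℝ) ^ θ := by
          rw [Real.rpow_mul hN0'.le, ← hP]
          apply Real.rpow_le_rpow (by linarith) _ hθ.le
          have : (T : ℝ) ≤ 2 * n + 1 := by exact_mod_cast hnT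
          linarith
        have h5 : Real.exp (-((n : ℝ) ^ θ)) ≤ Real.exp (-((N : ℝ) ^ ((1 - a) * θ))) := by
          apply Real.exp_le_exp.2
          linarith
        have h6 : Real.sqrt (2 + Real.sqrt 2) ^ n * x ^ (n + 1) = x := by
          rw [pow_succ, ← mul_assoc, ← mul_pow, hx, mul_inv_cancel₀ (by positivity), one_pow, one_mul]
        have hn0 : (0 : ℝ) ≤ n := Nat.cast_nonneg n
        calc (Set.ncard {f : Fin (n + 1) → ℤ × ℤ | CC.Loop n f ∧ ∃ t, t ∈ Icc T (R * T) ∧ CC.Rows t f} : ℝ) *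
              x ^ (n + 1) / (n + 1)
            ≤ (Set.ncard {f : Fin (n + 1) → ℤ × ℤ | CC.Loop n f ∧ ∃ t, t ∈ Icc T (R * T) ∧ CC.Rows t f} : ℝ) *
              x ^ (n + 1) := by
              apply div_le_self (by positivity)
              linarith
          _ ≤ (K * Real.exp (-((n : ℝ) ^ θ)) * Real.sqrt (2 + Real.sqrt 2) ^ n) * x ^ (n + 1) := by
              apply mul_le_mul_of_nonneg_right (h3.trans h1) (by positivity)
          _ = K * Real.exp (-((n : ℝ) ^ θ)) * (Real.sqrt (2 + Real.sqrt 2) ^ n * x ^ (n + 1)) := by ring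
          _ = K * Real.exp (-((n : ℝ) ^ θ)) * x := by rw [h6]
          _ ≤ K * Real.exp (-((n : ℝ) ^ θ)) * 1 := by
              apply mul_le_mul_of_nonneg_left hx1 (by positivity)
          _ ≤ K * Real.exp (-((N : ℝ) ^ ((1 - a) * θ))) := by
              rw [mul_one]
              exact mul_le_mul_of_nonneg_left h5 hK.le
      · have h1 : {f : Fin (n + 1) → ℤ × ℤ | CC.Loop n f ∧ ∃ t, t ∈ Icc T (R * T) ∧ CC.Rows t f} = ∅ := by
          rw [Set.eq_empty_iff_forall_notMem]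
          rintro f ⟨h2, t, h3, h4⟩
          rw [Finset.mem_Icc] at h3
          exact hnT (h3.1.trans (CC.P11.rows_le h2 h4))
        rw [h1, Set.ncard_empty, Nat.cast_zero, zero_mul, zero_div]
        positivity
    have hsum : ∑ n ∈ Ico 2 N, ∑ t ∈ Icc T (R * T), wR n t ≤ c / 98 / (N : ℝ) ^ (2 - 2 * a) := by
      have h1 := Finset.sum_le_sum hshort
      rw [Finset.sum_const, Nat.card_Ico, nsmul_eq_mul] at h1
      have h2 : ((N - 2 : ℕ) : ℝ) ≤ N := by exact_mod_cast Nat.sub_le N 2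
      have h3 := hN0 N hN
      have h4 : (N : ℝ) ^ (2 - 2 * a) ≤ (N : ℝ) ^ 2 := by
        rw [← Real.rpow_natCast]
        apply Real.rpow_le_rpow_of_exponent_le hN1'
        push_cast
        linarith
      have h5 : 0 < (N : ℝ) ^ (2 - 2 * a) := Real.rpow_pos_of_pos hN0' _
      rw [le_div_iff₀ h5]
      set E : ℝ := Real.exp (-((N : ℝ) ^ ((1 - a) * θ))) with hE
      have hE0 : 0 < E := Real.exp_pos _
      have h6 : ∑ n ∈ Ico 2 N, ∑ t ∈ Icc T (R * T), wR n t ≤ N * (K * E) :=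
        h1.trans (mul_le_mul_of_nonneg_right h2 (by positivity))
      calc (∑ n ∈ Ico 2 N, ∑ t ∈ Icc T (R * T), wR n t) * (N : ℝ) ^ (2 - 2 * a)
          ≤ N * (K * E) * (N : ℝ) ^ 2 := by
            apply mul_le_mul h6 h4 h5.le (by positivity)
        _ = (2 * 49 * K / c * (N : ℝ) ^ 3 * E) * (c / 98) := by
            field_simp
            ring
        _ ≤ 1 * (c / 98) := mul_le_mul_of_nonneg_right h3 (by positivity)
        _ = c / 98 := one_mul _
    -- all the polygons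
    have hsplit : ∑ n ∈ Ico 2 M, ∑ t ∈ Icc T (R * T), wR n t ≤
        ∑ n ∈ Ico 2 N, ∑ t ∈ Icc T (R * T), wR n t + ∑ n ∈ Ico N M, wL n := by
      have h1 : Ico 2 M ⊆ Ico 2 N ∪ Ico N M := by
        intro n hn
        rw [Finset.mem_union, Finset.mem_Ico, Finset.mem_Ico]
        rw [Finset.mem_Ico] at hn
        omega
      have h0 : ∀ n, 0 ≤ ∑ t ∈ Icc T (R * T), wR n t := fun n => Finset.sum_nonneg fun t _ => wR_nonneg n t
      refine (Finset.sum_le_sum_of_subset_of_nonneg h1 fun n _ _ => h0 n).trans ?_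
      refine (union_le (Ico 2 N) (Ico N M) h0).trans ?_
      apply add_le_add (le_refl _)
      exact Finset.sum_le_sum fun n _ => sum_wR_le n _
    have hT0 : (0 : ℝ) < T := by linarith
    have h7 : 2 * (c / 98 / (N : ℝ) ^ (2 - 2 * a)) ≤ c / (T : ℝ) ^ 2 := by
      have h8 : (T : ℝ) ^ 2 ≤ 49 * (N : ℝ) ^ (2 - 2 * a) := by
        have h9 : P ^ 2 = (N : ℝ) ^ (2 - 2 * a) := by
          rw [hP, ← Real.rpow_natCast, ← Real.rpow_mul hN0'.le]
          congr 1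
          push_cast
          ring
        rw [← h9]
        nlinarith
      have h5 : 0 < (N : ℝ) ^ (2 - 2 * a) := Real.rpow_pos_of_pos hN0' _
      rw [le_div_iff₀ (by positivity)]
      calc 2 * (c / 98 / (N : ℝ) ^ (2 - 2 * a)) * (T : ℝ) ^ 2
          ≤ 2 * (c / 98 / (N : ℝ) ^ (2 - 2 * a)) * (49 * (N : ℝ) ^ (2 - 2 * a)) :=
            mul_le_mul_of_nonneg_left h8 (by positivity)
        _ = c := by
            field_simp
            ring
    linarith [hM.trans hsplit]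
  -- all N
  refine ⟨c / 98 / (N0 : ℝ) ^ (2 - 2 * a), 2 * a, by positivity, by linarith, by linarith, ?_⟩
  intro N hN
  have hN' : (0 : ℝ) < N := by exact_mod_cast hN
  have hN0' : (0 : ℝ) < N0 := by exact_mod_cast hN01
  obtain ⟨M, hM⟩ := key (N0 * N) (Nat.le_mul_of_pos_right N0 hN)
  refine ⟨M, ?_⟩
  have h1 : c / 98 / (N0 : ℝ) ^ (2 - 2 * a) / (N : ℝ) ^ (2 - 2 * a) =
      c / 98 / ((N0 * N : ℕ) : ℝ) ^ (2 - 2 * a) := by
    push_cast
    rw [Real.mul_rpow hN0'.le hN'.le, div_div]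
  rw [h1]
  refine hM.trans ?_
  apply Finset.sum_le_sum_of_subset_of_nonneg
  · intro n hn
    rw [Finset.mem_Ico] at hn ⊢
    exact ⟨(Nat.le_mul_of_pos_left N hN01).trans hn.1, hn.2⟩
  · intro n _ _
    exact wL_nonneg n

/-- the tail of the number of polygons, with the upper cut. -/
theorem tail_lower : ∃ c δ K : ℝ, 0 < c ∧ 0 < δ ∧ δ < 2 ∧ 0 < K ∧ ∀ N : ℕ, 1 ≤ N →
    c / (N : ℝ) ^ (2 - δ) ≤ ∑ n ∈ Ico N ⌈K * (N : ℝ) ^ (2 - δ)⌉₊, wL n := by
  obtain ⟨c, δ, hc, hδ, hδ2, hl⟩ := tail_lower0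
  obtain ⟨C, hC, _, hu, _⟩ := CC.final
  refine ⟨c / 2, δ, 2 * C / c + 2, by positivity, hδ, hδ2, by positivity, ?_⟩
  intro N hN
  obtain ⟨M, hM⟩ := hl N hN
  have hN1 : (1 : ℝ) ≤ N := by exact_mod_cast hN
  obtain ⟨P, hP⟩ : ∃ P, P = (N : ℝ) ^ (2 - δ) := ⟨_, rfl⟩
  have hP1 : 1 ≤ P := by rw [hP]; exact Real.one_le_rpow hN1 (by linarith)
  rw [← hP] at hM ⊢
  obtain ⟨N', hN'⟩ : ∃ N', N' = ⌈(2 * C / c + 2) * P⌉₊ := ⟨_, rfl⟩
  rw [← hN']
  have h1 : (2 * C / c + 2) * P ≤ N' := by rw [hN']; exact Nat.le_ceil _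
  have hq : 0 < 2 * C / c := by positivity
  have h2 : (2 : ℝ) ≤ N' := by nlinarith
  have h3 : 2 ≤ N' := by exact_mod_cast h2
  have h4 := hu N' h3 M
  have h5 : C / (N' : ℝ) ≤ c / 2 / P := by
    rw [div_le_div_iff₀ (by linarith) (by linarith)]
    have h6 : 2 * C / c * P ≤ N' := by nlinarith
    calc C * P = c / 2 * (2 * C / c * P) := by field_simp
      _ ≤ c / 2 * N' := mul_le_mul_of_nonneg_left h6 (by positivity)
  have h7 : ∑ n ∈ Ico N M, wL n ≤ ∑ n ∈ Ico N N', wL n + ∑ n ∈ Ico N' M, wL n := by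
    have h8 : Ico N M ⊆ Ico N N' ∪ Ico N' M := by
      intro n hn
      rw [Finset.mem_union, Finset.mem_Ico, Finset.mem_Ico]
      rw [Finset.mem_Ico] at hn
      omega
    refine (Finset.sum_le_sum_of_subset_of_nonneg h8 fun n _ _ => wL_nonneg n).trans ?_
    exact union_le (Ico N N') (Ico N' M) wL_nonneg
  have h9 : ∑ n ∈ Ico N' M, wL n ≤ C / N' := h4
  have h10 : c / P = c / 2 / P + c / 2 / P := by ring
  linarith

end RP

end HexObs
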