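import Pool.Agent.RSWP.LocalT
import Pool.Agent.W47.Bridge

/-!
RSWP, Q1: the local lower bound for the crossings of the brick wall, all heights and all ends.
-/

set_option autoImplicit false

namespace HexObs

namespace RP

open Finset ENNReal

namespace LocE

open CC

lemma lat_fst (t : List Bool) (i : ℕ) : lat t i = (vx oo up t i).1 := by
  unfold lat
  simp only [cross, up]
  ring

lemma vx_tip {t : List Bool} {T : ℕ} (h : t ∈ out (strip oo up T) oo up up) :
    (tip oo up t).1 = (vx oo up t t.length).1 := by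
  have h1 : dx up t t.length = up := h.2.2
  have h2 : tip oo up t = vx oo up t t.length + dx up t t.length := rfl
  rw [h2, h1]
  show (vx oo up t t.length).1 + 0 = _
  rw [add_zero]

lemma brd_iff {t : List Bool} {T : ℕ} : t ∈ Brd T ↔ t ∈ out (strip oo up T) oo up up := by
  unfold Brd Br
  rw [Set.sdiff_empty]
  rfl

lemma BrAt_eq {T : ℕ} (hT : 1 ≤ T) (b : ℤ) : BrAt (strip oo up T) oo up (top T b) = EndB T b := by
  ext t
  constructor
  · rintro ⟨h1, h2⟩
    refine ⟨brd_iff.2 h1, ?_⟩
    show latE t = b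
    unfold latE
    rw [lat_fst, ← vx_tip h1, h2]
    rfl
  · rintro ⟨h1, h2⟩
    have h3 := brd_iff.1 h1
    refine ⟨h3, ?_⟩
    obtain ⟨b', _, h5⟩ := crossing_toL hT lv_oo h3
    have h6 : b' = b := by
      unfold latE at h2
      rw [lat_fst, ← vx_tip h3, h5] at h2
      exact h2
    rw [← h6]
    exact h5

lemma E_eq' {T : ℕ} (hT : 1 ≤ T) (b : ℤ) : CC.E T b = gf (EndB T b) := by
  rw [E_eq hT, BrAt_eq hT]

/-- the crossings of one row -/
lemma row (n : ℕ) (s : ℤ) (hs : s = 1 ∨ s = -1) (hn : ¬ Even n) : ∃ L, Crossing 1 0 (s * n) L ∧ L.length ≤ n + 3 := by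
  refine ⟨(List.range (n + 1)).map fun i : ℕ => (s * (i : ℤ), (1 : ℤ)), ⟨?_, ?_, ?_, ?_, ?_, ?_⟩, ?_⟩
  · rw [List.isChain_map]
    rw [List.isChain_iff_getElem]
    intro i hi
    simp only [List.getElem_range]
    rcases hs with rfl | rfl
    · left
      push_cast
      ext <;> ring
    · right; left
      push_cast
      ext <;> ring
  · refine List.Nodup.map ?_ List.nodup_range
    intro i j h
    simp only [Prod.mk.injEq, and_true] at h
    rcases hs with rfl | rfl <;> omega
  · intro p hp
    rw [List.mem_map] at hp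
    obtain ⟨i, _, rfl⟩ := hp
    simp
  · rw [List.range_succ_eq_map]
    simp
  · rw [List.range_succ, List.map_append]
    simp
  · rw [Nat.even_iff] at hn
    rcases hs with rfl | rfl
    · rw [Int.even_iff]
      push_cast
      omega
    · rw [Int.even_iff]
      push_cast
      omega
  · simp

lemma step {T : ℕ} {b : ℤ} {L : List (ℤ × ℤ)} (h : Crossing T 0 b L) :
    Crossing (T + 1) 0 (b + 1) (L ++ [(b, (T : ℤ) + 1), (b + 1, (T : ℤ) + 1)]) := by
  obtain ⟨h1, h2, h3, h4, h5, h6⟩ := h
  have hne : L ≠ [] := by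
    rintro rfl
    simp at h4
  refine ⟨?_, ?_, ?_, ?_, ?_, ?_⟩
  · rw [List.isChain_append]
    refine ⟨h1, ?_, ?_⟩
    · simp only [List.isChain_cons_cons, List.isChain_singleton, and_true]
      left
      rfl
    · intro p hp q hq
      rw [h5] at hp
      simp only [Option.mem_def, Option.some.injEq] at hp
      simp only [List.head?_cons, Option.mem_def, Option.some.injEq] at hq
      subst hp
      subst hq
      right; right; left
      exact ⟨rfl, h6⟩
  · rw [List.nodup_append]
    refine ⟨h2, ?_, ?_⟩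
    · simp
    · intro p hp q hq he
      subst he
      have h7 := (h3 p hp).2
      simp only [List.mem_cons, List.not_mem_nil, or_false] at hq
      rcases hq with rfl | rfl <;> simp only at h7 <;> omega
  · intro p hp
    rw [List.mem_append] at hp
    push_cast
    rcases hp with hp | hp
    · have := h3 p hp
      omega
    · simp only [List.mem_cons, List.not_mem_nil, or_false] at hp
      rcases hp with rfl | rfl <;> simp only <;> omega
  · rw [List.head?_append, h4]
    rfl
  · rw [List.getLast?_append]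
    simp
  · rw [Int.even_iff] at h6 ⊢
    push_cast
    omega

lemma exists_crossing : ∀ (T : ℕ) (b : ℤ), 1 ≤ T → Even (b + T) → ∃ L, Crossing T 0 b L ∧ L.length ≤ b.natAbs + 3 * T := by
  intro T
  induction T with
  | zero => intro b h; omega
  | succ T ih =>
    intro b _ hb
    rcases Nat.eq_zero_or_pos T with h0 | h0
    · subst h0
      have h1 : ¬ Even b.natAbs := by
        rw [Int.even_iff] at hb
        rw [Nat.even_iff]
        push_cast at hb
        omega
      rcases le_or_gt 0 b with h2 | h2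
      · obtain ⟨L, hL, hl⟩ := row b.natAbs 1 (Or.inl rfl) h1
        have h3 : (1 : ℤ) * (b.natAbs : ℤ) = b := by omega
        rw [h3] at hL
        exact ⟨L, hL, by omega⟩
      · obtain ⟨L, hL, hl⟩ := row b.natAbs (-1) (Or.inr rfl) h1
        have h3 : (-1 : ℤ) * (b.natAbs : ℤ) = b := by omega
        rw [h3] at hL
        exact ⟨L, hL, by omega⟩
    · obtain ⟨L, hL, hl⟩ := ih (b - 1) h0 (by
        rw [Int.even_iff] at hb ⊢
        push_cast at hb
        omega)
      refine ⟨_, by simpa using step hL, ?_⟩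
      simp only [List.length_append, List.length_cons, List.length_nil]
      omega

end LocE

open LocE in
theorem local_E (R : ℕ) : ∃ c : ℝ, 0 < c ∧ ∀ (T : ℕ) (b : ℤ), 1 ≤ T → Even (b + T) → |b| ≤ R * T →
    ENNReal.ofReal (c / T) * CC.B T ≤ CC.E T b := by
  obtain ⟨c0, t0, hc0, hmain⟩ := localTube R (η := 1) one_pos
  have hx0 : 0 < xc := xc_pos
  have hx1 : xc ≤ 1 := by
    have h := xc_sq
    have h2 : (1 : ℝ) ≤ 2 + Real.sqrt 2 := by
      have := Real.sqrt_nonneg (2 : ℝ)
      linarith
    have h3 : xc ^ 2 ≤ 1 := by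
      rw [h]
      exact div_le_one_of_le₀ h2 (by positivity)
    nlinarith
  refine ⟨min c0 (xc ^ ((R + 3) * t0)), lt_min hc0 (by positivity), ?_⟩
  intro T b hT hb hbR
  have hTr : (0 : ℝ) < T := by exact_mod_cast hT
  have hB1 : BT T ≤ 1 := BT_le_one hT
  rw [E_eq' hT, CC.B_eq hT]
  rcases le_or_gt t0 T with h | h
  · have h1 := hmain T b h (by
      rw [Int.even_iff] at hb ⊢
      omega) hbR
    have h2 : gf {w | w ∈ EndB T b ∧ ∀ i, i ≤ w.length → ((min 0 b : ℤ) : ℝ) - 1 * T ≤ lat w i ∧
        (lat w i : ℝ) ≤ ((max 0 b : ℤ) : ℝ) + 1 * T} ≤ gf (EndB T b) := gf_mono fun w hw => hw.1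
    refine le_trans ?_ (h1.trans h2)
    have h3 : BT T = ENNReal.ofReal (uu T) := (ENNReal.ofReal_toReal (BT_ne_top hT)).symm
    rw [h3, ← ENNReal.ofReal_mul (by positivity)]
    apply ENNReal.ofReal_le_ofReal
    have h4 : 0 < uu T := uu_pos T
    have h5 : min c0 (xc ^ ((R + 3) * t0)) ≤ c0 := min_le_left _ _
    calc min c0 (xc ^ ((R + 3) * t0)) / T * uu T = min c0 (xc ^ ((R + 3) * t0)) * (uu T / T) := by ring
      _ ≤ c0 * (uu T / T) := mul_le_mul_of_nonneg_right h5 (by positivity)
  · obtain ⟨L, hL, hl⟩ := exists_crossing T b hT hb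
    have h1 : CC.wt L ≤ CC.E T b := by
      unfold CC.E
      exact ENNReal.le_tsum (f := fun L : {L // CC.Crossing T 0 b L} => CC.wt L) ⟨L, hL⟩
    rw [E_eq' hT] at h1
    refine le_trans ?_ h1
    have h2 : L.length ≤ (R + 3) * t0 := by
      have h3 : (b.natAbs : ℤ) ≤ R * T := by
        rw [Int.natCast_natAbs]
        exact hbR
      have h4 : b.natAbs ≤ R * T := by exact_mod_cast h3
      calc L.length ≤ b.natAbs + 3 * T := hl
        _ ≤ R * T + 3 * T := by omega
        _ = (R + 3) * T := by ring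
        _ ≤ (R + 3) * t0 := Nat.mul_le_mul_left _ h.le
    have h5 : CC.wt L = ENNReal.ofReal (xc ^ L.length) := by
      unfold CC.wt
      rw [CC.xc_eq]
    rw [h5]
    calc ENNReal.ofReal (min c0 (xc ^ ((R + 3) * t0)) / T) * BT T
        ≤ ENNReal.ofReal (min c0 (xc ^ ((R + 3) * t0)) / T) * 1 := mul_le_mul' le_rfl hB1
      _ = ENNReal.ofReal (min c0 (xc ^ ((R + 3) * t0)) / T) := mul_one _
      _ ≤ ENNReal.ofReal (xc ^ L.length) := by
          apply ENNReal.ofReal_le_ofReal
          have h6 : (1 : ℝ) ≤ T := by exact_mod_cast hT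
          have h7 : 0 ≤ min c0 (xc ^ ((R + 3) * t0)) := le_min hc0.le (by positivity)
          calc min c0 (xc ^ ((R + 3) * t0)) / T ≤ min c0 (xc ^ ((R + 3) * t0)) := div_le_self h7 h6
            _ ≤ xc ^ ((R + 3) * t0) := min_le_right _ _
            _ ≤ xc ^ L.length := pow_le_pow_of_le_one hx0.le hx1 h2

end RP

end HexObs
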