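import Pool.Agent.RSWP.DefsL

/-!
RSWP, module P8: the upper bound for the wedge walks.
-/

set_option autoImplicit false

namespace HexObs

namespace RP

open Finset ENNReal

/-- the exits through the top of the low strip -/
lemma P8_top {h L r : ℕ} (hh1 : 1 ≤ h) (hL : 1 ≤ L) (hr : 1 ≤ r) :
    Ex (Tube.dF Tube.upm oo false h L r) oo up up ≤ bT h := by
  have h3 : ENNReal.ofReal (Ex (Tube.dF Tube.upm oo false h L r) oo up up) ≤ BT h := by
    rw [← gf_out_coe, ← gf_B Tube.upm oo h]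
    apply gf_mono
    rintro t ⟨s1, s2, s3⟩
    rw [Tube.dF_coe] at s1
    have ht : t ∈ exits (Tube.dF Tube.upm oo false h L r) oo up := by
      rw [mem_exits]
      refine ⟨⟨fun i hi hl => ?_, s1.inj⟩, s2⟩
      rw [Tube.mem_dF]
      exact s1.mem i hi hl
    refine ⟨s1.mono (fun v hv => hv.1), ?_, s3⟩
    rintro ⟨_, c2, c3⟩
    obtain ⟨⟨a1, a2, a3, a4, a5⟩, _⟩ := dirs_distinct up Tube.upm
    rcases Tube.dm_exit Tube.upm false hh1 hL hr ht with ⟨hd, _⟩ | ⟨_, hi⟩ | ⟨hd, _⟩ | ⟨hd, _⟩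
    · exact a5 (hd.symm.trans s3)
    · omega
    · exact a1 (hd.symm.trans s3)
    · exact a2 (hd.symm.trans s3)
  have h4 := ENNReal.toReal_mono (BT_ne_top hh1) h3
  rwa [ENNReal.toReal_ofReal (Ex_nonneg _ _ _ _)] at h4

/-- a gate of normal rotR at distance at least T -/
lemma P8_far {T L r : ℕ} (hT : 1 ≤ T) (hL : 1 ≤ L) (hr : T ≤ r) :
    Tube.wS (Tube.gE Tube.upm oo false T L r) ≤ 6000 * bT T := by
  have h1 := Tube.z_anti Tube.upm oo hT hL hT hr
  have h2 := Tube.lat_fin T hT 1 L le_rfl hL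
  rw [one_mul, pow_one] at h2
  have h3 := Tube.q0_lt
  have h4 := Tube.q0_pos
  have h5 := bT_nonneg T
  have h6 : 6000 * Tube.q0 * bT T ≤ 6000 * bT T := by
    apply mul_le_mul_of_nonneg_right _ h5
    linarith
  exact h1.trans (h2.trans h6)

/-- a gate of normal rotR at distance at least T / 2 -/
lemma P8_half {T L r : ℕ} (hT : 1 ≤ T) (hL : 1 ≤ L) (hr : T ≤ 2 * r) :
    Tube.wS (Tube.gE Tube.upm oo false T L r) ≤ 6001 * (3 * (2 + CW)) * bT T := by
  classical
  have hC := Tube.CW_nonneg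
  have hb := bT_nonneg T
  rcases Nat.lt_or_ge T 2 with h1 | h1
  · refine (P8_far hT hL (by omega)).trans (mul_le_mul_of_nonneg_right ?_ hb)
    nlinarith
  · obtain ⟨h, hh⟩ : ∃ h, h = T / 2 := ⟨_, rfl⟩
    have hh1 : 1 ≤ h := by omega
    have hhT : h ≤ T := by omega
    have hhr : h ≤ r := by omega
    have hr1 : 1 ≤ r := by omega
    have e1 := Tube.gE_split Tube.upm oo false T h L r
    have e2 := Tube.gate_first Tube.upm oo hh1 hhT hL hr1
    have e3 := P8_top hh1 hL hr1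
    have e4 := P8_far hh1 hL hhr
    have e5 := Real.cos_le_one (Real.pi / 8)
    have e6 : 0 ≤ Real.cos (Real.pi / 8) := cos_pos.le
    have e7 := bT_nonneg h
    have e8 : Real.cos (Real.pi / 8) * Ex (Tube.dF Tube.upm oo false h L r) oo up up ≤ bT h := by
      calc _ ≤ Real.cos (Real.pi / 8) * bT h := mul_le_mul_of_nonneg_left e3 e6
        _ ≤ 1 * bT h := mul_le_mul_of_nonneg_right e5 e7
        _ = bT h := one_mul _
    have e9 : bT h ≤ 3 * (2 + CW) * bT T := by
      have f1 := Tube.bT_double hh1 hhT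
      have f2 : (T : ℝ) ≤ 3 * h := by
        have : T ≤ 3 * h := by omega
        exact_mod_cast this
      have f3 : (0 : ℝ) < h := by exact_mod_cast hh1
      have f4 : (h : ℝ) * bT h ≤ h * (3 * (2 + CW) * bT T) := by
        calc (h : ℝ) * bT h ≤ (2 + CW) * (T * bT T) := f1
          _ ≤ (2 + CW) * ((3 * h) * bT T) := by
            apply mul_le_mul_of_nonneg_left _ (by linarith)
            exact mul_le_mul_of_nonneg_right f2 hb
          _ = h * (3 * (2 + CW) * bT T) := by ring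
      exact le_of_mul_le_mul_left f4 f3
    calc Tube.wS (Tube.gE Tube.upm oo false T L r) ≤ bT h + 6000 * bT h := by linarith
      _ = 6001 * bT h := by ring
      _ ≤ 6001 * (3 * (2 + CW) * bT T) := mul_le_mul_of_nonneg_left e9 (by norm_num)
      _ = _ := by ring

/-- P8 (WedgeUp.lean): the upper bound for the wedge walks. -/
theorem wedge_up : ∃ C : ℝ, 0 < C ∧ ∀ (T L r : ℕ), 1 ≤ T → 1 ≤ L → T ≤ 2 * r →
    gf {c | c ∈ Tube.gE (show up ∈ dirs by decide) oo true T L r} ≤ ENNReal.ofReal (C * uu T) := by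
  have hC := Tube.CW_nonneg
  have hc : 0 < Real.cos (Real.pi / 8) := cos_pos
  refine ⟨6001 * (3 * (2 + CW)) / Real.cos (Real.pi / 8), by positivity, fun T L r hT hL hr => ?_⟩
  have h1 := Tube.st1 Tube.upm oo hT hL (show 1 ≤ r by omega)
  have h2 := P8_half hT hL hr
  have h3 : Tube.wS (Tube.gE Tube.upm oo true T L r) ≤ 6001 * (3 * (2 + CW)) / Real.cos (Real.pi / 8) * uu T := by
    rw [uu_eq hT, div_mul_eq_mul_div, le_div_iff₀ hc]
    linarith
  have h4 : gf {c | c ∈ Tube.gE (show up ∈ dirs by decide) oo true T L r} =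
      ENNReal.ofReal (Tube.wS (Tube.gE Tube.upm oo true T L r)) :=
    gf_finset (Tube.gE Tube.upm oo true T L r)
  rw [h4]
  exact ENNReal.ofReal_le_ofReal h3

end RP

end HexObs
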