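import Pool.Agent.RSWP.DefsL
import Pool.Agent.HexPoly.LoopDefs

/-!
RSWP: definitions for the polygons.
-/

set_option autoImplicit false

namespace HexObs

namespace RP

open Finset ENNReal

/-- turn by -120 degrees. -/
def rr (d : Pt) : Pt := rotR (rotR d)

def e0 : Pt := (0, 1)
def e1 : Pt := (1, -1)
def e2 : Pt := (-1, 0)

/-- window of the low marks of direction d; the height of the marks is ip m d / 3, the lateral position is cross d m. -/
def Low (K e : ℕ) (d : Pt) : Set Pt :=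
  {m | cl m = 0 ∧ -(9 * e : ℤ) ≤ ip m d ∧ ip m d ≤ -(6 * e : ℤ) ∧ (13 * e : ℤ) ≤ cross d m ∧
    cross d m ≤ 2 * K * e + 4 * e}

/-- window of the up marks of direction d. -/
def Upw (K e : ℕ) (d : Pt) : Set Pt :=
  {m | cl m = 0 ∧ (6 * e : ℤ) ≤ ip m d ∧ ip m d ≤ 9 * e ∧ (2 * K * e + 4 * e : ℤ) ≤ cross d m ∧
    cross d m ≤ 4 * K * e}

/-- b is a bridge from the low mark m to the up mark n in direction d, in the box. -/
def BP (K e : ℕ) (d m n : Pt) (b : List Bool) : Prop :=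
  m ∈ Low K e d ∧ n ∈ Upw K e d ∧ (∃ t, b ∈ Brd t) ∧ vx m d b b.length = n ∧
    ∀ i, i ≤ b.length → (12 * e : ℤ) ≤ cross d (vx m d b i) ∧ cross d (vx m d b i) ≤ 4 * K * e + e

/-- wedge words: walks of the strip of height T that leave through a gate at distance at least r0. -/
def WG (T r0 : ℕ) : Set (List Bool) := {c | ∃ r L, r0 ≤ r ∧ 1 ≤ L ∧ c ∈ Tube.gE upd oo true T L r}

/-- c is a wedge walk from the up mark n (direction d) to the low mark m (direction rr d). -/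
def CP (K e L : ℕ) (d n m : Pt) (c : List Bool) : Prop :=
  n ∈ Upw K e d ∧ m ∈ Low K e (rr d) ∧ (∃ r, K * e ≤ r ∧ c ∈ Tube.gE upd oo true (K * e) L r) ∧
    vx n d c c.length = m

/-- six words. -/
abbrev S6 : Type := List Bool × List Bool × List Bool × List Bool × List Bool × List Bool

def cat6 (w : S6) : List Bool := w.1 ++ (w.2.1 ++ (w.2.2.1 ++ (w.2.2.2.1 ++ (w.2.2.2.2.1 ++ w.2.2.2.2.2))))

/-- a decomposed polygon with the root m. -/
def Dec (K e L : ℕ) (m : Pt) (w : S6) : Prop :=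
  ∃ n0 m1 n1 m2 n2 : Pt, BP K e e0 m n0 w.1 ∧ CP K e L e0 n0 m1 w.2.1 ∧ BP K e e1 m1 n1 w.2.2.1 ∧
    CP K e L e1 n1 m2 w.2.2.2.1 ∧ BP K e e2 m2 n2 w.2.2.2.2.1 ∧ CP K e L e2 n2 m w.2.2.2.2.2

/-- rooted closed walks of length n that have a decomposition. -/
def Y0 (K e L n : ℕ) : Set (Pt × List Bool) := {y | y.2.length = n ∧ ∃ w, Dec K e L y.1 w ∧ cat6 w = y.2}

/-- the number of decompositions with the given root. -/
noncomputable def DD (K e L : ℕ) (y : Pt × List Bool) : ℕ := Set.ncard {w : S6 | Dec K e L y.1 w ∧ cat6 w = y.2}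

/-- the number of the roots of direction e0 of the same closed walk. -/
noncomputable def N0 (K e L : ℕ) (y : Pt × List Bool) : ℕ :=
  Set.ncard {k : ℕ | k < y.2.length ∧ dx up y.2 k = up ∧ (vx y.1 up y.2 k, y.2.rotate k) ∈ Y0 K e L y.2.length}

/-- cuts near the bottom of a bridge. -/
def BB (e : ℕ) (b : List Bool) : Set ℕ :=
  {s | s ≤ b.length ∧ (∃ j, j ≤ e ∧ b.take s ∈ Brd j) ∧ ∃ j, b.drop s ∈ Brd j}

/-- cuts near the top of a bridge. -/
def BA (e : ℕ) (b : List Bool) : Set ℕ :=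
  {s | s ≤ b.length ∧ (∃ j, b.take s ∈ Brd j) ∧ ∃ j, j ≤ e ∧ b.drop s ∈ Brd j}

/-- cuts of a wedge walk near its beginning. -/
def CB (K e : ℕ) (c : List Bool) : Set ℕ :=
  {s | s ≤ c.length ∧ (∃ j, j ≤ e ∧ c.take s ∈ Brd j) ∧ c.drop s ∈ WG (K * e) (K * e)}

/-- cuts of a wedge walk near its end. -/
def CA (K e : ℕ) (c : List Bool) : Set ℕ :=
  {s | s ≤ c.length ∧ c.take s ∈ WG (K * e) (K * e) ∧ ∃ j, j ≤ e ∧ c.drop s ∈ Brd j}

/-- the factor of a bridge in the second moment. -/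
noncomputable def fB (e : ℕ) (b : List Bool) : ℝ≥0∞ :=
  (1 + (BB e b).ncard / ENNReal.ofReal (UU e)) * (1 + (BA e b).ncard / ENNReal.ofReal (UU e))

/-- the factor of a wedge walk in the second moment. -/
noncomputable def fC (K e : ℕ) (c : List Bool) : ℝ≥0∞ :=
  (1 + (CB K e c).ncard / ENNReal.ofReal (UU e)) * (1 + (CA K e c).ncard / ENNReal.ofReal (UU e))

/-- sum over the pieces between given marks, with a factor. -/
noncomputable def GB (K e : ℕ) (f : List Bool → ℝ≥0∞) (d m n : Pt) : ℝ≥0∞ :=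
  ∑' b : {b : List Bool // BP K e d m n b}, wE b.1 * f b.1

noncomputable def GC (K e L : ℕ) (f : List Bool → ℝ≥0∞) (d n m : Pt) : ℝ≥0∞ :=
  ∑' c : {c : List Bool // CP K e L d n m c}, wE c.1 * f c.1

/-- the sum over all the marks. -/
noncomputable def EE (K e L : ℕ) (f g : List Bool → ℝ≥0∞) : ℝ≥0∞ :=
  ∑' (m0 : Pt) (n0 : Pt) (m1 : Pt) (n1 : Pt) (m2 : Pt) (n2 : Pt), GB K e f e0 m0 n0 * GC K e L g e0 n0 m1 *
    (GB K e f e1 m1 n1 * GC K e L g e1 n1 m2) * (GB K e f e2 m2 n2 * GC K e L g e2 n2 m0)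

end RP

end HexObs
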