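import Pool.Agent.RSWP.WedgeUp
import Pool.Agent.RSWP.DefsP
import Pool.Agent.PHW.Mirror
import Pool.Agent.PHW.Cuts

/-!
RSWP, module P13: the second moments of the pieces.
-/

set_option autoImplicit false

namespace HexObs

namespace RP

open Finset ENNReal

namespace Moments

/-! abstract lemmas on generating functions -/

lemma gf_ind (S : Set (List Bool)) : gf S = ∑' t, S.indicator wE t := tsum_subtype S wE

lemma pre_le {S A : Set (List Bool)} {Q : List Bool → Set (List Bool)} {M : ℝ≥0∞}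
    (h : ∀ b ∈ S, ∃ a ∈ A, ∃ c ∈ Q a, b = a ++ c) (hM : ∀ a ∈ A, gf (Q a) ≤ M) : gf S ≤ gf A * M := by
  classical
  choose! f hf g hg hfg using h
  let ψ : S → (Σ a : A, Q a) := fun t => ⟨⟨f t, hf t t.2⟩, ⟨g t, hg t t.2⟩⟩
  have hψ : Function.Injective ψ := by
    intro a b hab
    have h1 : (ψ a).1.1 = (ψ b).1.1 := by rw [hab]
    have h2 : (ψ a).2.1 = (ψ b).2.1 := by rw [hab]
    apply Subtype.ext
    rw [hfg a a.2, hfg b b.2]
    show (ψ a).1.1 ++ (ψ a).2.1 = (ψ b).1.1 ++ (ψ b).2.1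
    exact congrArg₂ (fun x y : List Bool => x ++ y) h1 h2
  calc gf S = ∑' t : S, wE (ψ t).1 * wE (ψ t).2 := by
        unfold gf
        apply tsum_congr
        intro t
        rw [← wE_append]
        show wE t = wE (f t ++ g t)
        rw [← hfg t t.2]
    _ ≤ ∑' p : (Σ a : A, Q a), wE p.1 * wE p.2 :=
        ENNReal.tsum_comp_le_tsum_of_injective hψ (fun p : (Σ a : A, Q a) => wE p.1 * wE p.2)
    _ = ∑' a : A, ∑' c : Q a, wE a * wE c := ENNReal.tsum_sigma (fun (a : A) (c : Q a) => wE a * wE c)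
    _ = ∑' a : A, wE a * gf (Q a) := by
        apply tsum_congr
        intro a
        rw [ENNReal.tsum_mul_left]
        rfl
    _ ≤ ∑' a : A, wE a * M := ENNReal.tsum_le_tsum fun a => mul_le_mul' le_rfl (hM a a.2)
    _ = gf A * M := ENNReal.tsum_mul_right

lemma suf_le {S A : Set (List Bool)} {Q : List Bool → Set (List Bool)} {M : ℝ≥0∞}
    (h : ∀ b ∈ S, ∃ a ∈ A, ∃ c ∈ Q a, b = c ++ a) (hM : ∀ a ∈ A, gf (Q a) ≤ M) : gf S ≤ gf A * M := by
  classical
  choose! f hf g hg hfg using h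
  let ψ : S → (Σ a : A, Q a) := fun t => ⟨⟨f t, hf t t.2⟩, ⟨g t, hg t t.2⟩⟩
  have hψ : Function.Injective ψ := by
    intro a b hab
    have h1 : (ψ a).1.1 = (ψ b).1.1 := by rw [hab]
    have h2 : (ψ a).2.1 = (ψ b).2.1 := by rw [hab]
    apply Subtype.ext
    rw [hfg a a.2, hfg b b.2]
    show (ψ a).2.1 ++ (ψ a).1.1 = (ψ b).2.1 ++ (ψ b).1.1
    exact congrArg₂ (fun x y : List Bool => x ++ y) h2 h1
  calc gf S = ∑' t : S, wE (ψ t).1 * wE (ψ t).2 := by
        unfold gf
        apply tsum_congr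
        intro t
        rw [mul_comm, ← wE_append]
        show wE t = wE (g t ++ f t)
        rw [← hfg t t.2]
    _ ≤ ∑' p : (Σ a : A, Q a), wE p.1 * wE p.2 :=
        ENNReal.tsum_comp_le_tsum_of_injective hψ (fun p : (Σ a : A, Q a) => wE p.1 * wE p.2)
    _ = ∑' a : A, ∑' c : Q a, wE a * wE c := ENNReal.tsum_sigma (fun (a : A) (c : Q a) => wE a * wE c)
    _ = ∑' a : A, wE a * gf (Q a) := by
        apply tsum_congr
        intro a
        rw [ENNReal.tsum_mul_left]
        rfl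
    _ ≤ ∑' a : A, wE a * M := ENNReal.tsum_le_tsum fun a => mul_le_mul' le_rfl (hM a a.2)
    _ = gf A * M := ENNReal.tsum_mul_right

/-- the number of the elements of X is at most the number of the possible heights. -/
lemma card_le_sum (X : Set ℕ) (e : ℕ) (P : ℕ → Prop) (f : ℕ → ℕ) (hf : ∀ s ∈ X, f s ≤ e ∧ P (f s))
    (hi : ∀ s ∈ X, ∀ s' ∈ X, s < s' → f s ≠ f s') [DecidablePred P] :
    (X.ncard : ℝ≥0∞) ≤ ∑ j ∈ range (e + 1), if P j then 1 else 0 := by
  have h1 : X.ncard ≤ ((range (e + 1)).filter P : Finset ℕ).card := by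
    rw [← Set.ncard_coe_finset]
    apply Set.ncard_le_ncard_of_injOn f _ _ (Finset.finite_toSet _)
    · intro s hs
      obtain ⟨h2, h3⟩ := hf s hs
      rw [Finset.mem_coe, Finset.mem_filter, Finset.mem_range]
      exact ⟨by omega, h3⟩
    · intro s hs s' hs' heq
      rcases lt_trichotomy s s' with h2 | h2 | h2
      · exact absurd heq (hi s hs s' hs' h2)
      · exact h2
      · exact absurd heq.symm (hi s' hs' s hs h2)
  calc (X.ncard : ℝ≥0∞) ≤ (((range (e + 1)).filter P).card : ℝ≥0∞) := by exact_mod_cast h1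
    _ = ∑ j ∈ range (e + 1), if P j then 1 else 0 := by
        rw [Finset.card_filter]
        push_cast
        rfl

/-- the sum with two factors. -/
lemma mom_abs (e : ℕ) (S : Set (List Bool)) (X Y : List Bool → Set ℕ) (P Q : ℕ → Set (List Bool)) (V M : ℝ≥0∞)
    (p : ℕ → ℝ≥0∞) (hV : V = ∑ j ∈ range (e + 1), p j) (hV0 : V ≠ 0) (hVt : V ≠ ∞)
    (fX : ∀ b ∈ S, ∃ f : ℕ → ℕ, (∀ s ∈ X b, f s ≤ e ∧ b ∈ P (f s)) ∧ ∀ s ∈ X b, ∀ s' ∈ X b, s < s' → f s ≠ f s')
    (fY : ∀ b ∈ S, ∃ f : ℕ → ℕ, (∀ s ∈ Y b, f s ≤ e ∧ b ∈ Q (f s)) ∧ ∀ s ∈ Y b, ∀ s' ∈ Y b, s < s' → f s ≠ f s')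
    (h0 : gf S ≤ M) (h1 : ∀ j, j ≤ e → gf (S ∩ P j) ≤ p j * M) (h2 : ∀ j, j ≤ e → gf (S ∩ Q j) ≤ p j * M)
    (h3 : ∀ j j', j ≤ e → j' ≤ e → gf (S ∩ (P j ∩ Q j')) ≤ p j * (p j' * M)) :
    ∑' b : S, wE b * ((1 + (X b).ncard / V) * (1 + (Y b).ncard / V)) ≤ 4 * M := by
  classical
  obtain ⟨v, hv⟩ : ∃ v, v = V⁻¹ := ⟨_, rfl⟩
  have hvV : v * V = 1 := by rw [hv]; exact ENNReal.inv_mul_cancel hV0 hVt
  have key : ∀ b ∈ S, wE b * ((1 + (X b).ncard / V) * (1 + (Y b).ncard / V)) ≤
      S.indicator wE b + (v * ∑ j ∈ range (e + 1), (S ∩ P j).indicator wE b +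
      (v * ∑ j ∈ range (e + 1), (S ∩ Q j).indicator wE b +
      v * (v * ∑ j ∈ range (e + 1), ∑ j' ∈ range (e + 1), (S ∩ (P j ∩ Q j')).indicator wE b))) := by
    intro b hb
    obtain ⟨f, f1, f2⟩ := fX b hb
    obtain ⟨g, g1, g2⟩ := fY b hb
    have a1 := card_le_sum (X b) e (fun j => b ∈ P j) f f1 f2
    have a2 := card_le_sum (Y b) e (fun j => b ∈ Q j) g g1 g2
    have b1 : S.indicator wE b = wE b := Set.indicator_of_mem hb wE
    have b2 : ∑ j ∈ range (e + 1), (S ∩ P j).indicator wE b =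
        wE b * ∑ j ∈ range (e + 1), if b ∈ P j then 1 else 0 := by
      rw [Finset.mul_sum]
      apply Finset.sum_congr rfl
      intro j _
      by_cases h : b ∈ P j
      · rw [Set.indicator_of_mem (Set.mem_inter hb h), if_pos h, mul_one]
      · rw [Set.indicator_of_notMem (fun h' => h h'.2), if_neg h, mul_zero]
    have b3 : ∑ j ∈ range (e + 1), (S ∩ Q j).indicator wE b =
        wE b * ∑ j ∈ range (e + 1), if b ∈ Q j then 1 else 0 := by
      rw [Finset.mul_sum]
      apply Finset.sum_congr rfl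
      intro j _
      by_cases h : b ∈ Q j
      · rw [Set.indicator_of_mem (Set.mem_inter hb h), if_pos h, mul_one]
      · rw [Set.indicator_of_notMem (fun h' => h h'.2), if_neg h, mul_zero]
    have b4 : ∑ j ∈ range (e + 1), ∑ j' ∈ range (e + 1), (S ∩ (P j ∩ Q j')).indicator wE b =
        wE b * ((∑ j ∈ range (e + 1), if b ∈ P j then 1 else 0) * ∑ j ∈ range (e + 1), if b ∈ Q j then 1 else 0) := by
      rw [Finset.sum_mul_sum, Finset.mul_sum]
      apply Finset.sum_congr rfl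
      intro j _
      rw [Finset.mul_sum]
      apply Finset.sum_congr rfl
      intro j' _
      by_cases h : b ∈ P j
      · by_cases h' : b ∈ Q j'
        · rw [Set.indicator_of_mem (Set.mem_inter hb (Set.mem_inter h h')), if_pos h, if_pos h', mul_one, mul_one]
        · rw [Set.indicator_of_notMem (fun h'' => h' h''.2.2), if_neg h', mul_zero, mul_zero]
      · rw [Set.indicator_of_notMem (fun h'' => h h''.2.1), if_neg h, zero_mul, mul_zero]
    rw [b1, b2, b3, b4]
    obtain ⟨x, hx⟩ : ∃ x, x = ∑ j ∈ range (e + 1), (if b ∈ P j then (1 : ℝ≥0∞) else 0) := ⟨_, rfl⟩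
    obtain ⟨y, hy⟩ : ∃ y, y = ∑ j ∈ range (e + 1), (if b ∈ Q j then (1 : ℝ≥0∞) else 0) := ⟨_, rfl⟩
    rw [← hx] at a1 ⊢
    rw [← hy] at a2 ⊢
    calc wE b * ((1 + (X b).ncard / V) * (1 + (Y b).ncard / V)) ≤ wE b * ((1 + x * v) * (1 + y * v)) := by
          rw [div_eq_mul_inv, div_eq_mul_inv, ← hv]
          exact mul_le_mul' le_rfl (mul_le_mul' (add_le_add le_rfl (mul_le_mul' a1 le_rfl))
            (add_le_add le_rfl (mul_le_mul' a2 le_rfl)))
      _ = _ := by ring
  have e1 : ∑' b : S, wE b * ((1 + (X b).ncard / V) * (1 + (Y b).ncard / V)) ≤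
      ∑' b : List Bool, (S.indicator wE b + (v * ∑ j ∈ range (e + 1), (S ∩ P j).indicator wE b +
      (v * ∑ j ∈ range (e + 1), (S ∩ Q j).indicator wE b +
      v * (v * ∑ j ∈ range (e + 1), ∑ j' ∈ range (e + 1), (S ∩ (P j ∩ Q j')).indicator wE b)))) := by
    refine (ENNReal.tsum_le_tsum fun b : S => key b b.2).trans ?_
    exact ENNReal.tsum_comp_le_tsum_of_injective Subtype.val_injective _
  refine e1.trans ?_
  rw [ENNReal.tsum_add, ENNReal.tsum_add, ENNReal.tsum_add, ENNReal.tsum_mul_left, ENNReal.tsum_mul_left,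
    ENNReal.tsum_mul_left, ENNReal.tsum_mul_left, ← gf_ind]
  have e2 : ∑' b : List Bool, ∑ j ∈ range (e + 1), (S ∩ P j).indicator wE b ≤ V * M := by
    rw [Summable.tsum_finsetSum (fun _ _ => ENNReal.summable), hV, Finset.sum_mul]
    apply Finset.sum_le_sum
    intro j hj
    rw [← gf_ind]
    exact h1 j (by rw [Finset.mem_range] at hj; omega)
  have e3 : ∑' b : List Bool, ∑ j ∈ range (e + 1), (S ∩ Q j).indicator wE b ≤ V * M := by
    rw [Summable.tsum_finsetSum (fun _ _ => ENNReal.summable), hV, Finset.sum_mul]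
    apply Finset.sum_le_sum
    intro j hj
    rw [← gf_ind]
    exact h2 j (by rw [Finset.mem_range] at hj; omega)
  have e4 : ∑' b : List Bool, ∑ j ∈ range (e + 1), ∑ j' ∈ range (e + 1), (S ∩ (P j ∩ Q j')).indicator wE b ≤
      V * (V * M) := by
    rw [Summable.tsum_finsetSum (fun _ _ => ENNReal.summable)]
    conv_rhs => rw [hV, Finset.sum_mul]
    apply Finset.sum_le_sum
    intro j hj
    rw [Summable.tsum_finsetSum (fun _ _ => ENNReal.summable), Finset.sum_mul, Finset.mul_sum]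
    apply Finset.sum_le_sum
    intro j' hj'
    rw [← gf_ind]
    rw [Finset.mem_range] at hj hj'
    exact h3 j j' (by omega) (by omega)
  calc _ ≤ M + (v * (V * M) + (v * (V * M) + v * (v * (V * (V * M))))) :=
        add_le_add h0 (add_le_add (mul_le_mul' le_rfl e2) (add_le_add (mul_le_mul' le_rfl e3)
          (mul_le_mul' le_rfl (mul_le_mul' le_rfl e4))))
    _ = M + ((v * V) * M + ((v * V) * M + (v * V) * ((v * V) * M))) := by ring
    _ = 4 * M := by
        rw [hvV]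
        ring


/-! geometry of a piece after a prefix -/

lemma oo_add' (p : Pt) : oo + p = p := zero_add p

lemma sub_oo' (p : Pt) : p - oo = p := sub_zero p

/-- a walk in another direction. -/
lemma vx_rot {u : Pt} (v : Pt) (t : List Bool) (i : ℕ) : vx v (mulE u up) t i = v + mulE u (vx oo up t i) := by
  rw [vx_mulE u oo v up t i, sub_oo']

lemma ip_rot {u : Pt} (hu : nrm u = 1) (t : List Bool) (i : ℕ) : ip (mulE u (vx oo up t i)) (mulE u up) = lev t i := by
  rw [ip_mulE, hu, one_mul]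
  rfl

/-- the second part of a concatenation in the direction d. -/
lemma vx_cat2 {a t : List Bool} {u : Pt} (ha : dx up a a.length = mulE u up) (i : ℕ) :
    vx oo up (a ++ t) (a.length + i) = vx oo up a a.length + mulE u (vx oo up t i) := by
  have h1 : vx oo up (a ++ t) (a.length + i) =
      vx (vx oo up (a ++ t) a.length) (dx up (a ++ t) a.length) t i := by
    unfold vx dx
    rw [vs_shift]
    apply vs_congr
    intro k _
    exact tf_append_right k
  have e1 : vx oo up (a ++ t) a.length = vx oo up a a.length := vx_append (by omega)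
  have e2 : dx up (a ++ t) a.length = mulE u up := (dx_append le_rfl).trans ha
  rw [h1, e1, e2, vx_rot]

lemma dx_cat2 {a t : List Bool} {u : Pt} (ha : dx up a a.length = mulE u up) (i : ℕ) :
    dx up (a ++ t) (a.length + i) = mulE u (dx up t i) := by
  have h1 : dx up (a ++ t) (a.length + i) = dx (dx up (a ++ t) a.length) t i := by
    unfold dx
    rw [ds_shift]
    apply ds_congr
    intro k _
    exact tf_append_right k
  rw [h1, dx_append le_rfl, ha, dx_mulE]

/-! bridges -/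

lemma BT_fin (T : ℕ) : BT T ≠ ⊤ := by
  rcases Nat.eq_zero_or_pos T with h | h
  · rw [h, ← gf_Brd, Brd_zero]
    have : gf ({[]} : Set (List Bool)) = 1 := by
      unfold gf
      rw [tsum_singleton (f := wE)]
      unfold wE
      simp
    rw [this]
    exact ENNReal.one_ne_top
  · exact BT_ne_top h

lemma gf_Brd_uu (T : ℕ) : gf (Brd T) = ENNReal.ofReal (uu T) := by
  rw [gf_Brd]
  unfold uu
  rw [ENNReal.ofReal_toReal (BT_fin T)]

lemma V_sum (e : ℕ) : ENNReal.ofReal (UU e) = ∑ j ∈ range (e + 1), gf (Brd j) := by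
  unfold UU
  rw [ENNReal.ofReal_sum_of_nonneg fun j _ => (uu_pos j).le]
  apply Finset.sum_congr rfl
  intro j _
  rw [gf_Brd_uu]

lemma UU_pos' (T : ℕ) : 0 < UU T := by
  unfold UU
  apply Finset.sum_pos (fun j _ => uu_pos j)
  exact ⟨0, by simp⟩

/-- words with a cut at the height j. -/
def PB (j : ℕ) : Set (List Bool) := {b | ∃ a ∈ Brd j, ∃ c, (∃ k, c ∈ Brd k) ∧ b = a ++ c}

/-- words with a cut at the height j below the top. -/
def QB (j : ℕ) : Set (List Bool) := {b | ∃ a ∈ Brd j, ∃ c, (∃ k, c ∈ Brd k) ∧ b = c ++ a}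

lemma fB_X (e : ℕ) (b : List Bool) : ∃ f : ℕ → ℕ, (∀ s ∈ BB e b, f s ≤ e ∧ b ∈ PB (f s)) ∧
    ∀ s ∈ BB e b, ∀ s' ∈ BB e b, s < s' → f s ≠ f s' := by
  have h : ∀ s ∈ BB e b, ∃ j, j ≤ e ∧ b.take s ∈ Brd j := fun s hs => hs.2.1
  choose! f h1 h2 using h
  refine ⟨f, fun s hs => ⟨h1 s hs, b.take s, h2 s hs, b.drop s, hs.2.2, (List.take_append_drop s b).symm⟩, ?_⟩
  intro s hs s' hs' hlt heq
  obtain ⟨k, hk⟩ := hs.2.2
  obtain ⟨k', hk'⟩ := hs'.2.2
  have h3 := h2 s hs
  rw [heq] at h3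
  have h4 := (cut_unique h3 (h2 s' hs') hk hk' (by rw [List.take_append_drop, List.take_append_drop])).1
  have h5 := congrArg List.length h4
  rw [List.length_take, List.length_take] at h5
  have h6 := hs.1
  have h7 := hs'.1
  omega

lemma fB_Y (e : ℕ) (b : List Bool) : ∃ f : ℕ → ℕ, (∀ s ∈ BA e b, f s ≤ e ∧ b ∈ QB (f s)) ∧
    ∀ s ∈ BA e b, ∀ s' ∈ BA e b, s < s' → f s ≠ f s' := by
  have h : ∀ s ∈ BA e b, ∃ j, j ≤ e ∧ b.drop s ∈ Brd j := fun s hs => hs.2.2
  choose! f h1 h2 using h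
  refine ⟨f, fun s hs => ⟨h1 s hs, b.drop s, h2 s hs, b.take s, hs.2.1, (List.take_append_drop s b).symm⟩, ?_⟩
  intro s hs s' hs' hlt heq
  obtain ⟨k, hk⟩ := hs.2.1
  obtain ⟨k', hk'⟩ := hs'.2.1
  have h3 := h2 s hs
  have h3' := h2 s' hs'
  rw [heq] at h3
  have b1 := Brd_append hk h3
  have b2 := Brd_append hk' h3'
  rw [List.take_append_drop] at b1 b2
  have b3 := Brd_height b1 b2
  have b4 : k = k' := by omega
  rw [b4] at hk
  have h4 := (cut_unique hk hk' h3 h3' (by rw [List.take_append_drop, List.take_append_drop])).1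
  have h5 := congrArg List.length h4
  rw [List.length_take, List.length_take] at h5
  have h6 := hs.1
  have h7 := hs'.1
  omega

lemma brd_dx {j : ℕ} {a : List Bool} (ha : a ∈ Brd j) : dx up a a.length = up := (mem_Brd.1 ha).2.2.1

/-- the bound for the bridges. -/
lemma mom_Br {e t : ℕ} (he : 1 ≤ e) (ht : 4 * e ≤ t) (X : Set ℤ) {M : ℝ≥0∞}
    (hM : ∀ h, e ≤ h → ∀ y : ℤ, gf {b | b ∈ Brd h ∧ y + latE b ∈ X} ≤ M) :
    ∑' b : {b | b ∈ Brd t ∧ latE b ∈ X}, wE b * fB e b ≤ 4 * M := by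
  unfold fB
  apply mom_abs e {b | b ∈ Brd t ∧ latE b ∈ X} (BB e) (BA e) PB QB (ENNReal.ofReal (UU e)) M (fun j => gf (Brd j))
    (V_sum e) (ENNReal.ofReal_pos.2 (UU_pos' e)).ne' ENNReal.ofReal_ne_top (fun b _ => fB_X e b) (fun b _ => fB_Y e b)
  · have := hM t (by omega) 0
    simp only [zero_add] at this
    exact this
  · intro j hj
    apply pre_le (Q := fun a => {c | c ∈ Brd (t - j) ∧ latE a + latE c ∈ X})
    · rintro b ⟨⟨h1, h2⟩, a, ha, c, ⟨k, hk⟩, rfl⟩
      have h3 := Brd_height h1 (Brd_append ha hk)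
      refine ⟨a, ha, c, ⟨?_, ?_⟩, rfl⟩
      · rw [show t - j = k by omega]
        exact hk
      · rw [← latE_cat (brd_dx ha)]
        exact h2
    · intro a _
      exact hM _ (by omega) _
  · intro j hj
    apply suf_le (Q := fun a => {c | c ∈ Brd (t - j) ∧ latE a + latE c ∈ X})
    · rintro b ⟨⟨h1, h2⟩, a, ha, c, ⟨k, hk⟩, rfl⟩
      have h3 := Brd_height h1 (Brd_append hk ha)
      refine ⟨a, ha, c, ⟨?_, ?_⟩, rfl⟩
      · rw [show t - j = k by omega]
        exact hk
      · rw [add_comm, ← latE_cat (brd_dx hk)]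
        exact h2
    · intro a _
      exact hM _ (by omega) _
  · intro j j' hj hj'
    apply pre_le (Q := fun a => {c | ∃ a' ∈ Brd j', ∃ v, (v ∈ Brd (t - j - j') ∧ (latE a + latE a') + latE v ∈ X) ∧
      c = v ++ a'})
    · rintro b ⟨⟨h1, h2⟩, ⟨a, ha, c, ⟨k, hk⟩, hb⟩, ⟨a', ha', c', ⟨k', hk'⟩, hb'⟩⟩
      have h3 := h1
      rw [hb] at h3
      have h4 := Brd_height h3 (Brd_append ha hk)
      have h5 := h1
      rw [hb'] at h5
      have h6 := Brd_height h5 (Brd_append hk' ha')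
      obtain ⟨v, hv, e1, e2⟩ := cut_nested ha hk' hk ha' (by omega) (hb.symm.trans hb')
      refine ⟨a, ha, c, ⟨a', ha', v, ⟨?_, ?_⟩, e2⟩, hb⟩
      · rw [show t - j - j' = k' - j by omega]
        exact hv
      · rw [hb, e2, latE_cat (brd_dx ha), latE_cat (brd_dx hv)] at h2
        rw [show latE a + latE a' + latE v = latE a + (latE v + latE a') by ring]
        exact h2
    · intro a _
      apply suf_le (Q := fun a' => {v | v ∈ Brd (t - j - j') ∧ (latE a + latE a') + latE v ∈ X})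
      · rintro c ⟨a', ha', v, hv, rfl⟩
        exact ⟨a', ha', v, hv, rfl⟩
      · intro a' _
        exact hM _ (by omega) _


lemma sum_fam {ι : Type} (B : ι → Set (List Bool)) (g : List Bool → ℝ≥0∞)
    (hB : ∀ i i' b, b ∈ B i → b ∈ B i' → i = i') {W : Set (List Bool)} (hW : ∀ i, B i ⊆ W) :
    ∑' i, ∑' b : B i, g b ≤ ∑' b : W, g b := by
  let ψ : (Σ i : ι, B i) → W := fun p => ⟨p.2.1, hW p.1 p.2.2⟩
  have hψ : Function.Injective ψ := by
    rintro ⟨i, b, hb⟩ ⟨i', b', hb'⟩ h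
    have h1 : b = b' := congrArg Subtype.val h
    subst h1
    have h2 := hB i i' b hb hb'
    subst h2
    rfl
  calc ∑' i, ∑' b : B i, g b = ∑' p : (Σ i : ι, B i), g p.2.1 :=
        (ENNReal.tsum_sigma (fun (i : ι) (b : B i) => g b)).symm
    _ = ∑' p : (Σ i : ι, B i), (fun b : W => g b) (ψ p) := rfl
    _ ≤ ∑' b : W, g b := ENNReal.tsum_comp_le_tsum_of_injective hψ (fun b : W => g b)

lemma dirs3 {d : Pt} (hd : d = e0 ∨ d = e1 ∨ d = e2) : d ∈ dirs := by
  rcases hd with rfl | rfl | rfl <;> decide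

lemma BP_facts {K e : ℕ} {d m n : Pt} {b : List Bool} (hd : d ∈ dirs) (h : BP K e d m n b) :
    ∃ t, 4 * e ≤ t ∧ t ≤ 6 * e ∧ b ∈ Brd t ∧ (3 * t : ℤ) = ip n d - ip m d := by
  obtain ⟨hm, hn, ⟨t, ht⟩, hv, _⟩ := h
  have hu := nrm_rotTo upd hd
  have ha := rotTo_apply d upd
  obtain ⟨u, hu'⟩ : ∃ u, u = rotTo up d := ⟨_, rfl⟩
  rw [← hu'] at hu ha
  have h1 : ip n d = ip m d + 3 * t := by
    rw [← hv, ← ha, vx_rot, ip_add_left, ip_rot hu, (mem_Brd.1 ht).2.2.2]
  obtain ⟨_, m1, m2, _⟩ := hm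
  obtain ⟨_, n1, n2, _⟩ := hn
  exact ⟨t, by omega, by omega, ht, by omega⟩

/-- the end of the walk in the direction d. -/
lemma end_eq {d m n : Pt} {b : List Bool} (h : vx m d b b.length = n) :
    n = m + mulE (rotTo up d) (vx oo up b b.length) := by
  rw [← h, ← vx_rot, rotTo_apply d upd]

end Moments

open Moments in
/-- P13 (Moments.lean). -/
theorem mom_B : ∃ C : ℝ, 0 < C ∧ ∀ (K e : ℕ) (m n : Pt), 1 ≤ e →
    GB K e (fB e) e0 m n ≤ ENNReal.ofReal (C * (uu e / e)) := by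
  obtain ⟨C, hC, hA⟩ := anti_end
  refine ⟨4 * C, by positivity, fun K e m n he => ?_⟩
  have he' : (0 : ℝ) < e := by exact_mod_cast he
  unfold GB
  by_cases hne : ∃ b, BP K e e0 m n b
  · obtain ⟨b0, hb0⟩ := hne
    have hd : e0 ∈ dirs := dirs3 (Or.inl rfl)
    obtain ⟨t, t1, t2, t3, t4⟩ := BP_facts hd hb0
    have h1 : {b | BP K e e0 m n b} ⊆ {b | b ∈ Brd t ∧ latE b ∈ ({latE b0} : Set ℤ)} := by
      intro b hb
      obtain ⟨t', _, _, h3, h4⟩ := BP_facts hd hb
      have h5 : t' = t := by omega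
      refine ⟨h5 ▸ h3, ?_⟩
      have h6 := end_eq hb.2.2.2.1
      have h7 := end_eq hb0.2.2.2.1
      have h8 := mulE_inj (nrm_rotTo upd hd) (add_left_cancel (h6.symm.trans h7))
      rw [Set.mem_singleton_iff]
      unfold latE lat
      rw [h8]
    refine (ENNReal.tsum_mono_subtype (fun b => wE b * fB e b) h1).trans ?_
    have h2 := mom_Br he t1 ({latE b0} : Set ℤ) (M := ENNReal.ofReal (C * (uu e / e))) ?_
    · refine h2.trans (le_of_eq ?_)
      rw [show (4 * C) * (uu e / e) = 4 * (C * (uu e / e)) by ring, ENNReal.ofReal_mul (p := 4) (by norm_num),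
        ENNReal.ofReal_ofNat]
    · intro h hh y
      have e1 : {b | b ∈ Brd h ∧ y + latE b ∈ ({latE b0} : Set ℤ)} ⊆ {b | b ∈ Brd h ∧ latE b = latE b0 - y} := by
        rintro b ⟨b1, b2⟩
        rw [Set.mem_singleton_iff] at b2
        exact ⟨b1, by omega⟩
      refine (gf_mono e1).trans ((hA h (by omega) _).trans (ENNReal.ofReal_le_ofReal ?_))
      apply mul_le_mul_of_nonneg_left _ hC.le
      have e2 : (e : ℝ) ≤ h := by exact_mod_cast hh
      exact div_le_div₀ (uu_pos e).le (uu_anti hh) he' e2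
  · have : IsEmpty {b : List Bool // BP K e e0 m n b} := ⟨fun b => hne ⟨b.1, b.2⟩⟩
    rw [tsum_empty]
    exact bot_le

open Moments in
theorem mom_Bsum (d : Pt) (hd : d = e0 ∨ d = e1 ∨ d = e2) : ∃ C : ℝ, 0 < C ∧ ∀ (K e : ℕ) (m : Pt), 1 ≤ e →
    ∑' n : Pt, GB K e (fB e) d m n ≤ ENNReal.ofReal (C * (e * uu e)) := by
  have hd' := dirs3 hd
  refine ⟨12, by norm_num, fun K e m he => ?_⟩
  have he' : (1 : ℝ) ≤ e := by exact_mod_cast he
  unfold GB
  have h1 : ∑' n : Pt, ∑' b : {b | BP K e d m n b}, wE b.1 * fB e b.1 ≤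
      ∑' b : (⋃ t ∈ Finset.Icc (4 * e) (6 * e), {b | b ∈ Brd t ∧ latE b ∈ (Set.univ : Set ℤ)} : Set (List Bool)),
        wE b.1 * fB e b.1 := by
    apply sum_fam (fun n => {b | BP K e d m n b}) (fun b => wE b * fB e b)
    · intro n n' b hb hb'
      exact hb.2.2.2.1.symm.trans hb'.2.2.2.1
    · intro n b hb
      obtain ⟨t, t1, t2, t3, t4⟩ := BP_facts hd' hb
      simp only [Set.mem_iUnion]
      exact ⟨t, Finset.mem_Icc.2 ⟨t1, t2⟩, t3, Set.mem_univ _⟩
  refine h1.trans ((ENNReal.tsum_biUnion_le (fun b => wE b * fB e b) (Finset.Icc (4 * e) (6 * e)) _).trans ?_)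
  have h2 : ∀ t ∈ Finset.Icc (4 * e) (6 * e), ∑' b : {b | b ∈ Brd t ∧ latE b ∈ (Set.univ : Set ℤ)}, wE b * fB e b ≤
      4 * ENNReal.ofReal (uu e) := by
    intro t ht
    apply mom_Br he (Finset.mem_Icc.1 ht).1
    intro h hh y
    refine (gf_mono (Q := Brd h) fun b hb => hb.1).trans ?_
    rw [gf_Brd_uu]
    exact ENNReal.ofReal_le_ofReal (uu_anti hh)
  refine (Finset.sum_le_sum h2).trans ?_
  rw [Finset.sum_const, nsmul_eq_mul, Nat.card_Icc]
  have h3 : (((6 * e + 1 - 4 * e : ℕ) : ℝ≥0∞)) * (4 * ENNReal.ofReal (uu e)) =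
      ENNReal.ofReal (((6 * e + 1 - 4 * e : ℕ) : ℝ) * (4 * uu e)) := by
    rw [ENNReal.ofReal_mul (Nat.cast_nonneg _), ENNReal.ofReal_natCast, ENNReal.ofReal_mul (p := 4) (by norm_num),
      ENNReal.ofReal_ofNat]
  rw [h3]
  apply ENNReal.ofReal_le_ofReal
  have h4 : ((6 * e + 1 - 4 * e : ℕ) : ℝ) ≤ 3 * e := by
    have : 6 * e + 1 - 4 * e ≤ 3 * e := by omega
    exact_mod_cast this
  have h5 := (uu_pos e).le
  calc ((6 * e + 1 - 4 * e : ℕ) : ℝ) * (4 * uu e) ≤ 3 * e * (4 * uu e) :=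
        mul_le_mul_of_nonneg_right h4 (by positivity)
    _ = 12 * (e * uu e) := by ring

namespace Moments

/-! wedge walks -/

/-- the direction of the gate. -/
def gg' : Pt := rotR (rotR up)

/-- the distance of the vertex number i in the direction of the gate. -/
def dg (t : List Bool) (i : ℕ) : ℤ := ip (vx oo up t i) gg'

/-- the intrinsic form of the wedge walks. -/
structure IsG (T L : ℕ) (R : ℤ) (c : List Bool) : Prop where
  l : ∀ i, 1 ≤ i → i ≤ c.length → 0 < lev c i ∧ lev c i < 3 * T + 2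
  m : ∀ i, 1 ≤ i → i ≤ c.length → ip (vx oo up c i) (rotL up) < 3 * L
  g : ∀ i, 1 ≤ i → i ≤ c.length → dg c i < 3 * R - 1
  inj : ∀ i k, i < k → k ≤ c.length → vx oo up c i ≠ vx oo up c k
  d : dx up c c.length = gg'
  e : dg c c.length = 3 * R - 3

lemma ip_gg : ip gg' gg' = 2 := by decide

lemma mem_gE {T L r : ℕ} (hT : 1 ≤ T) (hL : 1 ≤ L) (hr : 1 ≤ r) {c : List Bool} :
    c ∈ Tube.gE upd oo true T L r ↔ IsG T L r c := by
  have htip : ip (tip oo up c) gg' = dg c c.length + ip (dx up c c.length) gg' := by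
    rw [tip_eq, ip_add_left]
    rfl
  have hmem : ∀ v : Pt, v ∈ Tube.dF upd oo true T L r ↔
      (IsHex oo up v ∧ 0 < ip v up ∧ ip v up < 3 * T + 2) ∧ ip v (rotL up) < 3 * L ∧ ip v gg' < 3 * r - 1 := by
    intro v
    rw [Tube.mem_dF]
    show (IsHex oo up v ∧ 0 < ip (v - oo) up ∧ ip (v - oo) up < 3 * T + 2) ∧ ip (v - oo) (rotL up) < 3 * L ∧
      ip (v - oo) gg' < 3 * r - 1 ↔ _
    rw [sub_oo']
  unfold Tube.gE
  rw [Finset.mem_filter]
  constructor
  · rintro ⟨h1, h2⟩
    obtain ⟨ha, ho⟩ := mem_exits.1 h1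
    have h2' : dx up c c.length = gg' := h2
    have he : ip (tip oo up c) gg' = 3 * r - 1 := by
      obtain ⟨⟨a1, a2, a3, a4, a5⟩, ⟨b1, b2, b3, b4⟩, ⟨c1, c2, c3⟩, ⟨e1, e2⟩, f1⟩ := dirs_distinct up upd
      rcases Tube.dm_exit upd true hT hL hr h1 with ⟨hd, _⟩ | ⟨hd, _⟩ | ⟨hd, _⟩ | ⟨_, hi⟩
      · exact absurd (h2'.symm.trans hd) (by decide)
      · exact absurd (h2'.symm.trans hd) (by decide)
      · exact absurd (h2'.symm.trans hd) (by decide)
      · rw [sub_oo'] at hi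
        exact hi
    refine ⟨?_, ?_, ?_, ha.inj, h2', ?_⟩
    · intro i hi hl
      exact ((hmem _).1 (ha.mem i hi hl)).1.2
    · intro i hi hl
      exact ((hmem _).1 (ha.mem i hi hl)).2.1
    · intro i hi hl
      exact ((hmem _).1 (ha.mem i hi hl)).2.2
    · rw [htip, h2', ip_gg] at he
      omega
  · intro h
    refine ⟨mem_exits.2 ⟨⟨?_, h.inj⟩, ?_⟩, h.d⟩
    · intro i hi hl
      exact (hmem _).2 ⟨⟨vx_hex oo up c i, h.l i hi hl⟩, h.m i hi hl, h.g i hi hl⟩
    · intro h1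
      have h2 := ((hmem _).1 h1).2.2
      rw [htip, h.d, ip_gg, h.e] at h2
      omega

lemma gE_monoL {T L L' r : ℕ} (hT : 1 ≤ T) (hL : 1 ≤ L) (hr : 1 ≤ r) (h : L ≤ L') {c : List Bool}
    (hc : c ∈ Tube.gE upd oo true T L r) : c ∈ Tube.gE upd oo true T L' r := by
  rw [mem_gE hT hL hr] at hc
  rw [mem_gE hT (hL.trans h) hr]
  have h1 : (L : ℤ) ≤ L' := by exact_mod_cast h
  refine ⟨hc.l, fun i hi hl => ?_, hc.g, hc.inj, hc.d, hc.e⟩
  have := hc.m i hi hl
  omega

/-- the bound for the wedge walks with any L. -/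
lemma gf_anyL {T r : ℕ} (hT : 1 ≤ T) (hr : T ≤ 2 * r) {M : ℝ≥0∞}
    (hM : ∀ L, 1 ≤ L → gf {c | c ∈ Tube.gE (show up ∈ dirs by decide) oo true T L r} ≤ M) :
    gf {c | ∃ L, 1 ≤ L ∧ c ∈ Tube.gE upd oo true T L r} ≤ M := by
  apply gf_le_of_mono_union (fun n => {c | c ∈ Tube.gE upd oo true T (n + 1) r})
  · intro n n' h c hc
    exact gE_monoL hT (by omega) (by omega) (by omega) hc
  · rintro c ⟨L, hL, hc⟩
    rw [Set.mem_iUnion]
    refine ⟨L - 1, ?_⟩
    show c ∈ Tube.gE upd oo true T (L - 1 + 1) r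
    rw [show L - 1 + 1 = L by omega]
    exact hc
  · intro n
    exact hM (n + 1) (by omega)

lemma gg_mem : gg' ∈ dirs := by decide

lemma dg_append {s t : List Bool} {i : ℕ} (h : i ≤ s.length + 1) : dg (s ++ t) i = dg s i := by
  unfold dg
  rw [vx_append h]

lemma dg_cat {a c : List Bool} (ha : dx up a a.length = up) (i : ℕ) :
    dg (a ++ c) (a.length + i) = dg a a.length + dg c i := by
  unfold dg
  rw [vx_cat ha, ip_add_left]

lemma dg_cat2 {c a : List Bool} (hc : dx up c c.length = gg') (i : ℕ) :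
    dg (c ++ a) (c.length + i) = dg c c.length + lev a i := by
  have hu := nrm_rotTo upd gg_mem
  have ha := rotTo_apply gg' upd
  unfold dg
  rw [vx_cat2 (u := rotTo up gg') (hc.trans ha.symm), ip_add_left]
  congr 1
  have h1 := ip_rot hu a i
  rw [ha] at h1
  exact h1

/-- words with a cut at the height j. -/
def PC (T j : ℕ) : Set (List Bool) := {b | ∃ a ∈ Brd j, ∃ c ∈ WG T T, b = a ++ c}

/-- words with a cut at the height j before the end. -/
def QC (T j : ℕ) : Set (List Bool) := {b | ∃ a ∈ Brd j, ∃ c ∈ WG T T, b = c ++ a}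

lemma WG_is {T : ℕ} (hT : 1 ≤ T) {c : List Bool} (h : c ∈ WG T T) : ∃ r L : ℕ, T ≤ r ∧ 1 ≤ L ∧ IsG T L r c := by
  obtain ⟨r, L, h1, h2, h3⟩ := h
  exact ⟨r, L, h1, h2, (mem_gE hT h2 (by omega)).1 h3⟩

lemma fC_X {K e : ℕ} (hT : 1 ≤ K * e) (b : List Bool) : ∃ f : ℕ → ℕ,
    (∀ s ∈ CB K e b, f s ≤ e ∧ b ∈ PC (K * e) (f s)) ∧ ∀ s ∈ CB K e b, ∀ s' ∈ CB K e b, s < s' → f s ≠ f s' := by
  have h : ∀ s ∈ CB K e b, ∃ j, j ≤ e ∧ b.take s ∈ Brd j := fun s hs => hs.2.1
  choose! f h1 h2 using h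
  refine ⟨f, fun s hs => ⟨h1 s hs, b.take s, h2 s hs, b.drop s, hs.2.2, (List.take_append_drop s b).symm⟩, ?_⟩
  intro s hs s' hs' hlt heq
  obtain ⟨r, L, _, _, hG⟩ := WG_is hT hs.2.2
  have h3 := h2 s hs
  have h4 := h2 s' hs'
  rw [heq] at h3
  have hl : (b.take s).length = s := by rw [List.length_take]; exact min_eq_left hs.1
  have hl' : (b.take s').length = s' := by rw [List.length_take]; exact min_eq_left hs'.1
  have hld : (b.drop s).length = b.length - s := List.length_drop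
  have e1 : lev b s' = 3 * (f s' : ℤ) := by
    have a1 := (mem_Brd.1 h4).2.2.2
    rw [hl'] at a1
    have a2 : lev b s' = lev (b.take s' ++ b.drop s') s' := by rw [List.take_append_drop]
    rw [a2, lev_append (by omega)]
    exact a1
  have e2 : lev b s' = 3 * (f s' : ℤ) + lev (b.drop s) (s' - s) := by
    have a1 := lev_cat (t := b.drop s) (brd_dx h3) (s' - s)
    rw [List.take_append_drop, (mem_Brd.1 h3).2.2.2, hl, show s + (s' - s) = s' by omega] at a1
    exact a1
  have e3 := (hG.l (s' - s) (by omega) (by have := hs'.1; omega)).1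
  omega

lemma fC_Y {K e : ℕ} (hT : 1 ≤ K * e) (b : List Bool) : ∃ f : ℕ → ℕ,
    (∀ s ∈ CA K e b, f s ≤ e ∧ b ∈ QC (K * e) (f s)) ∧ ∀ s ∈ CA K e b, ∀ s' ∈ CA K e b, s < s' → f s ≠ f s' := by
  have h : ∀ s ∈ CA K e b, ∃ j, j ≤ e ∧ b.drop s ∈ Brd j := fun s hs => hs.2.2
  choose! f h1 h2 using h
  refine ⟨f, fun s hs => ⟨h1 s hs, b.drop s, h2 s hs, b.take s, hs.2.1, (List.take_append_drop s b).symm⟩, ?_⟩
  intro s hs s' hs' hlt heq
  obtain ⟨r, L, _, _, hG⟩ := WG_is hT hs.2.1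
  obtain ⟨r', L', _, _, hG'⟩ := WG_is hT hs'.2.1
  have h3 := h2 s hs
  have h4 := h2 s' hs'
  rw [heq] at h3
  have hl : (b.take s).length = s := by rw [List.length_take]; exact min_eq_left hs.1
  have hl' : (b.take s').length = s' := by rw [List.length_take]; exact min_eq_left hs'.1
  have hld : (b.drop s).length = b.length - s := List.length_drop
  have hld' : (b.drop s').length = b.length - s' := List.length_drop
  have hb := hs.1
  have hb' := hs'.1
  have e0 : dg (b.take s) s = dg b s := by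
    have a2 : dg b s = dg (b.take s ++ b.drop s) s := by rw [List.take_append_drop]
    rw [a2, dg_append (by omega)]
  have e0' : dg (b.take s') s' = dg b s' := by
    have a2 : dg b s' = dg (b.take s' ++ b.drop s') s' := by rw [List.take_append_drop]
    rw [a2, dg_append (by omega)]
  have e1 : dg b b.length = dg b s + 3 * (f s' : ℤ) := by
    have a1 := dg_cat2 (a := b.drop s) hG.d (b.drop s).length
    rw [List.take_append_drop, (mem_Brd.1 h3).2.2.2, hl, hld, show s + (b.length - s) = b.length by omega, e0] at a1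
    exact a1
  have e2 : dg b b.length = dg b s' + 3 * (f s' : ℤ) := by
    have a1 := dg_cat2 (a := b.drop s') hG'.d (b.drop s').length
    rw [List.take_append_drop, (mem_Brd.1 h4).2.2.2, hl', hld', show s' + (b.length - s') = b.length by omega,
      e0'] at a1
    exact a1
  have e3 : dg b s' = dg b s + lev (b.drop s) (s' - s) := by
    have a1 := dg_cat2 (a := b.drop s) hG.d (s' - s)
    rw [List.take_append_drop, hl, show s + (s' - s) = s' by omega, e0] at a1
    exact a1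
  have e4 := ((mem_Brd.1 h3).1 (s' - s) (by omega) (by omega)).1
  omega

/-- the wedge walks with a given distance and any L. -/
def Qr (T : ℕ) (ρ : ℤ) : Set (List Bool) :=
  {c | ∃ r L : ℕ, 1 ≤ L ∧ T ≤ 2 * r ∧ (3 * r : ℤ) = ρ ∧ c ∈ Tube.gE upd oo true T L r}

lemma gf_Qr {T : ℕ} (hT : 1 ≤ T) (ρ : ℤ) {M : ℝ≥0∞} (hM : ∀ r L, 1 ≤ L → T ≤ 2 * r →
    gf {c | c ∈ Tube.gE (show up ∈ dirs by decide) oo true T L r} ≤ M) : gf (Qr T ρ) ≤ M := by
  by_cases h : ∃ r : ℕ, T ≤ 2 * r ∧ (3 * r : ℤ) = ρ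
  · obtain ⟨r, h1, h2⟩ := h
    refine (gf_mono ?_).trans (gf_anyL hT h1 fun L hL => hM r L hL h1)
    rintro c ⟨r', L, h3, h4, h5, h6⟩
    have h7 : r' = r := by omega
    rw [h7] at h6
    exact ⟨L, h3, h6⟩
  · have h1 : Qr T ρ = ∅ := by
      ext c
      constructor
      · rintro ⟨r', L, h3, h4, h5, h6⟩
        exact absurd ⟨r', h4, h5⟩ h
      · intro h2
        exact absurd h2 (Set.notMem_empty c)
    rw [h1]
    unfold gf
    rw [tsum_empty]
    exact bot_le

/-- the bound for the wedge walks with a given gate. -/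
lemma mom_Cr {K e r L : ℕ} (he : 1 ≤ e) (hK : 4 ≤ K) (hr : K * e ≤ r) (hL : 1 ≤ L) {M : ℝ≥0∞}
    (hM : ∀ r L, 1 ≤ L → K * e ≤ 2 * r → gf {c | c ∈ Tube.gE (show up ∈ dirs by decide) oo true (K * e) L r} ≤ M) :
    ∑' c : {c | c ∈ Tube.gE upd oo true (K * e) L r}, wE c * fC K e c ≤ 4 * M := by
  have hTe : 4 * e ≤ K * e := Nat.mul_le_mul_right e hK
  obtain ⟨T, hTd⟩ : ∃ T, T = K * e := ⟨_, rfl⟩
  have hT : 1 ≤ T := by omega
  have hT' : 1 ≤ K * e := by omega
  unfold fC
  apply mom_abs e {c | c ∈ Tube.gE upd oo true (K * e) L r} (CB K e) (CA K e) (PC (K * e)) (QC (K * e))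
    (ENNReal.ofReal (UU e)) M (fun j => gf (Brd j)) (V_sum e) (ENNReal.ofReal_pos.2 (UU_pos' e)).ne'
    ENNReal.ofReal_ne_top (fun b _ => fC_X hT' b) (fun b _ => fC_Y hT' b)
  · exact hM r L hL (by omega)
  · rw [← hTd] at hM hr ⊢
    intro j hj
    apply pre_le (Q := fun a => Qr T (3 * r - dg a a.length))
    · rintro b ⟨h1, a, ha, c, hc, rfl⟩
      have hG := (mem_gE hT hL (by omega)).1 h1
      obtain ⟨r', L', h2, h3, hG'⟩ := WG_is hT hc
      refine ⟨a, ha, c, ⟨r', L', h3, by omega, ?_, (mem_gE hT h3 (by omega)).2 hG'⟩, rfl⟩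
      have h4 := dg_cat (c := c) (brd_dx ha) c.length
      have h5 := hG.e
      rw [List.length_append] at h5
      rw [h5, hG'.e] at h4
      linarith
    · intro a _
      exact gf_Qr hT _ hM
  · rw [← hTd] at hM hr ⊢
    intro j hj
    apply suf_le (Q := fun _ => Qr T (3 * r - 3 * j))
    · rintro b ⟨h1, a, ha, c, hc, rfl⟩
      have hG := (mem_gE hT hL (by omega)).1 h1
      obtain ⟨r', L', h2, h3, hG'⟩ := WG_is hT hc
      refine ⟨a, ha, c, ⟨r', L', h3, by omega, ?_, (mem_gE hT h3 (by omega)).2 hG'⟩, rfl⟩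
      have h4 := dg_cat2 (a := a) hG'.d a.length
      have h5 := hG.e
      rw [List.length_append] at h5
      rw [h5, hG'.e, (mem_Brd.1 ha).2.2.2] at h4
      linarith
    · intro a _
      exact gf_Qr hT _ hM
  · rw [← hTd] at hM hr ⊢
    intro j j' hj hj'
    apply pre_le (Q := fun s => {u | ∃ a ∈ Brd j', ∃ v ∈ Qr T (3 * r - dg s s.length - 3 * j'), u = v ++ a})
    · rintro b ⟨h1, ⟨s, hs, u, hu, hb⟩, ⟨a', ha', s', hs', hb'⟩⟩
      have hG := (mem_gE hT hL (by omega)).1 h1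
      obtain ⟨r₂, L₂, h2, h3, hG₂⟩ := WG_is hT hu
      obtain ⟨r', L', h4, h5, hG'⟩ := WG_is hT hs'
      have e1 : dg s s.length = 3 * r - 3 * r₂ := by
        have h6 := dg_cat (c := u) (brd_dx hs) u.length
        have h7 := hG.e
        rw [hb, List.length_append] at h7
        rw [h7, hG₂.e] at h6
        linarith
      have e2 : dg s' s'.length = 3 * r - 3 - 3 * j' := by
        have h6 := dg_cat2 (a := a') hG'.d a'.length
        have h7 := hG.e
        rw [hb', List.length_append] at h7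
        rw [h7, (mem_Brd.1 ha').2.2.2] at h6
        linarith
      rcases List.append_eq_append_iff.1 (hb.symm.trans hb') with ⟨v, k1, k2⟩ | ⟨w, k1, k2⟩
      · refine ⟨s, hs, u, ⟨a', ha', v, ?_, k2⟩, hb⟩
        have d1 : dx up v v.length = gg' := by
          have h6 := hG'.d
          rw [k1, List.length_append, dx_cat (brd_dx hs)] at h6
          exact h6
        have d2 : dg s' s'.length = dg s s.length + dg v v.length := by
          have h6 := dg_cat (c := v) (brd_dx hs) v.length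
          rw [← List.length_append, ← k1] at h6
          exact h6
        have d3 : dg s' s'.length = 3 * r' - 3 := hG'.e
        have hj2 : j' ≤ r₂ := by omega
        refine ⟨r₂ - j', L₂, h3, by omega, ?_, ?_⟩
        · rw [Nat.cast_sub hj2]
          linarith
        · rw [mem_gE hT h3 (by omega)]
          have hlen : v.length ≤ u.length := by
            rw [k2, List.length_append]
            omega
          have p1 : ∀ i, i ≤ v.length → vx oo up u i = vx oo up v i := by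
            intro i hi
            rw [k2]
            exact vx_append (by omega)
          refine ⟨?_, ?_, ?_, ?_, d1, ?_⟩
          · intro i hi hl
            have h6 := hG₂.l i hi (by omega)
            unfold lev at h6 ⊢
            rw [p1 i hl] at h6
            exact h6
          · intro i hi hl
            have h6 := hG₂.m i hi (by omega)
            rw [p1 i hl] at h6
            exact h6
          · intro i hi hl
            have h6 := hG'.g (s.length + i) (by omega) (by rw [k1, List.length_append]; omega)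
            rw [k1, dg_cat (brd_dx hs)] at h6
            rw [Nat.cast_sub hj2]
            linarith
          · intro i k hik hk
            have h6 := hG₂.inj i k hik (by omega)
            rw [p1 i (by omega), p1 k hk] at h6
            exact h6
          · rw [Nat.cast_sub hj2]
            linarith
      · exfalso
        rcases Nat.eq_zero_or_pos w.length with hw | hw
        · have hw' : w = [] := List.length_eq_zero_iff.1 hw
          rw [hw', List.append_nil] at k1
          have h6 := brd_dx hs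
          rw [k1, hG'.d] at h6
          exact absurd h6 (by decide)
        · have h6 : dg s s.length = dg s' s'.length + lev w w.length := by
            have h7 := dg_cat2 (a := w) hG'.d w.length
            rw [← List.length_append, ← k1] at h7
            exact h7
          have h7 := ((mem_Brd.1 ha').1 w.length hw (by rw [k2, List.length_append]; omega)).1
          rw [k2, lev_append (by omega)] at h7
          have h8 : (T : ℤ) ≤ r₂ := by exact_mod_cast h2
          have h9 : 4 * (e : ℤ) ≤ T := by rw [hTd]; exact_mod_cast hTe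
          omega
    · intro s _
      apply suf_le (Q := fun _ => Qr T (3 * r - dg s s.length - 3 * j'))
      · rintro c ⟨a', ha', v, hv, rfl⟩
        exact ⟨a', ha', v, hv, rfl⟩
      · intro a' _
        exact gf_Qr hT _ hM

lemma rr_rot {d : Pt} : mulE (rotTo up d) gg' = rr d := by
  unfold gg' rr
  have h1 := mulE_turn (rotTo up d) false (rotR up)
  have h2 := mulE_turn (rotTo up d) false up
  simp only [turn, Bool.false_eq_true, if_false] at h1 h2
  rw [h1, h2, rotTo_apply d upd]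

end Moments

open Moments in
theorem mom_Csum (K : ℕ) (hK : 4 ≤ K) (d : Pt) (hd : d = e0 ∨ d = e1 ∨ d = e2) : ∃ C : ℝ, 0 < C ∧
    ∀ (e L : ℕ) (n : Pt), 1 ≤ e → 1 ≤ L →
    ∑' m : Pt, GC K e L (fC K e) d n m ≤ ENNReal.ofReal (C * (e * uu e)) := by
  have hd' := dirs3 hd
  obtain ⟨C, hC, hW⟩ := wedge_up
  refine ⟨8 * C, by positivity, fun e L n he hL => ?_⟩
  have he' : (1 : ℝ) ≤ e := by exact_mod_cast he
  have hTe : 4 * e ≤ K * e := Nat.mul_le_mul_right e hK
  have hT : 1 ≤ K * e := by omega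
  obtain ⟨r0, hr0⟩ : ∃ r0 : ℕ, ∀ r : ℕ, -(9 * e : ℤ) ≤ ip n (rr d) + (3 * r - 3) →
      ip n (rr d) + (3 * r - 3) ≤ -(6 * e : ℤ) → r0 ≤ r ∧ r ≤ r0 + e := by
    refine ⟨((-(9 * e : ℤ) - ip n (rr d) + 5) / 3).toNat, fun r h1 h2 => ?_⟩
    constructor <;> omega
  unfold GC
  have h1 : ∑' m : Pt, ∑' c : {c | CP K e L d n m c}, wE c.1 * fC K e c.1 ≤
      ∑' c : (⋃ r ∈ (Finset.Icc r0 (r0 + e)).filter (fun r => K * e ≤ r),
        {c | c ∈ Tube.gE upd oo true (K * e) L r} : Set (List Bool)), wE c.1 * fC K e c.1 := by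
    apply sum_fam (fun m => {c | CP K e L d n m c}) (fun c => wE c * fC K e c)
    · intro m m' c hc hc'
      exact hc.2.2.2.symm.trans hc'.2.2.2
    · intro m c hc
      obtain ⟨_, hm, ⟨r, k1, k2⟩, hv⟩ := hc
      have hG := (mem_gE hT hL (by omega)).1 k2
      have k3 : ip m (rr d) = ip n (rr d) + (3 * r - 3) := by
        rw [end_eq hv, ip_add_left, ← rr_rot, ip_mulE, nrm_rotTo upd hd', one_mul]
        have := hG.e
        unfold dg at this
        rw [this]
      obtain ⟨_, m1, m2, _⟩ := hm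
      rw [k3] at m1 m2
      simp only [Set.mem_iUnion]
      exact ⟨r, Finset.mem_filter.2 ⟨Finset.mem_Icc.2 (hr0 r m1 m2), k1⟩, k2⟩
  refine h1.trans ((ENNReal.tsum_biUnion_le (fun c => wE c * fC K e c) _ _).trans ?_)
  have h2 : ∀ r ∈ (Finset.Icc r0 (r0 + e)).filter (fun r => K * e ≤ r),
      ∑' c : {c | c ∈ Tube.gE upd oo true (K * e) L r}, wE c * fC K e c ≤ 4 * ENNReal.ofReal (C * uu e) := by
    intro r hr
    apply mom_Cr he hK (Finset.mem_filter.1 hr).2 hL
    intro r' L' h3 h4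
    refine (hW (K * e) L' r' hT h3 h4).trans (ENNReal.ofReal_le_ofReal ?_)
    exact mul_le_mul_of_nonneg_left (uu_anti (by omega)) hC.le
  refine (Finset.sum_le_sum h2).trans ?_
  rw [Finset.sum_const, nsmul_eq_mul]
  have h3 : (((Finset.Icc r0 (r0 + e)).filter (fun r => K * e ≤ r)).card : ℝ) ≤ 2 * e := by
    have h4 := Finset.card_filter_le (Finset.Icc r0 (r0 + e)) (fun r => K * e ≤ r)
    rw [Nat.card_Icc] at h4
    have h5 : ((Finset.Icc r0 (r0 + e)).filter (fun r => K * e ≤ r)).card ≤ 2 * e := by omega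
    exact_mod_cast h5
  obtain ⟨N, hN⟩ : ∃ N, N = ((Finset.Icc r0 (r0 + e)).filter (fun r => K * e ≤ r)).card := ⟨_, rfl⟩
  rw [← hN] at h3 ⊢
  have h6 : (N : ℝ≥0∞) * (4 * ENNReal.ofReal (C * uu e)) = ENNReal.ofReal ((N : ℝ) * (4 * (C * uu e))) := by
    rw [ENNReal.ofReal_mul (Nat.cast_nonneg _), ENNReal.ofReal_natCast, ENNReal.ofReal_mul (p := 4) (by norm_num),
      ENNReal.ofReal_ofNat]
  rw [h6]
  apply ENNReal.ofReal_le_ofReal
  have h5 := (uu_pos e).le
  calc (N : ℝ) * (4 * (C * uu e)) ≤ 2 * e * (4 * (C * uu e)) := mul_le_mul_of_nonneg_right h3 (by positivity)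
    _ = 8 * C * (e * uu e) := by ring

end RP

end HexObs
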