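import Pool.Agent.PHW.AntiC
import Pool.Agent.HexLim.TubeT
import Pool.Agent.HexSPR.Final
import Pool.Agent.HexTube.Final

/-!
RSWP: definitions for the local lower bound.
-/

set_option autoImplicit false

namespace HexObs

namespace RP

open Finset ENNReal

/-- bridges of height T that end at the lateral position x. -/
def EndB (T : ℕ) (x : ℤ) : Set (List Bool) := {t | t ∈ Brd T ∧ latE t = x}

/-- the weight of the bridges of height T that end at the lateral position x. -/
noncomputable def H (T : ℕ) (x : ℤ) : ℝ := (gf (EndB T x)).toReal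

/-- pairs: the left bridge ends anywhere, the right one (from the foot k) has its tip in W. -/
noncomputable def FF (T : ℕ) (k : ℤ) (W : Set Pt) : ℝ := (Ex.P2E (St T) oo up 0 Set.univ k W ∅).toReal

/-- columns. -/
def col (a b : ℤ) : Set Pt := {w | a < w.1 ∧ w.1 ≤ b}

/-- convolution of two sets of bridges at the lateral position x. -/
noncomputable def conv2 (A B : Set (List Bool)) (x : ℤ) : ℝ≥0∞ :=
  ∑' p : {p : List Bool × List Bool | p.1 ∈ A ∧ p.2 ∈ B ∧ latE p.1 + latE p.2 = x}, wE p.1.1 * wE p.1.2

/-- convolution of three sets of bridges at the lateral position x. -/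
noncomputable def conv3 (A B C : Set (List Bool)) (x : ℤ) : ℝ≥0∞ :=
  ∑' p : {p : List Bool × List Bool × List Bool | p.1 ∈ A ∧ p.2.1 ∈ B ∧ p.2.2 ∈ C ∧
    latE p.1 + latE p.2.1 + latE p.2.2 = x}, wE p.1.1 * (wE p.1.2.1 * wE p.1.2.2)

end RP

end HexObs
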