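import Pool.Agent.HexPoly.Root
import Pool.Agent.HexPoly.RotL

/-!
RSWP, module P18, general part: closed words, their rotations, the number of orbits.
-/

set_option autoImplicit false

namespace HexObs

namespace RP

namespace Orb

open Finset ENNReal

/-- a closed self-avoiding walk of length n with a root of direction up, in a ball, with a given extent. -/
structure Cl (n R e : ℕ) (y : Pt × List Bool) : Prop where
  len : y.2.length = n
  cl0 : CC.lv y.1 % 3 = 0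
  vn : vx y.1 up y.2 n = y.1
  dn : dx up y.2 n = up
  inj : ∀ i j, i < j → j < n → vx y.1 up y.2 i ≠ vx y.1 up y.2 j
  ball : ∀ i, i ≤ n → |(vx y.1 up y.2 i).1| ≤ R * e ∧ |(vx y.1 up y.2 i).2| ≤ R * e
  ext : ∃ i, i < n ∧ (18 * e : ℤ) ≤ CC.lv (vx y.1 up y.2 i) - CC.lv y.1

lemma vx_succ (v d : Pt) (t : List Bool) (i : ℕ) : vx v d t (i + 1) = vx v d t i + dx d t i := rfl

lemma dx_succ (d : Pt) (t : List Bool) (i : ℕ) : dx d t (i + 1) = turn (tf t i) (dx d t i) := rfl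

/-- the directions from even and from odd sites. -/
def De : Finset Pt := {up, (-1, 0), (1, -1)}
def Do : Finset Pt := {(0, -1), (1, 0), (-1, 1)}

lemma turn_De : ∀ d ∈ De, ∀ b : Bool, turn b d ∈ Do := by decide
lemma turn_Do : ∀ d ∈ Do, ∀ b : Bool, turn b d ∈ De := by decide
lemma turn_ne : ∀ d ∈ De ∪ Do, turn true d ≠ turn false d := by decide

lemma lv_De : ∀ d ∈ De, CC.lv d % 3 = 2 := by decide
lemma lv_Do : ∀ d ∈ Do, CC.lv d % 3 = 1 := by decide

lemma lv_add (p q : Pt) : CC.lv (p + q) = CC.lv p + CC.lv q := by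
  unfold CC.lv
  simp only [Prod.fst_add, Prod.snd_add]
  ring

lemma cls {v : Pt} (hv : CC.lv v % 3 = 0) (t : List Bool) (i : ℕ) :
    (Even i → CC.lv (vx v up t i) % 3 = 0 ∧ dx up t i ∈ De) ∧
      (¬ Even i → CC.lv (vx v up t i) % 3 = 2 ∧ dx up t i ∈ Do) := by
  induction i with
  | zero =>
    refine ⟨fun _ => ⟨hv, ?_⟩, fun h => absurd (by decide) h⟩
    show up ∈ De
    decide
  | succ i ih =>
    rw [vx_succ, dx_succ, lv_add]
    constructor
    · intro h
      have h' : ¬ Even i := by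
        rw [Nat.even_add_one] at h
        exact h
      obtain ⟨h1, h2⟩ := ih.2 h'
      have h3 := lv_Do _ h2
      exact ⟨by omega, turn_Do _ h2 _⟩
    · intro h
      have h' : Even i := by
        rw [Nat.even_add_one, not_not] at h
        exact h
      obtain ⟨h1, h2⟩ := ih.1 h'
      have h3 := lv_De _ h2
      exact ⟨by omega, turn_De _ h2 _⟩

variable {n R e : ℕ} {y : Pt × List Bool}

lemma Cl.even (h : Cl n R e y) : Even n := by
  by_contra h1
  have h2 := ((cls h.cl0 y.2 n).2 h1).1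
  rw [h.vn] at h2
  have h3 := h.cl0
  omega

lemma Cl.eq_of (h : Cl n R e y) {i j : ℕ} (hi : i < n) (hj : j < n)
    (hij : vx y.1 up y.2 i = vx y.1 up y.2 j) : i = j := by
  rcases lt_trichotomy i j with h1 | h1 | h1
  · exact absurd hij (h.inj i j h1 hj)
  · exact h1
  · exact absurd hij.symm (h.inj j i h1 hi)

/-- the periodic extension. -/
def V (n : ℕ) (y : Pt × List Bool) (i : ℕ) : Pt := vx y.1 up y.2 (i % n)
def D (n : ℕ) (y : Pt × List Bool) (i : ℕ) : Pt := dx up y.2 (i % n)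

lemma V_congr {i j : ℕ} (hij : i % n = j % n) : V n y i = V n y j := by unfold V; rw [hij]

lemma mod_cases (hn : 0 < n) (i : ℕ) :
    (i % n + 1 < n ∧ (i + 1) % n = i % n + 1) ∨ (i % n + 1 = n ∧ (i + 1) % n = 0) := by
  have h1 := Nat.mod_lt i hn
  have h2 : (i + 1) % n = (i % n + 1) % n := by rw [Nat.mod_add_mod]
  rcases Nat.lt_or_ge (i % n + 1) n with h3 | h3
  · exact Or.inl ⟨h3, by rw [h2, Nat.mod_eq_of_lt h3]⟩
  · have h4 : i % n + 1 = n := by omega
    exact Or.inr ⟨h4, by rw [h2, h4, Nat.mod_self]⟩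

lemma Cl.V_succ (h : Cl n R e y) (hn : 0 < n) (i : ℕ) : V n y (i + 1) = V n y i + D n y i := by
  unfold V D
  rcases mod_cases hn i with ⟨_, h2⟩ | ⟨h1, h2⟩
  · rw [h2, vx_succ]
  · rw [h2, ← vx_succ, h1, h.vn]
    rfl

lemma Cl.D_succ (h : Cl n R e y) (hn : 0 < n) (i : ℕ) :
    D n y (i + 1) = turn (tf y.2 (i % n)) (D n y i) := by
  unfold D
  rcases mod_cases hn i with ⟨_, h2⟩ | ⟨h1, h2⟩
  · rw [h2, dx_succ]
  · rw [h2, ← dx_succ, h1, h.dn]
    rfl

lemma Cl.cls' (h : Cl n R e y) (i : ℕ) :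
    (Even i → CC.lv (V n y i) % 3 = 0 ∧ D n y i ∈ De) ∧
      (¬ Even i → CC.lv (V n y i) % 3 = 2 ∧ D n y i ∈ Do) := by
  have h1 := cls h.cl0 y.2 (i % n)
  have h2 : Even (i % n) ↔ Even i := by
    rw [Nat.even_iff, Nat.even_iff, Nat.mod_mod_of_dvd _ h.even.two_dvd]
  rw [h2] at h1
  exact h1

lemma Cl.lv_ne (h : Cl n R e y) (i : ℕ) : CC.lv (V n y i) % 3 ≠ 1 := by
  by_cases h1 : Even i
  · have := ((h.cls' i).1 h1).1
    omega
  · have := ((h.cls' i).2 h1).1
    omega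

lemma Cl.edge (h : Cl n R e y) (hn : 0 < n) (i : ℕ) :
    CC.Edge (CC.ph (V n y i)) (CC.ph (V n y (i + 1))) := by
  rw [h.V_succ hn]
  by_cases h1 : Even i
  · obtain ⟨h2, h3⟩ := (h.cls' i).1 h1
    apply CC.edge_even h2
    simpa [De] using h3
  · obtain ⟨h2, h3⟩ := (h.cls' i).2 h1
    apply CC.edge_odd h2
    simpa [Do] using h3

lemma Cl.V_inj (h : Cl n R e y) (hn : 0 < n) {i j : ℕ} (hij : V n y i = V n y j) : i % n = j % n :=
  h.eq_of (Nat.mod_lt _ hn) (Nat.mod_lt _ hn) hij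

lemma Cl.V_ball (h : Cl n R e y) (hn : 0 < n) (i : ℕ) :
    |(V n y i).1| ≤ R * e ∧ |(V n y i).2| ≤ R * e := h.ball _ (Nat.mod_lt _ hn).le

lemma V_zero : V n y 0 = y.1 := by
  unfold V
  rw [Nat.zero_mod]
  rfl

lemma D_zero : D n y 0 = up := by
  unfold D
  rw [Nat.zero_mod]
  rfl

/-- the loop that starts at the vertex number s, in brick wall coordinates. -/
def lp (N : ℕ) (y : Pt × List Bool) (s : ℕ) (i : Fin (N + 1)) : ℤ × ℤ :=
  CC.ph (V (N + 1) y (s + i)) + -CC.ph (V (N + 1) y s)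

lemma even_ph {p : Pt} (h : CC.lv p % 3 = 0) : Even ((-CC.ph p).1 + (-CC.ph p).2) := by
  obtain ⟨a, b⟩ := p
  unfold CC.lv at h
  unfold CC.ph
  simp only [Prod.fst_neg, Prod.snd_neg, Int.even_iff] at h ⊢
  omega

lemma Cl.loop {N : ℕ} (h : Cl (N + 1) R e y) {s : ℕ} (hs : Even s) : CC.Loop N (lp N y s) := by
  have hn : 0 < N + 1 := Nat.succ_pos N
  refine ⟨?_, ?_, ?_⟩
  · unfold lp
    have e1 : s + ((0 : Fin (N + 1)) : ℕ) = s := rfl
    rw [e1, add_neg_cancel]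
    rfl
  · intro i j hij
    unfold lp at hij
    have h1 := add_right_cancel hij
    have h2 : V (N + 1) y (s + i) = V (N + 1) y (s + j) := by
      rw [← CC.ps_ph (h.lv_ne (s + i)), ← CC.ps_ph (h.lv_ne (s + j)), h1]
    have h3 : (s + i) % (N + 1) = (s + j) % (N + 1) := h.V_inj hn h2
    have h4 : (i : ℕ) ≡ j [MOD (N + 1)] := Nat.ModEq.add_left_cancel' s h3
    have h5 : (i : ℕ) = j := by
      have h6 : (i : ℕ) % (N + 1) = j % (N + 1) := h4
      rwa [Nat.mod_eq_of_lt i.2, Nat.mod_eq_of_lt j.2] at h6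
    exact Fin.ext h5
  · intro i
    unfold lp
    apply CC.RootAux.edge_add (even_ph ((h.cls' s).1 hs).1)
    have h1 : V (N + 1) y (s + (i + 1 : Fin (N + 1))) = V (N + 1) y (s + i + 1) := by
      apply V_congr
      rw [Fin.val_add]
      rcases Nat.eq_zero_or_pos N with h0 | h0
      · subst h0
        simp only [Nat.zero_add, Nat.mod_one]
      · have e1 : ((1 : Fin (N + 1)) : ℕ) = 1 := by
          rw [Fin.val_one', Nat.mod_eq_of_lt (by omega)]
        rw [e1, Nat.add_mod_mod, add_assoc]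
    rw [h1]
    exact h.edge hn _

lemma row_eq (p : Pt) : (CC.ph p).2 = (CC.lv p + 1) / 3 := by
  unfold CC.lv CC.ph
  rfl

lemma Cl.row_le (h : Cl n R e y) (hn : 0 < n) (i : ℕ) :
    -(R * e : ℤ) ≤ (CC.ph (V n y i)).2 ∧ (CC.ph (V n y i)).2 ≤ R * e := by
  obtain ⟨h1, h2⟩ := h.V_ball hn i
  rw [abs_le] at h1 h2
  rw [row_eq]
  unfold CC.lv
  generalize (R * e : ℤ) = z at *
  constructor <;> omega

lemma Cl.rows {N : ℕ} (h : Cl (N + 1) R e y) {s : ℕ} (hs : s < N + 1) (he : 1 ≤ e) :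
    ∃ T, e ≤ T ∧ T ≤ (2 * R + 1) * e ∧ CC.Rows T (lp N y s) := by
  have hn : 0 < N + 1 := Nat.succ_pos N
  obtain ⟨T, a, h1, ⟨i0, h2⟩, ⟨i1, h3⟩⟩ := CC.rows_exist (lp N y s)
  refine ⟨T, ?_, ?_, a, h1, ⟨i0, h2⟩, ⟨i1, h3⟩⟩
  · obtain ⟨i, hi, hext⟩ := h.ext
    have h4 : (s + (i + (N + 1) - s) % (N + 1)) % (N + 1) = i % (N + 1) := by
      rw [Nat.add_mod_mod]
      have : s + (i + (N + 1) - s) = i + (N + 1) := by omega
      rw [this, Nat.add_mod_right]
    have h5 : (s + (N + 1 - s) % (N + 1)) % (N + 1) = 0 % (N + 1) := by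
      rw [Nat.add_mod_mod]
      have : s + (N + 1 - s) = 0 + (N + 1) := by omega
      rw [this, Nat.add_mod_right]
    have h6 := h1 ⟨(i + (N + 1) - s) % (N + 1), Nat.mod_lt _ hn⟩
    have h7 := h1 ⟨(N + 1 - s) % (N + 1), Nat.mod_lt _ hn⟩
    unfold lp at h6 h7
    simp only at h6 h7
    rw [V_congr h4] at h6
    rw [V_congr h5] at h7
    have h8 : V (N + 1) y i = vx y.1 up y.2 i := by
      unfold V
      rw [Nat.mod_eq_of_lt hi]
    rw [h8] at h6
    rw [V_zero] at h7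
    simp only [Prod.snd_add, row_eq] at h6 h7
    have h9 := h.cl0
    generalize (-CC.ph (V (N + 1) y s)).2 = z at *
    generalize CC.lv (vx y.1 up y.2 i) = u at *
    generalize CC.lv y.1 = w at *
    omega
  · have h4 := h.row_le hn (s + i0)
    have h5 := h.row_le hn (s + i1)
    unfold lp at h2 h3
    simp only [Prod.snd_add] at h2 h3
    have h6 : (1 : ℤ) ≤ e := by exact_mod_cast he
    have h7 : (T : ℤ) ≤ (2 * R + 1) * e := by
      have : (T : ℤ) ≤ 2 * (R * e) + 1 := by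
        generalize (-CC.ph (V (N + 1) y s)).2 = z at *
        generalize (R * e : ℤ) = x at *
        omega
      linarith
    exact_mod_cast h7

lemma tf_eq {t : List Bool} {i : ℕ} (h : i < t.length) : tf t i = t[i] := by
  unfold tf
  exact List.getD_eq_getElem t true h

/-- two roots of the same closed walk. -/
lemma fib {N : ℕ} {y' : Pt × List Bool} (h : Cl (N + 1) R e y) (h' : Cl (N + 1) R e y') {s s' : ℕ}
    (hs : s < N + 1) (hv : V (N + 1) y s = V (N + 1) y' s') (hl : lp N y s = lp N y' s') :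
    dx up y'.2 ((s' + (N + 1) - s) % (N + 1)) = up ∧
      y = (vx y'.1 up y'.2 ((s' + (N + 1) - s) % (N + 1)), y'.2.rotate ((s' + (N + 1) - s) % (N + 1))) := by
  have hn : 0 < N + 1 := Nat.succ_pos N
  set k := (s' + (N + 1) - s) % (N + 1) with hk
  have hkn : k < N + 1 := Nat.mod_lt _ hn
  -- equality of the vertices
  have h1 : ∀ i, i < N + 1 → V (N + 1) y (s + i) = V (N + 1) y' (s' + i) := by
    intro i hi
    have h2 := congrFun hl ⟨i, hi⟩
    unfold lp at h2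
    simp only at h2
    rw [hv] at h2
    have h3 := add_right_cancel h2
    rw [← CC.ps_ph (h.lv_ne (s + i)), ← CC.ps_ph (h'.lv_ne (s' + i)), h3]
  have h2 : ∀ i, V (N + 1) y (s + i) = V (N + 1) y' (s' + i) := by
    intro i
    have e1 : V (N + 1) y (s + i) = V (N + 1) y (s + i % (N + 1)) :=
      V_congr (by rw [Nat.add_mod_mod])
    have e2 : V (N + 1) y' (s' + i) = V (N + 1) y' (s' + i % (N + 1)) :=
      V_congr (by rw [Nat.add_mod_mod])
    rw [e1, e2]
    exact h1 _ (Nat.mod_lt _ hn)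
  have h3 : ∀ i, V (N + 1) y i = V (N + 1) y' (k + i) := by
    intro i
    have e1 : V (N + 1) y i = V (N + 1) y (s + (N + 1 - s + i)) := by
      apply V_congr
      have : s + (N + 1 - s + i) = i + (N + 1) := by omega
      rw [this, Nat.add_mod_right]
    have e2 : V (N + 1) y' (s' + (N + 1 - s + i)) = V (N + 1) y' (k + i) := by
      apply V_congr
      rw [hk, Nat.mod_add_mod]
      congr 1
      omega
    rw [e1, h2, e2]
  have h4 : ∀ i, D (N + 1) y i = D (N + 1) y' (k + i) := by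
    intro i
    have e1 := h.V_succ hn i
    have e2 := h'.V_succ hn (k + i)
    rw [h3 (i + 1), h3 i, ← add_assoc, e2] at e1
    exact (add_left_cancel e1).symm
  have h5 : dx up y'.2 k = up := by
    have e1 := h4 0
    rw [D_zero] at e1
    have e2 : D (N + 1) y' (k + 0) = dx up y'.2 k := by
      show dx up y'.2 (k % (N + 1)) = _
      rw [Nat.mod_eq_of_lt hkn]
    rw [← e2]
    exact e1.symm
  refine ⟨h5, ?_⟩
  have h6 : y.1 = vx y'.1 up y'.2 k := by
    have e1 := h3 0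
    rw [V_zero] at e1
    have e2 : V (N + 1) y' (k + 0) = vx y'.1 up y'.2 k := by
      show vx y'.1 up y'.2 (k % (N + 1)) = _
      rw [Nat.mod_eq_of_lt hkn]
    rw [← e2]
    exact e1
  have h7 : y.2 = y'.2.rotate k := by
    apply List.ext_getElem
    · rw [List.length_rotate, h.len, h'.len]
    · intro i hi hi'
      rw [List.getElem_rotate]
      have hiN : i < N + 1 := by rw [← h.len]; exact hi
      have e1 := h.D_succ hn i
      have e2 := h'.D_succ hn (k + i)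
      rw [h4 (i + 1), h4 i, ← add_assoc, e2, Nat.mod_eq_of_lt hiN] at e1
      have e3 : D (N + 1) y' (k + i) ∈ De ∪ Do := by
        rw [Finset.mem_union]
        by_cases hp : Even (k + i)
        · exact Or.inl ((h'.cls' _).1 hp).2
        · exact Or.inr ((h'.cls' _).2 hp).2
      have e4 : tf y'.2 ((k + i) % (N + 1)) = tf y.2 i := by
        have e5 := turn_ne _ e3
        generalize tf y'.2 ((k + i) % (N + 1)) = b at *
        generalize tf y.2 i = c at *
        cases b <;> cases c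
        · rfl
        · exact absurd e1.symm e5
        · exact absurd e1 e5
        · rfl
      have e5 : (k + i) % (N + 1) < y'.2.length := by
        rw [h'.len]
        exact Nat.mod_lt _ hn
      rw [tf_eq e5, tf_eq hi] at e4
      rw [← e4]
      congr 1
      rw [h'.len, add_comm]
  rw [← h6, ← h7]

lemma edge_abs {p q : ℤ × ℤ} (h : CC.Edge p q) : |q.1| ≤ |p.1| + 1 ∧ |q.2| ≤ |p.2| + 1 := by
  have key : |q.1 - p.1| ≤ 1 ∧ |q.2 - p.2| ≤ 1 := by
    rcases h with h | h | ⟨h, _⟩ | ⟨h, _⟩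
    · rw [h]; simp
    · rw [h]; simp
    · rw [h]; simp
    · rw [h]; simp
  constructor
  · have := abs_sub_abs_le_abs_sub q.1 p.1
    linarith [key.1]
  · have := abs_sub_abs_le_abs_sub q.2 p.2
    linarith [key.2]

lemma loop_abs {N : ℕ} {f : Fin (N + 1) → ℤ × ℤ} (h : CC.Loop N f) (i : ℕ) (hi : i < N + 1) :
    |(f ⟨i, hi⟩).1| ≤ i ∧ |(f ⟨i, hi⟩).2| ≤ i := by
  induction i with
  | zero =>
    have h0 : f ⟨0, hi⟩ = (0, 0) := h.1
    rw [h0]
    simp
  | succ i ih =>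
    have h1 := ih (by omega)
    have h2 := edge_abs (h.2.2 ⟨i, by omega⟩)
    have e2 : (⟨i, by omega⟩ : Fin (N + 1)) + 1 = (⟨i + 1, hi⟩ : Fin (N + 1)) := by
      apply Fin.ext
      rw [Fin.val_add, Fin.val_one', Nat.add_mod_mod]
      exact Nat.mod_eq_of_lt hi
    rw [e2] at h2
    push_cast
    exact ⟨by linarith [h1.1, h2.1], by linarith [h1.2, h2.2]⟩

lemma loop_fin (N : ℕ) : {f : Fin (N + 1) → ℤ × ℤ | CC.Loop N f}.Finite := by
  have hf : (Set.univ.pi fun _ : Fin (N + 1) =>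
      ((Set.Icc (-(N : ℤ)) N) ×ˢ (Set.Icc (-(N : ℤ)) N) : Set (ℤ × ℤ))).Finite :=
    Set.Finite.pi fun _ => (Set.finite_Icc _ _).prod (Set.finite_Icc _ _)
  refine hf.subset ?_
  intro f hf
  rw [Set.mem_univ_pi]
  intro i
  have h1 := loop_abs hf i.1 i.2
  have h2 : (i.1 : ℤ) ≤ N := by exact_mod_cast Nat.lt_succ_iff.1 i.2
  exact ⟨abs_le.1 (h1.1.trans h2), abs_le.1 (h1.2.trans h2)⟩

/-- the roots of direction up of the same closed walk. -/
def KS (Y : Set (Pt × List Bool)) (y : Pt × List Bool) : Set ℕ :=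
  {k : ℕ | k < y.2.length ∧ dx up y.2 k = up ∧ (vx y.1 up y.2 k, y.2.rotate k) ∈ Y}

open Classical in
/-- the number of the orbits. -/
theorem orbit_gen {N h R e : ℕ} (hN : N + 1 = 2 * h) (he : 1 ≤ e) (Y : Set (Pt × List Bool))
    (hY : ∀ y ∈ Y, Cl (N + 1) R e y) :
    (∑' y : {y : Pt × List Bool // y ∈ Y}, (((KS Y y.1).ncard : ℕ) : ℝ≥0∞)⁻¹) * h ≤
    (((2 * (R * e) + 1) ^ 2 * Set.ncard {f : Fin (N + 1) → ℤ × ℤ | CC.Loop N f ∧
      ∃ T, e ≤ T ∧ T ≤ (2 * R + 1) * e ∧ CC.Rows T f} : ℕ) : ℝ≥0∞) := by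
  have hn : 0 < N + 1 := Nat.succ_pos N
  have hF : {f : Fin (N + 1) → ℤ × ℤ | CC.Loop N f ∧
      ∃ T, e ≤ T ∧ T ≤ (2 * R + 1) * e ∧ CC.Rows T f}.Finite := (loop_fin N).subset fun _ h => h.1
  rw [ENNReal.tsum_eq_iSup_sum, ENNReal.iSup_mul]
  apply iSup_le
  intro S
  set Q : Finset ℤ := Finset.Icc (-(R * e : ℤ)) (R * e) with hQ
  set Φ : {y : Pt × List Bool // y ∈ Y} × ℕ → Pt × (Fin (N + 1) → ℤ × ℤ) :=
    fun p => (V (N + 1) p.1.1 (2 * p.2), lp N p.1.1 (2 * p.2)) with hΦ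
  have hmaps : ∀ p ∈ S ×ˢ Finset.range h, Φ p ∈ (Q ×ˢ Q) ×ˢ hF.toFinset := by
    rintro ⟨⟨y, hy⟩, j⟩ hp
    rw [Finset.mem_product, Finset.mem_range] at hp
    have hC := hY y hy
    obtain ⟨b1, b2⟩ := hC.V_ball hn (2 * j)
    have hj : 2 * j < N + 1 := by have := hp.2; simp only at this; omega
    rw [Finset.mem_product, Finset.mem_product, Set.Finite.mem_toFinset, hQ, Finset.mem_Icc, Finset.mem_Icc]
    exact ⟨⟨abs_le.1 b1, abs_le.1 b2⟩, hC.loop (even_two_mul j), hC.rows hj he⟩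
  have h1 : (∑ y ∈ S, (((KS Y y.1).ncard : ℕ) : ℝ≥0∞)⁻¹) * h =
      ∑ p ∈ S ×ˢ Finset.range h, (((KS Y p.1.1).ncard : ℕ) : ℝ≥0∞)⁻¹ := by
    rw [Finset.sum_product, Finset.sum_mul]
    apply Finset.sum_congr rfl
    intro y _
    show (((KS Y y.1).ncard : ℕ) : ℝ≥0∞)⁻¹ * h =
      ∑ _j ∈ Finset.range h, (((KS Y y.1).ncard : ℕ) : ℝ≥0∞)⁻¹
    rw [Finset.sum_const, Finset.card_range, nsmul_eq_mul, mul_comm]
  have h2 : ∀ z ∈ (Q ×ˢ Q) ×ˢ hF.toFinset, ∑ p ∈ (S ×ˢ Finset.range h).filter (fun p => Φ p = z),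
      (((KS Y p.1.1).ncard : ℕ) : ℝ≥0∞)⁻¹ ≤ 1 := by
    intro z _
    set Z := (S ×ˢ Finset.range h).filter (fun p => Φ p = z) with hZ
    have h3 : ∀ p ∈ Z, Z.card ≤ (KS Y p.1.1).ncard := by
      intro p hp
      have hp1 := (Finset.mem_filter.1 hp).2
      have hj0 := (Finset.mem_product.1 (Finset.mem_filter.1 hp).1).2
      rw [Finset.mem_range] at hj0
      have hf : ∀ q ∈ Z, dx up p.1.1.2 ((2 * p.2 + (N + 1) - 2 * q.2) % (N + 1)) = up ∧
          q.1.1 = (vx p.1.1.1 up p.1.1.2 ((2 * p.2 + (N + 1) - 2 * q.2) % (N + 1)),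
            p.1.1.2.rotate ((2 * p.2 + (N + 1) - 2 * q.2) % (N + 1))) := by
        intro q hq
        have hq1 := (Finset.mem_filter.1 hq).2
        have hj := (Finset.mem_product.1 (Finset.mem_filter.1 hq).1).2
        rw [Finset.mem_range] at hj
        rw [← hp1] at hq1
        simp only [hΦ, Prod.mk.injEq] at hq1
        exact fib (hY _ q.1.2) (hY _ p.1.2) (by omega) hq1.1 hq1.2
      have hinj : Set.InjOn (fun q : {y : Pt × List Bool // y ∈ Y} × ℕ =>
          (2 * p.2 + (N + 1) - 2 * q.2) % (N + 1)) (Z : Set _) := by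
        intro q hq q' hq' hqq
        have hq2 := Finset.mem_coe.1 hq
        have hq2' := Finset.mem_coe.1 hq'
        have hj := (Finset.mem_product.1 (Finset.mem_filter.1 hq2).1).2
        have hj' := (Finset.mem_product.1 (Finset.mem_filter.1 hq2').1).2
        rw [Finset.mem_range] at hj hj'
        have e1 : q.1.1 = q'.1.1 := by
          rw [(hf q hq2).2, (hf q' hq2').2]
          simp only at hqq
          rw [hqq]
        have e2 : (2 * p.2 + (N + 1) - 2 * q.2) ≡ (2 * p.2 + (N + 1) - 2 * q'.2) [MOD (N + 1)] := hqq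
        have e3 := Nat.ModEq.eq_of_abs_lt e2 (by
          rw [abs_lt]
          constructor <;> omega)
        have e4 : q.2 = q'.2 := by omega
        exact Prod.ext (Subtype.ext e1) e4
      rw [← Finset.card_image_of_injOn hinj, ← Set.ncard_coe_finset]
      apply Set.ncard_le_ncard
      · intro k hk
        rw [Finset.mem_coe, Finset.mem_image] at hk
        obtain ⟨q, hq, rfl⟩ := hk
        obtain ⟨e1, e2⟩ := hf q hq
        refine ⟨?_, e1, ?_⟩
        · rw [(hY _ p.1.2).len]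
          exact Nat.mod_lt _ hn
        · rw [← e2]
          exact q.1.2
      · exact (Set.finite_lt_nat p.1.1.2.length).subset fun k hk => hk.1
    calc ∑ p ∈ Z, (((KS Y p.1.1).ncard : ℕ) : ℝ≥0∞)⁻¹ ≤ ∑ _p ∈ Z, ((Z.card : ℕ) : ℝ≥0∞)⁻¹ := by
          apply Finset.sum_le_sum
          intro p hp
          apply ENNReal.inv_le_inv.2
          exact_mod_cast h3 p hp
      _ = (Z.card : ℝ≥0∞) * ((Z.card : ℕ) : ℝ≥0∞)⁻¹ := by
          rw [Finset.sum_const, nsmul_eq_mul]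
      _ ≤ 1 := ENNReal.mul_inv_le_one _
  rw [h1, ← Finset.sum_fiberwise_of_maps_to hmaps]
  calc ∑ z ∈ (Q ×ˢ Q) ×ˢ hF.toFinset, ∑ p ∈ (S ×ˢ Finset.range h).filter (fun p => Φ p = z),
        (((KS Y p.1.1).ncard : ℕ) : ℝ≥0∞)⁻¹ ≤ ∑ _z ∈ (Q ×ˢ Q) ×ˢ hF.toFinset, (1 : ℝ≥0∞) :=
        Finset.sum_le_sum h2
    _ = ((((Q ×ˢ Q) ×ˢ hF.toFinset).card : ℕ) : ℝ≥0∞) := by
        rw [Finset.sum_const, nsmul_eq_mul, mul_one]
    _ = _ := by
        rw [Finset.card_product, Finset.card_product, ← Set.ncard_eq_toFinset_card _ hF, hQ, Int.card_Icc]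
        have e1 : ((R * e : ℤ) + 1 - -(R * e : ℤ)).toNat = 2 * (R * e) + 1 := by
          have : ((R * e : ℤ) + 1 - -(R * e : ℤ)) = ((2 * (R * e) + 1 : ℕ) : ℤ) := by push_cast; ring
          rw [this, Int.toNat_natCast]
        rw [e1, sq]

end Orb

end RP

end HexObs
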