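import Pool.Agent.RSWP.Glue
import Pool.Agent.RSWP.Orb0

/-!
RSWP, module P18: from the roots of direction e0 to the closed walks through the origin.
-/

set_option autoImplicit false

namespace HexObs

namespace RP

open Finset ENNReal

namespace Orb

lemma ip_lv (p : Pt) : ip p up = CC.lv p := by
  simp only [ip, up, CC.lv]
  ring

lemma lv_cl {p : Pt} (h : cl p = 0) : CC.lv p % 3 = 0 := by
  obtain ⟨x, y⟩ := p
  have e3 : cl (x, y) = ((CC.lv (x, y) : ℤ) : ZMod 3) := by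
    unfold cl CC.lv
    rw [ZMod.intCast_eq_intCast_iff]
    show (x - y) % ((3 : ℕ) : ℤ) = (x + 2 * y) % ((3 : ℕ) : ℤ)
    push_cast
    omega
  rw [e3, ZMod.intCast_zmod_eq_zero_iff_dvd] at h
  have h1 := Int.emod_eq_zero_of_dvd h
  exact_mod_cast h1

lemma cl_of_Y0 {K L n R e : ℕ}
    (hg : ∀ (e : ℕ) (m : Pt) (w : S6), 1 ≤ e → Dec K e (L * e) m w →
      vx m up (cat6 w) (cat6 w).length = m ∧ dx up (cat6 w) (cat6 w).length = up ∧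
      (∀ i j, i < j → j < (cat6 w).length → vx m up (cat6 w) i ≠ vx m up (cat6 w) j) ∧
      (∀ i, i ≤ (cat6 w).length → |(vx m up (cat6 w) i).1| ≤ R * e ∧ |(vx m up (cat6 w) i).2| ≤ R * e) ∧
      ∃ i, i < (cat6 w).length ∧ (18 * e : ℤ) ≤ ip (vx m up (cat6 w) i) up - ip m up) (he : 1 ≤ e)
    {y : Pt × List Bool} (hy : y ∈ Y0 K e (L * e) n) : Cl n R e y := by
  obtain ⟨hlen, w, hw, hcat⟩ := hy
  obtain ⟨h1, h2, h3, h4, h5⟩ := hg e y.1 w he hw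
  rw [hcat, hlen] at h1 h2 h3 h4 h5
  have h6 : cl y.1 = 0 := by
    obtain ⟨_, _, _, _, _, hb, _⟩ := hw
    exact hb.1.1
  refine ⟨hlen, lv_cl h6, h1, h2, h3, h4, ?_⟩
  obtain ⟨i, hi, h7⟩ := h5
  rw [ip_lv, ip_lv] at h7
  exact ⟨i, hi, h7⟩

end Orb

/-- P18 with the statement of module P9 (Glue.lean) as a hypothesis. -/
theorem orbit_of (hglue : ∀ K L : ℕ, 2 ≤ K → ∃ R : ℕ, ∀ (e : ℕ) (m : Pt) (w : S6), 1 ≤ e →
    Dec K e (L * e) m w →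
    vx m up (cat6 w) (cat6 w).length = m ∧ dx up (cat6 w) (cat6 w).length = up ∧
    (∀ i j, i < j → j < (cat6 w).length → vx m up (cat6 w) i ≠ vx m up (cat6 w) j) ∧
    (∀ i, i ≤ (cat6 w).length → |(vx m up (cat6 w) i).1| ≤ R * e ∧ |(vx m up (cat6 w) i).2| ≤ R * e) ∧
    ∃ i, i < (cat6 w).length ∧ (18 * e : ℤ) ≤ ip (vx m up (cat6 w) i) up - ip m up)
    (K L : ℕ) (hK : 4 ≤ K) : ∃ (C : ℝ) (R : ℕ), 0 < C ∧ 1 ≤ R ∧ ∀ e n : ℕ, 1 ≤ e → 3 ≤ n →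
    ∑' y : {y : Pt × List Bool // y ∈ Y0 K e (L * e) n}, (N0 K e (L * e) y.1 : ℝ≥0∞)⁻¹ ≤ ENNReal.ofReal
      (C * e ^ 2 * (Set.ncard {f | CC.Loop (n - 1) f ∧ ∃ T, e ≤ T ∧ T ≤ R * e ∧ CC.Rows T f} : ℝ) / n) := by
  obtain ⟨R, hR⟩ := hglue K L (by omega)
  refine ⟨2 * (2 * R + 1) ^ 2, 2 * R + 1, by positivity, by omega, ?_⟩
  intro e n he hn
  by_cases hne : Y0 K e (L * e) n = ∅
  · have h0 : (∑' y : {y : Pt × List Bool // y ∈ Y0 K e (L * e) n}, (N0 K e (L * e) y.1 : ℝ≥0∞)⁻¹) = 0 := by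
      rw [ENNReal.tsum_eq_zero]
      intro y
      exact absurd y.2 (Set.eq_empty_iff_forall_notMem.1 hne y.1)
    rw [h0]
    exact zero_le
  · obtain ⟨y0, hy0⟩ := Set.nonempty_iff_ne_empty.2 hne
    obtain ⟨N, rfl⟩ : ∃ N, n = N + 1 := ⟨n - 1, by omega⟩
    have hev := (Orb.cl_of_Y0 hR he hy0).even
    obtain ⟨h, hh⟩ := hev.two_dvd
    have hmain := Orb.orbit_gen hh he (Y0 K e (L * e) (N + 1)) (fun y hy => Orb.cl_of_Y0 hR he hy)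
    have e1 : ∀ y : {y : Pt × List Bool // y ∈ Y0 K e (L * e) (N + 1)},
        (N0 K e (L * e) y.1 : ℝ≥0∞)⁻¹ =
          (((Orb.KS (Y0 K e (L * e) (N + 1)) y.1).ncard : ℕ) : ℝ≥0∞)⁻¹ := by
      intro y
      have e2 : y.1.2.length = N + 1 := y.2.1
      unfold N0 Orb.KS
      rw [e2]
    rw [tsum_congr e1]
    show _ ≤ ENNReal.ofReal (2 * (2 * R + 1) ^ 2 * e ^ 2 * (Set.ncard {f : Fin (N + 1) → ℤ × ℤ | CC.Loop N f ∧
      ∃ T, e ≤ T ∧ T ≤ (2 * R + 1) * e ∧ CC.Rows T f} : ℝ) / ((N + 1 : ℕ) : ℝ))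
    set F := Set.ncard {f : Fin (N + 1) → ℤ × ℤ | CC.Loop N f ∧
      ∃ T, e ≤ T ∧ T ≤ (2 * R + 1) * e ∧ CC.Rows T f} with hF
    have hh0 : 0 < h := by omega
    have h2 := (ENNReal.le_div_iff_mul_le (Or.inl (by positivity)) (Or.inl (ENNReal.natCast_ne_top h))).2 hmain
    refine h2.trans ?_
    have hh1 : (0 : ℝ) < h := by exact_mod_cast hh0
    rw [← ENNReal.ofReal_natCast, ← ENNReal.ofReal_natCast (n := h), ← ENNReal.ofReal_div_of_pos hh1]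
    apply ENNReal.ofReal_le_ofReal
    rw [hh]
    push_cast
    have he1 : (1 : ℝ) ≤ e := by exact_mod_cast he
    have hF0 : (0 : ℝ) ≤ F := Nat.cast_nonneg _
    have hR0 : (0 : ℝ) ≤ R := Nat.cast_nonneg _
    rw [div_le_div_iff₀ hh1 (by positivity)]
    have h3 : (2 * (R * e) + 1 : ℝ) ≤ (2 * R + 1) * e := by linarith
    have h4 : (2 * (R * e) + 1 : ℝ) ^ 2 ≤ ((2 * R + 1) * e) ^ 2 := pow_le_pow_left₀ (by positivity) h3 2
    have h5 : (2 * (R * e) + 1 : ℝ) ^ 2 * F ≤ ((2 * R + 1) * e) ^ 2 * F := mul_le_mul_of_nonneg_right h4 hF0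
    nlinarith [mul_le_mul_of_nonneg_right h5 hh1.le]

/-- P18: from the roots of direction e0 to the closed walks through the origin. -/
theorem orbit (K L : ℕ) (hK : 4 ≤ K) : ∃ (C : ℝ) (R : ℕ), 0 < C ∧ 1 ≤ R ∧ ∀ e n : ℕ, 1 ≤ e → 3 ≤ n →
    ∑' y : {y : Pt × List Bool // y ∈ Y0 K e (L * e) n}, (N0 K e (L * e) y.1 : ℝ≥0∞)⁻¹ ≤ ENNReal.ofReal
      (C * e ^ 2 * (Set.ncard {f | CC.Loop (n - 1) f ∧ ∃ T, e ≤ T ∧ T ≤ R * e ∧ CC.Rows T f} : ℝ) / n) :=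
  orbit_of glue K L hK

end RP

end HexObs
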