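import Pool.Agent.RSWP.Lam
import Pool.Agent.RSWP.Orbit
import Pool.Agent.HexPoly.FinalP

/-!
RSWP: the lower bound for the polygons, assembly.
-/

set_option autoImplicit false

namespace HexObs

namespace RP

open Finset ENNReal

/-- the weight of the polygons with n + 1 sites and t rows. -/
noncomputable def wR (n t : ℕ) : ℝ :=
  (Set.ncard {f | CC.Loop n f ∧ CC.Rows t f} : ℝ) * (Real.sqrt (2 + Real.sqrt 2))⁻¹ ^ (n + 1) / (n + 1)

/-- the weight of the polygons with n + 1 sites. -/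
noncomputable def wL (n : ℕ) : ℝ :=
  (Set.ncard {f | CC.Loop n f} : ℝ) * (Real.sqrt (2 + Real.sqrt 2))⁻¹ ^ (n + 1) / (n + 1)

lemma wR_nonneg (n t : ℕ) : 0 ≤ wR n t := by unfold wR; positivity

lemma wL_nonneg (n : ℕ) : 0 ≤ wL n := by unfold wL; positivity

lemma rows_unique {n s t : ℕ} {f : Fin (n + 1) → ℤ × ℤ} (hs : CC.Rows s f) (ht : CC.Rows t f) : s = t := by
  obtain ⟨a, h1, ⟨i, hi⟩, ⟨j, hj⟩⟩ := hs
  obtain ⟨b, h1', ⟨i', hi'⟩, ⟨j', hj'⟩⟩ := ht
  have e1 := h1 i'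
  have e2 := h1' i
  have e3 := h1 j'
  have e4 := h1' j
  omega

/-- the number of loops with a number of rows in S. -/
lemma card_rows (n : ℕ) (S : Finset ℕ) :
    Set.ncard {f | CC.Loop n f ∧ ∃ t, t ∈ S ∧ CC.Rows t f} = ∑ t ∈ S, Set.ncard {f | CC.Loop n f ∧ CC.Rows t f} := by
  classical
  have h : {f | CC.Loop n f ∧ ∃ t, t ∈ S ∧ CC.Rows t f} =
      ((S.biUnion fun t => (CC.P11.rows_finite n t).toFinset : Finset _) : Set (Fin (n + 1) → ℤ × ℤ)) := by
    ext f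
    simp only [Set.mem_ofPred_eq, Finset.coe_biUnion, Set.mem_iUnion, Finset.mem_coe, Set.Finite.mem_toFinset,
      exists_prop]
    constructor
    · rintro ⟨h1, t, h2, h3⟩
      exact ⟨t, h2, h1, h3⟩
    · rintro ⟨t, h2, h1, h3⟩
      exact ⟨h1, t, h2, h3⟩
  rw [h, Set.ncard_coe_finset, Finset.card_biUnion]
  · apply Finset.sum_congr rfl
    intro t _
    rw [Set.ncard_eq_toFinset_card _ (CC.P11.rows_finite n t)]
  · intro s _ t _ hst
    rw [Function.onFun, Finset.disjoint_left]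
    intro f h1 h2
    rw [Set.Finite.mem_toFinset] at h1 h2
    exact hst (rows_unique h1.2 h2.2)

lemma sum_wR (n : ℕ) (S : Finset ℕ) : ∑ t ∈ S, wR n t =
    (Set.ncard {f | CC.Loop n f ∧ ∃ t, t ∈ S ∧ CC.Rows t f} : ℝ) * (Real.sqrt (2 + Real.sqrt 2))⁻¹ ^ (n + 1) /
      (n + 1) := by
  rw [card_rows]
  unfold wR
  push_cast
  rw [Finset.sum_mul, Finset.sum_div]

lemma sum_wR_le (n : ℕ) (S : Finset ℕ) : ∑ t ∈ S, wR n t ≤ wL n := by
  rw [sum_wR]
  unfold wL
  have h : Set.ncard {f | CC.Loop n f ∧ ∃ t, t ∈ S ∧ CC.Rows t f} ≤ Set.ncard {f | CC.Loop n f} :=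
    Set.ncard_le_ncard (fun f h => h.1) (CC.P11.loop_finite n)
  gcongr

/-- closed words with a decomposition have at least three letters. -/
lemma Y0_len {K e L n : ℕ} (hK : 2 ≤ K) (he : 1 ≤ e) {y : Pt × List Bool} (hy : y ∈ Y0 K e L n) : 3 ≤ n := by
  obtain ⟨h1, w, ⟨n0, m1, n1, m2, n2, hb0, _, hb1, _, hb2, _⟩, h2⟩ := hy
  have key : ∀ (d m n : Pt) (b : List Bool), BP K e d m n b → 1 ≤ b.length := by
    intro d m n b hb
    obtain ⟨hm, hn, _, hv, _⟩ := hb
    by_contra hc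
    have h0 : b = [] := by
      rw [← List.length_eq_zero_iff]
      omega
    subst h0
    have h3 : m = n := hv
    subst h3
    obtain ⟨_, _, h4, _⟩ := hm
    obtain ⟨_, h5, _⟩ := hn
    have : (1 : ℤ) ≤ e := by exact_mod_cast he
    linarith
  have l0 := key _ _ _ _ hb0
  have l1 := key _ _ _ _ hb1
  have l2 := key _ _ _ _ hb2
  rw [← h1, ← h2]
  unfold cat6
  simp only [List.length_append]
  omega

lemma mu_inv : xc = (Real.sqrt (2 + Real.sqrt 2))⁻¹ := CC.xc_eq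

/-- one scale. -/
lemma scale_of {K L e : ℕ} {C c : ℝ} {R : ℕ} (hK : 4 ≤ K) (he : 1 ≤ e) (hC : 0 < C)
    (ho : ∀ n : ℕ, 3 ≤ n → ∑' y : {y : Pt × List Bool // y ∈ Y0 K e (L * e) n}, (N0 K e (L * e) y.1 : ℝ≥0∞)⁻¹ ≤
      ENNReal.ofReal
      (C * e ^ 2 * (Set.ncard {f | CC.Loop (n - 1) f ∧ ∃ T, e ≤ T ∧ T ≤ R * e ∧ CC.Rows T f} : ℝ) / n))
    (hl : ENNReal.ofReal c ≤ ∑' y : {y : Pt × List Bool // y ∈ Lam.Y K e (L * e)},
      wE y.1.2 * (N0 K e (L * e) y.1 : ℝ≥0∞)⁻¹) (hc : 0 < c) :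
    ∃ M : ℕ, c / (2 * C * e ^ 2) ≤ ∑ n ∈ Ico 2 M, ∑ t ∈ Icc e (R * e), wR n t := by
  by_contra hcon
  push Not at hcon
  -- partition by the length
  have h1 : ∑' y : {y : Pt × List Bool // y ∈ Lam.Y K e (L * e)}, wE y.1.2 * (N0 K e (L * e) y.1 : ℝ≥0∞)⁻¹ ≤
      ∑' n : ℕ, ENNReal.ofReal (C * e ^ 2 * ∑ t ∈ Icc e (R * e), (if 3 ≤ n then wR (n - 1) t else 0)) := by
    have h2 : Lam.Y K e (L * e) = ⋃ n : ℕ, Y0 K e (L * e) n := by
      ext y
      rw [Set.mem_iUnion]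
      constructor
      · intro h
        exact ⟨_, h⟩
      · rintro ⟨n, h⟩
        obtain ⟨h3, h4⟩ := h
        exact ⟨rfl, h4⟩
    have h3 : ∑' y : {y : Pt × List Bool // y ∈ Lam.Y K e (L * e)}, wE y.1.2 * (N0 K e (L * e) y.1 : ℝ≥0∞)⁻¹ =
        ∑' y : (⋃ n : ℕ, Y0 K e (L * e) n : Set (Pt × List Bool)), wE y.1.2 * (N0 K e (L * e) y.1 : ℝ≥0∞)⁻¹ := by
      rw [h2]
    rw [h3]
    refine (ENNReal.tsum_iUnion_le_tsum (fun y : Pt × List Bool => wE y.2 * (N0 K e (L * e) y : ℝ≥0∞)⁻¹)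
      (fun n => Y0 K e (L * e) n)).trans ?_
    refine ENNReal.tsum_le_tsum fun n => ?_
    by_cases hn : 3 ≤ n
    · have h4 : ∑' y : (Y0 K e (L * e) n : Set (Pt × List Bool)), wE y.1.2 * (N0 K e (L * e) y.1 : ℝ≥0∞)⁻¹ =
          ENNReal.ofReal (xc ^ n) * ∑' y : {y : Pt × List Bool // y ∈ Y0 K e (L * e) n},
            (N0 K e (L * e) y.1 : ℝ≥0∞)⁻¹ := by
        rw [← ENNReal.tsum_mul_left]
        apply tsum_congr
        intro y
        unfold wE
        rw [y.2.1]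
      rw [h4]
      refine (mul_le_mul_right (ho n hn) _).trans ?_
      rw [← ENNReal.ofReal_mul (pow_nonneg xc_pos.le _)]
      apply ENNReal.ofReal_le_ofReal
      simp only [if_pos hn]
      rw [sum_wR]
      have h5 : {f : Fin (n - 1 + 1) → ℤ × ℤ | CC.Loop (n - 1) f ∧ ∃ t, t ∈ Icc e (R * e) ∧ CC.Rows t f} =
          {f | CC.Loop (n - 1) f ∧ ∃ T, e ≤ T ∧ T ≤ R * e ∧ CC.Rows T f} := by
        ext f
        simp only [Set.mem_ofPred_eq, Finset.mem_Icc, and_assoc]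
      rw [h5, mu_inv]
      have h6 : n - 1 + 1 = n := by omega
      have h6' : (Real.sqrt (2 + Real.sqrt 2))⁻¹ ^ (n - 1 + 1) = (Real.sqrt (2 + Real.sqrt 2))⁻¹ ^ n := by rw [h6]
      have h7 : ((n - 1 : ℕ) : ℝ) + 1 = n := by
        have : ((n - 1 + 1 : ℕ) : ℝ) = n := by rw [h6]
        push_cast at this
        exact this
      rw [h6', h7]
      apply le_of_eq
      ring
    · have h4 : IsEmpty (Y0 K e (L * e) n : Set (Pt × List Bool)) := by
        rw [Set.isEmpty_coe_sort, Set.eq_empty_iff_forall_notMem]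
        intro y hy
        exact hn (Y0_len (by omega) he hy)
      rw [tsum_empty]
      exact zero_le
  have h8 : ∑' n : ℕ, ENNReal.ofReal (C * e ^ 2 * ∑ t ∈ Icc e (R * e), (if 3 ≤ n then wR (n - 1) t else 0)) ≤
      ENNReal.ofReal (c / 2) := by
    apply ENNReal.tsum_le_of_sum_range_le
    intro N
    rw [← ENNReal.ofReal_sum_of_nonneg]
    · apply ENNReal.ofReal_le_ofReal
      rw [← Finset.mul_sum]
      have h9 := (hcon N).le
      have h10 : ∑ n ∈ range N, ∑ t ∈ Icc e (R * e), (if 3 ≤ n then wR (n - 1) t else 0) ≤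
          ∑ n ∈ Ico 2 N, ∑ t ∈ Icc e (R * e), wR n t := by
        have h11 : ∀ n, ∑ t ∈ Icc e (R * e), (if 3 ≤ n then wR (n - 1) t else 0) =
            if 3 ≤ n then ∑ t ∈ Icc e (R * e), wR (n - 1) t else 0 := by
          intro n
          split_ifs with h
          · rfl
          · exact Finset.sum_const_zero
        simp only [h11]
        rw [← Finset.sum_filter]
        have h12 : ∑ n ∈ (range N).filter (fun n => 3 ≤ n), ∑ t ∈ Icc e (R * e), wR (n - 1) t =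
            ∑ n ∈ ((range N).filter (fun n => 3 ≤ n)).image (fun n => n - 1), ∑ t ∈ Icc e (R * e), wR n t := by
          rw [Finset.sum_image]
          intro a ha b hb hab
          rw [Finset.coe_filter, Set.mem_ofPred_eq] at ha hb
          simp only at hab
          omega
        rw [h12]
        apply Finset.sum_le_sum_of_subset_of_nonneg
        · intro n hn
          rw [Finset.mem_image] at hn
          obtain ⟨m, hm, rfl⟩ := hn
          rw [Finset.mem_filter, Finset.mem_range] at hm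
          rw [Finset.mem_Ico]
          omega
        · intro n _ _
          exact Finset.sum_nonneg fun t _ => wR_nonneg n t
      have he0 : (0 : ℝ) < e := by exact_mod_cast he
      calc C * e ^ 2 * ∑ n ∈ range N, ∑ t ∈ Icc e (R * e), (if 3 ≤ n then wR (n - 1) t else 0)
          ≤ C * e ^ 2 * (c / (2 * C * e ^ 2)) := by
            apply mul_le_mul_of_nonneg_left (h10.trans h9) (by positivity)
        _ = c / 2 := by field_simp
    · intro n _
      have : 0 ≤ ∑ t ∈ Icc e (R * e), (if 3 ≤ n then wR (n - 1) t else 0) := by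
        apply Finset.sum_nonneg
        intro t _
        split_ifs
        · exact wR_nonneg _ _
        · exact le_refl _
      positivity
  have h13 := hl.trans (h1.trans h8)
  rw [ENNReal.ofReal_le_ofReal_iff (by positivity)] at h13
  linarith

/-- the lower bound for the polygons of about T rows. -/
theorem pol_lower : ∃ (c : ℝ) (R : ℕ), 0 < c ∧ 1 ≤ R ∧ ∀ T : ℕ, 1 ≤ T → ∃ M : ℕ,
    c / (T : ℝ) ^ 2 ≤ ∑ n ∈ Ico 2 M, ∑ t ∈ Icc T (R * T), wR n t := by
  obtain ⟨K, L, e_0, c, hK, _, hc, hl⟩ := lam_lower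
  obtain ⟨C, R, hC, hR, ho⟩ := orbit K L hK
  obtain ⟨s, hs⟩ : ∃ s, s = max e_0 1 := ⟨_, rfl⟩
  have hs1 : 1 ≤ s := by rw [hs]; exact le_max_right _ _
  have hs0 : e_0 ≤ s := by rw [hs]; exact le_max_left _ _
  have hs0' : (0 : ℝ) < s := by exact_mod_cast hs1
  refine ⟨c / (2 * C * s ^ 2), R * s, by positivity, Nat.mul_pos hR hs1, ?_⟩
  intro T hT
  have hT0 : (0 : ℝ) < T := by exact_mod_cast hT
  have he : 1 ≤ s * T := Nat.mul_pos hs1 hT
  have he0 : e_0 ≤ s * T := hs0.trans (Nat.le_mul_of_pos_right s hT)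
  obtain ⟨M, hM⟩ := scale_of (L := L) hK he hC (fun n hn => ho (s * T) n he hn) (hl (s * T) he0) hc
  refine ⟨M, ?_⟩
  calc c / (2 * C * s ^ 2) / (T : ℝ) ^ 2 = c / (2 * C * ((s * T : ℕ) : ℝ) ^ 2) := by
        push_cast
        rw [div_div]
        congr 1
        ring
    _ ≤ ∑ n ∈ Ico 2 M, ∑ t ∈ Icc (s * T) (R * (s * T)), wR n t := hM
    _ ≤ ∑ n ∈ Ico 2 M, ∑ t ∈ Icc T (R * s * T), wR n t := by
        apply Finset.sum_le_sum
        intro n _
        apply Finset.sum_le_sum_of_subset_of_nonneg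
        · intro t ht
          rw [Finset.mem_Icc] at ht ⊢
          refine ⟨(Nat.le_mul_of_pos_left T hs1).trans ht.1, ?_⟩
          rw [mul_assoc]
          exact ht.2
        · intro t _ _
          exact wR_nonneg n t

end RP

end HexObs
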