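import Pool.Agent.RSWP.DefsL

/-!
RSWP, P7: the mass of the wedge walks from below.
-/

set_option autoImplicit false

namespace HexObs

namespace RP

open Finset ENNReal

namespace WL

open Tube

/-! coordinates -/

lemma lat_fst (t : List Bool) (i : ℕ) : lat t i = (vx oo up t i).1 := by
  unfold lat
  simp only [cross, up]
  ring

lemma lev_fst (t : List Bool) (i : ℕ) : lev t i = (vx oo up t i).1 + 2 * (vx oo up t i).2 := by
  unfold lev
  simp only [ip, up]
  ring

lemma ip_gn (p : Pt) : ip (p - oo) (gn true up) = p.1 - p.2 := by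
  have e : p - oo = p := sub_zero p
  rw [e]
  show ip p (rotR (rotR up)) = _
  simp only [ip, rotR, up]
  ring

lemma ip_gl (p : Pt) : ip (p - oo) (rotL up) = p.2 - p.1 := by
  have e : p - oo = p := sub_zero p
  rw [e]
  simp only [ip, rotL, up]
  ring

/-- the domain in coordinates -/
lemma mem_dm {T L r : ℕ} {t : List Bool} {i : ℕ} : vx oo up t i ∈ dm oo up true T L r ↔
    (0 < lev t i ∧ lev t i < 3 * T + 2) ∧ (vx oo up t i).2 - (vx oo up t i).1 < 3 * L ∧
      (vx oo up t i).1 - (vx oo up t i).2 < 3 * r - 1 := by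
  have h1 := mem_St (T := T) (t := t) (i := i)
  unfold dm
  rw [Set.mem_ofPred_eq, ip_gn, ip_gl]
  have h2 : vx oo up t i ∈ strip oo up T ↔ 0 < lev t i ∧ lev t i < 3 * T + 2 := h1
  rw [h2]
  exact Iff.rfl

/-- bridges that leave the domain with the gate r at the side r through the top weigh at most as much as the walks
through the gate -/
lemma top_le [DecidableEq (List Bool)] {T L r r' : ℕ} (hT : 1 ≤ T) (hL : 1 ≤ L) (hr : 1 ≤ r) (hrr : r ≤ r')
    {A : Finset (List Bool)} (hA : ∀ t ∈ A, t ∈ exits (dF upm oo true T L r') oo up ∧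
      t ∉ exits (dF upm oo true T L r) oo up ∧ dx up t t.length = up) :
    wS A ≤ wS (gE upm oo true T L r) := by
  have hs : dF upm oo true T L r ⊆ dF upm oo true T L r' := by
    intro v hv
    rw [mem_dF] at hv ⊢
    obtain ⟨h1, h2, h3⟩ := hv
    have h6 : ip (v - oo) (gn true up) < 3 * r - 1 := h3
    have h7 : (r : ℤ) ≤ r' := by exact_mod_cast hrr
    refine ⟨h1, h2, ?_⟩
    show ip (v - oo) (gn true up) < 3 * r' - 1
    linarith
  have h1 := two_dom upm (dF_half upm oo true T L r) (dF_half upm oo true T L r') 0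
  have hr' : 1 ≤ r' := by omega
  have hb : |(0 : ℝ)| ≤ Real.pi / 8 := by
    rw [abs_zero]
    positivity
  have h2 : ∑ t ∈ A, fb 0 t ≤
      ∑ t ∈ exits (dF upm oo true T L r') oo up \ exits (dF upm oo true T L r) oo up, fb 0 t := by
    apply Finset.sum_le_sum_of_subset_of_nonneg
    · intro t ht
      obtain ⟨h3, h4, _⟩ := hA t ht
      exact Finset.mem_sdiff.2 ⟨h3, h4⟩
    · intro t ht _
      exact fb_nonneg hb (dm_wind upm true hT hL hr' (Finset.mem_sdiff.1 ht).1)
  have h3 : ∑ t ∈ exits (dF upm oo true T L r) oo up \ exits (dF upm oo true T L r') oo up, fb 0 t ≤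
      ∑ t ∈ gE upm oo true T L r, fb 0 t := by
    apply Finset.sum_le_sum_of_subset_of_nonneg
    · intro t ht
      obtain ⟨h4, h5⟩ := Finset.mem_sdiff.1 ht
      refine Finset.mem_filter.2 ⟨h4, exit_gate upm oo (k' := true) (r' := r') hT hL hr h4 ?_⟩
      by_contra hcon
      obtain ⟨ha, _⟩ := mem_exits.1 h4
      exact h5 (mem_exits.2 ⟨⟨fun i h6 h7 => hs (ha.mem i h6 h7), ha.inj⟩, hcon⟩)
    · intro t ht _
      exact fb_nonneg hb (dm_wind upm true hT hL hr (Finset.mem_filter.1 ht).1)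
  rw [sum_fb_const (w := 0) (fun t ht => dm_wind_top upm true hT hL hr' (hA t ht).1 (hA t ht).2.2)] at h2
  rw [sum_fb_const (gE_wind upm oo true hT hL hr)] at h3
  have e1 : ((0 : ℤ) : ℝ) * (Real.pi / 8) + 0 = 0 := by
    push_cast
    ring
  rw [e1, Real.cos_zero, one_mul] at h2
  have hc : Real.cos ((gw true : ℝ) * (Real.pi / 8) + 0) ≤ 1 := Real.cos_le_one _
  have h4 := mul_le_mul_of_nonneg_right hc (wS_nonneg (gE upm oo true T L r))
  linarith

/-- Lemma A -/
lemma low : ∃ (a : ℝ) (M : ℕ), 0 < a ∧ 1 ≤ M ∧ ∀ T L r : ℕ, 1 ≤ T → 1 ≤ r → r ≤ 3 * T → M * T ≤ L →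
    ENNReal.ofReal (a * uu T) ≤ gf ((gE upm oo true T L r : Finset (List Bool)) : Set (List Bool)) := by
  classical
  obtain ⟨a, M, ha, h⟩ := Ex.SPR_box 7
  refine ⟨a, M + 1, ha, by omega, ?_⟩
  intro T L r hT hr hrT hL
  have h1 := h T hT
  have e0 : bT T = uu T := rfl
  rw [e0] at h1
  refine h1.trans ?_
  have hMT : M * T + T ≤ L := by
    rw [← add_one_mul]
    exact hL
  have hL1 : 1 ≤ L := by omega
  have hMTz : (M : ℤ) * T + T ≤ L := by exact_mod_cast hMT
  have hM0 : (0 : ℤ) ≤ M * T := by positivity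
  have hrTz : (r : ℤ) ≤ 3 * T := by exact_mod_cast hrT
  have hTz : (1 : ℤ) ≤ T := by exact_mod_cast hT
  apply gf_le_of_finset
  intro A hA
  rw [gf_finset, gf_finset]
  apply ENNReal.ofReal_le_ofReal
  apply top_le hT hL1 hr (r' := r + M * T + 1) (by omega)
  intro t ht
  obtain ⟨hb, hend, hbox⟩ := hA (Finset.mem_coe.2 ht)
  have hB := mem_Brd.1 hb
  obtain ⟨b1, b2, b3, b4⟩ := hB
  have hlen : 1 ≤ t.length := by
    by_contra hcon
    have hz : t.length = 0 := by omega
    rw [hz, lev_zero] at b4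
    omega
  -- the top
  have htop : vx oo up t (t.length + 1) ∉ dm oo up true T L (r + M * T + 1) := by
    rw [mem_dm]
    have h5 : lev t (t.length + 1) = 3 * T + 2 := by
      rw [lev_succ, b3, b4]
      have : ip up up = 2 := by decide
      omega
    rw [h5]
    rintro ⟨⟨_, h6⟩, _⟩
    omega
  refine ⟨mem_exits.2 ⟨⟨?_, b2⟩, ?_⟩, ?_, b3⟩
  · intro i h2 h3
    rw [mem_dF, mem_dm]
    have h4 := b1 i h2 h3
    have h5 := abs_le.1 (hbox i h3)
    rw [lat_fst] at h5
    have h6 := lev_fst t i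
    push_cast
    refine ⟨⟨h4.1, by omega⟩, ?_, ?_⟩
    · omega
    · omega
  · rw [mem_dF]
    exact htop
  · intro hcon
    obtain ⟨c1, _⟩ := mem_exits.1 hcon
    have h5 := c1.mem t.length hlen le_rfl
    rw [mem_dF, mem_dm] at h5
    have h6 := lev_fst t t.length
    have h7 : (7 : ℕ) * (T : ℤ) ≤ (vx oo up t t.length).1 := by
      rw [← lat_fst]
      exact hend
    rw [b4] at h6
    push_cast at h7
    omega

/-- words with a prefix -/
lemma gf_pre {Q S : Set (List Bool)} (R : List Bool → Set (List Bool)) (m : ℝ≥0∞) (hm : ∀ q ∈ Q, m ≤ gf (R q))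
    (hS : ∀ q ∈ Q, ∀ c ∈ R q, q ++ c ∈ S)
    (hinj : ∀ q ∈ Q, ∀ q' ∈ Q, ∀ c ∈ R q, ∀ c' ∈ R q', q ++ c = q' ++ c' → q = q') : gf Q * m ≤ gf S := by
  have h1 : gf Q * m ≤ ∑' q : Q, wE (q : List Bool) * gf (R q) := by
    unfold gf
    rw [← ENNReal.tsum_mul_right]
    exact ENNReal.tsum_le_tsum (fun q => mul_le_mul_right (hm q q.2) _)
  refine h1.trans ?_
  unfold gf
  simp_rw [← ENNReal.tsum_mul_left]
  rw [← ENNReal.tsum_sigma (f := fun (a : Q) (b : R a) => wE (a : List Bool) * wE (b : List Bool))]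
  let ψ : (Σ a : Q, R a) → S := fun p => ⟨(p.1 : List Bool) ++ (p.2 : List Bool), hS p.1 p.1.2 p.2 p.2.2⟩
  have hψ : Function.Injective ψ := by
    rintro ⟨⟨s, hs⟩, ⟨u, hu⟩⟩ ⟨⟨s', hs'⟩, ⟨u', hu'⟩⟩ h
    have h1 : s ++ u = s' ++ u' := congrArg Subtype.val h
    have h2 := hinj s hs s' hs' u hu u' hu' h1
    subst h2
    have h3 := List.append_cancel_left h1
    subst h3
    rfl
  calc ∑' p : (Σ a : Q, R a), wE (p.1 : List Bool) * wE (p.2 : List Bool) = ∑' p, wE (ψ p) :=
        tsum_congr (fun p => (wE_append _ _).symm)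
    _ ≤ ∑' t : S, wE t := ENNReal.tsum_comp_le_tsum_of_injective hψ (fun t => wE (t : List Bool))

/-- membership in gE -/
lemma mem_gE {T L r : ℕ} {t : List Bool} (hT : 1 ≤ T) (hL : 1 ≤ L) (hr : 1 ≤ r) :
    t ∈ gE upm oo true T L r ↔ (∀ i, 1 ≤ i → i ≤ t.length → vx oo up t i ∈ dm oo up true T L r) ∧
      (∀ i k, i < k → k ≤ t.length → vx oo up t i ≠ vx oo up t k) ∧ dx up t t.length = gn true up ∧
      (vx oo up t (t.length + 1)).1 - (vx oo up t (t.length + 1)).2 = 3 * r - 1 := by
  constructor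
  · intro ht
    obtain ⟨h1, h2⟩ := Finset.mem_filter.1 ht
    obtain ⟨ha, _⟩ := mem_exits.1 h1
    refine ⟨fun i h3 h4 => mem_dF upm |>.1 (ha.mem i h3 h4), ha.inj, h2, ?_⟩
    obtain ⟨⟨a1, a2, a3, a4, a5⟩, ⟨b1, b2, b3, b4⟩, ⟨c1, c2, c3⟩, ⟨e1, e2⟩, f1⟩ := dirs_distinct up upm
    have key : ip (tip oo up t - oo) (gn true up) = gc true r := by
      rcases dm_exit upm true hT hL hr h1 with ⟨hd, _⟩ | ⟨hd, _⟩ | ⟨hd, _⟩ | ⟨_, hi⟩
      · exact absurd (hd.symm.trans h2) (by decide)
      · exact absurd (hd.symm.trans h2) (by decide)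
      · exact absurd (hd.symm.trans h2) (by decide)
      · exact hi
    rw [ip_gn] at key
    exact key
  · rintro ⟨h1, h2, h3, h4⟩
    refine Finset.mem_filter.2 ⟨mem_exits.2 ⟨⟨fun i h5 h6 => mem_dF upm |>.2 (h1 i h5 h6), h2⟩, ?_⟩, h3⟩
    rw [mem_dF]
    intro h5
    have h6 : vx oo up t (t.length + 1) ∈ dm oo up true T L r := h5
    rw [mem_dm] at h6
    omega

end WL

open WL in
/-- P7 (WedgeLow.lean): the mass of the wedge walks, with the exit above the height h. -/
theorem wedge_low : ∃ (a : ℝ) (M : ℕ), 0 < a ∧ 1 ≤ M ∧ ∀ (T L r h : ℕ), 1 ≤ h → M * h ≤ T → T ≤ r → r ≤ 2 * T →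
    M * T ≤ L → ENNReal.ofReal (a * uu T) ≤
      gf {c | c ∈ Tube.gE (show up ∈ dirs by decide) oo true T L r ∧ 3 * (h : ℤ) ≤ lev c c.length} := by
  obtain ⟨a0, M0, ha0, hM0, hlow⟩ := low
  obtain ⟨p, M1, hp, hcode⟩ := Ex.spr_code Ex.lat0 1
  refine ⟨p * a0, M0 + M1 + 6, by positivity, by omega, ?_⟩
  intro T L r h hh hMT hTr hrT hML
  obtain ⟨Q, c1, c2, c3⟩ := hcode (2 * h) (by omega)
  choose! tt htt using c2
  have e1 : (M0 + M1 + 6) * h = M0 * h + M1 * h + 6 * h := by ring
  have e2 : (M0 + M1 + 6) * T = M0 * T + M1 * T + 6 * T := by ring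
  rw [e1] at hMT
  rw [e2] at hML
  have hM0h : 0 ≤ M0 * h := Nat.zero_le _
  have hM1h : (0 : ℤ) ≤ M1 * h := by positivity
  have hMTz : (M0 : ℤ) * h + M1 * h + 6 * h ≤ T := by exact_mod_cast hMT
  have hMLz : (M0 : ℤ) * T + M1 * T + 6 * T ≤ L := by exact_mod_cast hML
  have hM0T : (0 : ℤ) ≤ M0 * T := by positivity
  have hM1T : (0 : ℤ) ≤ M1 * T := by positivity
  have hM0hz : (0 : ℤ) ≤ M0 * h := by positivity
  have hL1 : 1 ≤ L := by omega
  -- facts about the prefixes
  have hQ : ∀ q ∈ Q, h ≤ tt q ∧ tt q ≤ 2 * h ∧ q ∈ Brd (tt q) ∧ (∃ s : ℕ, latE q = tt q + 2 * s ∧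
      (s : ℤ) ≤ M1 * h) ∧ ∀ i, i ≤ q.length → |lat q i| ≤ M1 * (2 * h) := by
    intro q hq
    obtain ⟨q1, q2, q3, q4, q5⟩ := htt q hq
    push_cast at q4 q5
    refine ⟨by omega, q2, q3, ?_, q5⟩
    have h5 := (mem_Brd.1 q3).2.2.2
    have h6 := lev_fst q q.length
    have h7 := lat_fst q q.length
    have h8 := abs_le.1 (q5 q.length le_rfl)
    have h9 : latE q = (vx oo up q q.length).1 := h7
    rw [h7] at h8
    have h10 : (tt q : ℤ) ≤ 2 * h := by exact_mod_cast q2
    have h11 : (0 : ℤ) < tt q := by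
      have : 0 < tt q := by omega
      exact_mod_cast this
    obtain ⟨w, hw⟩ : ∃ w : ℤ, w = M1 * h := ⟨_, rfl⟩
    have h12 : (M1 : ℤ) * (2 * h) = 2 * w := by
      rw [hw]
      ring
    rw [h12] at h8
    refine ⟨((latE q - tt q) / 2).toNat, ?_, ?_⟩
    · omega
    · rw [← hw]
      omega
  let R : List Bool → Set (List Bool) := fun q =>
    ((Tube.gE Tube.upm oo true (T - tt q) L (r - ((latE q - tt q) / 2).toNat) : Finset (List Bool)) : Set (List Bool))
  have hR : ∀ q ∈ Q, ∃ (t s : ℕ), t = tt q ∧ latE q = t + 2 * s ∧ (s : ℤ) ≤ M1 * h ∧ h ≤ t ∧ t ≤ 2 * h ∧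
      q ∈ Brd t ∧ (∀ i, i ≤ q.length → |lat q i| ≤ M1 * (2 * h)) ∧
      R q = ((Tube.gE Tube.upm oo true (T - t) L (r - s) : Finset (List Bool)) : Set (List Bool)) := by
    intro q hq
    obtain ⟨q1, q2, q3, ⟨s, q4, q4'⟩, q5⟩ := hQ q hq
    refine ⟨tt q, s, rfl, q4, q4', q1, q2, q3, q5, ?_⟩
    have e : ((latE q - tt q) / 2).toNat = s := by omega
    show ((Tube.gE Tube.upm oo true (T - tt q) L (r - ((latE q - tt q) / 2).toNat) : Finset (List Bool)) :
      Set (List Bool)) = _
    rw [e]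
  have hmain : gf Q * ENNReal.ofReal (a0 * uu T) ≤
      gf {c | c ∈ Tube.gE (show up ∈ dirs by decide) oo true T L r ∧ 3 * (h : ℤ) ≤ lev c c.length} := by
    apply gf_pre R
    · intro q hq
      obtain ⟨t, s, _, q4, q4', q1, q2, q3, q5, q6⟩ := hR q hq
      rw [q6]
      have s1 : (1 : ℤ) ≤ h := by exact_mod_cast hh
      have s2 : (s : ℤ) < T := by linarith
      have s3 : s < T := by exact_mod_cast s2
      have s4 : 6 * h ≤ T := by omega
      have k := hlow (T - t) L (r - s) (by omega) (by omega) (by omega) (le_trans (Nat.mul_le_mul_left M0 (Nat.sub_le T t)) (by omega))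
      refine le_trans ?_ k
      apply ENNReal.ofReal_le_ofReal
      apply mul_le_mul_of_nonneg_left _ ha0.le
      exact uu_anti (Nat.sub_le T t)
    · intro q hq c hc
      obtain ⟨t, s, _, q4, q4', q1, q2, q3, q5, q6⟩ := hR q hq
      rw [q6] at hc
      have s1 : (1 : ℤ) ≤ h := by exact_mod_cast hh
      have s2 : (s : ℤ) < T := by linarith
      have s3 : s < T := by exact_mod_cast s2
      have s4 : 6 * h ≤ T := by omega
      have hsr : s ≤ r := by omega
      have htT : t ≤ T := by omega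
      obtain ⟨g1, g2, g3, g4⟩ := (mem_gE (by omega) hL1 (by omega)).1 (Finset.mem_coe.1 hc)
      obtain ⟨b1, b2, b3, b4⟩ := mem_Brd.1 q3
      rw [Nat.cast_sub hsr] at g4
      have hE := lev_fst q q.length
      have hE2 := lat_fst q q.length
      have hE3 : latE q = (vx oo up q q.length).1 := hE2
      have hclen : 1 ≤ c.length := by
        by_contra hcon
        have hz : c.length = 0 := by omega
        rw [List.length_eq_zero_iff.1 hz] at g3
        exact absurd g3 (by decide)
      have key : ∀ i, i ≤ (q ++ c).length → ¬ i ≤ q.length → ∃ j, 1 ≤ j ∧ j ≤ c.length ∧ i = q.length + j := by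
        intro i h1 h2
        rw [List.length_append] at h1
        exact ⟨i - q.length, by omega, by omega, by omega⟩
      have hg1 : ∀ j, 1 ≤ j → j ≤ c.length → (0 < lev c j ∧ lev c j < 3 * ((T : ℤ) - t) + 2) ∧
          (vx oo up c j).2 - (vx oo up c j).1 < 3 * L ∧ (vx oo up c j).1 - (vx oo up c j).2 < 3 * ((r : ℤ) - s) - 1 := by
        intro j h1 h2
        have h3 := g1 j h1 h2
        rw [mem_dm, Nat.cast_sub hsr, Nat.cast_sub htT] at h3
        exact h3
      refine ⟨(mem_gE (by omega) hL1 (by omega)).2 ⟨?_, ?_, ?_, ?_⟩, ?_⟩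
      · intro i hi hl
        rw [mem_dm]
        by_cases h4 : i ≤ q.length
        · rw [lev_append (by omega), vx_append (by omega)]
          have h5 := b1 i hi h4
          have h6 := abs_le.1 (q5 i h4)
          rw [lat_fst] at h6
          have h7 := lev_fst q i
          obtain ⟨w, hw⟩ : ∃ w : ℤ, w = M1 * h := ⟨_, rfl⟩
          have h12 : (M1 : ℤ) * (2 * h) = 2 * w := by
            rw [hw]
            ring
          rw [h12] at h6
          rw [← hw] at hMTz
          refine ⟨⟨h5.1, by omega⟩, ?_, ?_⟩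
          · omega
          · omega
        · obtain ⟨j, j1, j2, rfl⟩ := key i hl h4
          rw [lev_cat b3, vx_cat b3, b4]
          have h5 := hg1 j j1 j2
          simp only [Prod.fst_add, Prod.snd_add]
          refine ⟨⟨by omega, by omega⟩, ?_, ?_⟩
          · omega
          · omega
      · intro i k hik hk heq
        by_cases h : k ≤ q.length
        · rw [vx_append (by omega), vx_append (by omega)] at heq
          exact b2 i k hik h heq
        · obtain ⟨j, j1, j2, rfl⟩ := key k hk h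
          by_cases h' : i ≤ q.length
          · have h5 := congrArg (fun p => ip p up) heq
            have h6 : lev (q ++ c) i = lev (q ++ c) (q.length + j) := h5
            rw [lev_cat b3, b4, lev_append (by omega)] at h6
            have h7 := (hg1 j j1 j2).1.1
            rcases Nat.eq_zero_or_pos i with hi | hi
            · rw [hi, lev_zero] at h6
              omega
            · have := (b1 i hi h').2
              omega
          · obtain ⟨j', j1', j2', rfl⟩ := key i (by omega) h'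
            rw [vx_cat b3, vx_cat b3] at heq
            exact g2 j' j (by omega) j2 (add_left_cancel heq)
      · rw [List.length_append, dx_cat b3, g3]
      · have e : (q ++ c).length + 1 = q.length + (c.length + 1) := by
          rw [List.length_append]
          omega
        rw [e, vx_cat b3]
        simp only [Prod.fst_add, Prod.snd_add]
        omega
      · rw [List.length_append, lev_cat b3, b4]
        have h5 := (hg1 c.length hclen le_rfl).1.1
        have h6 : (h : ℤ) ≤ t := by exact_mod_cast q1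
        omega
    · -- the prefix can be read off
      have side : ∀ q ∈ Q, ∀ q' ∈ Q, ∀ c ∈ R q, ∀ c' : List Bool, q ++ c = q' ++ c' → q.length ≤ q'.length → q = q' := by
        intro q hq q' hq' c hc c' heq hlen
        obtain ⟨t, s, _, q4, q4', q1, q2, q3, q5, q6⟩ := hR q hq
        obtain ⟨t', s', _, r4, r4', r1, r2, r3, r5, r6⟩ := hR q' hq'
        rw [q6] at hc
        have s1 : (1 : ℤ) ≤ h := by exact_mod_cast hh
        have s2 : (s : ℤ) < T := by linarith
        have s3 : s < T := by exact_mod_cast s2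
        have s4 : 6 * h ≤ T := by omega
        obtain ⟨g1, _, _, _⟩ := (mem_gE (by omega) hL1 (by omega)).1 (Finset.mem_coe.1 hc)
        have b3 := (mem_Brd.1 q3).2.2.1
        have b4 := (mem_Brd.1 q3).2.2.2
        obtain ⟨u, hu⟩ : ∃ u, q' = q ++ u := by
          have h1 : q <+: q' ++ c' := ⟨c, heq⟩
          have h2 : q' <+: q' ++ c' := ⟨c', rfl⟩
          obtain ⟨u, hu⟩ := List.prefix_of_prefix_length_le h1 h2 hlen
          exact ⟨u, hu.symm⟩
        have hcu : c = u ++ c' := by
          rw [hu, List.append_assoc] at heq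
          exact List.append_cancel_left heq
        have hu2 : u ∈ Brd (t' - t) := by
          rw [hu] at r3
          refine (Brd_cancel q3 r3 ?_).2
          intro j j1 j2
          rw [lev_cat b3, b4]
          have h1 : vx oo up c j ∈ _ := g1 j j1 (by rw [hcu, List.length_append]; omega)
          rw [mem_dm] at h1
          have h2 : lev c j = lev u j := by
            rw [hcu]
            exact lev_append (by omega)
          rw [← h2]
          have := h1.1.1
          omega
        apply c1 q hq q' hq' _ _ u [] hu2 nil_mem_Brd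
        rw [List.append_nil, hu]
      intro q hq q' hq' c hc c' hc' heq
      rcases le_total q.length q'.length with hl | hl
      · exact side q hq q' hq' c hc c' heq hl
      · exact (side q' hq' q hq c' hc' c heq.symm hl).symm
  refine le_trans ?_ hmain
  have e3 : p * a0 * uu T = p * (a0 * uu T) := by ring
  rw [e3, ENNReal.ofReal_mul hp.le]
  exact mul_le_mul' c3 le_rfl

end RP

end HexObs
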