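import Pool.Agent.RSWP.DefsP
import Pool.Agent.RSWP.LocalT
import Pool.Agent.RSWP.WedgeLow

/-!
RSWP, P15: the first moment.
-/

set_option autoImplicit false

namespace HexObs

namespace RP

open Finset ENNReal

private abbrev E3 (d : Pt) : Prop := d = e0 ∨ d = e1 ∨ d = e2

private lemma E3_mem {d : Pt} (h : E3 d) : d ∈ dirs := by
  rcases h with rfl | rfl | rfl <;> decide

private lemma rr_e0 : rr e0 = e1 := by decide

private lemma rr_e1 : rr e1 = e2 := by decide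

private lemma rr_e2 : rr e2 = e0 := by decide

private lemma fcross_mulE (u p q : Pt) : cross (mulE u p) (mulE u q) = nrm u * cross p q := by
  unfold cross mulE nrm
  ring

private lemma fvx {d : Pt} (hd : d ∈ dirs) : ∃ u : Pt, nrm u = 1 ∧ mulE u up = d ∧
    ∀ (m : Pt) (b : List Bool) (i : ℕ), vx m d b i = m + mulE u (vx oo up b i) := by
  refine ⟨rotTo up d, nrm_rotTo upd hd, rotTo_apply d upd, ?_⟩
  intro m b i
  have h := vx_mulE (rotTo up d) oo m up b i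
  rw [rotTo_apply d upd] at h
  rw [h]
  congr 2
  exact sub_zero _

/-- the height in direction d -/
private lemma fip {d : Pt} (hd : d ∈ dirs) (m : Pt) (b : List Bool) (i : ℕ) :
    ip (vx m d b i) d = ip m d + lev b i := by
  obtain ⟨u, hu, hud, h⟩ := fvx hd
  rw [h, ip_add_left]
  congr 1
  have h1 := ip_mulE u (vx oo up b i) up
  rw [hu, hud, one_mul] at h1
  exact h1

/-- the lateral position in direction d -/
private lemma fcr {d : Pt} (hd : d ∈ dirs) (m : Pt) (b : List Bool) (i : ℕ) :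
    cross d (vx m d b i) = cross d m - lat b i := by
  obtain ⟨u, hu, hud, h⟩ := fvx hd
  rw [h, cross_add_right]
  have h1 := fcross_mulE u up (vx oo up b i)
  rw [hu, hud, one_mul] at h1
  unfold lat
  rw [h1]
  ring

private lemma fcl {p : Pt} (h : cl p = 0) : (3 : ℤ) ∣ p.1 - p.2 :=
  (ZMod.intCast_zmod_eq_zero_iff_dvd _ 3).1 h

private lemma fcl' {p : Pt} (h : (3 : ℤ) ∣ p.1 - p.2) : cl p = 0 :=
  (ZMod.intCast_zmod_eq_zero_iff_dvd _ 3).2 h

/-- coordinates -/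
private lemma fco (p : Pt) : ip p e0 = p.1 + 2 * p.2 ∧ cross e0 p = -p.1 ∧ ip p e1 = p.1 - p.2 ∧
    cross e1 p = p.1 + p.2 ∧ ip p e2 = -2 * p.1 - p.2 ∧ cross e2 p = -p.2 := by
  refine ⟨?_, ?_, ?_, ?_, ?_, ?_⟩
  · unfold ip e0
    ring
  · unfold cross e0
    ring
  · unfold ip e1
    ring
  · unfold cross e1
    ring
  · unfold ip e2
    ring
  · unfold cross e2
    ring

private lemma fdet {d p q : Pt} (hd : E3 d) (h1 : ip p d = ip q d) (h2 : cross d p = cross d q) : p = q := by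
  obtain ⟨a1, a2, a3, a4, a5, a6⟩ := fco p
  obtain ⟨b1, b2, b3, b4, b5, b6⟩ := fco q
  rcases hd with rfl | rfl | rfl
  · rw [a1, b1] at h1
    rw [a2, b2] at h2
    ext <;> omega
  · rw [a3, b3] at h1
    rw [a4, b4] at h2
    ext <;> omega
  · rw [a5, b5] at h1
    rw [a6, b6] at h2
    ext <;> omega

private lemma fdvd {d p : Pt} (hd : E3 d) : cl p = 0 ↔ (3 : ℤ) ∣ ip p d := by
  obtain ⟨a1, a2, a3, a4, a5, a6⟩ := fco p
  constructor
  · intro h
    have h3 := fcl h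
    rcases hd with rfl | rfl | rfl
    · rw [a1]
      omega
    · rw [a3]
      omega
    · rw [a5]
      omega
  · intro h
    apply fcl'
    rcases hd with rfl | rfl | rfl
    · rw [a1] at h
      omega
    · rw [a3] at h
      omega
    · rw [a5] at h
      omega

private lemma fpar {d p : Pt} (hd : E3 d) : (2 : ℤ) ∣ ip p d - cross d p := by
  obtain ⟨a1, a2, a3, a4, a5, a6⟩ := fco p
  rcases hd with rfl | rfl | rfl
  · rw [a1, a2]
    omega
  · rw [a3, a4]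
    omega
  · rw [a5, a6]
    omega

/-- change of the direction -/
private lemma frr {d : Pt} (hd : E3 d) (p : Pt) : 2 * ip p (rr d) = -(3 * cross d p) - ip p d ∧
    3 * cross (rr d) p = 2 * ip p d + ip p (rr d) := by
  obtain ⟨a1, a2, a3, a4, a5, a6⟩ := fco p
  rcases hd with rfl | rfl | rfl
  · rw [rr_e0, a1, a2, a3, a4]
    constructor <;> ring
  · rw [rr_e1, a3, a4, a5, a6]
    constructor <;> ring
  · rw [rr_e2, a5, a6, a1, a2]
    constructor <;> ring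

private lemma frr_mem {d : Pt} (hd : E3 d) : E3 (rr d) := by
  rcases hd with rfl | rfl | rfl
  · right
    left
    exact rr_e0
  · right
    right
    exact rr_e1
  · left
    exact rr_e2

/-- points with given height and lateral position -/
private def pp (d : Pt) (t s : ℤ) : Pt :=
  (t * (d.1 - d.2) - s * (d.1 + 2 * d.2), t * (d.1 + 2 * d.2) + s * (2 * d.1 + d.2))

private lemma pp_ip {d : Pt} (hd : E3 d) (t s : ℤ) : ip (pp d t s) d = 3 * t ∧ cross d (pp d t s) = t + 2 * s := by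
  rcases hd with rfl | rfl | rfl
  · unfold ip cross pp e0
    constructor <;> ring
  · unfold ip cross pp e1
    constructor <;> ring
  · unfold ip cross pp e2
    constructor <;> ring

/-- the end of a walk that leaves through the gate -/
private lemma fgE {T L r : ℕ} (hT : 1 ≤ T) (hL : 1 ≤ L) (hr : 1 ≤ r) {c : List Bool}
    (hc : c ∈ Tube.gE upd oo true T L r) (h1 : 1 ≤ c.length) :
    3 * lat c c.length - lev c c.length = 6 * (r : ℤ) - 6 ∧ lev c c.length ≤ 3 * T := by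
  obtain ⟨h2, h3⟩ := Finset.mem_filter.1 hc
  have e1 : Tube.gn true up = (1, -1) := by decide
  rw [e1] at h3
  have h4 : ip (vx oo up c c.length) (1, -1) = 3 * (r : ℤ) - 3 := by
    rcases Tube.dm_exit upd true hT hL hr h2 with ⟨h, _⟩ | ⟨h, _⟩ | ⟨h, _⟩ | ⟨_, h⟩
    · rw [h3] at h
      exact absurd h (by decide)
    · rw [h3] at h
      exact absurd h (by decide)
    · rw [h3] at h
      exact absurd h (by decide)
    · have h5 : tip oo up c - oo = vx oo up c c.length + (1, -1) := by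
        show vx oo up c (c.length + 1) - oo = _
        rw [vx_succ, h3]
        exact sub_zero _
      rw [h5, e1, ip_add_left] at h
      have e2 : ip ((1, -1) : Pt) (1, -1) = 2 := by decide
      have e3 : Tube.gc true r = 3 * r - 1 := rfl
      rw [e2, e3] at h
      linarith
  have h6 : 2 * ip (vx oo up c c.length) (1, -1) = 3 * lat c c.length - lev c c.length := by
    unfold lat lev ip cross up
    ring
  obtain ⟨ha, _⟩ := mem_exits.1 h2
  have hs : Saw (Tube.dm oo up true T L r) oo up c := by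
    rw [← Tube.dF_coe upd true T L r]
    exact saw_coe.2 ha
  have h7 := hs.1 c.length h1 le_rfl
  have h8 := h7.1.2.2
  rw [lev_sub] at h8
  have h9 := lev_mod c c.length
  constructor
  · omega
  · split_ifs at h9 <;> omega

private lemma GB_one (K e : ℕ) (d m n : Pt) : GB K e (fun _ => 1) d m n = gf {b | BP K e d m n b} := by
  unfold GB gf
  apply tsum_congr
  intro b
  rw [mul_one]

private lemma GC_one (K e L : ℕ) (d n m : Pt) : GC K e L (fun _ => 1) d n m = gf {c | CP K e L d n m c} := by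
  unfold GC gf
  apply tsum_congr
  intro b
  rw [mul_one]

private lemma CW_ge : 0 ≤ CW := Tube.CW_nonneg

/-- one bridge -/
private lemma GB_low (K : ℕ) : ∃ (c : ℝ) (e_0 : ℕ), 0 < c ∧ ∀ (e : ℕ) (d m n : Pt), e_0 ≤ e → 1 ≤ e → E3 d →
    m ∈ Low K e d → n ∈ Upw K e d → ENNReal.ofReal (c * (uu e / e)) ≤ GB K e (fun _ => 1) d m n := by
  obtain ⟨c, t0, hc, h⟩ := localTube K (η := 1 / 6) (by norm_num)
  have hCW := CW_ge
  have hD : 0 < 2 * (6 + CW) := by linarith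
  refine ⟨c / (6 * (2 * (6 + CW)) ^ 3), t0, by positivity, ?_⟩
  intro e d m n h0 he hd hm hn
  have hdm := E3_mem hd
  obtain ⟨m1, m2, m3, m4, m5⟩ := hm
  obtain ⟨n1, n2, n3, n4, n5⟩ := hn
  obtain ⟨a, ha⟩ := (fdvd hd).1 m1
  obtain ⟨b, hb⟩ := (fdvd hd).1 n1
  have he' : (1 : ℤ) ≤ e := by exact_mod_cast he
  obtain ⟨t, ht⟩ : ∃ t : ℕ, (t : ℤ) = b - a := ⟨(b - a).toNat, Int.toNat_of_nonneg (by omega)⟩
  have ht1 : 4 * e ≤ t := by omega
  have ht2 : t ≤ 6 * e := by omega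
  obtain ⟨x, hx⟩ : ∃ x : ℤ, x = cross d m - cross d n := ⟨_, rfl⟩
  obtain ⟨KE, hKE⟩ : ∃ KE : ℤ, KE = (K : ℤ) * e := ⟨_, rfl⟩
  have k1 : (2 : ℤ) * K * e = 2 * KE := by rw [hKE]; ring
  have k2 : (4 : ℤ) * K * e = 4 * KE := by rw [hKE]; ring
  rw [k1] at m5 n4
  rw [k2] at n5
  have hx0 : x ≤ 0 := by omega
  have hpm := fpar (p := m) hd
  have hpn := fpar (p := n) hd
  have hev : Even (x - t) := by
    rw [Int.even_iff]
    omega
  have hab : |x| ≤ (K : ℤ) * t := by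
    rw [abs_of_nonpos hx0]
    have h1 : (K : ℤ) * (4 * e) ≤ K * t := by
      apply mul_le_mul_of_nonneg_left _ (by positivity)
      exact_mod_cast ht1
    have h2 : (K : ℤ) * (4 * e) = 4 * KE := by rw [hKE]; ring
    omega
  have key := h t x (by omega) hev hab
  rw [GB_one]
  refine le_trans ?_ (le_trans key (gf_mono ?_))
  · apply ENNReal.ofReal_le_ofReal
    have u1 := uu_double he
    have u2 := uu_double (T := 2 * e) (by omega)
    have u3 := uu_double (T := 2 * (2 * e)) (by omega)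
    have u4 : uu (2 * (2 * (2 * e))) ≤ uu t := uu_anti (by omega)
    obtain ⟨D, hDd⟩ : ∃ D, D = 2 * (6 + CW) := ⟨_, rfl⟩
    rw [← hDd] at u1 u2 u3 hD ⊢
    have u5 : uu e ≤ D ^ 3 * uu t := by
      calc uu e ≤ D * uu (2 * e) := u1
        _ ≤ D * (D * uu (2 * (2 * e))) := mul_le_mul_of_nonneg_left u2 hD.le
        _ ≤ D * (D * (D * uu (2 * (2 * (2 * e))))) := by
          apply mul_le_mul_of_nonneg_left _ hD.le
          exact mul_le_mul_of_nonneg_left u3 hD.le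
        _ ≤ D * (D * (D * uu t)) := by
          apply mul_le_mul_of_nonneg_left _ hD.le
          apply mul_le_mul_of_nonneg_left _ hD.le
          exact mul_le_mul_of_nonneg_left u4 hD.le
        _ = D ^ 3 * uu t := by ring
    have ht0 : (0 : ℝ) < t := by
      have : 0 < t := by omega
      exact_mod_cast this
    have he0 : (0 : ℝ) < e := by exact_mod_cast he
    have ht6 : (t : ℝ) ≤ 6 * e := by exact_mod_cast ht2
    rw [div_mul_div_comm, ← mul_div_assoc, div_le_div_iff₀ (by positivity) ht0]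
    have hut := uu_pos t
    calc c * uu e * t ≤ c * (D ^ 3 * uu t) * (6 * e) := by
          gcongr
      _ = c * uu t * (6 * D ^ 3 * e) := by ring
  · rintro w ⟨⟨hw1, hw2⟩, hw3⟩
    have hw4 := (mem_Brd.1 hw1).2.2.2
    have hw2' : lat w w.length = x := hw2
    refine ⟨⟨m1, m2, m3, m4, ?_⟩, ⟨n1, n2, n3, ?_, ?_⟩, ⟨t, hw1⟩, ?_, ?_⟩
    · rw [k1]
      exact m5
    · rw [k1]
      exact n4
    · rw [k2]
      exact n5
    · apply fdet hd
      · rw [fip hdm, hw4]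
        omega
      · rw [fcr hdm, hw2']
        omega
    · intro i hi
      obtain ⟨q1, q2⟩ := hw3 i hi
      rw [fcr hdm, k2]
      rw [min_eq_right hx0] at q1
      rw [max_eq_left hx0] at q2
      have ht6 : (t : ℝ) ≤ 6 * e := by exact_mod_cast ht2
      have q3 : ((x - e : ℤ) : ℝ) ≤ (lat w i : ℤ) := by
        push_cast
        linarith
      have q4 : ((lat w i : ℤ) : ℝ) ≤ ((e : ℤ) : ℝ) := by
        push_cast at q2 ⊢
        linarith
      have q5 : x - e ≤ lat w i := by exact_mod_cast q3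
      have q6 : lat w i ≤ e := by exact_mod_cast q4
      constructor <;> omega

/-- the wedge walks of one direction -/
private lemma GC_low : ∃ (a : ℝ) (M : ℕ), 0 < a ∧ 1 ≤ M ∧ ∀ (K e L : ℕ) (d : Pt), 6 * M ≤ K → 1 ≤ e →
    M * (K * e) ≤ L → E3 d → ((e + 1) ^ 3 : ℕ) * ENNReal.ofReal (a * uu (K * e)) ≤
      ∑' (n : Pt) (m : Pt), GC K e L (fun _ => 1) d n m := by
  obtain ⟨a, M, ha, hM, h⟩ := wedge_low
  refine ⟨a, M, ha, hM, ?_⟩
  intro K e L d hK he hL hd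
  have hdm := E3_mem hd
  obtain ⟨Q, hQ⟩ : ∃ Q : ℕ, Q = K * e := ⟨_, rfl⟩
  have hQ6 : M * (6 * e) ≤ Q := by
    rw [hQ]
    calc M * (6 * e) = 6 * M * e := by ring
      _ ≤ K * e := Nat.mul_le_mul_right _ hK
  have hQe : 6 * e ≤ Q := le_trans (Nat.le_mul_of_pos_left _ (by omega)) hQ6
  have hL1 : 1 ≤ L := by
    refine le_trans ?_ hL
    rw [← hQ]
    exact Nat.mul_pos (by omega) (by omega)
  obtain ⟨ri, hri⟩ : ∃ ri : Fin (e + 1) × Fin (e + 1) × Fin (e + 1) → ℕ, ∀ y, ri y =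
      Q + 2 * e + 1 + y.1 + y.2.1 - y.2.2 := ⟨fun y => Q + 2 * e + 1 + y.1 + y.2.1 - y.2.2, fun y => rfl⟩
  obtain ⟨A, hA⟩ : ∃ A : Fin (e + 1) × Fin (e + 1) × Fin (e + 1) → Set (List Bool), ∀ y, A y =
      {c | c ∈ Tube.gE (show up ∈ dirs by decide) oo true (K * e) L (ri y) ∧ 3 * ((6 * e : ℕ) : ℤ) ≤ lev c c.length} :=
    ⟨_, fun y => rfl⟩
  have hAl : ∀ y, ENNReal.ofReal (a * uu (K * e)) ≤ gf (A y) := by
    intro y
    rw [hA]
    have y1 := y.1.2
    have y2 := y.2.1.2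
    have y3 := y.2.2.2
    apply h (K * e) L (ri y) (6 * e) (by omega)
    · rw [← hQ]
      exact hQ6
    · rw [← hQ, hri]
      omega
    · rw [← hQ, hri]
      omega
    · exact hL
  obtain ⟨nn, hnn⟩ : ∃ nn : Fin (e + 1) × Fin (e + 1) × Fin (e + 1) → Pt, ∀ y, nn y =
      pp d (2 * e + ((y.1 : ℕ) : ℤ)) (Q + 2 * e + ((y.2.1 : ℕ) : ℤ)) := ⟨_, fun y => rfl⟩
  have hKQ : (K : ℤ) * e = Q := by
    rw [hQ]
    push_cast
    rfl
  have facts : ∀ y, ∀ c ∈ A y, CP K e L d (nn y) (vx (nn y) d c c.length) c ∧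
      3 * lat c c.length - lev c c.length = 6 * (ri y : ℤ) - 6 := by
    intro y c hc
    rw [hA] at hc
    obtain ⟨c1, c2⟩ := hc
    have y1 := y.1.2
    have y2 := y.2.1.2
    have y3 := y.2.2.2
    have hr1 : 1 ≤ ri y := by
      rw [hri]
      omega
    have hc0 : 1 ≤ c.length := by
      by_contra hcon
      have h5 : c.length = 0 := by omega
      rw [h5, lev_zero] at c2
      push_cast at c2
      omega
    obtain ⟨f1, f2⟩ := fgE (by rw [← hQ]; omega) hL1 hr1 c1 hc0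
    have g1 := (pp_ip hd (2 * e + ((y.1 : ℕ) : ℤ)) (Q + 2 * e + ((y.2.1 : ℕ) : ℤ))).1
    have g2 := (pp_ip hd (2 * e + ((y.1 : ℕ) : ℤ)) (Q + 2 * e + ((y.2.1 : ℕ) : ℤ))).2
    rw [← hnn] at g1 g2
    have g3 := fip hdm (nn y) c c.length
    have g4 := fcr hdm (nn y) c c.length
    have g5 := frr hd (vx (nn y) d c c.length)
    have hr2 : (ri y : ℤ) = Q + 2 * e + 1 + ((y.1 : ℕ) : ℤ) + ((y.2.1 : ℕ) : ℤ) - ((y.2.2 : ℕ) : ℤ) := by
      rw [hri]
      omega
    have hf2 : (3 : ℤ) * ((K * e : ℕ) : ℤ) = 3 * Q := by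
      rw [hQ]
    rw [hf2] at f2
    have e6 : ip (vx (nn y) d c c.length) (rr d) = -6 * (e : ℤ) - 3 * ((y.2.2 : ℕ) : ℤ) := by
      have := g5.1
      rw [g4, g3] at this
      omega
    have k1 : (2 : ℤ) * K * e = 2 * Q := by rw [← hKQ]; ring
    have k2 : (4 : ℤ) * K * e = 4 * Q := by rw [← hKQ]; ring
    push_cast at c2
    refine ⟨⟨⟨?_, ?_, ?_, ?_, ?_⟩, ⟨?_, ?_, ?_, ?_, ?_⟩, ⟨ri y, ?_, c1⟩, rfl⟩, f1⟩
    · rw [fdvd hd, g1]
      exact Dvd.intro _ rfl
    · rw [g1]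
      omega
    · rw [g1]
      omega
    · rw [g2, k1]
      omega
    · rw [g2, k2]
      omega
    · rw [fdvd (frr_mem hd), e6]
      omega
    · rw [e6]
      omega
    · rw [e6]
      omega
    · have := g5.2
      rw [g3, e6] at this
      omega
    · have := g5.2
      rw [g3, e6] at this
      rw [k1]
      omega
    · rw [← hQ, hri]
      omega
  have hsum : (((e + 1) ^ 3 : ℕ) : ℝ≥0∞) * ENNReal.ofReal (a * uu (K * e)) ≤ ∑ y, gf (A y) := by
    have h1 : ∑ y : Fin (e + 1) × Fin (e + 1) × Fin (e + 1), ENNReal.ofReal (a * uu (K * e)) ≤ ∑ y, gf (A y) :=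
      Finset.sum_le_sum fun y _ => hAl y
    refine le_trans (le_of_eq ?_) h1
    rw [Finset.sum_const, Finset.card_univ, Fintype.card_prod, Fintype.card_prod, Fintype.card_fin, nsmul_eq_mul]
    congr 2
    ring
  refine le_trans hsum ?_
  have e1 : ∑ y, gf (A y) = ∑' (z : Σ y : Fin (e + 1) × Fin (e + 1) × Fin (e + 1), A y), wE z.2.1 := by
    rw [ENNReal.tsum_sigma (fun (y : Fin (e + 1) × Fin (e + 1) × Fin (e + 1)) (c : A y) => wE c.1), tsum_fintype]
    rfl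
  have e2 : ∑' (n : Pt) (m : Pt), GC K e L (fun _ => 1) d n m =
      ∑' (z : Σ n : Pt, Σ m : Pt, {c : List Bool // CP K e L d n m c}), wE z.2.2.1 := by
    rw [ENNReal.tsum_sigma (fun (n : Pt) (y : Σ m : Pt, {c : List Bool // CP K e L d n m c}) => wE y.2.1)]
    apply tsum_congr
    intro n
    rw [ENNReal.tsum_sigma (fun (m : Pt) (c : {c : List Bool // CP K e L d n m c}) => wE c.1)]
    apply tsum_congr
    intro m
    unfold GC
    apply tsum_congr
    intro c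
    rw [mul_one]
  rw [e1, e2]
  obtain ⟨F, hF⟩ : ∃ F : (Σ y : Fin (e + 1) × Fin (e + 1) × Fin (e + 1), A y) →
      (Σ n : Pt, Σ m : Pt, {c : List Bool // CP K e L d n m c}), ∀ z, F z =
        ⟨nn z.1, vx (nn z.1) d z.2.1 z.2.1.length, ⟨z.2.1, (facts z.1 z.2.1 z.2.2).1⟩⟩ := ⟨_, fun z => rfl⟩
  have hinj : Function.Injective F := by
    intro z z' hzz
    rw [hF, hF] at hzz
    have q1 : nn z.1 = nn z'.1 := congrArg (fun y => y.1) hzz
    have q2 : z.2.1 = z'.2.1 := congrArg (fun y => y.2.2.1) hzz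
    have g1 := pp_ip hd (2 * e + ((z.1.1 : ℕ) : ℤ)) (Q + 2 * e + ((z.1.2.1 : ℕ) : ℤ))
    have g2 := pp_ip hd (2 * e + ((z'.1.1 : ℕ) : ℤ)) (Q + 2 * e + ((z'.1.2.1 : ℕ) : ℤ))
    rw [← hnn] at g1 g2
    rw [q1] at g1
    have r1 := (facts z.1 z.2.1 z.2.2).2
    have r2 := (facts z'.1 z'.2.1 z'.2.2).2
    rw [q2] at r1
    have s1 := z.1.2.2.2
    have s2 := z'.1.2.2.2
    have s3 := hri z.1
    have s4 := hri z'.1
    have i1 : (z.1.1 : ℕ) = z'.1.1 := by omega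
    have i2 : (z.1.2.1 : ℕ) = z'.1.2.1 := by omega
    have i3 : (z.1.2.2 : ℕ) = z'.1.2.2 := by omega
    have i4 : z.1 = z'.1 := Prod.ext (Fin.ext i1) (Prod.ext (Fin.ext i2) (Fin.ext i3))
    obtain ⟨y, c⟩ := z
    obtain ⟨y', c'⟩ := z'
    simp only [] at i4 q2
    subst i4
    have : c = c' := Subtype.ext q2
    rw [this]
  have e3 : ∀ z, wE (F z).2.2.1 = wE z.2.1 := by
    intro z
    rw [hF]
  calc ∑' z : (Σ y : Fin (e + 1) × Fin (e + 1) × Fin (e + 1), A y), wE z.2.1 =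
      ∑' z : (Σ y : Fin (e + 1) × Fin (e + 1) × Fin (e + 1), A y), wE (F z).2.2.1 :=
        tsum_congr fun z => (e3 z).symm
    _ ≤ _ := ENNReal.tsum_comp_le_tsum_of_injective hinj (fun z => wE z.2.2.1)

/-- P15 -/
theorem first : ∃ (K L e_0 : ℕ) (c : ℝ), 4 ≤ K ∧ 1 ≤ L ∧ 0 < c ∧ ∀ e : ℕ, e_0 ≤ e →
    ENNReal.ofReal (c * (e * uu e) ^ 6) ≤ EE K e (L * e) (fun _ => 1) (fun _ => 1) := by
  obtain ⟨a, M, ha, hM, hC⟩ := GC_low
  obtain ⟨K, hK⟩ : ∃ K, K = 6 * M := ⟨_, rfl⟩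
  obtain ⟨c, e_0, hc, hB⟩ := GB_low K
  have hCW := CW_ge
  -- doubling for the factor K
  obtain ⟨D, hD, hDu⟩ : ∃ D : ℝ, 0 < D ∧ ∀ e : ℕ, 1 ≤ e → uu e ≤ D * uu (K * e) := by
    have key : ∀ k : ℕ, ∀ e : ℕ, 1 ≤ e → uu e ≤ (2 * (6 + CW)) ^ k * uu (2 ^ k * e) := by
      intro k
      induction k with
      | zero =>
        intro e _
        rw [pow_zero, pow_zero, one_mul, one_mul]
      | succ k ih =>
        intro e he
        have h1 := ih e he
        have h2 := uu_double (T := 2 ^ k * e) (Nat.mul_pos (by positivity) he)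
        have h3 : 2 * (2 ^ k * e) = 2 ^ (k + 1) * e := by ring
        rw [h3] at h2
        calc uu e ≤ (2 * (6 + CW)) ^ k * uu (2 ^ k * e) := h1
          _ ≤ (2 * (6 + CW)) ^ k * (2 * (6 + CW) * uu (2 ^ (k + 1) * e)) :=
            mul_le_mul_of_nonneg_left h2 (by positivity)
          _ = _ := by ring
    refine ⟨(2 * (6 + CW)) ^ K, by positivity, ?_⟩
    intro e he
    refine (key K e he).trans ?_
    apply mul_le_mul_of_nonneg_left _ (by positivity)
    apply uu_anti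
    exact Nat.mul_le_mul_right _ Nat.lt_two_pow_self.le
  refine ⟨K, M * K, max e_0 1, c ^ 3 * (a / D) ^ 3, by omega, Nat.mul_pos hM (by omega), by positivity, ?_⟩
  intro e he
  have he0 : e_0 ≤ e := le_trans (le_max_left _ _) he
  have he1 : 1 ≤ e := le_trans (le_max_right _ _) he
  obtain ⟨L, hL⟩ : ∃ L, L = M * K * e := ⟨_, rfl⟩
  rw [← hL]
  have hL' : M * (K * e) ≤ L := by
    rw [hL, mul_assoc]
  obtain ⟨β, hβ⟩ : ∃ β, β = ENNReal.ofReal (c * (uu e / e)) := ⟨_, rfl⟩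
  obtain ⟨γ, hγ⟩ : ∃ γ, γ = (((e + 1) ^ 3 : ℕ) : ℝ≥0∞) * ENNReal.ofReal (a * uu (K * e)) := ⟨_, rfl⟩
  have hB' : ∀ (d m n : Pt), E3 d → m ∈ Low K e d → n ∈ Upw K e d → β ≤ GB K e (fun _ => 1) d m n := by
    intro d m n hd hm hn
    rw [hβ]
    exact hB e d m n he0 he1 hd hm hn
  have hC0 := hC K e L e0 (by omega) he1 hL' (Or.inl rfl)
  have hC1 := hC K e L e1 (by omega) he1 hL' (Or.inr (Or.inl rfl))
  have hC2 := hC K e L e2 (by omega) he1 hL' (Or.inr (Or.inr rfl))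
  rw [← hγ] at hC0 hC1 hC2
  have hz : ∀ (d n m : Pt), GC K e L (fun _ => 1) d n m ≠ 0 → n ∈ Upw K e d ∧ m ∈ Low K e (rr d) := by
    intro d n m hne
    by_contra hcon
    apply hne
    unfold GC
    rw [ENNReal.tsum_eq_zero]
    intro c
    exact absurd ⟨c.2.1, c.2.2.1⟩ hcon
  have hterm : ∀ m0 n0 m1 n1 m2 n2 : Pt, β ^ 3 * (GC K e L (fun _ => 1) e0 n0 m1 * (GC K e L (fun _ => 1) e1 n1 m2 *
      GC K e L (fun _ => 1) e2 n2 m0)) ≤ GB K e (fun _ => 1) e0 m0 n0 * GC K e L (fun _ => 1) e0 n0 m1 *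
      (GB K e (fun _ => 1) e1 m1 n1 * GC K e L (fun _ => 1) e1 n1 m2) *
        (GB K e (fun _ => 1) e2 m2 n2 * GC K e L (fun _ => 1) e2 n2 m0) := by
    intro m0 n0 m1 n1 m2 n2
    obtain ⟨G0, hG0⟩ : ∃ G, G = GC K e L (fun _ => 1) e0 n0 m1 := ⟨_, rfl⟩
    obtain ⟨G1, hG1⟩ : ∃ G, G = GC K e L (fun _ => 1) e1 n1 m2 := ⟨_, rfl⟩
    obtain ⟨G2, hG2⟩ : ∃ G, G = GC K e L (fun _ => 1) e2 n2 m0 := ⟨_, rfl⟩
    by_cases z0 : G0 = 0
    · rw [← hG0, z0]
      simp
    by_cases z1 : G1 = 0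
    · rw [← hG1, z1]
      simp
    by_cases z2 : G2 = 0
    · rw [← hG2, z2]
      simp
    rw [hG0] at z0
    rw [hG1] at z1
    rw [hG2] at z2
    obtain ⟨a1, a2⟩ := hz _ _ _ z0
    obtain ⟨b1, b2⟩ := hz _ _ _ z1
    obtain ⟨c1, c2⟩ := hz _ _ _ z2
    rw [rr_e0] at a2
    rw [rr_e1] at b2
    rw [rr_e2] at c2
    have w0 := hB' e0 m0 n0 (Or.inl rfl) c2 a1
    have w1 := hB' e1 m1 n1 (Or.inr (Or.inl rfl)) a2 b1
    have w2 := hB' e2 m2 n2 (Or.inr (Or.inr rfl)) b2 c1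
    rw [← hG0, ← hG1, ← hG2]
    calc β ^ 3 * (G0 * (G1 * G2)) = β * G0 * (β * G1) * (β * G2) := by ring
      _ ≤ _ := by gcongr
  have hprod : β ^ 3 * (γ * (γ * γ)) ≤ EE K e L (fun _ => 1) (fun _ => 1) := by
    have hsum : ∑' (m0 : Pt) (n0 : Pt) (m1 : Pt) (n1 : Pt) (m2 : Pt) (n2 : Pt), β ^ 3 *
        (GC K e L (fun _ => 1) e0 n0 m1 * (GC K e L (fun _ => 1) e1 n1 m2 * GC K e L (fun _ => 1) e2 n2 m0)) ≤
        EE K e L (fun _ => 1) (fun _ => 1) := by
      unfold EE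
      exact ENNReal.tsum_le_tsum fun m0 => ENNReal.tsum_le_tsum fun n0 => ENNReal.tsum_le_tsum fun m1 =>
        ENNReal.tsum_le_tsum fun n1 => ENNReal.tsum_le_tsum fun m2 => ENNReal.tsum_le_tsum fun n2 =>
          hterm m0 n0 m1 n1 m2 n2
    refine le_trans ?_ hsum
    have hC2' : γ ≤ ∑' (m0 : Pt) (n2 : Pt), GC K e L (fun _ => 1) e2 n2 m0 := by
      rw [ENNReal.tsum_comm]
      exact hC2
    simp_rw [ENNReal.tsum_mul_left, ENNReal.tsum_mul_right, ENNReal.tsum_mul_left]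
    gcongr
  refine le_trans ?_ hprod
  have hud : uu e ≤ D * uu (K * e) := hDu e he1
  have heR : (1 : ℝ) ≤ e := by exact_mod_cast he1
  have hγ' : ENNReal.ofReal ((e : ℝ) ^ 3 * (a / D * uu e)) ≤ γ := by
    rw [hγ, ENNReal.ofReal_mul (by positivity)]
    apply mul_le_mul'
    · rw [← ENNReal.ofReal_natCast]
      apply ENNReal.ofReal_le_ofReal
      push_cast
      gcongr
      linarith
    · apply ENNReal.ofReal_le_ofReal
      rw [div_mul_eq_mul_div, div_le_iff₀ hD]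
      calc a * uu e ≤ a * (D * uu (K * e)) := mul_le_mul_of_nonneg_left hud ha.le
        _ = _ := by ring
  have hu := uu_pos e
  calc ENNReal.ofReal (c ^ 3 * (a / D) ^ 3 * (e * uu e) ^ 6) =
      ENNReal.ofReal ((c * (uu e / e)) ^ 3 * (((e : ℝ) ^ 3 * (a / D * uu e)) * ((e : ℝ) ^ 3 * (a / D * uu e) *
        ((e : ℝ) ^ 3 * (a / D * uu e))))) := by
        congr 1
        field_simp
    _ = β ^ 3 * (ENNReal.ofReal ((e : ℝ) ^ 3 * (a / D * uu e)) * (ENNReal.ofReal ((e : ℝ) ^ 3 * (a / D * uu e)) *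
        ENNReal.ofReal ((e : ℝ) ^ 3 * (a / D * uu e)))) := by
        obtain ⟨X, hX⟩ : ∃ X : ℝ, X = (e : ℝ) ^ 3 * (a / D * uu e) := ⟨_, rfl⟩
        obtain ⟨Y, hY⟩ : ∃ Y : ℝ, Y = c * (uu e / e) := ⟨_, rfl⟩
        have hX0 : 0 ≤ X := by
          rw [hX]
          positivity
        have hY0 : 0 ≤ Y := by
          rw [hY]
          positivity
        rw [hβ, ← hX, ← hY, ENNReal.ofReal_mul (pow_nonneg hY0 3), ENNReal.ofReal_pow hY0, ENNReal.ofReal_mul hX0,
          ENNReal.ofReal_mul hX0]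
    _ ≤ β ^ 3 * (γ * (γ * γ)) := by gcongr

end RP

end HexObs
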