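import Pool.Agent.RSWP.DefsP

/-!
RSWP, P16, first part: the counting for the product of the number of roots and the number of decompositions. The two
geometric inputs (interlacing of two decompositions with the same root, position of another root) are hypotheses here.
-/

set_option autoImplicit false

namespace HexObs

namespace RP

open Finset ENNReal

theorem UU_pos6 (e : ℕ) : 0 < UU e :=
  Finset.sum_pos (fun i _ => uu_pos i) ⟨0, by simp⟩

theorem BB_fin (e : ℕ) (b : List Bool) : (BB e b).Finite :=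
  (Set.finite_Iic b.length).subset fun _ hs => hs.1

theorem BA_fin (e : ℕ) (b : List Bool) : (BA e b).Finite :=
  (Set.finite_Iic b.length).subset fun _ hs => hs.1

theorem CB_fin (K e : ℕ) (b : List Bool) : (CB K e b).Finite :=
  (Set.finite_Iic b.length).subset fun _ hs => hs.1

theorem CA_fin (K e : ℕ) (b : List Bool) : (CA K e b).Finite :=
  (Set.finite_Iic b.length).subset fun _ hs => hs.1

theorem fin2 {A B : Set ℕ} (hA : A.Finite) (hB : B.Finite) (f g : ℕ → ℕ) : (f '' A ∪ g '' B).Finite :=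
  (hA.image f).union (hB.image g)

theorem card2 {A B : Set ℕ} (hA : A.Finite) (hB : B.Finite) (f g : ℕ → ℕ) :
    (f '' A ∪ g '' B).ncard ≤ A.ncard + B.ncard :=
  (Set.ncard_union_le _ _).trans (Nat.add_le_add (Set.ncard_image_le hA) (Set.ncard_image_le hB))

theorem fac6 {U : ℝ≥0∞} (h0 : U ≠ 0) (h1 : U ≠ ∞) (a b : ℕ) :
    ((a + b : ℕ) : ℝ≥0∞) ≤ U * ((1 + a / U) * (1 + b / U)) := by
  have e1 : ((a + b : ℕ) : ℝ≥0∞) = U * ((a : ℝ≥0∞) / U + b / U) := by
    rw [mul_add, ENNReal.mul_div_cancel h0 h1, ENNReal.mul_div_cancel h0 h1]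
    push_cast
    rfl
  rw [e1]
  refine mul_le_mul_right ?_ U
  have e2 : (1 + (a : ℝ≥0∞) / U) * (1 + b / U) = (a / U + b / U) + (1 + a / U * (b / U)) := by ring
  rw [e2]
  exact le_self_add

/-- the lengths determine the pieces. -/
theorem cat6_inj {w w' : S6} (hc : cat6 w = cat6 w') (h1 : w.1.length = w'.1.length)
    (h2 : w.2.1.length = w'.2.1.length) (h3 : w.2.2.1.length = w'.2.2.1.length)
    (h4 : w.2.2.2.1.length = w'.2.2.2.1.length) (h6 : w.2.2.2.2.2.length = w'.2.2.2.2.2.length) : w = w' := by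
  obtain ⟨a, b, c, d, x, y⟩ := w
  obtain ⟨a', b', c', d', x', y'⟩ := w'
  simp only [cat6] at hc h1 h2 h3 h4 h6
  obtain ⟨q1, hc⟩ := List.append_inj hc h1
  obtain ⟨q2, hc⟩ := List.append_inj hc h2
  obtain ⟨q3, hc⟩ := List.append_inj hc h3
  obtain ⟨q4, hc⟩ := List.append_inj hc h4
  obtain ⟨q5, q6⟩ := List.append_inj' hc h6
  subst q1 q2 q3 q4 q5 q6
  rfl

/-- what two decompositions with the same root satisfy. -/
def Lace (K e : ℕ) (w w' : S6) : Prop :=
    ((w'.1.length ≤ w.1.length ∧ w'.1.length ∈ BA e w.1) ∨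
      (w.1.length ≤ w'.1.length ∧ w'.1.length - w.1.length ∈ CB K e w.2.1)) ∧
    ((w'.1.length + w'.2.1.length ≤ w.1.length + w.2.1.length ∧ w.1.length ≤ w'.1.length + w'.2.1.length ∧
        w'.1.length + w'.2.1.length - w.1.length ∈ CA K e w.2.1) ∨
      (w.1.length + w.2.1.length ≤ w'.1.length + w'.2.1.length ∧
        w'.1.length + w'.2.1.length - (w.1.length + w.2.1.length) ∈ BB e w.2.2.1)) ∧
    ((w'.1.length + w'.2.1.length + w'.2.2.1.length ≤ w.1.length + w.2.1.length + w.2.2.1.length ∧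
        w.1.length + w.2.1.length ≤ w'.1.length + w'.2.1.length + w'.2.2.1.length ∧
        w'.1.length + w'.2.1.length + w'.2.2.1.length - (w.1.length + w.2.1.length) ∈ BA e w.2.2.1) ∨
      (w.1.length + w.2.1.length + w.2.2.1.length ≤ w'.1.length + w'.2.1.length + w'.2.2.1.length ∧
        w'.1.length + w'.2.1.length + w'.2.2.1.length - (w.1.length + w.2.1.length + w.2.2.1.length) ∈
          CB K e w.2.2.2.1)) ∧
    ((w'.1.length + w'.2.1.length + w'.2.2.1.length + w'.2.2.2.1.length ≤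
          w.1.length + w.2.1.length + w.2.2.1.length + w.2.2.2.1.length ∧
        w.1.length + w.2.1.length + w.2.2.1.length ≤
          w'.1.length + w'.2.1.length + w'.2.2.1.length + w'.2.2.2.1.length ∧
        w'.1.length + w'.2.1.length + w'.2.2.1.length + w'.2.2.2.1.length -
          (w.1.length + w.2.1.length + w.2.2.1.length) ∈ CA K e w.2.2.2.1) ∨
      (w.1.length + w.2.1.length + w.2.2.1.length + w.2.2.2.1.length ≤
          w'.1.length + w'.2.1.length + w'.2.2.1.length + w'.2.2.2.1.length ∧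
        w'.1.length + w'.2.1.length + w'.2.2.1.length + w'.2.2.2.1.length -
          (w.1.length + w.2.1.length + w.2.2.1.length + w.2.2.2.1.length) ∈ BB e w.2.2.2.2.1)) ∧
    ((w.2.2.2.2.2.length ≤ w'.2.2.2.2.2.length ∧
        w.2.2.2.2.1.length + w.2.2.2.2.2.length - w'.2.2.2.2.2.length ∈ BA e w.2.2.2.2.1 ∧
        w'.2.2.2.2.2.length ≤ w.2.2.2.2.1.length + w.2.2.2.2.2.length) ∨
      (w'.2.2.2.2.2.length ≤ w.2.2.2.2.2.length ∧
        w.2.2.2.2.2.length - w'.2.2.2.2.2.length ∈ CB K e w.2.2.2.2.2))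

/-- the number of decompositions with a given root. -/
theorem DD_le {K e L : ℕ} {m : Pt} {w : S6} (hin : ∀ w' : S6, Dec K e L m w' → cat6 w = cat6 w' → Lace K e w w') :
    DD K e L (m, cat6 w) ≤ ((BA e w.1).ncard + (CB K e w.2.1).ncard) *
      (((CA K e w.2.1).ncard + (BB e w.2.2.1).ncard) * (((BA e w.2.2.1).ncard + (CB K e w.2.2.2.1).ncard) *
      (((CA K e w.2.2.2.1).ncard + (BB e w.2.2.2.2.1).ncard) *
      ((BA e w.2.2.2.2.1).ncard + (CB K e w.2.2.2.2.2).ncard)))) := by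
  classical
  set S1 : Set ℕ := (fun s => s) '' (BA e w.1) ∪ (fun s => w.1.length + s) '' (CB K e w.2.1) with hS1
  set S2 : Set ℕ := (fun s => w.1.length + s) '' (CA K e w.2.1) ∪
    (fun s => (w.1.length + w.2.1.length) + s) '' (BB e w.2.2.1) with hS2
  set S3 : Set ℕ := (fun s => (w.1.length + w.2.1.length) + s) '' (BA e w.2.2.1) ∪
    (fun s => (w.1.length + w.2.1.length + w.2.2.1.length) + s) '' (CB K e w.2.2.2.1) with hS3
  set S4 : Set ℕ := (fun s => (w.1.length + w.2.1.length + w.2.2.1.length) + s) '' (CA K e w.2.2.2.1) ∪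
    (fun s => (w.1.length + w.2.1.length + w.2.2.1.length + w.2.2.2.1.length) + s) '' (BB e w.2.2.2.2.1) with hS4
  set S5 : Set ℕ := (fun s => (w.2.2.2.2.1.length + w.2.2.2.2.2.length) - s) '' (BA e w.2.2.2.2.1) ∪
    (fun s => w.2.2.2.2.2.length - s) '' (CB K e w.2.2.2.2.2) with hS5
  have f1 : S1.Finite := fin2 (BA_fin _ _) (CB_fin _ _ _) _ _
  have f2 : S2.Finite := fin2 (CA_fin _ _ _) (BB_fin _ _) _ _
  have f3 : S3.Finite := fin2 (BA_fin _ _) (CB_fin _ _ _) _ _
  have f4 : S4.Finite := fin2 (CA_fin _ _ _) (BB_fin _ _) _ _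
  have f5 : S5.Finite := fin2 (BA_fin _ _) (CB_fin _ _ _) _ _
  have c1 : S1.ncard ≤ (BA e w.1).ncard + (CB K e w.2.1).ncard := card2 (BA_fin _ _) (CB_fin _ _ _) _ _
  have c2 : S2.ncard ≤ (CA K e w.2.1).ncard + (BB e w.2.2.1).ncard := card2 (CA_fin _ _ _) (BB_fin _ _) _ _
  have c3 : S3.ncard ≤ (BA e w.2.2.1).ncard + (CB K e w.2.2.2.1).ncard := card2 (BA_fin _ _) (CB_fin _ _ _) _ _
  have c4 : S4.ncard ≤ (CA K e w.2.2.2.1).ncard + (BB e w.2.2.2.2.1).ncard := card2 (CA_fin _ _ _) (BB_fin _ _) _ _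
  have c5 : S5.ncard ≤ (BA e w.2.2.2.2.1).ncard + (CB K e w.2.2.2.2.2).ncard := card2 (BA_fin _ _) (CB_fin _ _ _) _ _
  have hfin : (S1 ×ˢ (S2 ×ˢ (S3 ×ˢ (S4 ×ˢ S5)))).Finite := f1.prod (f2.prod (f3.prod (f4.prod f5)))
  have hle : Set.ncard {w' : S6 | Dec K e L m w' ∧ cat6 w' = cat6 w} ≤ (S1 ×ˢ (S2 ×ˢ (S3 ×ˢ (S4 ×ˢ S5)))).ncard := by
    refine Set.ncard_le_ncard_of_injOn (fun w' : S6 => (w'.1.length, w'.1.length + w'.2.1.length,
      w'.1.length + w'.2.1.length + w'.2.2.1.length, w'.1.length + w'.2.1.length + w'.2.2.1.length +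
      w'.2.2.2.1.length, w'.2.2.2.2.2.length)) ?_ ?_ hfin
    · rintro w' ⟨hw', hcw⟩
      obtain ⟨i1, i2, i3, i4, i5⟩ := hin w' hw' hcw.symm
      refine Set.mem_prod.2 ⟨?_, Set.mem_prod.2 ⟨?_, Set.mem_prod.2 ⟨?_, Set.mem_prod.2 ⟨?_, ?_⟩⟩⟩⟩
      · rcases i1 with i1 | i1
        · exact Or.inl ⟨_, i1.2, rfl⟩
        · exact Or.inr ⟨_, i1.2, by show w.1.length + (w'.1.length - w.1.length) = w'.1.length; omega⟩
      · rcases i2 with i2 | i2
        · refine Or.inl ⟨_, i2.2.2, ?_⟩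
          show w.1.length + (w'.1.length + w'.2.1.length - w.1.length) = w'.1.length + w'.2.1.length
          omega
        · refine Or.inr ⟨_, i2.2, ?_⟩
          show (w.1.length + w.2.1.length) + (w'.1.length + w'.2.1.length - (w.1.length + w.2.1.length)) =
            w'.1.length + w'.2.1.length
          omega
      · rcases i3 with i3 | i3
        · refine Or.inl ⟨_, i3.2.2, ?_⟩
          show (w.1.length + w.2.1.length) + (w'.1.length + w'.2.1.length + w'.2.2.1.length -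
            (w.1.length + w.2.1.length)) = w'.1.length + w'.2.1.length + w'.2.2.1.length
          omega
        · refine Or.inr ⟨_, i3.2, ?_⟩
          show (w.1.length + w.2.1.length + w.2.2.1.length) + (w'.1.length + w'.2.1.length + w'.2.2.1.length -
            (w.1.length + w.2.1.length + w.2.2.1.length)) = w'.1.length + w'.2.1.length + w'.2.2.1.length
          omega
      · rcases i4 with i4 | i4
        · refine Or.inl ⟨_, i4.2.2, ?_⟩
          show (w.1.length + w.2.1.length + w.2.2.1.length) + (w'.1.length + w'.2.1.length + w'.2.2.1.length +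
            w'.2.2.2.1.length - (w.1.length + w.2.1.length + w.2.2.1.length)) =
            w'.1.length + w'.2.1.length + w'.2.2.1.length + w'.2.2.2.1.length
          omega
        · refine Or.inr ⟨_, i4.2, ?_⟩
          show (w.1.length + w.2.1.length + w.2.2.1.length + w.2.2.2.1.length) + (w'.1.length + w'.2.1.length +
            w'.2.2.1.length + w'.2.2.2.1.length - (w.1.length + w.2.1.length + w.2.2.1.length + w.2.2.2.1.length)) =
            w'.1.length + w'.2.1.length + w'.2.2.1.length + w'.2.2.2.1.length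
          omega
      · rcases i5 with i5 | i5
        · refine Or.inl ⟨_, i5.2.1, ?_⟩
          show (w.2.2.2.2.1.length + w.2.2.2.2.2.length) - (w.2.2.2.2.1.length + w.2.2.2.2.2.length -
            w'.2.2.2.2.2.length) = w'.2.2.2.2.2.length
          have := i5.2.2
          omega
        · refine Or.inr ⟨_, i5.2, ?_⟩
          show w.2.2.2.2.2.length - (w.2.2.2.2.2.length - w'.2.2.2.2.2.length) = w'.2.2.2.2.2.length
          have := i5.1
          omega
    · rintro w1 ⟨_, hc1⟩ w2 ⟨_, hc2⟩ heq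
      simp only [Prod.mk.injEq] at heq
      obtain ⟨g1, g2, g3, g4, g5⟩ := heq
      exact cat6_inj (hc1.trans hc2.symm) g1 (by omega) (by omega) (by omega) g5
  refine hle.trans ?_
  rw [Set.ncard_prod, Set.ncard_prod, Set.ncard_prod, Set.ncard_prod]
  exact Nat.mul_le_mul c1 (Nat.mul_le_mul c2 (Nat.mul_le_mul c3 (Nat.mul_le_mul c4 c5)))

/-- the number of roots. -/
theorem N0_le {K e L : ℕ} {m : Pt} {w : S6} (hroot : ∀ k, k < (cat6 w).length → dx up (cat6 w) k = up →
    (vx m up (cat6 w) k, (cat6 w).rotate k) ∈ Y0 K e L (cat6 w).length → ((k ≤ w.1.length ∧ k ∈ BB e w.1) ∨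
      ((cat6 w).length ≤ k + w.2.2.2.2.2.length ∧
        k + w.2.2.2.2.2.length - (cat6 w).length ∈ CA K e w.2.2.2.2.2))) :
    N0 K e L (m, cat6 w) ≤ (BB e w.1).ncard + (CA K e w.2.2.2.2.2).ncard := by
  have hlen : w.2.2.2.2.2.length ≤ (cat6 w).length := by
    simp only [cat6, List.length_append]
    omega
  refine le_trans (Set.ncard_le_ncard ?_ (fin2 (BB_fin e w.1) (CA_fin K e w.2.2.2.2.2) (fun s => s)
    (fun s => s + (cat6 w).length - w.2.2.2.2.2.length))) (card2 (BB_fin _ _) (CA_fin _ _ _) _ _)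
  rintro k ⟨hk, hd, hy⟩
  rcases hroot k hk hd hy with h | h
  · exact Or.inl ⟨_, h.2, rfl⟩
  · refine Or.inr ⟨_, h.2, ?_⟩
    have := h.1
    show (k + w.2.2.2.2.2.length - (cat6 w).length) + (cat6 w).length - w.2.2.2.2.2.length = k
    omega

theorem alg6 (U b1 b2 b3 b4 b5 b6 a1 a2 a3 a4 a5 a6 : ℝ≥0∞) :
    U * (b1 * a6) * (U * (a1 * b2) * (U * (a2 * b3) * (U * (a3 * b4) * (U * (a4 * b5) * (U * (a5 * b6)))))) =
      U ^ 6 * (b1 * a1 * (b2 * a2 * (b3 * a3 * (b4 * a4 * (b5 * a5 * (b6 * a6)))))) := by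
  ring

/-- the product of the number of roots and the number of decompositions, from the two geometric statements. -/
theorem pairs6_of {K e L : ℕ} {m : Pt} {w : S6}
    (hin : ∀ w' : S6, Dec K e L m w' → cat6 w = cat6 w' → Lace K e w w')
    (hroot : ∀ k, k < (cat6 w).length → dx up (cat6 w) k = up →
      (vx m up (cat6 w) k, (cat6 w).rotate k) ∈ Y0 K e L (cat6 w).length → ((k ≤ w.1.length ∧ k ∈ BB e w.1) ∨
      ((cat6 w).length ≤ k + w.2.2.2.2.2.length ∧
        k + w.2.2.2.2.2.length - (cat6 w).length ∈ CA K e w.2.2.2.2.2))) :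
    ((N0 K e L (m, cat6 w) * DD K e L (m, cat6 w) : ℕ) : ℝ≥0∞) ≤ ENNReal.ofReal (UU e) ^ 6 *
      (fB e w.1 * (fC K e w.2.1 * (fB e w.2.2.1 * (fC K e w.2.2.2.1 * (fB e w.2.2.2.2.1 * fC K e w.2.2.2.2.2))))) := by
  have hU0 : ENNReal.ofReal (UU e) ≠ 0 := by
    rw [Ne, ENNReal.ofReal_eq_zero, not_le]
    exact UU_pos6 e
  have hU1 : ENNReal.ofReal (UU e) ≠ ∞ := ENNReal.ofReal_ne_top
  have h0 := N0_le hroot
  have h1 := DD_le hin
  have h2 := Nat.mul_le_mul h0 h1
  have h3 : ((N0 K e L (m, cat6 w) * DD K e L (m, cat6 w) : ℕ) : ℝ≥0∞) ≤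
      ((((BB e w.1).ncard + (CA K e w.2.2.2.2.2).ncard : ℕ) : ℝ≥0∞) *
      (((BA e w.1).ncard + (CB K e w.2.1).ncard : ℕ) *
      (((CA K e w.2.1).ncard + (BB e w.2.2.1).ncard : ℕ) * (((BA e w.2.2.1).ncard + (CB K e w.2.2.2.1).ncard : ℕ) *
      (((CA K e w.2.2.2.1).ncard + (BB e w.2.2.2.2.1).ncard : ℕ) *
      ((BA e w.2.2.2.2.1).ncard + (CB K e w.2.2.2.2.2).ncard : ℕ)))))) := by
    exact_mod_cast h2
  refine h3.trans ?_
  refine le_trans (mul_le_mul' (fac6 hU0 hU1 _ _) (mul_le_mul' (fac6 hU0 hU1 _ _) (mul_le_mul' (fac6 hU0 hU1 _ _)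
    (mul_le_mul' (fac6 hU0 hU1 _ _) (mul_le_mul' (fac6 hU0 hU1 _ _) (fac6 hU0 hU1 _ _)))))) (le_of_eq ?_)
  exact alg6 _ _ _ _ _ _ _ _ _ _ _ _ _

end RP

end HexObs
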