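import Pool.Agent.HexPoly.LoopDefs
import Pool.Agent.W47.Bridge
import Pool.Agent.TStar.FinB

/-!
RSWP Q2: polygons through the origin that occupy many rows, in the notation of this project: a loop without its
closing edge is a self-avoiding walk, and it has a site at distance at least t / 2 if it occupies t >= 4 rows.
-/

set_option autoImplicit false
open scoped Classical

namespace HexObs

namespace RP

open CC

/-- the place in the plane of a site of the brick wall. -/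
noncomputable def tlPhi (p : ℤ × ℤ) : ℂ :=
  ⟨(3 * (p.2 : ℝ) - (if Even (p.1 + p.2) then 0 else 1)) / 2, Real.sqrt 3 / 2 * (p.1 : ℝ)⟩

/-- the letter of a step. -/
noncomputable def tlLet (p q : ℤ × ℤ) : Fin 3 :=
  if q.1 = p.1 then 0 else if (Even (p.1 + p.2) ↔ q.1 = p.1 + 1) then 1 else 2

lemma tl_exp0 : Complex.exp (2 * (Real.pi : ℂ) * Complex.I * (((0 : Fin 3) : ℕ) : ℂ) / 3) = ⟨1, 0⟩ := by
  rw [encwa_exp]
  show (zt * zt) ^ 0 = _
  rw [pow_zero]
  apply Complex.ext <;> simp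

lemma tl_exp1 : Complex.exp (2 * (Real.pi : ℂ) * Complex.I * (((1 : Fin 3) : ℕ) : ℂ) / 3) =
    ⟨-1 / 2, Real.sqrt 3 / 2⟩ := by
  rw [encwa_exp]
  show (zt * zt) ^ 1 = _
  rw [pow_one, zt_sq]
  apply Complex.ext
  · simp [zt]
    norm_num
  · simp [zt]

lemma tl_exp2 : Complex.exp (2 * (Real.pi : ℂ) * Complex.I * (((2 : Fin 3) : ℕ) : ℂ) / 3) =
    ⟨-1 / 2, -(Real.sqrt 3 / 2)⟩ := by
  have hz4 : (zt * zt) ^ 2 = - zt := by
    rw [zt_sq]
    linear_combination zt_sq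
  rw [encwa_exp]
  show (zt * zt) ^ 2 = _
  rw [hz4]
  apply Complex.ext
  · simp [zt]
    norm_num
  · simp [zt]

lemma tl_step {f : ℕ → Fin 3 → ℂ} (hf : ∀ i a, f i a =
    (-1 : ℂ) ^ i * Complex.exp (2 * (Real.pi : ℂ) * Complex.I * ((a : ℕ) : ℂ) / 3)) {p q : ℤ × ℤ}
    (h : Edge p q) {i : ℕ} (hi : Even (p.1 + p.2) ↔ Even i) : tlPhi q = tlPhi p + f i (tlLet p q) := by
  obtain ⟨x, y⟩ := p
  obtain ⟨x', y'⟩ := q
  rw [hf]
  unfold Edge at h
  simp only [Prod.mk.injEq] at h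
  simp only at hi
  rcases h with ⟨rfl, rfl⟩ | ⟨rfl, rfl⟩ | ⟨⟨rfl, rfl⟩, he⟩ | ⟨⟨rfl, rfl⟩, he⟩
  · -- x' = x + 1
    have e1 : Even (x + 1 + y') ↔ ¬ Even (x + y') := by
      rw [show x + 1 + y' = x + y' + 1 by ring, Int.even_add_one]
    by_cases hp : Even (x + y')
    · have hl : tlLet (x, y') (x + 1, y') = 1 := by
        unfold tlLet
        simp [hp]
      rw [hl, tl_exp1, (hi.1 hp).neg_one_pow, one_mul]
      unfold tlPhi
      simp only [e1, hp, not_true_eq_false, if_true, if_false]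
      apply Complex.ext
      · simp
        ring
      · simp
        ring
    · have hl : tlLet (x, y') (x + 1, y') = 2 := by
        unfold tlLet
        simp [hp]
      have hi' : Odd i := Nat.not_even_iff_odd.1 (fun h => hp (hi.2 h))
      rw [hl, tl_exp2, hi'.neg_one_pow]
      unfold tlPhi
      simp only [e1, hp, not_false_eq_true, if_true, if_false]
      apply Complex.ext
      · simp
        ring
      · simp
        ring
  · -- x = x' + 1
    have e1 : Even (x' + 1 + y) ↔ ¬ Even (x' + y) := by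
      rw [show x' + 1 + y = x' + y + 1 by ring, Int.even_add_one]
    rw [e1] at hi
    by_cases hp : Even (x' + y)
    · have hl : tlLet (x' + 1, y) (x', y) = 1 := by
        unfold tlLet
        simp only [e1, hp]
        simp
        omega
      have hi' : Odd i := Nat.not_even_iff_odd.1 (fun h => hi.2 h hp)
      rw [hl, tl_exp1, hi'.neg_one_pow]
      unfold tlPhi
      simp only [e1, hp, not_true_eq_false, if_true, if_false]
      apply Complex.ext
      · simp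
        ring
      · simp
        ring
    · have hl : tlLet (x' + 1, y) (x', y) = 2 := by
        unfold tlLet
        simp only [e1, hp]
        simp
        omega
      rw [hl, tl_exp2, (hi.1 hp).neg_one_pow, one_mul]
      unfold tlPhi
      simp only [e1, hp, not_false_eq_true, if_true, if_false]
      apply Complex.ext
      · simp
        ring
      · simp
        ring
  · -- y' = y + 1
    have e1 : ¬ Even (x' + (y + 1)) := by
      rw [← add_assoc, Int.even_add_one, not_not]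
      exact he
    have hl : tlLet (x', y) (x', y + 1) = 0 := by
      unfold tlLet
      simp
    rw [hl, tl_exp0, (hi.1 he).neg_one_pow, one_mul]
    unfold tlPhi
    simp only [e1, he, if_true, if_false]
    apply Complex.ext
    · simp
      ring
    · simp
  · -- y = y' + 1
    have e1 : ¬ Even (x + (y' + 1)) := by
      rw [← add_assoc, Int.even_add_one, not_not]
      exact he
    have hl : tlLet (x, y' + 1) (x, y') = 0 := by
      unfold tlLet
      simp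
    have hi' : Odd i := Nat.not_even_iff_odd.1 (fun h => e1 (hi.2 h))
    rw [hl, tl_exp0, hi'.neg_one_pow]
    unfold tlPhi
    simp only [e1, he, if_true, if_false]
    apply Complex.ext
    · simp
      ring
    · simp

lemma tl_parity {p q : ℤ × ℤ} (h : Edge p q) : Even (q.1 + q.2) ↔ ¬ Even (p.1 + p.2) := by
  obtain ⟨x, y⟩ := p
  obtain ⟨x', y'⟩ := q
  unfold Edge at h
  simp only [Prod.mk.injEq] at h
  simp only [Int.even_iff]
  omega

lemma tlPhi_inj {p q : ℤ × ℤ} (h : tlPhi p = tlPhi q) : p = q := by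
  obtain ⟨x, y⟩ := p
  obtain ⟨x', y'⟩ := q
  have h3 : (0 : ℝ) < Real.sqrt 3 := Real.sqrt_pos.2 (by norm_num)
  have h1 := congrArg Complex.im h
  have h2 := congrArg Complex.re h
  unfold tlPhi at h1 h2
  simp only at h1 h2
  have h4 : (x : ℝ) = x' := mul_left_cancel₀ (by positivity) h1
  have h5 : x = x' := by exact_mod_cast h4
  subst h5
  have h6 : (3 * (y : ℝ) - (if Even (x + y) then 0 else 1)) = 3 * (y' : ℝ) - (if Even (x + y') then 0 else 1) := by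
    linarith
  have h7 : y = y' := by
    split_ifs at h6
    · have h8 : (3 : ℝ) * y = 3 * y' := by linarith
      have h9 : 3 * y = 3 * y' := by exact_mod_cast h8
      omega
    · have h8 : (3 : ℝ) * y = 3 * y' - 1 := by linarith
      have h9 : 3 * y = 3 * y' - 1 := by exact_mod_cast h8
      omega
    · have h8 : (3 : ℝ) * y - 1 = 3 * y' := by linarith
      have h9 : 3 * y - 1 = 3 * y' := by exact_mod_cast h8
      omega
    · have h8 : (3 : ℝ) * y = 3 * y' := by linarith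
      have h9 : 3 * y = 3 * y' := by exact_mod_cast h8
      omega
  rw [h7]

/-- the letters of a loop, without the closing edge. -/
noncomputable def tlS {n : ℕ} (g : Fin (n + 1) → ℤ × ℤ) : Fin n → Fin 3 :=
  fun i => tlLet (g i.castSucc) (g i.succ)

lemma tl_edge {n : ℕ} {g : Fin (n + 1) → ℤ × ℤ} (hg : Loop n g) (i : Fin n) :
    Edge (g i.castSucc) (g i.succ) := by
  have h := hg.2.2 i.castSucc
  have e : i.castSucc + 1 = i.succ := Fin.coeSucc_eq_succ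
  rwa [e] at h

lemma tl_par {n : ℕ} {g : Fin (n + 1) → ℤ × ℤ} (hg : Loop n g) : ∀ j : ℕ, ∀ hj : j < n + 1,
    (Even ((g ⟨j, hj⟩).1 + (g ⟨j, hj⟩).2) ↔ Even j) := by
  intro j
  induction j with
  | zero =>
    intro hj
    have h0 : g ⟨0, hj⟩ = (0, 0) := hg.1
    rw [h0]
    simp
  | succ j ih =>
    intro hj
    have h1 := tl_parity (tl_edge hg ⟨j, by omega⟩)
    have h2 := ih (by omega)
    have h3 : ((⟨j, by omega⟩ : Fin n).castSucc : Fin (n + 1)) = ⟨j, by omega⟩ := rfl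
    have h4 : ((⟨j, by omega⟩ : Fin n).succ : Fin (n + 1)) = ⟨j + 1, hj⟩ := rfl
    rw [h3, h4, h2] at h1
    rw [h1, Nat.even_add_one]

lemma tl_pos {f : ℕ → Fin 3 → ℂ} (hf : ∀ i a, f i a =
    (-1 : ℂ) ^ i * Complex.exp (2 * (Real.pi : ℂ) * Complex.I * ((a : ℕ) : ℂ) / 3)) {n : ℕ}
    {g : Fin (n + 1) → ℤ × ℤ} (hg : Loop n g) : ∀ j : ℕ, ∀ hj : j < n + 1,
    SawNu.pos f (tlS g) j = tlPhi (g ⟨j, hj⟩) := by
  intro j
  induction j with
  | zero =>
    intro hj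
    have h0 : g ⟨0, hj⟩ = (0, 0) := hg.1
    rw [h0]
    unfold SawNu.pos tlPhi
    simp
    apply Complex.ext <;> simp
  | succ j ih =>
    intro hj
    have hj' : j < n := by omega
    rw [encwa_pos_succ f (tlS g) hj', ih (by omega)]
    have h1 := tl_step hf (tl_edge hg ⟨j, hj'⟩) (i := j) (tl_par hg j (by omega))
    exact h1.symm

lemma tl_mem {f : ℕ → Fin 3 → ℂ} (hf : ∀ i a, f i a =
    (-1 : ℂ) ^ i * Complex.exp (2 * (Real.pi : ℂ) * Complex.I * ((a : ℕ) : ℂ) / 3)) {n : ℕ}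
    {g : Fin (n + 1) → ℤ × ℤ} (hg : Loop n g) : tlS g ∈ SawNu.saw f n := by
  unfold SawNu.saw
  rw [Finset.mem_filter]
  refine ⟨Finset.mem_univ _, ?_⟩
  intro j₁ j₂ h12
  rw [tl_pos hf hg j₁ j₁.2, tl_pos hf hg j₂ j₂.2] at h12
  exact hg.2.1 (tlPhi_inj h12)

lemma tl_inj {n : ℕ} {g g' : Fin (n + 1) → ℤ × ℤ} (hg : Loop n g) (hg' : Loop n g') (h : tlS g = tlS g') :
    g = g' := by
  have hf : ∀ (i : ℕ) (a : Fin 3), (fun (i : ℕ) (a : Fin 3) =>
    (-1 : ℂ) ^ i * Complex.exp (2 * (Real.pi : ℂ) * Complex.I * ((a : ℕ) : ℂ) / 3)) i a =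
    (-1 : ℂ) ^ i * Complex.exp (2 * (Real.pi : ℂ) * Complex.I * ((a : ℕ) : ℂ) / 3) := fun _ _ => rfl
  funext j
  have h1 := tl_pos hf hg j j.2
  have h2 := tl_pos hf hg' j j.2
  rw [h, h2] at h1
  exact (tlPhi_inj h1).symm

lemma tl_re (p : ℤ × ℤ) : 3 * (p.2 : ℝ) / 2 - 1 / 2 ≤ (tlPhi p).re ∧ (tlPhi p).re ≤ 3 * (p.2 : ℝ) / 2 := by
  unfold tlPhi
  simp only
  split_ifs <;> constructor <;> linarith

lemma tl_far {n : ℕ} {g : Fin (n + 1) → ℤ × ℤ} {t : ℕ} (ht : 4 ≤ t) (hr : Rows t g) :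
    ∃ j, (t : ℝ) / 2 ≤ ‖tlPhi (g j)‖ := by
  obtain ⟨a, -, ⟨i, hi⟩, i', hi'⟩ := hr
  have h1 := (tl_re (g i)).2
  have h2 := (tl_re (g i')).1
  rw [hi] at h1
  rw [hi'] at h2
  push_cast at h2
  have h4 : (4 : ℝ) ≤ t := by exact_mod_cast ht
  by_contra hcon
  push Not at hcon
  have h5 := hcon i
  have h6 := hcon i'
  have h7 := Complex.abs_re_le_norm (tlPhi (g i))
  have h8 := Complex.abs_re_le_norm (tlPhi (g i'))
  have h9 := neg_abs_le (tlPhi (g i)).re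
  have h10 := le_abs_self (tlPhi (g i')).re
  linarith

theorem tl_count {f : ℕ → Fin 3 → ℂ} (hf : ∀ i a, f i a =
    (-1 : ℂ) ^ i * Complex.exp (2 * (Real.pi : ℂ) * Complex.I * ((a : ℕ) : ℂ) / 3)) {n T : ℕ} (hT : 4 ≤ T)
    {r : ℝ} (hr : 2 * r ≤ T) : Set.ncard {g | Loop n g ∧ ∃ t, T ≤ t ∧ Rows t g} ≤
    ((SawNu.saw f n).filter (fun s => ∃ j : Fin (n + 1), r ≤ ‖SawNu.pos f s j‖)).card := by
  rw [← Set.ncard_coe_finset]
  refine Set.ncard_le_ncard_of_injOn tlS ?_ ?_ (Finset.finite_toSet _)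
  · rintro g ⟨hg, t, ht, hrow⟩
    rw [Finset.mem_coe, Finset.mem_filter]
    refine ⟨tl_mem hf hg, ?_⟩
    obtain ⟨j, hj⟩ := tl_far (by omega) hrow
    refine ⟨j, ?_⟩
    rw [tl_pos hf hg j j.2]
    have h1 : (T : ℝ) ≤ t := by exact_mod_cast ht
    have h2 : g ⟨j, j.2⟩ = g j := rfl
    rw [h2]
    linarith
  · rintro g ⟨hg, -⟩ g' ⟨hg', -⟩ h
    exact tl_inj hg hg' h

/-- the number of the words does not depend on the first direction. -/
lemma tl_FW {d : Pt} (e : Pt) (n : ℕ) (r : ℤ) : (FW d e n r).ncard ≤ NW n := by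
  unfold NW FW
  refine Set.ncard_le_ncard ?_ ((List.finite_length_eq Bool n).subset fun t ht => ht.1)
  rintro t ⟨h1, h2, -⟩
  refine ⟨h1, ?_⟩
  intro i k hik hk heq
  apply h2 i k hik hk
  have hv : ∀ j, vx oo d t j = oo + mulE (rotTo up d) (vx oo up t j - oo) := by
    intro j
    have := vx_mulE (rotTo up d) oo oo up t j
    rw [rotTo_apply d upd] at this
    exact this
  rw [hv, hv, heq]

lemma tl_saw {f : ℕ → Fin 3 → ℂ} (hf : ∀ i a, f i a =
    (-1 : ℂ) ^ i * Complex.exp (2 * (Real.pi : ℂ) * Complex.I * ((a : ℕ) : ℂ) / 3)) {n : ℕ} (hn : 1 ≤ n) :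
    (SawNu.saw f n).card ≤ 36 * NW n := by
  have h := enc_upper hf hn 0
  have hfil : (SawNu.saw f n).filter (fun s => ∃ j : Fin (n + 1), ((0 : ℤ) : ℝ) ≤ ‖SawNu.pos f s j‖) =
      SawNu.saw f n := by
    apply Finset.filter_true_of_mem
    intro s _
    refine ⟨0, ?_⟩
    rw [Int.cast_zero]
    exact norm_nonneg _
  rw [hfil] at h
  refine h.trans ?_
  calc ∑ d ∈ dirs, ∑ e ∈ dirs, (FW d e n 0).ncard ≤ ∑ d ∈ dirs, ∑ e ∈ dirs, NW n :=
        Finset.sum_le_sum fun d _ => Finset.sum_le_sum fun e _ => tl_FW e n 0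
    _ = 36 * NW n := by
        rw [Finset.sum_const, Finset.sum_const, show dirs.card = 6 by decide, smul_eq_mul, smul_eq_mul]
        ring

/-- the bound for the loops from the tail of the walks. -/
theorem tl_main {c θ K : ℝ} (hc0 : 0 < c) (hc1 : c < 1) (hθ : 0 < θ) (hK : 0 < K)
    (hT : ∀ (f : ℕ → Fin 3 → ℂ), (∀ i a, f i a =
      (-1 : ℂ) ^ i * Complex.exp (2 * (Real.pi : ℂ) * Complex.I * ((a : ℕ) : ℂ) / 3)) →
      ∀ n : ℕ, 1 ≤ n →
      (((SawNu.saw f n).filter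
        (fun s => ∃ j : Fin (n + 1), (n : ℝ) ^ (1 - c) ≤ ‖SawNu.pos f s j‖)).card : ℝ) ≤
      K * Real.exp (-((n : ℝ) ^ θ)) * ((SawNu.saw f n).card : ℝ)) :
    ∃ c θ K : ℝ, 0 < c ∧ c < 1 ∧ 0 < θ ∧ 0 < K ∧ ∀ n T : ℕ, 1 ≤ n → 4 ≤ T → 2 * (n : ℝ) ^ (1 - c) ≤ T →
    (Set.ncard {f | CC.Loop n f ∧ ∃ t, T ≤ t ∧ CC.Rows t f} : ℝ) ≤
      K * Real.exp (-((n : ℝ) ^ θ)) * Real.sqrt (2 + Real.sqrt 2) ^ n := by
  obtain ⟨K2, hK2, hcS⟩ := cS_eps (ε := θ / 2) (by linarith)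
  refine ⟨c, θ / 2, K * (36 * (K2 * Real.exp 1)), hc0, hc1, by linarith, by positivity, ?_⟩
  intro n T hn hT4 hnT
  have hf : ∀ (i : ℕ) (a : Fin 3), (fun (i : ℕ) (a : Fin 3) =>
    (-1 : ℂ) ^ i * Complex.exp (2 * (Real.pi : ℂ) * Complex.I * ((a : ℕ) : ℂ) / 3)) i a =
    (-1 : ℂ) ^ i * Complex.exp (2 * (Real.pi : ℂ) * Complex.I * ((a : ℕ) : ℂ) / 3) := fun _ _ => rfl
  have h1 := hT _ hf n hn
  have h2 : (Set.ncard {f | CC.Loop n f ∧ ∃ t, T ≤ t ∧ CC.Rows t f} : ℝ) ≤ _ :=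
    Nat.cast_le.2 (tl_count hf (n := n) hT4 (r := (n : ℝ) ^ (1 - c)) hnT)
  refine h2.trans (h1.trans ?_)
  have hxc := xc_pos
  have hn0 : (0 : ℝ) ≤ n := Nat.cast_nonneg n
  have h3 : ((SawNu.saw (fun (i : ℕ) (a : Fin 3) =>
      (-1 : ℂ) ^ i * Complex.exp (2 * (Real.pi : ℂ) * Complex.I * ((a : ℕ) : ℂ) / 3)) n).card : ℝ) ≤
      36 * (K2 * Real.exp ((n : ℝ) ^ (θ / 2)) * Real.sqrt (2 + Real.sqrt 2) ^ n) := by
    have h4 : ((SawNu.saw (fun (i : ℕ) (a : Fin 3) =>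
      (-1 : ℂ) ^ i * Complex.exp (2 * (Real.pi : ℂ) * Complex.I * ((a : ℕ) : ℂ) / 3)) n).card : ℝ) ≤
        36 * (cS n : ℝ) := by
      have h5 := (tl_saw hf hn).trans (Nat.mul_le_mul_left 36 (NW_le_cS n))
      exact_mod_cast h5
    refine h4.trans (mul_le_mul_of_nonneg_left ?_ (by norm_num))
    have h5 := hcS n
    have h6 : Real.sqrt (2 + Real.sqrt 2) = xc⁻¹ := by rw [xc_eq, inv_inv]
    rw [h6, inv_pow, ← div_eq_mul_inv, le_div_iff₀ (pow_pos hxc n)]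
    exact h5
  have hexp : Real.exp (-((n : ℝ) ^ θ)) * Real.exp ((n : ℝ) ^ (θ / 2)) ≤
      Real.exp 1 * Real.exp (-((n : ℝ) ^ (θ / 2))) := by
    rw [← Real.exp_add, ← Real.exp_add]
    apply Real.exp_le_exp.2
    have h7 : (n : ℝ) ^ θ = ((n : ℝ) ^ (θ / 2)) ^ 2 := by
      rw [← Real.rpow_natCast, ← Real.rpow_mul hn0]
      congr 1
      push_cast
      ring
    rw [h7]
    nlinarith [sq_nonneg ((n : ℝ) ^ (θ / 2) - 1)]
  have hμ : 0 ≤ Real.sqrt (2 + Real.sqrt 2) ^ n := by positivity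
  calc K * Real.exp (-((n : ℝ) ^ θ)) * ((SawNu.saw (fun (i : ℕ) (a : Fin 3) =>
      (-1 : ℂ) ^ i * Complex.exp (2 * (Real.pi : ℂ) * Complex.I * ((a : ℕ) : ℂ) / 3)) n).card : ℝ)
      ≤ K * Real.exp (-((n : ℝ) ^ θ)) *
        (36 * (K2 * Real.exp ((n : ℝ) ^ (θ / 2)) * Real.sqrt (2 + Real.sqrt 2) ^ n)) :=
        mul_le_mul_of_nonneg_left h3 (by positivity)
    _ = (K * 36 * K2 * Real.sqrt (2 + Real.sqrt 2) ^ n) *
        (Real.exp (-((n : ℝ) ^ θ)) * Real.exp ((n : ℝ) ^ (θ / 2))) := by ring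
    _ ≤ (K * 36 * K2 * Real.sqrt (2 + Real.sqrt 2) ^ n) *
        (Real.exp 1 * Real.exp (-((n : ℝ) ^ (θ / 2)))) :=
        mul_le_mul_of_nonneg_left hexp (by positivity)
    _ = K * (36 * (K2 * Real.exp 1)) * Real.exp (-((n : ℝ) ^ (θ / 2))) * Real.sqrt (2 + Real.sqrt 2) ^ n := by
        ring

end RP

end HexObs
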