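import Pool.Agent.RSWP.DefsL

/-!
RSWP P1: pairs of disjoint bridges from adjacent feet, the right one ends in a fixed window.
-/

set_option autoImplicit false

namespace HexObs

namespace RP

namespace Window

open Complex Finset ENNReal Ex

/-- pairs, the right one ends in W. -/
noncomputable def Y (T : ℕ) (W : Set Pt) : ℝ≥0∞ := P2E (St T) oo up 0 Set.univ 1 W ∅

/-- ... together with an arc. -/
noncomputable def A3 (T : ℕ) (W : Set Pt) (i j : ℤ) : ℝ≥0∞ :=
  Q2E (St T) oo up 0 Set.univ 1 W (fun Z => Arc (St T) Z (foot oo up i) up (foot oo up j)) ∅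

/-- ... together with a walk landing on the left. -/
noncomputable def Ain (T : ℕ) (W : Set Pt) (d : ℕ) : ℝ≥0∞ :=
  Q2E (St T) oo up 0 Set.univ 1 W (fun Z => DnL (St T) Z (foot oo up (1 + d)) up) ∅

/-- ... together with a walk landing on the right. -/
noncomputable def Aout (T : ℕ) (W : Set Pt) (d : ℕ) : ℝ≥0∞ :=
  Q2E (St T) oo up 0 Set.univ 1 W (fun Z => DnR (St T) Z (foot oo up (1 + d)) up) ∅

lemma Y_ne_top {T : ℕ} (hT : 1 ≤ T) (W : Set Pt) : Y T W ≠ ∞ := P2E_ne_top hT 0 1 _ _ _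

theorem Ain_eq {T d : ℕ} (hT : 1 ≤ T) (W : Set Pt) :
    Ain T W d = ∑ j ∈ Finset.Ioo (1 : ℤ) (1 + d), A3 T W (1 + d) j := by
  have e1 : Ain T W d = Q2E (St T) oo up 0 Set.univ 1 W
      (fun Z => ⋃ j : (Finset.Ioo (1 : ℤ) (1 + d) : Finset ℤ),
      Arc (St T) Z (foot oo up (1 + d)) up (foot oo up (j : ℤ))) ∅ := by
    unfold Ain
    apply Q2E_congr
    intro Y s hs
    congr 1
    ext t
    rw [Set.mem_iUnion]
    constructor
    · rintro ⟨h1, h2⟩
      obtain ⟨b, hb, hside⟩ := dn_br_side K1.up_dirs hT h1 hs Set.subset_union_right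
      rw [hb, cross_foot K1.up_dirs] at h2
      refine ⟨⟨b, ?_⟩, h1, hb⟩
      rw [Finset.mem_Ioo]
      omega
    · rintro ⟨⟨j, hj⟩, h1, h2⟩
      refine ⟨h1, ?_⟩
      rw [Finset.mem_Ioo] at hj
      rw [h2, cross_foot K1.up_dirs]
      simp only
      omega
  rw [e1, Q2E_iUnion (D := fun (j : (Finset.Ioo (1 : ℤ) (1 + d) : Finset ℤ)) Z =>
      Arc (St T) Z (foot oo up (1 + d)) up (foot oo up (j : ℤ)))]
  · rw [tsum_fintype]
    exact Finset.sum_coe_sort (Finset.Ioo (1 : ℤ) (1 + d)) (fun j => A3 T W (1 + d) j)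
  · intro Z i j t hi hj
    exact Subtype.ext (K1.arc_unique hi hj)

theorem Aout_eq {T d : ℕ} (W : Set Pt) :
    Aout T W d = ∑' k : ℕ, A3 T W (1 + d) (1 + d + 1 + k) := by
  have e1 : Aout T W d = Q2E (St T) oo up 0 Set.univ 1 W (fun Z => ⋃ k : ℕ,
      Arc (St T) Z (foot oo up (1 + d)) up (foot oo up (1 + d + 1 + k))) ∅ := by
    unfold Aout
    apply Q2E_congr
    intro Y s hs
    congr 1
    ext t
    rw [Set.mem_iUnion]
    constructor
    · rintro ⟨h1, h2⟩
      obtain ⟨b, hb⟩ := dn_tip_foot K1.up_dirs h1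
      rw [hb, cross_foot K1.up_dirs] at h2
      refine ⟨(b - (1 + d + 1)).toNat, h1, ?_⟩
      rw [hb]
      congr 1
      omega
    · rintro ⟨k, h1, h2⟩
      refine ⟨h1, ?_⟩
      rw [h2, cross_foot K1.up_dirs]
      omega
  rw [e1, Q2E_iUnion (D := fun (k : ℕ) Z => Arc (St T) Z (foot oo up (1 + d)) up (foot oo up (1 + d + 1 + k)))]
  · rfl
  · intro Z i j t hi hj
    have := K1.arc_unique hi hj
    omega

theorem A3_symm (T : ℕ) (W : Set Pt) (i j : ℤ) : A3 T W i j = A3 T W j i := by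
  have h : ∀ Z : Set Pt, gf (Arc (St T) Z (foot oo up i) up (foot oo up j)) =
      gf (Arc (St T) Z (foot oo up j) up (foot oo up i)) := by
    intro Z
    rw [k2_arc, k2_arc]
    have h1 := gf_rev (Ω := St T \ Z) (v0 := foot oo up i) (d0 := up) (w := foot oo up j) (e := -up)
      (fun h => k2_foot_notMem T i h.1) (fun h => k2_foot_notMem T j h.1)
    rwa [neg_neg] at h1
  unfold A3 Q2E
  simp only [h]

lemma Q2E_le_mul {T : ℕ} {W : Set Pt} {D : Set Pt → Set (List Bool)} {c : ℝ≥0∞} (hD : ∀ Z, gf (D Z) ≤ c) :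
    Q2E (St T) oo up 0 Set.univ 1 W D ∅ ≤ Y T W * c := by
  unfold Q2E Y P2E
  have h3 := overE_mono (Ω := St T) (v := foot oo up 0) (d0 := up) (le_refl Set.univ)
    (F := fun Y => overE (St T) (foot oo up 1) up W (fun Z => gf (D Z)) Y)
    (G := fun Y => c * gf (BrE (St T) Y (foot oo up 1) up W)) (fun Y => overE_le hD (le_refl _)) ∅
  refine h3.trans (le_of_eq ?_)
  rw [overE_const_mul, mul_comm]

theorem A3_le (T : ℕ) (W : Set Pt) (i j : ℤ) (k : ℕ) (hk : (k : ℤ) = |j - i|) :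
    A3 T W i j ≤ Y T W * GG T k := by
  apply Q2E_le_mul
  intro Z
  rw [← k3_gf T i j k hk]
  apply gf_mono
  rintro t ⟨ht, ht'⟩
  exact ⟨dn_anti (Set.empty_subset Z) ht, ht'⟩

/-- THE SUM over the distance, fixed window. -/
theorem ineqW {T : ℕ} (hT : 1 ≤ T) (W : Set Pt) (D : ℕ) :
    (1 - 1 / Real.sqrt 2) * ((Y T W).toReal * ∑ d ∈ Finset.range D, (tail T (d + 1)).toReal) ≤
      Real.sin (3 * Real.pi / 8) * ∑ d ∈ Finset.range D,
        ((P2E (St T) oo up 0 Set.univ (1 + ((d + 1 : ℕ) : ℤ)) W ∅).toReal -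
          (P2E (St T) oo up 1 Set.univ (1 + ((d + 1 : ℕ) : ℤ)) W ∅).toReal) := by
  -- finiteness
  have hid := BT_add_AT hT
  rw [cos38] at hid
  have hs := sin8_pos
  have hBTtop : BT T ≠ ∞ := BT_ne_top hT
  have hATtop : AT T ≠ ∞ := AT_ne_top hT
  have harcs : AT T = 2 * ∑' k : ℕ, GG T (k + 1) := arcs_total hT
  set a : ℝ≥0∞ := ∑' k : ℕ, GG T (k + 1) with ha
  have hatop : a ≠ ∞ := by
    intro h
    rw [h, ENNReal.mul_top (by norm_num)] at harcs
    exact hATtop harcs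
  have htail : ∀ d, tail T (d + 1) ≠ ∞ := by
    intro d
    have h := head_add_tail T d
    exact ne_top_of_le_ne_top hatop (by rw [ha, ← h]; exact le_add_self)
  -- the kernel
  set P : ℝ≥0∞ := Y T W with hP
  have hPtop : P ≠ ∞ := Y_ne_top hT _
  set K : ℕ → ℕ → ℝ≥0∞ := fun x y => A3 T W (2 + (x : ℤ)) (2 + (y : ℤ)) with hK
  have hKsym : ∀ x y, K x y = K y x := fun x y => A3_symm _ _ _ _
  set In : ℕ → ℝ≥0∞ := fun d => Ain T W (d + 1) with hIn
  set Out : ℕ → ℝ≥0∞ := fun d => Aout T W (d + 1) with hOut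
  have hin : ∀ d, In d = ∑ y ∈ range d, K d y := by
    intro d
    simp only [hIn]
    rw [Ain_eq hT, sum_Ioo_int]
    apply Finset.sum_congr rfl
    intro y _
    show A3 T W (1 + ((d + 1 : ℕ) : ℤ)) (2 + (y : ℤ)) = A3 T W (2 + (d : ℤ)) (2 + (y : ℤ))
    congr 1
    push_cast
    ring
  have hout : ∀ d, Out d = ∑' k : ℕ, K d (d + 1 + k) := by
    intro d
    simp only [hOut]
    rw [Aout_eq]
    apply tsum_congr
    intro k
    show A3 T W (1 + ((d + 1 : ℕ) : ℤ)) (1 + ((d + 1 : ℕ) : ℤ) + 1 + k) =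
      A3 T W (2 + (d : ℤ)) (2 + ((d + 1 + k : ℕ) : ℤ))
    congr 1
    · push_cast
      ring
    · push_cast
      ring
  have hKle : ∀ x y, y < x → K x y ≤ P * GG T (x - y) := by
    intro x y hxy
    apply A3_le
    have : (2 + (y : ℤ)) - (2 + (x : ℤ)) = -((x : ℤ) - y) := by ring
    rw [this, abs_neg, abs_of_nonneg (by omega)]
    omega
  -- finiteness of the arcs
  have hKout : ∀ d, Out d ≤ P * a := by
    intro d
    rw [hout d, ha, ← ENNReal.tsum_mul_left]
    apply ENNReal.tsum_le_tsum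
    intro k
    rw [hKsym]
    have := hKle (d + 1 + k) d (by omega)
    have e : d + 1 + k - d = k + 1 := by omega
    rwa [e] at this
  have hKin : ∀ d, In d + P * tail T (d + 1) ≤ P * a := by
    intro d
    have h1 : In d ≤ P * ∑ y ∈ range d, GG T (y + 1) := by
      rw [hin d, Finset.mul_sum, ← Finset.sum_range_reflect (fun y => P * GG T (y + 1)) d]
      apply Finset.sum_le_sum
      intro y hy
      rw [Finset.mem_range] at hy
      have := hKle d y hy
      have e : d - 1 - y + 1 = d - y := by omega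
      rw [e]
      exact this
    calc In d + P * tail T (d + 1) ≤ P * ∑ y ∈ range d, GG T (y + 1) + P * tail T (d + 1) := by gcongr
      _ = P * a := by rw [← mul_add, head_add_tail, ha]
  have hPa : P * a ≠ ∞ := ENNReal.mul_ne_top hPtop hatop
  have hintop : ∀ d, In d ≠ ∞ := fun d => ne_top_of_le_ne_top hPa (le_trans le_self_add (hKin d))
  have houttop : ∀ d, Out d ≠ ∞ := fun d => ne_top_of_le_ne_top hPa (hKout d)
  -- the sums
  have hS : ∑ d ∈ range D, In d ≤ ∑ d ∈ range D, Out d := by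
    calc ∑ d ∈ range D, In d = ∑ d ∈ range D, ∑ y ∈ range d, K d y :=
          Finset.sum_congr rfl (fun d _ => hin d)
      _ = ∑ d ∈ range D, ∑ y ∈ Finset.Ico (d + 1) D, K d y := kernel_swap K hKsym D
      _ ≤ ∑ d ∈ range D, Out d := by
          apply Finset.sum_le_sum
          intro d _
          rw [hout d, Finset.sum_Ico_eq_sum_range]
          exact ENNReal.sum_le_tsum _
  -- passage to the reals
  set u : ℝ := (BT T).toReal with hu
  set ar : ℝ := a.toReal with har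
  set s : ℝ := Real.sin (Real.pi / 8) with hsdef
  have hu_eq : u + s * (2 * ar) = 1 := by
    have h1 : (BT T + ENNReal.ofReal s * AT T).toReal = (1 : ℝ≥0∞).toReal := by rw [hid]
    rw [ENNReal.toReal_add hBTtop (ENNReal.mul_ne_top ENNReal.ofReal_ne_top hATtop),
      ENNReal.toReal_mul, ENNReal.toReal_ofReal hs.le, harcs, ENNReal.toReal_mul,
      ENNReal.toReal_one] at h1
    simpa using h1
  have hPi3r : ∀ d : ℕ, (Q2E (St T) oo up 0 Set.univ 1 W
      (fun Z => BrE (St T) Z (foot oo up (1 + ((d + 1 : ℕ) : ℤ))) up Set.univ) ∅).toReal ≤ P.toReal * u := by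
    intro d
    rw [hu, ← ENNReal.toReal_mul]
    exact ENNReal.toReal_mono (ENNReal.mul_ne_top hPtop hBTtop) (Q2E_le_mul (fun _ => gf_BrE_le _ _ _))
  have hinr : ∀ d, (In d).toReal + P.toReal * (tail T (d + 1)).toReal ≤ P.toReal * ar := by
    intro d
    rw [har, ← ENNReal.toReal_mul, ← ENNReal.toReal_mul,
      ← ENNReal.toReal_add (hintop d) (ENNReal.mul_ne_top hPtop (htail d))]
    exact ENNReal.toReal_mono hPa (hKin d)
  have hSr : ∑ d ∈ range D, (In d).toReal ≤ ∑ d ∈ range D, (Out d).toReal := by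
    rw [← ENNReal.toReal_sum (fun d _ => hintop d), ← ENNReal.toReal_sum (fun d _ => houttop d)]
    exact ENNReal.toReal_mono (ENNReal.sum_ne_top.2 (fun d _ => houttop d)) hS
  -- the final computation
  set SI : ℝ := ∑ d ∈ range D, (In d).toReal with hSI
  set SO : ℝ := ∑ d ∈ range D, (Out d).toReal with hSO
  set ST : ℝ := P.toReal * ∑ d ∈ range D, (tail T (d + 1)).toReal with hST
  set SP : ℝ := D * P.toReal with hSP
  have hI : SI + ST ≤ SP * ar := by
    have h0 : ∑ d ∈ range D, ((In d).toReal + P.toReal * (tail T (d + 1)).toReal) ≤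
        ∑ _d ∈ range D, P.toReal * ar := Finset.sum_le_sum (fun d _ => hinr d)
    rw [Finset.sum_add_distrib, ← Finset.mul_sum, Finset.sum_const, Finset.card_range, nsmul_eq_mul,
      ← mul_assoc] at h0
    exact h0
  have hsum : s * (SP - SP * u) - SI + SO / Real.sqrt 2 ≤
      Real.sin (3 * Real.pi / 8) * ∑ d ∈ Finset.range D,
        ((P2E (St T) oo up 0 Set.univ (1 + ((d + 1 : ℕ) : ℤ)) W ∅).toReal -
          (P2E (St T) oo up 1 Set.univ (1 + ((d + 1 : ℕ) : ℤ)) W ∅).toReal) := by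
    have h1 : ∑ d ∈ range D, (s * (P.toReal - P.toReal * u) - (In d).toReal +
        (Out d).toReal / Real.sqrt 2) ≤ ∑ d ∈ range D, Real.sin (3 * Real.pi / 8) *
          ((P2E (St T) oo up 0 Set.univ (1 + ((d + 1 : ℕ) : ℤ)) W ∅).toReal -
          (P2E (St T) oo up 1 Set.univ (1 + ((d + 1 : ℕ) : ℤ)) W ∅).toReal) := by
      apply Finset.sum_le_sum
      intro d _
      have h2 := T3F hT (d := d + 1) (by omega) W
      have e4 : (Ain T W (d + 1)).toReal = (In d).toReal := rfl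
      have e5 : (Aout T W (d + 1)).toReal = (Out d).toReal := rfl
      have e6 : (Y T W).toReal = P.toReal := rfl
      unfold Ain at e4
      unfold Aout at e5
      unfold Y at e6
      rw [e4, e5, e6] at h2
      have h4 := mul_le_mul_of_nonneg_left (hPi3r d) hs.le
      refine le_trans ?_ h2
      rw [mul_sub, mul_sub]
      linarith
    rw [← Finset.mul_sum, Finset.sum_add_distrib, Finset.sum_sub_distrib, ← Finset.sum_div, Finset.sum_const,
      Finset.card_range, nsmul_eq_mul] at h1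
    refine le_trans (le_of_eq ?_) h1
    rw [hSP]
    ring
  refine le_trans ?_ hsum
  have hsq : 0 < Real.sqrt 2 := by positivity
  have hc := one_sub_inv_sqrt
  rw [← hsdef] at hc
  have hdiv : SI / Real.sqrt 2 ≤ SO / Real.sqrt 2 := by gcongr
  have e1 : SI / Real.sqrt 2 = SI * (1 / Real.sqrt 2) := by ring
  have e2 : 1 / Real.sqrt 2 = 1 - 2 * s ^ 2 := by linarith
  rw [e1, e2] at hdiv
  rw [hc]
  have h5 : 2 * s ^ 2 * (SI + ST) ≤ 2 * s ^ 2 * (SP * ar) :=
    mul_le_mul_of_nonneg_left hI (by positivity)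
  have h6 : 2 * s ^ 2 * (SP * ar) = s * (SP - SP * u) := by
    have : 1 - u = s * (2 * ar) := by linarith
    have h7 : SP - SP * u = SP * (s * (2 * ar)) := by rw [← this]; ring
    rw [h7]
    ring
  nlinarith

/-! the windows -/

lemma col_trans (k a b : ℤ) : (fun p : Pt => p + k • hz up) ⁻¹' (col a b) = col (a - 2 * k) (b - 2 * k) := by
  ext p
  unfold col
  have h : hz up = (2, -1) := by decide
  simp only [Set.mem_preimage, Set.mem_ofPred_eq, h, Prod.fst_add, Prod.smul_fst, smul_eq_mul]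
  constructor <;> rintro ⟨h1, h2⟩ <;> constructor <;> linarith

/-- bridges that end in a window. -/
theorem gf_col : ∃ C : ℝ, 0 < C ∧ ∀ (T n : ℕ) (k a : ℤ), 1 ≤ T →
    (gf (BrE (St T) ∅ (foot oo up k) up (col a (a + n)))).toReal ≤ n * (C * (uu T / T)) := by
  obtain ⟨C, hC, h⟩ := anti_end
  refine ⟨C, hC, fun T n k a hT => ?_⟩
  have hu := uu_pos T
  have hT' : (0 : ℝ) < T := by exact_mod_cast hT
  have h0 : 0 ≤ C * (uu T / T) := by positivity
  have e1 := gf_BrE_trans T 0 k (col a (a + n))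
  rw [zero_add, col_trans] at e1
  have e2 : (col (a - 2 * k) (a + n - 2 * k) : Set Pt) = {w | w.1 ∈ Set.Ioc (a - 2 * k) (a + n - 2 * k)} := rfl
  rw [e1, e2, brE_Brd]
  have h1 : {t : List Bool | t ∈ Brd T ∧ latE t ∈ Set.Ioc (a - 2 * k) (a + n - 2 * k)} ⊆
      ⋃ i ∈ Finset.range n, {t : List Bool | t ∈ Brd T ∧ latE t = a - 2 * k + 1 + i} := by
    rintro t ⟨ht, h2, h3⟩
    simp only [Set.mem_iUnion]
    refine ⟨(latE t - (a - 2 * k + 1)).toNat, ?_, ht, ?_⟩
    · rw [Finset.mem_range]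
      omega
    · omega
  have h2 : gf {t : List Bool | t ∈ Brd T ∧ latE t ∈ Set.Ioc (a - 2 * k) (a + n - 2 * k)} ≤
      ENNReal.ofReal (n * (C * (uu T / T))) := by
    calc gf {t : List Bool | t ∈ Brd T ∧ latE t ∈ Set.Ioc (a - 2 * k) (a + n - 2 * k)}
        ≤ gf (⋃ i ∈ Finset.range n, {t : List Bool | t ∈ Brd T ∧ latE t = a - 2 * k + 1 + i}) := gf_mono h1
      _ ≤ ∑ i ∈ Finset.range n, gf {t : List Bool | t ∈ Brd T ∧ latE t = a - 2 * k + 1 + i} :=
          ENNReal.tsum_biUnion_le wE _ _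
      _ ≤ ∑ _i ∈ Finset.range n, ENNReal.ofReal (C * (uu T / T)) :=
          Finset.sum_le_sum (fun i _ => h T hT _)
      _ = ENNReal.ofReal (n * (C * (uu T / T))) := by
          rw [Finset.sum_const, Finset.card_range, nsmul_eq_mul, ENNReal.ofReal_mul (Nat.cast_nonneg n),
            ENNReal.ofReal_natCast]
  have h3 := ENNReal.toReal_mono ENNReal.ofReal_ne_top h2
  rwa [ENNReal.toReal_ofReal (by positivity)] at h3

theorem FF_col : ∃ C : ℝ, 0 < C ∧ ∀ (T n : ℕ) (k a : ℤ), 1 ≤ T →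
    FF T k (col a (a + n)) ≤ n * (C * (uu T ^ 2 / T)) := by
  obtain ⟨C, hC, h⟩ := gf_col
  refine ⟨C, hC, fun T n k a hT => ?_⟩
  have h1 := P2E_le_prod T 0 k (col a (a + n))
  have h2 : FF T k (col a (a + n)) ≤ (gf (BrE (St T) ∅ (foot oo up k) up (col a (a + n)))).toReal * uu T := by
    unfold FF uu
    rw [← ENNReal.toReal_mul]
    exact ENNReal.toReal_mono (ENNReal.mul_ne_top (gf_BrE_ne_top hT _ _ _) (BT_ne_top hT)) h1
  refine h2.trans ((mul_le_mul_of_nonneg_right (h T n k a hT) (uu_pos T).le).trans (le_of_eq ?_))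
  ring

lemma overE_add (Ω : Set Pt) (v d0 : Pt) (W : Set Pt) (F G : Set Pt → ℝ≥0∞) (X : Set Pt) :
    overE Ω v d0 W (fun Y => F Y + G Y) X = overE Ω v d0 W F X + overE Ω v d0 W G X := by
  unfold overE
  rw [← ENNReal.tsum_add]
  apply tsum_congr
  intro s
  by_cases hs : s ∈ BrE Ω X v d0 W
  · rw [Set.indicator_of_mem hs, Set.indicator_of_mem hs, Set.indicator_of_mem hs, mul_add]
  · rw [Set.indicator_of_notMem hs, Set.indicator_of_notMem hs, Set.indicator_of_notMem hs, add_zero]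

lemma FF_union {T : ℕ} (hT : 1 ≤ T) (k : ℤ) {W W1 W2 : Set Pt} (h : W ⊆ W1 ∪ W2) :
    FF T k W ≤ FF T k W1 + FF T k W2 := by
  unfold FF
  rw [← ENNReal.toReal_add (P2E_ne_top hT _ _ _ _ _) (P2E_ne_top hT _ _ _ _ _)]
  apply ENNReal.toReal_mono (ENNReal.add_ne_top.2 ⟨P2E_ne_top hT _ _ _ _ _, P2E_ne_top hT _ _ _ _ _⟩)
  unfold P2E
  rw [← overE_add]
  apply overE_mono (le_refl _)
  intro X
  refine (gf_mono ?_).trans (gf_union_le _ _)
  rintro t ⟨h1, h2⟩
  rcases h h2 with h3 | h3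
  · exact Or.inl ⟨h1, h3⟩
  · exact Or.inr ⟨h1, h3⟩

lemma FF_shift (T : ℕ) (d : ℕ) (a b : ℤ) :
    (P2E (St T) oo up 1 Set.univ (1 + ((d + 1 : ℕ) : ℤ)) (col a b) ∅).toReal =
      FF T (1 + d) (col (a - 2) (b - 2)) := by
  have h3 := P2E_trans T 0 (1 + (d : ℤ)) 1 Set.univ (col a b)
  rw [zero_add, col_trans, univ_trans, mul_one] at h3
  unfold FF
  have e3 : 1 + ((d + 1 : ℕ) : ℤ) = 1 + (d : ℤ) + 1 := by
    push_cast
    ring
  rw [e3, h3]

end Window

open Window Ex in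
/-- P1 (Window.lean): W47 with a fixed window of columns. -/
theorem point_window : ∃ C : ℝ, 0 < C ∧ ∀ (T Z : ℕ) (a : ℤ), 1 ≤ Z → 2 * Z ≤ T →
    FF T 1 (col a (a + Z)) ≤ C * (Z / (Z * uu (2 * Z))) * (uu T ^ 2 / T) := by
  obtain ⟨C, hC, hcol⟩ := FF_col
  have hs2 : 1 < Real.sqrt 2 := by
    rw [Real.lt_sqrt (by norm_num)]; norm_num
  have h1s : 0 < 1 - 1 / Real.sqrt 2 := by
    have : 1 / Real.sqrt 2 < 1 := by rw [div_lt_one (by linarith)]; exact hs2
    linarith
  have hc8 := W47.cos8_pos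
  obtain ⟨k0, hk0⟩ : ∃ k0 : ℝ, k0 = (1 - 1 / Real.sqrt 2) * (Real.sqrt 2 - 1) := ⟨_, rfl⟩
  have hk0p : 0 < k0 := by
    rw [hk0]
    exact mul_pos h1s (by linarith)
  refine ⟨2 * Real.cos (Real.pi / 8) ^ 2 * (3 * C) / k0, by positivity, fun T Z a hZ hZT => ?_⟩
  have hT : 1 ≤ T := by omega
  have hT' : (0 : ℝ) < T := by exact_mod_cast hT
  have hZ' : (0 : ℝ) < Z := by exact_mod_cast hZ
  have huT := uu_pos T
  have huZ := uu_pos (2 * Z)
  obtain ⟨W, hW⟩ : ∃ W, W = col a (a + Z) := ⟨_, rfl⟩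
  rw [← hW]
  have hA := ineqW hT W Z
  have hB := ineqB hT Z
  set S := ∑ r ∈ Finset.range Z, (sc T (r + 1)).toReal with hS
  set TL := ∑ r ∈ Finset.range Z, (tail T (r + 1)).toReal with hTL
  obtain ⟨R, hR⟩ : ∃ R, R = FF T 1 W := ⟨_, rfl⟩
  have hRY : (Y T W).toReal = R := by rw [hR]; rfl
  have hR0 : 0 ≤ R := by rw [hR]; exact ENNReal.toReal_nonneg
  rw [hRY] at hA
  rw [← hR]
  -- the right hand side
  obtain ⟨v, hv⟩ : ∃ v : ℝ, v = C * (uu T ^ 2 / T) := ⟨_, rfl⟩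
  have hv0 : 0 ≤ v := by rw [hv]; positivity
  have hRHS : ∑ d ∈ Finset.range Z, ((P2E (St T) oo up 0 Set.univ (1 + ((d + 1 : ℕ) : ℤ)) W ∅).toReal -
      (P2E (St T) oo up 1 Set.univ (1 + ((d + 1 : ℕ) : ℤ)) W ∅).toReal) ≤ 3 * Z * v := by
    have h1 : ∀ d ∈ Finset.range Z, (P2E (St T) oo up 0 Set.univ (1 + ((d + 1 : ℕ) : ℤ)) W ∅).toReal -
        (P2E (St T) oo up 1 Set.univ (1 + ((d + 1 : ℕ) : ℤ)) W ∅).toReal ≤
        (FF T (1 + ((d + 1 : ℕ) : ℤ)) W - FF T (1 + ((d : ℕ) : ℤ)) W) + 2 * v := by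
      intro d _
      have e1 : (P2E (St T) oo up 0 Set.univ (1 + ((d + 1 : ℕ) : ℤ)) W ∅).toReal =
        FF T (1 + ((d + 1 : ℕ) : ℤ)) W := rfl
      have e2 := FF_shift T d a (a + Z)
      rw [← hW] at e2
      rw [e1, e2]
      have h2 : W ⊆ col (a - 2) (a + Z - 2) ∪ col (a + Z - 2) (a + Z - 2 + (2 : ℕ)) := by
        intro w hw
        rw [hW] at hw
        obtain ⟨h3, h4⟩ := hw
        rcases le_or_gt w.1 (a + Z - 2) with h5 | h5
        · left
          exact ⟨by linarith, h5⟩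
        · right
          exact ⟨h5, by push_cast; linarith⟩
      have h3 := FF_union hT (1 + (d : ℤ)) h2
      have h4 := hcol T 2 (1 + (d : ℤ)) (a + Z - 2) hT
      rw [← hv] at h4
      push_cast at h3 h4 ⊢
      linarith
    have h2 := Finset.sum_le_sum h1
    rw [Finset.sum_add_distrib, Finset.sum_const, Finset.card_range, nsmul_eq_mul,
      Finset.sum_range_sub (fun d : ℕ => FF T (1 + ((d : ℕ) : ℤ)) W)] at h2
    have h3 : 0 ≤ FF T (1 + ((0 : ℕ) : ℤ)) W := ENNReal.toReal_nonneg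
    have h4 := hcol T Z (1 + ((Z : ℕ) : ℤ)) a hT
    rw [← hW, ← hv] at h4
    linarith
  rw [W47.sin3] at hA
  have h3 : VT Z ≤ 2 * Real.cos (Real.pi / 8) * S := by
    rw [VT, hS, Finset.mul_sum]
    apply Finset.sum_le_sum
    intro r hr
    rw [Finset.mem_range] at hr
    exact triangle (by omega) (by omega)
  have h4 : (Z : ℝ) * uu (2 * Z) ≤ VT Z := Ex.VT_ge hZ
  have h5 : k0 * (R * S) ≤ Real.cos (Real.pi / 8) * (3 * Z * v) := by
    calc k0 * (R * S) = (1 - 1 / Real.sqrt 2) * (R * ((Real.sqrt 2 - 1) * S)) := by rw [hk0]; ring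
      _ ≤ (1 - 1 / Real.sqrt 2) * (R * TL) :=
          mul_le_mul_of_nonneg_left (mul_le_mul_of_nonneg_left hB hR0) h1s.le
      _ ≤ _ := hA
      _ ≤ Real.cos (Real.pi / 8) * (3 * Z * v) := mul_le_mul_of_nonneg_left hRHS hc8.le
  have h6 : k0 * (R * (Z * uu (2 * Z))) ≤ 2 * Real.cos (Real.pi / 8) * (Real.cos (Real.pi / 8) * (3 * Z * v)) := by
    calc k0 * (R * (Z * uu (2 * Z))) ≤ k0 * (R * (2 * Real.cos (Real.pi / 8) * S)) :=
          mul_le_mul_of_nonneg_left (mul_le_mul_of_nonneg_left (h4.trans h3) hR0) hk0p.le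
      _ = 2 * Real.cos (Real.pi / 8) * (k0 * (R * S)) := by ring
      _ ≤ _ := mul_le_mul_of_nonneg_left h5 (by positivity)
  have h7 : R ≤ 2 * Real.cos (Real.pi / 8) * (Real.cos (Real.pi / 8) * (3 * Z * v)) / (k0 * (Z * uu (2 * Z))) := by
    rw [le_div_iff₀ (by positivity)]
    calc R * (k0 * (Z * uu (2 * Z))) = k0 * (R * (Z * uu (2 * Z))) := by ring
      _ ≤ _ := h6
  refine h7.trans (le_of_eq ?_)
  rw [hv]
  field_simp

end RP

end HexObs
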